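import Pool.Agent.N633.HB.Stm2

/-!
Project HB (MP_9bc296_ag): the case `e = t - 3`.
-/

set_option autoImplicit false

namespace Pool.Agent.N633.HB.B

open Finset
open Pool.Agent.N186.HK (pm vm pm_nil pm_cons)
open Pool.Agent.R831.PermIdeal (permIdeal)
open Pool.Agent.N729.HP (pd Sub hk)

section perm

variable {D : Type*} [CommRing D]

theorem pm_one (x : ℕ → D) (a r : ℕ) : pm x {a} [r] = x (a + r) := by
  rw [pm_cons, Finset.sum_singleton, pm_nil, mul_one]

theorem pm_two (x : ℕ → D) {a b : ℕ} (hab : a ≠ b) (r s : ℕ) :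
    pm x {a, b} [r, s] = x (a + r) * x (b + s) + x (b + r) * x (a + s) := by
  have e1 : ({a, b} : Finset ℕ).erase a = {b} := by
    ext z; simp only [mem_erase, mem_insert, mem_singleton]; omega
  have e2 : ({a, b} : Finset ℕ).erase b = {a} := by
    ext z; simp only [mem_erase, mem_insert, mem_singleton]; omega
  rw [pm_cons, Finset.sum_pair hab, e1, e2, pm_one, pm_one]

theorem pm_three (x : ℕ → D) {a b c : ℕ} (hab : a ≠ b) (hac : a ≠ c) (hbc : b ≠ c)
    (r s u : ℕ) :
    pm x {a, b, c} [r, s, u] =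
      x (a + r) * (x (b + s) * x (c + u) + x (c + s) * x (b + u)) +
      x (b + r) * (x (a + s) * x (c + u) + x (c + s) * x (a + u)) +
      x (c + r) * (x (a + s) * x (b + u) + x (b + s) * x (a + u)) := by
  have e1 : ({a, b, c} : Finset ℕ).erase a = {b, c} := by
    ext z; simp only [mem_erase, mem_insert, mem_singleton]; omega
  have e2 : ({a, b, c} : Finset ℕ).erase b = {a, c} := by
    ext z; simp only [mem_erase, mem_insert, mem_singleton]; omega
  have e3 : ({a, b, c} : Finset ℕ).erase c = {a, b} := by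
    ext z; simp only [mem_erase, mem_insert, mem_singleton]; omega
  have ha : a ∉ ({b, c} : Finset ℕ) := by simp [hab, hac]
  rw [pm_cons, Finset.sum_insert ha, Finset.sum_pair hbc, e1, e2, e3, pm_two x hbc,
    pm_two x hac, pm_two x hab]
  ring

end perm

section

variable {k : Type*} [Field k]

theorem q_zero (d v : ℕ) (h0 : v ≠ 0) (h1 : v ≠ d) (h2 : v + 1 ≠ 2 * d) (h3 : v ≠ 2 * d)
    (h4 : v + 2 ≠ 3 * d) : qB k d v = 0 := by
  unfold qB
  rw [if_neg h0, if_neg h1, if_neg h2, if_neg h3, if_neg h4]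

theorem q_0 (d : ℕ) : qB k d 0 = 1 := by
  unfold qB
  rw [if_pos rfl]

theorem q_d (d v : ℕ) (hv : v = d) : qB k d v = 1 := by
  unfold qB
  rw [if_pos hv]
  split_ifs <;> rfl

theorem q_2 (d v : ℕ) (hv : v + 1 = 2 * d) : qB k d v = 1 := by
  unfold qB
  rw [if_pos hv]
  split_ifs <;> rfl

theorem q_3 (d v : ℕ) (hd : 7 ≤ d) (hv : v = 2 * d) : qB k d v = -1 := by
  unfold qB
  rw [if_neg (by omega), if_neg (by omega), if_neg (by omega), if_pos hv]

theorem q_4 (d v : ℕ) (hd : 7 ≤ d) (hv : v + 2 = 3 * d) : qB k d v = -1 := by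
  unfold qB
  rw [if_neg (by omega), if_neg (by omega), if_neg (by omega), if_neg (by omega), if_pos hv]

/-- the four columns -/
def J0 (d : ℕ) : Finset ℕ := {0, d - 1, d, 2 * d - 2}

theorem mem_J0 (d j : ℕ) : j ∈ J0 d ↔ j = 0 ∨ j = d - 1 ∨ j = d ∨ j = 2 * d - 2 := by
  simp [J0]

theorem card_J0 (d : ℕ) (hd : 7 ≤ d) : (J0 d).card = 4 := by
  unfold J0
  rw [card_insert_of_notMem, card_insert_of_notMem, card_insert_of_notMem, card_singleton]
  all_goals simp only [mem_insert, mem_singleton]; omega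

/-- the values of `qB` on the block -/
theorem vals (d : ℕ) (hd : 7 ≤ d) :
    (qB k d (0 + 0) = 1 ∧ qB k d (d - 1 + 0) = 0 ∧ qB k d (d + 0) = 1 ∧
      qB k d (2 * d - 2 + 0) = 0) ∧
    (qB k d (0 + 1) = 0 ∧ qB k d (d - 1 + 1) = 1 ∧ qB k d (d + 1) = 0 ∧
      qB k d (2 * d - 2 + 1) = 1) ∧
    (qB k d (0 + d) = 1 ∧ qB k d (d - 1 + d) = 1 ∧ qB k d (d + d) = -1 ∧
      qB k d (2 * d - 2 + d) = -1) := by
  refine ⟨⟨q_0 d, ?_, q_d d _ (by omega), ?_⟩, ⟨?_, q_d d _ (by omega), ?_, q_2 d _ (by omega)⟩,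
    ⟨q_d d _ (by omega), q_2 d _ (by omega), q_3 d _ hd (by omega), q_4 d _ hd (by omega)⟩⟩
  all_goals exact q_zero d _ (by omega) (by omega) (by omega) (by omega) (by omega)

theorem perm_zero (d : ℕ) (hd : 7 ≤ d) (J₁ : Finset ℕ) (hJ : J₁ ⊆ J0 d) (hc : J₁.card = 3) :
    pm (qB k d) J₁ [0, 1, d] = 0 := by
  obtain ⟨⟨a1, a2, a3, a4⟩, ⟨b1, b2, b3, b4⟩, ⟨c1, c2, c3, c4⟩⟩ := vals (k := k) d hd
  obtain ⟨z, hz, hz'⟩ : ∃ z ∈ J0 d, z ∉ J₁ := by
    by_contra hcon
    push Not at hcon
    have h1 : J0 d ⊆ J₁ := fun z hz => hcon z hz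
    have h2 := card_le_card h1
    rw [card_J0 d hd] at h2
    omega
  have h1 : J₁ = (J0 d).erase z := by
    refine eq_of_subset_of_card_le ?_ ?_
    · intro w hw
      exact mem_erase.2 ⟨fun h => hz' (h ▸ hw), hJ hw⟩
    · rw [card_erase_of_mem hz, card_J0 d hd, hc]
  rcases (mem_J0 d z).1 hz with rfl | rfl | rfl | rfl
  · have e : J₁ = {d - 1, d, 2 * d - 2} := by
      rw [h1]; ext w; simp only [mem_erase, mem_J0, mem_insert, mem_singleton]; omega
    rw [e, pm_three _ (by omega) (by omega) (by omega), a2, a3, a4, b2, b3, b4, c2, c3, c4]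
    ring
  · have e : J₁ = {0, d, 2 * d - 2} := by
      rw [h1]; ext w; simp only [mem_erase, mem_J0, mem_insert, mem_singleton]; omega
    rw [e, pm_three _ (by omega) (by omega) (by omega), a1, a3, a4, b1, b3, b4, c1, c3, c4]
    ring
  · have e : J₁ = {0, z - 1, 2 * z - 2} := by
      rw [h1]; ext w; simp only [mem_erase, mem_J0, mem_insert, mem_singleton]; omega
    rw [e, pm_three _ (by omega) (by omega) (by omega), a1, a2, a4, b1, b2, b4, c1, c2, c4]
    ring
  · have e : J₁ = {0, d - 1, d} := by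
      rw [h1]; ext w; simp only [mem_erase, mem_J0, mem_insert, mem_singleton]; omega
    rw [e, pm_three _ (by omega) (by omega) (by omega), a1, a2, a3, b1, b2, b3, c1, c2, c3]
    ring

theorem inj (h2 : (2 : k) ≠ 0) (d : ℕ) (hd : 7 ≤ d) (v : ℕ → k)
    (h : ∀ J₁ ⊆ J0 d, J₁.card + 1 = [0, 1, d].length →
      ∑ c ∈ [0, 1, d].toFinset, v c * pm (qB k d) J₁ ([0, 1, d].erase c) = 0) :
    ∀ c ∈ [0, 1, d], v c = 0 := by
  obtain ⟨⟨a1, a2, a3, a4⟩, ⟨b1, b2, b3, b4⟩, ⟨c1, c2, c3, c4⟩⟩ := vals (k := k) d hd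
  have e0 : ([0, 1, d] : List ℕ).erase 0 = [1, d] := by simp
  have e1 : ([0, 1, d] : List ℕ).erase 1 = [0, d] := by
    simp
  have e2 : ([0, 1, d] : List ℕ).erase d = [0, 1] := by
    rw [List.erase_cons_tail (by simp; omega), List.erase_cons_tail (by simp; omega)]
    simp
  have key : ∀ α β : ℕ, α ≠ β → α ∈ J0 d → β ∈ J0 d →
      v 0 * (qB k d (α + 1) * qB k d (β + d) + qB k d (β + 1) * qB k d (α + d)) +
      (v 1 * (qB k d (α + 0) * qB k d (β + d) + qB k d (β + 0) * qB k d (α + d)) +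
      v d * (qB k d (α + 0) * qB k d (β + 1) + qB k d (β + 0) * qB k d (α + 1))) = 0 := by
    intro α β hαβ hα hβ
    have h1 := h {α, β} (by
      intro w hw
      rcases mem_insert.1 hw with rfl | hw
      · exact hα
      · rw [mem_singleton.1 hw]; exact hβ) (by
      rw [card_pair hαβ]; rfl)
    have e3 : ([0, 1, d] : List ℕ).toFinset = {0, 1, d} := by
      ext w; simp
    rw [e3, sum_insert (by simp; omega), sum_pair (by omega), e0, e1, e2, pm_two _ hαβ,
      pm_two _ hαβ, pm_two _ hαβ] at h1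
    exact h1
  have k1 := key 0 (d - 1) (by omega) (by simp [mem_J0]) (by simp [mem_J0])
  have k2 := key 0 (2 * d - 2) (by omega) (by simp [mem_J0]) (by simp [mem_J0])
  have k3 := key d (d - 1) (by omega) (by simp [mem_J0]) (by simp [mem_J0])
  rw [a1, a2, b1, b2, c1, c2] at k1
  rw [a1, a4, b1, b4, c1, c4] at k2
  rw [a2, a3, b2, b3, c2, c3] at k3
  have v1 : v 1 = 0 := by
    have : (2 : k) * v 1 = 0 := by linear_combination k1 - k2
    exact (mul_eq_zero.1 this).resolve_left h2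
  have v0 : v 0 = 0 := by
    have : (2 : k) * v 0 = 0 := by linear_combination k1 - k3
    exact (mul_eq_zero.1 this).resolve_left h2
  have vd : v d = 0 := by linear_combination k1 - v0 - v1
  intro c hc
  simp only [List.mem_cons, List.not_mem_nil, or_false] at hc
  rcases hc with rfl | rfl | rfl
  · exact v0
  · exact v1
  · exact vd

theorem memR (d ρ : ℕ) (hd : 7 ≤ d) : ρ ∈ List.range' 2 (d - 2) ↔ 2 ≤ ρ ∧ ρ < d := by
  rw [List.mem_range'_1]
  omega

/-- the relations -/
theorem rel (h2 : (2 : k) ≠ 0) (hG2 : StmG2 k) (hKI : StmKI k) (d n : ℕ) (hd : 7 ≤ d)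
    (hn : n + 1 = 2 * d) :
    (∀ J L, Sub n (d + 1) (d + 1) J L → pm (qB k d) J L = 0) ∧
    ∀ y : ℕ → k, (∀ J L, Sub n (d + 1) (d + 1) J L → pd (qB k d) y J L = 0) →
      ∀ c ∈ [0, 1, d], (∀ s, 2 ≤ s → s + 3 ≤ d → y (s + c) = 0) ∧
        ∀ s, 1 ≤ s → s + 3 ≤ d → y (d + s + c) = y (s + c) - y (s + 1 + c) := by
  obtain ⟨g1, g2⟩ := hG2 n (d + 1) (qB k d) [0, 1, d] (List.range' 2 (d - 2)) (J0 d) (by
    refine (List.perm_ext_iff_of_nodup ?_ List.nodup_range).2 ?_
    · refine List.Nodup.append ?_ List.nodup_range' ?_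
      · simp; omega
      · intro w hw hw'
        rw [memR d w hd] at hw'
        simp only [List.mem_cons, List.not_mem_nil, or_false] at hw
        omega
    · intro w
      rw [List.mem_append, memR d w hd, List.mem_range]
      simp only [List.mem_cons, List.not_mem_nil, or_false]
      omega) (by
    intro j hj
    rw [mem_J0] at hj
    omega) (by
    intro c hc j hj hjJ
    rw [mem_J0] at hjJ
    simp only [List.mem_cons, List.not_mem_nil, or_false] at hc
    refine q_zero d _ ?_ ?_ ?_ ?_ ?_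
    all_goals omega) (by
    intro J₁ hJ hc
    exact perm_zero d hd J₁ hJ hc) (by
    intro v hv
    exact inj h2 d hd v hv)
  refine ⟨g1, fun y hy c hc => ?_⟩
  have g3 := g2 y hy c hc
  obtain ⟨k1, k2⟩ := hKI h2 (qB k d) (fun j => y (j + c)) (List.range' 2 (d - 2))
    (fun ρ => d - ρ) (Icc (d + 1) (2 * d - 3)) List.nodup_range' (by
    intro ρ hρ ρ' hρ'
    rw [memR d _ hd] at hρ hρ'
    split_ifs with h
    · exact q_d d _ (by omega)
    · exact q_zero d _ (by omega) (by omega) (by omega) (by omega) (by omega)) (by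
    intro ρ hρ
    rw [memR d _ hd] at hρ
    rw [mem_Icc]
    omega) (by
    intro J₂ hJ hc2
    refine g3 J₂ ?_ hc2
    intro j hj
    have h1 := hJ hj
    rw [mem_union, mem_image, mem_Icc] at h1
    rw [mem_J0]
    rcases h1 with ⟨ρ, hρ, rfl⟩ | h1
    · rw [List.mem_toFinset, memR d _ hd] at hρ
      omega
    · omega)
  constructor
  · intro s hs1 hs2
    have h1 := k2 (d - s) ((memR d _ hd).2 (by omega)) (d + s - 1) (by rw [mem_Icc]; omega)
      (d + s) (by rw [mem_Icc]; omega) (by omega)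
      (by rw [q_2 d _ (by omega)]; exact one_ne_zero)
      (by rw [q_3 d _ hd (by omega)]; exact neg_ne_zero.2 one_ne_zero)
    have e : d - (d - s) = s := by omega
    simp only [e] at h1
    exact h1
  · intro s hs1 hs2
    have h1 := k1 (d + s) (by rw [mem_Icc]; omega)
    change y (d + s + c) = _ at h1
    rw [h1]
    have h3 : ∀ ρ ∈ (List.range' 2 (d - 2)).toFinset,
        y (d - ρ + c) * qB k d (d + s + ρ) =
        (if ρ = d - 1 - s then y (s + 1 + c) else 0) + (if ρ = d - s then -y (s + c) else 0) := by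
      intro ρ hρ
      rw [List.mem_toFinset, memR d _ hd] at hρ
      by_cases e1 : ρ = d - 1 - s
      · rw [if_pos e1, if_neg (by omega), q_2 d _ (by omega), mul_one, add_zero]
        congr 1
        omega
      · rw [if_neg e1]
        by_cases e2 : ρ = d - s
        · rw [if_pos e2, q_3 d _ hd (by omega), mul_neg, mul_one, zero_add]
          congr 2
          omega
        · rw [if_neg e2, q_zero d _ (by omega) (by omega) (by omega) (by omega) (by omega),
            mul_zero, add_zero]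
    rw [sum_congr rfl h3, sum_add_distrib, sum_ite_eq', sum_ite_eq', if_pos, if_pos]
    · ring
    · rw [List.mem_toFinset, memR d _ hd]
      omega
    · rw [List.mem_toFinset, memR d _ hd]
      omega

end

theorem t (k : Type*) [Field k] (hJC : Pool.Agent.N729.HP.StmJC k) (hG2 : StmG2 k)
    (hKI : StmKI k) : StmB k := by
  intro h2 t n N h ht hn
  obtain ⟨d, rfl⟩ : ∃ d, t = d + 1 := ⟨t - 1, by omega⟩
  have hd : 7 ≤ d := by omega
  obtain ⟨r1, r2⟩ := rel h2 hG2 hKI d n hd (by omega)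
  refine hJC N n (d + 1) (d + 1) h (by omega) (by omega) le_rfl (qB k d) r1
    {0, 1, d - 1, d, 2 * d - 1, 2 * d, 3 * d - 2} ?_ ?_
  · have e1 := card_le_six (a := 1) (b := d - 1) (c := d) (d := 2 * d - 1) (e := 2 * d)
      (f := 3 * d - 2)
    have e2 := card_insert_le 0 ({1, d - 1, d, 2 * d - 1, 2 * d, 3 * d - 2} : Finset ℕ)
    omega
  · intro y hS hy v hv
    have hR := r2 y hy
    obtain ⟨p0, p1⟩ := hR 0 (by simp)
    obtain ⟨s0, s1⟩ := hR 1 (by simp)
    obtain ⟨u0, u1⟩ := hR d (by simp)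
    have z0 : y 0 = 0 := hS _ (by simp)
    have z1 : y 1 = 0 := hS _ (by simp)
    have z2 : y (d - 1) = 0 := hS _ (by simp)
    have z3 : y d = 0 := hS _ (by simp)
    have z4 : y (2 * d - 1) = 0 := hS _ (by simp)
    have z5 : y (2 * d) = 0 := hS _ (by simp)
    have z6 : y (3 * d - 2) = 0 := hS _ (by simp)
    -- the interval `[2, d - 2]`
    have w1 : ∀ s, 2 ≤ s → s + 2 ≤ d → y s = 0 := by
      intro s hs1 hs2
      by_cases hs : s + 3 ≤ d
      · exact p0 s hs1 hs
      · have := s0 (s - 1) (by omega) (by omega)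
        rwa [show s - 1 + 1 = s by omega] at this
    -- the interval `[d + 2, 2 d - 3]`
    have w2 : ∀ s, d + 2 ≤ s → s + 3 ≤ 2 * d → y s = 0 := by
      intro s hs1 hs2
      have := u0 (s - d) (by omega) (by omega)
      rwa [show s - d + d = s by omega] at this
    have w3 : y (d + 1) = 0 := by
      have := p1 1 le_rfl (by omega)
      rw [show d + 1 + 0 = d + 1 by omega, show 1 + 0 = 1 by omega,
        show 1 + 1 + 0 = 2 by omega, z1, w1 2 le_rfl (by omega)] at this
      rw [this, sub_zero]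
    have w4 : y (2 * d + 1) = 0 := by
      have := u1 1 le_rfl (by omega)
      rw [show d + 1 + d = 2 * d + 1 by omega, show 1 + d = d + 1 by omega,
        show 1 + 1 + d = d + 2 by omega, w3, w2 (d + 2) le_rfl (by omega)] at this
      rw [this, sub_zero]
    have w5 : y (2 * d - 2) = 0 := by
      have := s1 (d - 3) (by omega) (by omega)
      rw [show d + (d - 3) + 1 = 2 * d - 2 by omega, show d - 3 + 1 = d - 2 by omega,
        show d - 2 + 1 = d - 1 by omega, z2, w1 (d - 2) (by omega) (by omega)] at this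
      rw [this, sub_zero]
    have w6 : y (3 * d - 3) = 0 := by
      have := u1 (d - 3) (by omega) (by omega)
      rw [show d + (d - 3) + d = 3 * d - 3 by omega, show d - 3 + d = 2 * d - 3 by omega,
        show d - 3 + 1 + d = 2 * d - 2 by omega, w5, w2 (2 * d - 3) (by omega) (by omega)] at this
      rw [this, sub_zero]
    have w7 : ∀ s, 2 * d + 2 ≤ s → s + 4 ≤ 3 * d → y s = 0 := by
      intro s hs1 hs2
      have := u1 (s - 2 * d) (by omega) (by omega)
      rw [show d + (s - 2 * d) + d = s by omega, show s - 2 * d + d = s - d by omega,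
        show s - 2 * d + 1 + d = s - d + 1 by omega, w2 (s - d) (by omega) (by omega),
        w2 (s - d + 1) (by omega) (by omega)] at this
      rw [this, sub_zero]
    have cases : v = 0 ∨ v = 1 ∨ (2 ≤ v ∧ v + 2 ≤ d) ∨ v = d - 1 ∨ v = d ∨ v = d + 1 ∨
      (d + 2 ≤ v ∧ v + 3 ≤ 2 * d) ∨ v = 2 * d - 2 ∨ v = 2 * d - 1 ∨ v = 2 * d ∨
      v = 2 * d + 1 ∨ (2 * d + 2 ≤ v ∧ v + 4 ≤ 3 * d) ∨ v = 3 * d - 3 ∨ v = 3 * d - 2 := by
      omega
    rcases cases with h | h | h | h | h | h | h | h | h | h | h | h | h | h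
    · rw [h, z0]
    · rw [h, z1]
    · exact w1 v h.1 h.2
    · rw [h, z2]
    · rw [h, z3]
    · rw [h, w3]
    · exact w2 v h.1 h.2
    · rw [h, w5]
    · rw [h, z4]
    · rw [h, z5]
    · rw [h, w4]
    · exact w7 v h.1 h.2
    · rw [h, w6]
    · rw [h, z6]

end Pool.Agent.N633.HB.B
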