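import Pool.Agent.N633.HB.Stm

/-!
HB/BX (helper575): base change of primality to the field of rational functions.
-/

set_option autoImplicit false

namespace Pool.Agent.N633.HB.BX

open Pool.Agent.R831.PermIdeal Pool.Agent.N186.HK Pool.Agent.N729.HP Pool.Agent.N633.HB

theorem map_permanent {R S : Type*} [CommRing R] [CommRing S] (φ : R →+* S) {t : ℕ}
    (M : Matrix (Fin t) (Fin t) R) : φ M.permanent = (M.map φ).permanent := by
  unfold Matrix.permanent
  rw [map_sum]
  refine Finset.sum_congr rfl fun σ _ => ?_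
  rw [map_prod]
  rfl

theorem permIdeal_map {R S : Type*} [CommRing R] [CommRing S] (φ : R →+* S) {m n : ℕ} (t : ℕ)
    (X : Matrix (Fin m) (Fin n) R) : permIdeal t (X.map φ) = (permIdeal t X).map φ := by
  unfold permIdeal
  rw [Ideal.map_span]
  congr 1
  ext x
  constructor
  · rintro ⟨r, c, rfl⟩
    refine ⟨_, ⟨r, c, rfl⟩, ?_⟩
    rw [map_permanent]
    rfl
  · rintro ⟨_, ⟨r, c, rfl⟩, rfl⟩
    refine ⟨r, c, ?_⟩
    rw [map_permanent]
    rfl

section

variable {k : Type*} [Field k] {σ : Type*}

/-- the isomorphism with the polynomial ring in one variable -/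
noncomputable def Phi (k : Type*) [Field k] (σ : Type*) :
    MvPolynomial σ (Polynomial k) →+* Polynomial (MvPolynomial σ k) :=
  MvPolynomial.eval₂Hom (Polynomial.mapRingHom MvPolynomial.C)
    (fun i => Polynomial.C (MvPolynomial.X i))

/-- its inverse -/
noncomputable def Psi (k : Type*) [Field k] (σ : Type*) :
    Polynomial (MvPolynomial σ k) →+* MvPolynomial σ (Polynomial k) :=
  Polynomial.eval₂RingHom (MvPolynomial.map Polynomial.C) (MvPolynomial.C Polynomial.X)

theorem Psi_Phi : (Psi k σ).comp (Phi k σ) = RingHom.id _ := by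
  apply MvPolynomial.ringHom_ext'
  · apply Polynomial.ringHom_ext'
    · ext a
      simp [Psi, Phi]
    · simp [Psi, Phi]
  · intro i
    simp [Psi, Phi]

theorem Psi_C : (Psi k σ).comp Polynomial.C = MvPolynomial.map Polynomial.C := by
  ext x <;> simp [Psi]

theorem Phi_map : (Phi k σ).comp (MvPolynomial.map Polynomial.C) = Polynomial.C := by
  apply MvPolynomial.ringHom_ext'
  · ext a
    simp [Phi]
  · intro i
    simp [Phi]

theorem map_eq (P : Ideal (MvPolynomial σ k)) :
    P.map (MvPolynomial.map Polynomial.C) =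
      (P.map (Polynomial.C : MvPolynomial σ k →+* _)).comap (Phi k σ) := by
  apply le_antisymm
  · rw [Ideal.map_le_iff_le_comap]
    intro f hf
    rw [Ideal.mem_comap, Ideal.mem_comap]
    have h : Phi k σ (MvPolynomial.map Polynomial.C f) = Polynomial.C f := by
      rw [← RingHom.comp_apply, Phi_map]
    rw [h]
    exact Ideal.mem_map_of_mem _ hf
  · intro f hf
    rw [Ideal.mem_comap] at hf
    have h1 := Ideal.mem_map_of_mem (Psi k σ) hf
    rw [Ideal.map_map, Psi_C, ← RingHom.comp_apply, Psi_Phi] at h1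
    exact h1

theorem prime_A {P : Ideal (MvPolynomial σ k)} (hP : P.IsPrime) :
    (P.map (MvPolynomial.map (Polynomial.C : k →+* Polynomial k))).IsPrime := by
  rw [map_eq]
  have : (P.map (Polynomial.C : MvPolynomial σ k →+* _)).IsPrime :=
    (Ideal.isPrime_map_C_iff_isPrime P).2 hP
  exact Ideal.comap_isPrime _ _

attribute [local instance] MvPolynomial.algebraMvPolynomial

theorem prime_K {P : Ideal (MvPolynomial σ k)} (hP : P.IsPrime) :
    (P.map (MvPolynomial.map (algebraMap k (RatFunc k)))).IsPrime := by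
  have h1 : (MvPolynomial.map (algebraMap k (RatFunc k)) : MvPolynomial σ k →+* _) =
      (algebraMap (MvPolynomial σ (Polynomial k)) (MvPolynomial σ (RatFunc k))).comp
        (MvPolynomial.map Polynomial.C) := by
    apply MvPolynomial.ringHom_ext
    · intro a
      rw [RingHom.comp_apply, MvPolynomial.map_C, MvPolynomial.map_C,
        MvPolynomial.algebraMap_def, MvPolynomial.map_C]
      rfl
    · intro i
      rw [RingHom.comp_apply, MvPolynomial.map_X, MvPolynomial.map_X,
        MvPolynomial.algebraMap_def, MvPolynomial.map_X]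
  rw [h1, ← Ideal.map_map]
  refine IsLocalization.isPrime_of_isPrime_disjoint
    ((nonZeroDivisors (Polynomial k)).map (MvPolynomial.C (σ := σ))) _ _ (prime_A hP) ?_
  rw [Set.disjoint_left]
  rintro _ ⟨a, ha, rfl⟩ hmem
  have ha0 : a ≠ 0 := nonZeroDivisors.ne_zero ha
  rw [SetLike.mem_coe, map_eq, Ideal.mem_comap] at hmem
  have h2 : Phi k σ (MvPolynomial.C a) = a.map MvPolynomial.C := by
    simp [Phi]
  rw [h2, Ideal.mem_map_C_iff] at hmem
  have h3 := hmem a.natDegree
  rw [Polynomial.coeff_map] at h3
  have h4 : a.leadingCoeff ≠ 0 := Polynomial.leadingCoeff_ne_zero.2 ha0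
  apply hP.ne_top
  rw [Ideal.eq_top_iff_one]
  have h5 := P.mul_mem_left (MvPolynomial.C (a.leadingCoeff)⁻¹) h3
  rw [← map_mul, Polynomial.coeff_natDegree, inv_mul_cancel₀ h4, map_one] at h5
  exact h5

end

theorem t (k : Type*) [Field k] : StmBX k := by
  intro N n m t h hP
  have h1 : vm (RatFunc k) (hk h) =
      (vm k (hk h)).map (MvPolynomial.map (algebraMap k (RatFunc k))) := by
    ext i j
    rw [Matrix.map_apply]
    unfold vm
    rw [Matrix.of_apply, Matrix.of_apply, MvPolynomial.map_X]
  rw [h1, permIdeal_map]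
  exact prime_K hP

end Pool.Agent.N633.HB.BX
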