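import Pool.Agent.N633.HB.Stm2
import Pool.Agent.N729.HP.BA

/-!
Project HB (MP_9bc296_ag), part FCa: the small cases `(t, n) = (5, 6), (5, 7), (6, 8)`, and `(4, 5)`
in characteristic 3 (helper271).

Integer valued permanents and derivatives on lists, evaluated by the kernel.
-/

set_option autoImplicit false

namespace Pool.Agent.N633.HB.FCa

open Finset
open Pool.Agent.N186.HK (pm vm pm_nil pm_cons)
open Pool.Agent.R831.PermIdeal (permIdeal)
open Pool.Agent.N729.HP (pd Sub hk)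

/-- the permanent, for integers, on lists -/
def ipm (x : ℕ → ℤ) : List ℕ → List ℕ → ℤ
  | _, [] => 1
  | J, c :: L => (J.map fun j => if x (j + c) = 0 then 0 else x (j + c) * ipm x (J.erase j) L).sum

/-- the coefficient of `y v` in the derivative of the permanent -/
def icf (x : ℕ → ℤ) (v : ℕ) : List ℕ → List ℕ → ℤ
  | _, [] => 0
  | J, c :: L => (J.map fun j => (if j + c = v then ipm x (J.erase j) L else 0) +
      (if x (j + c) = 0 then 0 else x (j + c) * icf x v (J.erase j) L)).sum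

lemma tf_erase {J : List ℕ} (h : J.Nodup) (j : ℕ) :
    (J.erase j).toFinset = J.toFinset.erase j := by
  ext a
  simp [h.mem_erase_iff]

section

variable {D : Type*} [CommRing D]

lemma ipm_eq (x : ℕ → ℤ) (L : List ℕ) : ∀ J : List ℕ, J.Nodup →
    pm (fun v => ((x v : ℤ) : D)) J.toFinset L = ((ipm x J L : ℤ) : D) := by
  induction L with
  | nil =>
    intro J _
    rw [pm_nil, ipm, Int.cast_one]
  | cons c L ih =>
    intro J hJ
    rw [pm_cons, List.sum_toFinset _ hJ, ipm, Int.cast_list_sum, List.map_map]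
    congr 1
    refine List.map_congr_left fun j _ => ?_
    rw [← tf_erase hJ, ih _ (hJ.erase j)]
    show _ = (((if x (j + c) = 0 then 0 else x (j + c) * ipm x (J.erase j) L : ℤ)) : D)
    split_ifs with h
    · rw [h]
      simp
    · push_cast
      rfl

lemma icf_eq (x : ℕ → ℤ) (y : ℕ → D) (N : ℕ) (L : List ℕ) : ∀ J : List ℕ, J.Nodup →
    (∀ j ∈ J, ∀ c ∈ L, j + c < N) →
    pd (fun v => ((x v : ℤ) : D)) y J.toFinset L =
      ∑ v ∈ range N, ((icf x v J L : ℤ) : D) * y v := by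
  induction L with
  | nil =>
    intro J _ _
    rw [Pool.Agent.N729.HP.BA.pd_nil]
    symm
    refine sum_eq_zero fun v _ => ?_
    rw [icf, Int.cast_zero, zero_mul]
  | cons c L ih =>
    intro J hJ hN
    rw [Pool.Agent.N729.HP.BA.pd_cons]
    have h1 : ∀ v ∈ range N, ((icf x v J (c :: L) : ℤ) : D) * y v =
        ∑ j ∈ J.toFinset, ((if j + c = v then ((ipm x (J.erase j) L : ℤ) : D) else 0) * y v +
          ((x (j + c) : ℤ) : D) * (((icf x v (J.erase j) L : ℤ) : D) * y v)) := by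
      intro v _
      rw [List.sum_toFinset _ hJ, icf, Int.cast_list_sum, List.map_map, ← List.sum_map_mul_right]
      congr 1
      refine List.map_congr_left fun j _ => ?_
      show (((if j + c = v then ipm x (J.erase j) L else 0) +
        (if x (j + c) = 0 then 0 else x (j + c) * icf x v (J.erase j) L) : ℤ) : D) * y v = _
      push_cast
      by_cases h2 : x (j + c) = 0
      · rw [if_pos h2, h2]
        push_cast
        ring
      · rw [if_neg h2]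
        ring
    rw [sum_congr rfl h1, sum_comm]
    refine sum_congr rfl fun j hj => ?_
    rw [List.mem_toFinset] at hj
    rw [← tf_erase hJ, ih _ (hJ.erase j) (fun i hi d hd =>
      hN i (List.mem_of_mem_erase hi) d (List.mem_cons_of_mem _ hd)), ipm_eq _ _ _ (hJ.erase j),
      sum_add_distrib, ← mul_sum]
    congr 1
    rw [sum_eq_single (j + c)]
    · rw [if_pos rfl, mul_comm]
    · intro v _ hv
      rw [if_neg hv.symm, zero_mul]
    · intro h2
      exact absurd (mem_range.2 (hN j hj c List.mem_cons_self)) h2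

end

lemma perm_range {L : List ℕ} {t : ℕ} (h1 : L.length = t) (h2 : L.Nodup) (h3 : ∀ c ∈ L, c < t) :
    L.Perm (List.range t) := by
  have h4 : L.toFinset = (List.range t).toFinset := by
    apply eq_of_subset_of_card_le
    · intro c hc
      rw [List.mem_toFinset] at hc
      rw [List.mem_toFinset, List.mem_range]
      exact h3 c hc
    · rw [List.toFinset_card_of_nodup h2, List.toFinset_card_of_nodup List.nodup_range,
        List.length_range, h1]
  exact List.perm_of_nodup_nodup_toFinset_eq h2 List.nodup_range h4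

lemma cast_dvd {k : Type*} [Field k] {p z : ℤ} (hp : (p : k) = 0) (h : p ∣ z) : (z : k) = 0 := by
  obtain ⟨q, rfl⟩ := h
  push_cast
  rw [hp, zero_mul]

/-- the criterion with a certificate -/
theorem crit {k : Type*} [Field k] (hJC : Pool.Agent.N729.HP.StmJC k) {N n t : ℕ}
    (h : N + 1 = n + t) (ht : 2 ≤ t) (htn : t ≤ n) (x : ℕ → ℤ) (S : List ℕ) (hS : S.length < t)
    (p e : ℤ) (hp : (p : k) = 0) (he : (e : k) ≠ 0)
    (h1 : ∀ J ∈ List.sublistsLen t (List.range n), p ∣ ipm x J (List.range t))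
    (r : ℕ) (Js : ℕ → List ℕ) (C a : ℕ → ℕ → ℤ)
    (hJ : ∀ i < r, Js i ∈ List.sublistsLen t (List.range n))
    (hC : ∀ i < r, ∀ w < N, icf x w (Js i) (List.range t) = C i w)
    (hA : ∀ v < N, v ∈ S ∨ ∀ w < N, w ∈ S ∨
      p ∣ ∑ i ∈ range r, a v i * C i w - if v = w then e else 0) :
    ¬ (permIdeal t (vm k (hk h))).IsPrime := by
  refine hJC N n t t h ht htn le_rfl (fun v => ((x v : ℤ) : k)) ?_ S.toFinset
    (lt_of_le_of_lt (List.toFinset_card_le S) hS) ?_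
  · rintro J L ⟨s1, s2, s3, s4, s5⟩
    rw [Pool.Agent.N729.HP.BA.pm_perm _ (perm_range s2 s3 s5)]
    obtain ⟨l, hl⟩ : ∃ l, l = (List.range n).filter fun j => decide (j ∈ J) := ⟨_, rfl⟩
    have hlJ : l.toFinset = J := by
      rw [hl]
      ext j
      simp only [List.mem_toFinset, List.mem_filter, List.mem_range, decide_eq_true_eq]
      exact ⟨fun h => h.2, fun h => ⟨s4 j h, h⟩⟩
    have hln : l.Nodup := by
      rw [hl]
      exact List.nodup_range.filter _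
    have hll : l.length = t := by
      rw [← List.toFinset_card_of_nodup hln, hlJ, s1]
    rw [← hlJ, ipm_eq _ _ _ hln]
    refine cast_dvd hp (h1 l (List.mem_sublistsLen.2 ⟨?_, hll⟩))
    rw [hl]
    exact List.filter_sublist
  · intro y hyS hy v hv
    rcases hA v hv with hvS | hA
    · exact hyS v (List.mem_toFinset.2 hvS)
    · have hpd : ∀ i < r, ∑ w ∈ range N, ((C i w : ℤ) : k) * y w = 0 := by
        intro i hi
        obtain ⟨g1, g2⟩ := List.mem_sublistsLen.1 (hJ i hi)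
        have g3 : (Js i).Nodup := g1.nodup List.nodup_range
        have g4 : ∀ j ∈ Js i, j < n := fun j hj => List.mem_range.1 (g1.subset hj)
        have g5 := hy (Js i).toFinset (List.range t) ⟨by
          rw [List.toFinset_card_of_nodup g3, g2], List.length_range, List.nodup_range,
          fun j hj => g4 j (List.mem_toFinset.1 hj), fun c hc => List.mem_range.1 hc⟩
        rw [icf_eq x y N (List.range t) (Js i) g3 (fun j hj c hc => by
          have := g4 j hj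
          have := List.mem_range.1 hc
          omega)] at g5
        rw [← g5]
        refine sum_congr rfl fun w hw => ?_
        rw [hC i hi w (mem_range.1 hw)]
      have h2 : ∑ i ∈ range r, ((a v i : ℤ) : k) * ∑ w ∈ range N, ((C i w : ℤ) : k) * y w = 0 :=
        sum_eq_zero fun i hi => by rw [hpd i (mem_range.1 hi), mul_zero]
      have h3 : ∑ i ∈ range r, ((a v i : ℤ) : k) * ∑ w ∈ range N, ((C i w : ℤ) : k) * y w =
          ∑ w ∈ range N, ((∑ i ∈ range r, a v i * C i w : ℤ) : k) * y w := by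
        simp only [mul_sum]
        rw [sum_comm]
        refine sum_congr rfl fun w _ => ?_
        push_cast
        rw [sum_mul]
        refine sum_congr rfl fun i _ => ?_
        ring
      have h4 : ∑ w ∈ range N, ((∑ i ∈ range r, a v i * C i w : ℤ) : k) * y w = e * y v := by
        rw [sum_eq_single v]
        · rcases hA v hv with h5 | h5
          · rw [hyS v (List.mem_toFinset.2 h5), mul_zero, mul_zero]
          · rw [if_pos rfl] at h5
            have h6 := cast_dvd hp h5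
            rw [Int.cast_sub, sub_eq_zero] at h6
            rw [h6]
        · intro w hw hne
          rcases hA w (mem_range.1 hw) with h5 | h5
          · rw [hyS w (List.mem_toFinset.2 h5), mul_zero]
          · rw [if_neg (Ne.symm hne), sub_zero] at h5
            rw [cast_dvd hp h5, zero_mul]
        · intro h5
          exact absurd (mem_range.2 hv) h5
      rw [h3, h4] at h2
      exact (mul_eq_zero.1 h2).resolve_left he

/-! ### `t = 5`, `n = 6` -/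

def x56 (v : ℕ) : ℤ := ([1, 1, -1, 0, -1, -1, 1, 0, -1, -1] : List ℤ).getD v 0

def J56 (i : ℕ) : List ℕ := ([[0, 1, 2, 3, 4], [0, 1, 2, 3, 5], [0, 1, 2, 4, 5], [0, 1, 3, 4, 5],
    [0, 2, 3, 4, 5], [1, 2, 3, 4, 5]] : List (List ℕ)).getD i []

def C56 (i w : ℕ) : ℤ := (([[-1, 4, -2, -4, 8, 0, 0, 0, -3, 0], [2, 3, 6, -2, -6, 6, -2, 2, 0,
    -3], [2, 0, 8, 8, -8, 0, 0, 0, 2, 0], [0, 0, -2, 8, 6, -8, -6, 4, -2, 0], [1, 0, 0, 0, 2, 4,
    6, -4, 1, 0], [0, 1, 0, 6, 4, 6, 12, -6, 0, 3]] : List (List ℤ)).getD i []).getD w 0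

def a56 (v i : ℕ) : ℤ := (([[0, 0, 0, 0, 0, 0], [-18, 30, -12, 60, 90, -10], [8, -12, 6, -24,
    -36, 4], [0, 0, 0, 0, 0, 0], [0, 0, 0, 0, 0, 0], [4, -6, 2, -14, -20, 2], [-10, 14, -6, 28,
    38, -2], [-19, 27, -12, 52, 71, -5], [-32, 48, -20, 96, 144, -16], [0, 0, 0, 0, 0,
    0]] : List (List ℤ)).getD v []).getD i 0

lemma m56 : ∀ J ∈ List.sublistsLen 5 (List.range 6), (0 : ℤ) ∣ ipm x56 J (List.range 5) := by
  decide +kernel

lemma j56 : ∀ i < 6, J56 i ∈ List.sublistsLen 5 (List.range 6) := by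
  decide +kernel

lemma c56 : ∀ i < 6, ∀ w < 10, icf x56 w (J56 i) (List.range 5) = C56 i w := by
  decide +kernel

lemma i56 : ∀ v < 10, v ∈ ([0, 3, 4, 9] : List ℕ) ∨ ∀ w < 10, w ∈ ([0, 3, 4, 9] : List ℕ) ∨
    (0 : ℤ) ∣ ∑ i ∈ range 6, a56 v i * C56 i w - if v = w then 8 else 0 := by
  decide +kernel

/-! ### `t = 5`, `n = 7` -/

def x57 (v : ℕ) : ℤ := ([0, 1, 0, 1, 0, 0, 0, 1, 0, -1, 0] : List ℤ).getD v 0

def J57 (i : ℕ) : List ℕ := ([[0, 1, 2, 3, 4], [0, 1, 2, 3, 6], [0, 2, 3, 4, 5], [0, 3, 4, 5, 6],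
    [1, 2, 3, 4, 5], [1, 2, 3, 4, 6], [2, 3, 4, 5, 6]] : List (List ℕ)).getD i []

def C57 (i w : ℕ) : ℤ := (([[1, 0, 2, 0, 3, 0, 2, 0, 1, 0, 0], [-1, 0, -1, 0, -1, 0, 1, 0, 1, 0,
    1], [1, 0, 0, 0, 1, 0, 0, 0, 1, 0, 0], [1, 0, -1, 0, 1, 0, 1, 0, -1, 0, 1], [0, 1, 0, -2, 0,
    1, 0, 2, 0, 1, 0], [0, 0, 1, 0, 0, 0, 1, 0, 0, 0, 1], [0, 0, 1, 0, -2, 0, 3, 0, -2, 0,
    1]] : List (List ℤ)).getD i []).getD w 0

def a57 (v i : ℕ) : ℤ := (([[-1, -1, 4, 0, 0, 0, 1], [0, 0, 0, 0, 4, 0, 0], [0, -1, 0, -1, 0, 2,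
    0], [0, 0, 0, 0, 0, 0, 0], [1, 0, -2, 1, 0, 0, -1], [0, 0, 0, 0, 0, 0, 0], [1, 1, 0, 0, 0,
    -2, 1], [0, 0, 0, 0, 0, 0, 0], [0, 1, 2, -1, 0, 0, 0], [0, 0, 0, 0, 0, 0, 0], [-1, 0, 0, 1,
    0, 4, -1]] : List (List ℤ)).getD v []).getD i 0

lemma m57 : ∀ J ∈ List.sublistsLen 5 (List.range 7), (0 : ℤ) ∣ ipm x57 J (List.range 5) := by
  decide +kernel

lemma j57 : ∀ i < 7, J57 i ∈ List.sublistsLen 5 (List.range 7) := by
  decide +kernel

lemma c57 : ∀ i < 7, ∀ w < 11, icf x57 w (J57 i) (List.range 5) = C57 i w := by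
  decide +kernel

lemma i57 : ∀ v < 11, v ∈ ([3, 5, 7, 9] : List ℕ) ∨ ∀ w < 11, w ∈ ([3, 5, 7, 9] : List ℕ) ∨
    (0 : ℤ) ∣ ∑ i ∈ range 7, a57 v i * C57 i w - if v = w then 4 else 0 := by
  decide +kernel

/-! ### `t = 6`, `n = 8` -/

def x68 (v : ℕ) : ℤ := ([0, 1, 0, 1, 0, 0, 0, 0, 1, 0, 0, -1, 0] : List ℤ).getD v 0

def J68 (i : ℕ) : List ℕ := ([[0, 1, 2, 3, 5, 7], [0, 1, 2, 4, 6, 7], [0, 1, 2, 5, 6, 7], [0, 1,
    3, 4, 5, 7], [0, 1, 3, 5, 6, 7], [0, 1, 4, 5, 6, 7], [0, 2, 3, 4, 5, 6], [2, 3, 4, 5, 6,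
    7]] : List (List ℕ)).getD i []

def C68 (i w : ℕ) : ℤ := (([[-1, 0, -2, 0, -1, -2, 0, -2, 0, 0, -1, 0, 0], [0, 0, -1, 0, 0, 0, 1,
    0, 0, -2, 0, 0, 1], [1, 0, 2, 0, 1, 0, 0, 0, 0, 0, -1, 0, 0], [1, 0, 1, 0, -1, 2, -1, 2, 0,
    0, 1, 0, 1], [0, -1, 0, 2, 0, 1, -2, 0, -2, 0, 0, -1, 0], [-1, 0, -1, 0, 1, 0, 1, -2, 0, -2,
    1, 0, 1], [1, 0, 0, 0, -1, 2, 0, 0, 0, 0, 1, 0, 0], [0, 0, 1, 0, -2, 0, 1, 2, 0, -2, 0, 0,
    1]] : List (List ℤ)).getD i []).getD w 0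

def a68 (v i : ℕ) : ℤ := (([[1, 3, 2, 0, 0, -2, 1, -1], [3, -1, 1, 8, -4, 3, -3, -2], [0, -2, 1,
    0, 0, 1, 0, 1], [0, 0, 0, 0, 0, 0, 0, 0], [-1, 1, 0, 0, 0, 0, -1, -1], [-1, -1, -1, 0, 0, 1,
    1, 0], [-2, 0, -1, -4, 0, -1, 2, 1], [-1, 1, -1, 0, 0, -1, -1, 0], [0, 0, 0, 0, 0, 0, 0, 0],
    [-1, -1, -1, -2, 0, -1, 1, 0], [0, 0, 0, 0, 0, 0, 0, 0], [0, 0, 0, 0, 0, 0, 0, 0], [0, 0, 0,
    0, 0, 0, 0, 0]] : List (List ℤ)).getD v []).getD i 0

lemma m68 : ∀ J ∈ List.sublistsLen 6 (List.range 8), (0 : ℤ) ∣ ipm x68 J (List.range 6) := by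
  decide +kernel

lemma j68 : ∀ i < 8, J68 i ∈ List.sublistsLen 6 (List.range 8) := by
  decide +kernel

lemma c68 : ∀ i < 8, ∀ w < 13, icf x68 w (J68 i) (List.range 6) = C68 i w := by
  decide +kernel

lemma i68 : ∀ v < 13, v ∈ ([3, 8, 10, 11, 12] : List ℕ) ∨ ∀ w < 13, w ∈ ([3, 8, 10, 11,
    12] : List ℕ) ∨
    (0 : ℤ) ∣ ∑ i ∈ range 8, a68 v i * C68 i w - if v = w then 4 else 0 := by
  decide +kernel

/-! ### `t = 4`, `n = 5` -/

def x45 (v : ℕ) : ℤ := ([0, 1, 1, -1, -1, 1, 1, 0] : List ℤ).getD v 0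

def J45 (i : ℕ) : List ℕ := ([[0, 1, 2, 3], [0, 1, 2, 4], [0, 1, 3, 4], [0, 2, 3, 4], [1, 2, 3,
    4]] : List (List ℕ)).getD i []

def C45 (i w : ℕ) : ℤ := (([[2, -4, -6, 4, 8, 0, -2, 0], [2, 4, -7, -6, 7, 4, 0, -2], [0, 6, 1,
    -5, -5, 1, 6, 0], [-2, 0, 4, 7, -6, -7, 4, 2], [0, -2, 0, 8, 4, -6, -4,
    2]] : List (List ℤ)).getD i []).getD w 0

def a45 (v i : ℕ) : ℤ := (([[0, 0, 0, 0, 0], [0, 0, 0, 0, 0], [0, 0, 0, 0, 0], [-1, -1, 1, 0,
    -1], [1, -1, 0, -1, 0], [0, -1, 0, 1, 1], [0, 0, -1, -1, 1], [-1, 0, 0, 0,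
    -1]] : List (List ℤ)).getD v []).getD i 0

lemma m45 : ∀ J ∈ List.sublistsLen 4 (List.range 5), (3 : ℤ) ∣ ipm x45 J (List.range 4) := by
  decide +kernel

lemma j45 : ∀ i < 5, J45 i ∈ List.sublistsLen 4 (List.range 5) := by
  decide +kernel

lemma c45 : ∀ i < 5, ∀ w < 8, icf x45 w (J45 i) (List.range 4) = C45 i w := by
  decide +kernel

lemma i45 : ∀ v < 8, v ∈ ([0, 1, 2] : List ℕ) ∨ ∀ w < 8, w ∈ ([0, 1, 2] : List ℕ) ∨
    (3 : ℤ) ∣ ∑ i ∈ range 5, a45 v i * C45 i w - if v = w then 1 else 0 := by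
  decide +kernel

theorem a (k : Type*) [Field k] (hJC : Pool.Agent.N729.HP.StmJC k) : StmFCa k := by
  intro h2 t n N h hc
  have h8 : (((8 : ℤ)) : k) ≠ 0 := by
    have : (((8 : ℤ)) : k) = 2 ^ 3 := by norm_num
    rw [this]
    exact pow_ne_zero _ h2
  have h4 : (((4 : ℤ)) : k) ≠ 0 := by
    have : (((4 : ℤ)) : k) = 2 ^ 2 := by norm_num
    rw [this]
    exact pow_ne_zero _ h2
  rcases hc with ⟨rfl, rfl⟩ | ⟨rfl, rfl⟩ | ⟨rfl, rfl⟩
  · obtain rfl : N = 10 := by omega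
    exact crit hJC h (by norm_num) (by norm_num) x56 [0, 3, 4, 9] (by simp) 0 8 Int.cast_zero h8
      m56 6 J56 C56 a56 j56 c56 i56
  · obtain rfl : N = 11 := by omega
    exact crit hJC h (by norm_num) (by norm_num) x57 [3, 5, 7, 9] (by simp) 0 4 Int.cast_zero h4
      m57 7 J57 C57 a57 j57 c57 i57
  · obtain rfl : N = 13 := by omega
    exact crit hJC h (by norm_num) (by norm_num) x68 [3, 8, 10, 11, 12] (by simp) 0 4
      Int.cast_zero h4 m68 8 J68 C68 a68 j68 c68 i68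

theorem f3 (k : Type*) [Field k] (hJC : Pool.Agent.N729.HP.StmJC k) : StmF3 k := by
  intro h3 N h
  obtain rfl : N = 8 := by omega
  have hp : (((3 : ℤ)) : k) = 0 := by
    push_cast
    exact h3
  have he : (((1 : ℤ)) : k) ≠ 0 := by
    push_cast
    exact one_ne_zero
  exact crit hJC h (by norm_num) (by norm_num) x45 [0, 1, 2] (by simp) 3 1 hp he
    m45 5 J45 C45 a45 j45 c45 i45

end Pool.Agent.N633.HB.FCa
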