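import Pool.Agent.N633.HB.Stm

/-!
Project HB (MP_9bc296_ag), part 2: the cases `m = t`, `n = t + e` with `2 ≤ e ≤ t - 2`.
-/

set_option autoImplicit false

namespace Pool.Agent.N633.HB

open Finset
open Pool.Agent.N186.HK (pm vm)
open Pool.Agent.R831.PermIdeal (permIdeal)
open Pool.Agent.N729.HP (pd Sub hk)

/-- G2: points for which the rows `I` have nonzero entries only in the columns `J0` -/
def StmG2 (k : Type*) [Field k] : Prop :=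
  ∀ (n t : ℕ) (x : ℕ → k) (I R : List ℕ) (J0 : Finset ℕ), (I ++ R).Perm (List.range t) →
    (∀ j ∈ J0, j < n) → (∀ c ∈ I, ∀ j < n, j ∉ J0 → x (j + c) = 0) →
    (∀ J₁ ⊆ J0, J₁.card = I.length → pm x J₁ I = 0) →
    (∀ v : ℕ → k, (∀ J₁ ⊆ J0, J₁.card + 1 = I.length →
      ∑ c ∈ I.toFinset, v c * pm x J₁ (I.erase c) = 0) → ∀ c ∈ I, v c = 0) →
    (∀ J L, Sub n t t J L → pm x J L = 0) ∧
    ∀ y : ℕ → k, (∀ J L, Sub n t t J L → pd x y J L = 0) → ∀ c ∈ I, ∀ J₂ : Finset ℕ,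
      (∀ j ∈ J₂, j < n ∧ j ∉ J0) → J₂.card = R.length + 1 →
      ∑ j ∈ J₂, y (j + c) * pm x (J₂.erase j) R = 0

/-- KI: `π ρ` is a column with the only entry `1` in the row `ρ ∈ R`; `E` further columns -/
def StmKI (k : Type*) [Field k] : Prop := (2 : k) ≠ 0 →
  ∀ (x u : ℕ → k) (R : List ℕ) (π : ℕ → ℕ) (E : Finset ℕ), R.Nodup →
    (∀ ρ ∈ R, ∀ ρ' ∈ R, x (π ρ + ρ') = if ρ = ρ' then 1 else 0) → (∀ ρ ∈ R, π ρ ∉ E) →
    (∀ J₂ : Finset ℕ, J₂ ⊆ R.toFinset.image π ∪ E → J₂.card = R.length + 1 →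
      ∑ j ∈ J₂, u j * pm x (J₂.erase j) R = 0) →
    (∀ b ∈ E, u b = - ∑ ρ ∈ R.toFinset, u (π ρ) * x (b + ρ)) ∧
    ∀ ρ ∈ R, ∀ b ∈ E, ∀ b' ∈ E, b ≠ b' → x (b + ρ) ≠ 0 → x (b' + ρ) ≠ 0 → u (π ρ) = 0

/-- T2: the case `e = t - 2` -/
def StmT2 (k : Type*) [Field k] : Prop := (2 : k) ≠ 0 → ∀ (t n N : ℕ) (h : N + 1 = n + t),
  4 ≤ t → n + 2 = 2 * t → ¬ (permIdeal t (vm k (hk h))).IsPrime

/-- the point for StmB, `d = t - 1` -/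
def qB (k : Type*) [Field k] (d v : ℕ) : k :=
  if v = 0 then 1 else if v = d then 1 else if v + 1 = 2 * d then 1 else
    if v = 2 * d then -1 else if v + 2 = 3 * d then -1 else 0

/-- B: the case `e = t - 3`, `t ≥ 8` -/
def StmB (k : Type*) [Field k] : Prop := (2 : k) ≠ 0 → ∀ (t n N : ℕ) (h : N + 1 = n + t),
  8 ≤ t → n + 3 = 2 * t → ¬ (permIdeal t (vm k (hk h))).IsPrime

/-- the point for StmY -/
def qY (k : Type*) [Field k] (t b r v : ℕ) : k :=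
  if v = b then 1 else if v = b + r then 1 else if v + 1 = b + r + t then 1 else
    if v + 2 = b + 2 * t then -1 else 0

/-- the relations for StmY -/
structure RelY {k : Type*} [Field k] (t e b r : ℕ) (y : ℕ → k) : Prop where
  z : ∀ c, (c = 0 ∨ c = r ∨ c + 1 = t) → ∀ s, ((r ≤ s ∧ s ≤ e) ∨ (t ≤ s + 1 ∧ s ≤ r + e)) →
    y (c + s) = 0
  p : ∀ c, (c = 0 ∨ c = r ∨ c + 1 = t) → ∀ m, m < b →
    y (c + m) + y (c + m + r) + y (c + m + (t - 1)) = 0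
  m : ∀ c, (c = 0 ∨ c = r ∨ c + 1 = t) → ∀ m, b < m → m ≤ e →
    y (c + m) - y (c + m + r) + y (c + m + (t - 1)) = 0

/-- Y1: membership and relations for the points `qY` -/
def StmY1 (k : Type*) [Field k] : Prop := (2 : k) ≠ 0 → ∀ t e b r : ℕ, 1 ≤ b → b < r →
  r + e + 2 ≤ b + t → e + 1 ≤ b + r → b + r + 2 ≤ t → b ≤ e →
  (∀ J L, Sub (t + e) t t J L → pm (qY k t b r) J L = 0) ∧
  ∀ y : ℕ → k, (∀ J L, Sub (t + e) t t J L → pd (qY k t b r) y J L = 0) → RelY t e b r y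

/-- Y: the cases `t = e + 3` (`e` even), `t = e + 4`, `t = e + 5`, `e ≥ 4` -/
def StmY (k : Type*) [Field k] : Prop := (2 : k) ≠ 0 → ∀ (t e N : ℕ)
  (h : N + 1 = (t + e) + t), 4 ≤ e → ((t = e + 3 ∧ e % 2 = 0) ∨ t = e + 4 ∨ t = e + 5) →
  ¬ (permIdeal t (vm k (hk h))).IsPrime

/-- partial column sum -/
def sg {D : Type*} [CommRing D] (x : ℕ → D) (b i j : ℕ) : D := ∑ ρ ∈ Icc i j, x (b + ρ)

/-- the permanent of a `3 × 3` matrix -/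
def perm3 {D : Type*} [CommRing D] (a₁ a₂ a₃ b₁ b₂ b₃ c₁ c₂ c₃ : D) : D :=
  a₁ * b₂ * c₃ + a₁ * b₃ * c₂ + a₂ * b₁ * c₃ + a₂ * b₃ * c₁ + a₃ * b₁ * c₂ + a₃ * b₂ * c₁

/-- the path columns -/
def pth (n l : ℕ) : Finset ℕ := (Ico 1 l).image fun m => n - m

/-- PC: contraction of a path: rows `1, …, l`, path columns `n - m`, `1 ≤ m < l`, with entries `1`
in the rows `m`, `m + 1` and zero in the other rows -/
def StmPC (D : Type*) [CommRing D] : Prop := ∀ (x : ℕ → D) (n l : ℕ), 1 ≤ l → l ≤ n →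
  (∀ m, 1 ≤ m → m < l → ∀ ρ, 1 ≤ ρ → ρ ≤ l →
    x (n - m + ρ) = if ρ = m ∨ ρ = m + 1 then 1 else 0) →
  (∀ b, b ∉ pth n l → pm x (insert b (pth n l)) (List.range' 1 l) = sg x b 1 l) ∧
  (∀ m, 1 ≤ m → m < l → ∀ b b', b ∉ pth n l → b' ∉ pth n l → b ≠ b' →
    pm x (insert b (insert b' ((pth n l).erase (n - m)))) (List.range' 1 l) =
      sg x b 1 m * sg x b' (m + 1) l + sg x b' 1 m * sg x b (m + 1) l) ∧
  (∀ m m', 1 ≤ m → m < m' → m' < l → ∀ b b' b'', b ∉ pth n l → b' ∉ pth n l →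
    b'' ∉ pth n l → b ≠ b' → b ≠ b'' → b' ≠ b'' →
    pm x (insert b (insert b' (insert b'' (((pth n l).erase (n - m)).erase (n - m')))))
      (List.range' 1 l) =
    perm3 (sg x b 1 m) (sg x b (m + 1) m') (sg x b (m' + 1) l)
      (sg x b' 1 m) (sg x b' (m + 1) m') (sg x b' (m' + 1) l)
      (sg x b'' 1 m) (sg x b'' (m + 1) m') (sg x b'' (m' + 1) l))

/-- PU: relations for a path with chords -/
def StmPU (k : Type*) [Field k] : Prop := (2 : k) ≠ 0 → ∀ (x u : ℕ → k) (n e w l : ℕ),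
  2 ≤ e → 2 ≤ w → 5 ≤ e + w → e + 1 + w ≤ l → n = l + w + 1 + e →
  (∀ m, 1 ≤ m → m < l → ∀ ρ, 1 ≤ ρ → ρ ≤ l →
    x (n - m + ρ) = if ρ = m ∨ ρ = m + 1 then 1 else 0) →
  (∀ i, 1 ≤ i → i ≤ e + 1 → ∀ ρ, 1 ≤ ρ → ρ ≤ l →
    x (e + 1 - i + ρ) = if ρ = i then 1 else if ρ = i + w then -1 else 0) →
  (∀ J₂ : Finset ℕ, J₂ ⊆ pth n l ∪ range (e + 1) → J₂.card = l + 1 →
    ∑ j ∈ J₂, u j * pm x (J₂.erase j) (List.range' 1 l) = 0) →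
  (∀ m, ((2 ≤ m ∧ m ≤ e) ∨ (w + 1 ≤ m ∧ m + 1 ≤ e + w)) → u (n - m) = 0) ∧
  (∀ i, 2 ≤ i → i ≤ e → u (e + 1 - i) = 0) ∧ u e = - u (n - 1) ∧ u 0 = u (n - e - w)

/-- the point for StmP -/
def qP (k : Type*) [Field k] (t e w v : ℕ) : k :=
  if v = e + 1 then 1 else if v = e + 1 + w then -1 else if v = t + e then 1 else
    if v = t + e + 1 then 1 else 0

/-- P: the bulk of the cases -/
def StmP (k : Type*) [Field k] : Prop := (2 : k) ≠ 0 → ∀ (t e w N : ℕ)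
  (h : N + 1 = (t + e) + t), 2 ≤ e → 2 ≤ w → 5 ≤ e + w → e + 2 + 2 * w ≤ t →
  t + 2 ≤ 3 * w + 2 * e → ¬ (permIdeal t (vm k (hk h))).IsPrime

/-- FCa, FCb, FCc: small cases -/
def StmFCa (k : Type*) [Field k] : Prop := (2 : k) ≠ 0 → ∀ (t n N : ℕ) (h : N + 1 = n + t),
  ((t = 5 ∧ n = 6) ∨ (t = 5 ∧ n = 7) ∨ (t = 6 ∧ n = 8)) →
  ¬ (permIdeal t (vm k (hk h))).IsPrime

def StmFCb (k : Type*) [Field k] : Prop := (2 : k) ≠ 0 → ∀ (t n N : ℕ) (h : N + 1 = n + t),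
  ((t = 7 ∧ n = 9) ∨ (t = 8 ∧ n = 10) ∨ (t = 9 ∧ n = 11)) →
  ¬ (permIdeal t (vm k (hk h))).IsPrime

def StmFCc (k : Type*) [Field k] : Prop := (2 : k) ≠ 0 → ∀ (t n N : ℕ) (h : N + 1 = n + t),
  ((t = 6 ∧ n = 9) ∨ (t = 7 ∧ n = 10) ∨ (t = 8 ∧ n = 11)) →
  ¬ (permIdeal t (vm k (hk h))).IsPrime

/-- F3: `t = 4`, `n = 5`, characteristic 3 -/
def StmF3 (k : Type*) [Field k] : Prop := (3 : k) = 0 → ∀ (N : ℕ) (h : N + 1 = 5 + 4),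
  ¬ (permIdeal 4 (vm k (hk h))).IsPrime

/-- the boundary case -/
def StmBd (k : Type*) [Field k] : Prop := (2 : k) ≠ 0 → ∀ (t n N : ℕ) (h : N + 1 = n + t),
  4 ≤ t → t < n → n + 2 ≤ 2 * t → ¬ (permIdeal t (vm k (hk h))).IsPrime

end Pool.Agent.N633.HB
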