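import Mathlib
import Pool.Agent.N633.HB.Stm2
import Pool.Agent.N729.HP.BA

/-!
Project HB of helper633, file FCb: the small cases `(7, 9)`, `(8, 10)`, `(9, 11)` (helper519).
-/

set_option autoImplicit false

namespace Pool.Agent.N633.HB.FCb

open Finset
open Pool.Agent.N186.HK (pm vm pm_nil pm_cons)
open Pool.Agent.R831.PermIdeal (permIdeal)
open Pool.Agent.N729.HP (pd Sub hk)

/-- sum over a list -/
def sm {α : Type} (f : α → ℤ) : List α → ℤ
  | [] => 0
  | p :: l => f p + sm f l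

/-- the sequence given by a list of positions and values -/
def qz (sp : List (ℕ × ℤ)) (v : ℕ) : ℤ := sm (fun p => if v = p.1 then p.2 else 0) sp

/-- fast permanent, the columns are the digits of `m` -/
def P (sp : List (ℕ × ℤ)) : List ℕ → ℕ → ℤ
  | [], _ => 1
  | c :: L, m => sm (fun p => bif Nat.ble c p.1 && Nat.testBit m (p.1 - c) then
      p.2 * P sp L (m ^^^ 2 ^ (p.1 - c)) else 0) sp

/-- fast derivative of the permanent in the direction of the variable `v` -/
def Dv (sp : List (ℕ × ℤ)) (v : ℕ) : List ℕ → ℕ → ℤ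
  | [], _ => 0
  | c :: L, m => (bif Nat.ble c v && Nat.testBit m (v - c) then P sp L (m ^^^ 2 ^ (v - c)) else 0) +
      sm (fun p => bif Nat.ble c p.1 && Nat.testBit m (p.1 - c) then
      p.2 * Dv sp v L (m ^^^ 2 ^ (p.1 - c)) else 0) sp

/-- the set of the digits -/
def bs (m : ℕ) : Finset ℕ := m.bitIndices.toFinset

lemma mem_bs (m j : ℕ) : j ∈ bs m ↔ Nat.testBit m j = true := by
  unfold bs
  rw [List.mem_toFinset, Nat.mem_bitIndices]

lemma bs_erase (m j : ℕ) (h : Nat.testBit m j = true) : bs (m ^^^ 2 ^ j) = (bs m).erase j := by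
  ext i
  rw [mem_erase, mem_bs, mem_bs, Nat.testBit_xor, Nat.testBit_two_pow]
  by_cases hij : i = j
  · subst hij
    simp [h]
  · have hji : ¬ (j = i) := fun h => hij h.symm
    simp [hij, hji]

lemma bs_full (n : ℕ) : bs (2 ^ n - 1) = range n := by
  ext i
  rw [mem_bs, Nat.testBit_two_pow_sub_one, mem_range, decide_eq_true_iff]

section

variable {k : Type*} [Field k]

/-- the sequence in the field -/
def qk (k : Type*) [Field k] (sp : List (ℕ × ℤ)) (v : ℕ) : k := ((qz sp v : ℤ) : k)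

lemma sum_sup (sp : List (ℕ × ℤ)) (J : Finset ℕ) (c : ℕ) (G : ℕ → k) :
    ∑ j ∈ J, qk k sp (j + c) * G j =
      (sp.map fun p => if c ≤ p.1 ∧ p.1 - c ∈ J then (p.2 : k) * G (p.1 - c) else 0).sum := by
  induction sp with
  | nil => simp [qk, qz, sm]
  | cons p l ih =>
    rw [List.map_cons, List.sum_cons, ← ih]
    have h1 : ∀ j, qk k (p :: l) (j + c) = (if j + c = p.1 then (p.2 : k) else 0) + qk k l (j + c) := by
      intro j
      unfold qk qz
      rw [sm]
      push_cast
      rfl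
    simp only [h1, add_mul, sum_add_distrib]
    congr 1
    by_cases hc : c ≤ p.1 ∧ p.1 - c ∈ J
    · rw [if_pos hc, sum_eq_single (p.1 - c)]
      · rw [if_pos (by omega)]
      · intro j _ hj
        rw [if_neg (by omega), zero_mul]
      · intro h
        exact absurd hc.2 h
    · rw [if_neg hc]
      refine sum_eq_zero fun j hj => ?_
      rw [if_neg, zero_mul]
      intro h
      apply hc
      have : p.1 - c = j := by omega
      rw [this]
      exact ⟨by omega, hj⟩

lemma sm_cast {α : Type} (f : α → ℤ) (l : List α) :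
    ((sm f l : ℤ) : k) = (l.map fun p => ((f p : ℤ) : k)).sum := by
  induction l with
  | nil => simp [sm]
  | cons p l ih =>
    rw [sm, List.map_cons, List.sum_cons, ← ih]
    push_cast
    rfl

lemma cond_iff (c s m : ℕ) : (Nat.ble c s && Nat.testBit m (s - c)) = true ↔
    (c ≤ s ∧ s - c ∈ bs m) := by
  rw [Bool.and_eq_true, Nat.ble_eq, mem_bs]

lemma cond_cast (c s m : ℕ) (F : ℕ → ℤ) (G : Finset ℕ → k) (a : ℤ)
    (h : ∀ m, ((F m : ℤ) : k) = G (bs m)) :
    (((bif Nat.ble c s && Nat.testBit m (s - c) then a * F (m ^^^ 2 ^ (s - c)) else 0 : ℤ)) : k) =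
      if c ≤ s ∧ s - c ∈ bs m then (a : k) * G ((bs m).erase (s - c)) else 0 := by
  by_cases hc : c ≤ s ∧ s - c ∈ bs m
  · rw [if_pos hc, (cond_iff c s m).2 hc, cond_true, ← bs_erase m (s - c) ((mem_bs _ _).1 hc.2), ← h]
    push_cast
    rfl
  · rw [if_neg hc]
    have : (Nat.ble c s && Nat.testBit m (s - c)) = false := by
      rw [← Bool.not_eq_true]
      intro h
      exact hc ((cond_iff c s m).1 h)
    rw [this, cond_false, Int.cast_zero]

theorem P_eq (sp : List (ℕ × ℤ)) (L : List ℕ) :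
    ∀ m, ((P sp L m : ℤ) : k) = pm (qk k sp) (bs m) L := by
  induction L with
  | nil =>
    intro m
    rw [P, pm_nil, Int.cast_one]
  | cons c L ih =>
    intro m
    rw [pm_cons, sum_sup, P, sm_cast]
    congr 1
    refine List.map_congr_left fun p _ => ?_
    exact cond_cast c p.1 m (P sp L) (fun J => pm (qk k sp) J L) p.2 ih

/-- the basis vector -/
def ev (k : Type*) [Field k] (v s : ℕ) : k := if s = v then 1 else 0

lemma pd_nil (x y : ℕ → k) (J : Finset ℕ) : pd x y J [] = 0 := by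
  unfold pd; rfl

lemma pd_cons (x y : ℕ → k) (J : Finset ℕ) (c : ℕ) (L : List ℕ) :
    pd x y J (c :: L) = ∑ j ∈ J, (y (j + c) * pm x (J.erase j) L + x (j + c) * pd x y (J.erase j) L) := by
  rw [pd]

theorem D_eq (sp : List (ℕ × ℤ)) (v : ℕ) (L : List ℕ) :
    ∀ m, ((Dv sp v L m : ℤ) : k) = pd (qk k sp) (ev k v) (bs m) L := by
  induction L with
  | nil =>
    intro m
    rw [Dv, pd_nil, Int.cast_zero]
  | cons c L ih =>
    intro m
    rw [pd_cons, sum_add_distrib, sum_sup, Dv, Int.cast_add, sm_cast]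
    congr 1
    · have h1 := cond_cast (k := k) c v m (P sp L) (fun J => pm (qk k sp) J L) 1 (P_eq sp L)
      rw [one_mul, Int.cast_one, one_mul] at h1
      rw [h1]
      by_cases hc : c ≤ v ∧ v - c ∈ bs m
      · rw [if_pos hc, sum_eq_single (v - c)]
        · unfold ev
          rw [if_pos (by omega), one_mul]
        · intro j _ hj
          unfold ev
          rw [if_neg (by omega), zero_mul]
        · intro h
          exact absurd hc.2 h
      · rw [if_neg hc]
        symm
        refine sum_eq_zero fun j hj => ?_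
        unfold ev
        rw [if_neg, zero_mul]
        intro h
        apply hc
        have : v - c = j := by omega
        rw [this]
        exact ⟨by omega, hj⟩
    · congr 1
      refine List.map_congr_left fun p _ => ?_
      exact cond_cast c p.1 m (Dv sp v L) (fun J => pd (qk k sp) (ev k v) J L) p.2 ih

theorem pd_lin (x y : ℕ → k) (N : ℕ) (L : List ℕ) : ∀ J : Finset ℕ,
    (∀ j ∈ J, ∀ c ∈ L, j + c < N) → pd x y J L = ∑ v ∈ range N, y v * pd x (ev k v) J L := by
  induction L with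
  | nil =>
    intro J _
    simp only [pd_nil, mul_zero, sum_const_zero]
  | cons c L ih =>
    intro J hJ
    simp only [pd_cons, mul_sum]
    rw [sum_comm]
    refine sum_congr rfl fun j hj => ?_
    have h1 : ∀ v, y v * (ev k v (j + c) * pm x (J.erase j) L + x (j + c) * pd x (ev k v) (J.erase j) L) =
        y v * ev k v (j + c) * pm x (J.erase j) L + x (j + c) * (y v * pd x (ev k v) (J.erase j) L) := by
      intro v; ring
    simp only [h1, sum_add_distrib, ← sum_mul, ← mul_sum]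
    rw [← ih (J.erase j) fun i hi d hd => hJ i (mem_of_mem_erase hi) d (List.mem_cons_of_mem _ hd)]
    congr 2
    unfold ev
    rw [sum_eq_single (j + c)]
    · rw [if_pos rfl, mul_one]
    · intro v _ hv
      rw [if_neg (fun h => hv h.symm), mul_zero]
    · intro h
      exact absurd (mem_range.2 (hJ j hj c List.mem_cons_self)) h

/-- linear form -/
def lin (y : ℕ → k) : List ℤ → ℕ → k
  | [], _ => 0
  | c :: cs, i => (c : k) * y i + lin y cs (i + 1)

lemma lin_map (y : ℕ → k) (f : ℕ → ℤ) (N : ℕ) : ∀ s, lin y ((List.range' s N).map f) s =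
    ∑ v ∈ range N, y (s + v) * ((f (s + v) : ℤ) : k) := by
  induction N with
  | zero => intro s; simp [lin]
  | succ N ih =>
    intro s
    rw [List.range'_succ, List.map_cons, lin, ih, sum_range_succ']
    rw [add_comm, add_zero, mul_comm (y s)]
    congr 1
    refine sum_congr rfl fun v _ => ?_
    rw [show s + 1 + v = s + (v + 1) by ring]

theorem card2 (n t : ℕ) (hn : n = t + 2) (J : Finset ℕ) (hJ : J.card = t) (hJn : ∀ j ∈ J, j < n) :
    ∃ i j, i < n ∧ j < n ∧ i ≠ j ∧ J = bs ((2 ^ n - 1) ^^^ 2 ^ i ^^^ 2 ^ j) := by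
  have hsub : J ⊆ range n := fun j hj => mem_range.2 (hJn j hj)
  have h1 : (range n \ J).card = 2 := by
    rw [card_sdiff_of_subset hsub, card_range, hJ]
    omega
  obtain ⟨i, j, hij, h2⟩ := card_eq_two.1 h1
  have hi : i ∈ range n \ J := by rw [h2]; simp
  have hj : j ∈ range n \ J := by rw [h2]; simp
  rw [mem_sdiff, mem_range] at hi hj
  refine ⟨i, j, hi.1, hj.1, hij, ?_⟩
  have h3 : bs ((2 ^ n - 1) ^^^ 2 ^ i) = (range n).erase i := by
    rw [bs_erase, bs_full]
    rw [Nat.testBit_two_pow_sub_one, decide_eq_true_iff]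
    exact hi.1
  rw [bs_erase, h3]
  · ext a
    rw [mem_erase, mem_erase]
    constructor
    · intro ha
      refine ⟨?_, ?_, hsub ha⟩
      · rintro rfl; exact hj.2 ha
      · rintro rfl; exact hi.2 ha
    · rintro ⟨ha1, ha2, ha3⟩
      by_contra ha
      have h4 : a ∈ range n \ J := mem_sdiff.2 ⟨ha3, ha⟩
      rw [h2, mem_insert, mem_singleton] at h4
      tauto
  · rw [← mem_bs, h3, mem_erase, mem_range]
    exact ⟨hij.symm, hj.1⟩

lemma perm_range (L : List ℕ) (t : ℕ) (h1 : L.length = t) (h2 : L.Nodup) (h3 : ∀ c ∈ L, c < t) :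
    L.Perm (List.range t) := by
  refine (List.subperm_of_subset h2 fun c hc => List.mem_range.2 (h3 c hc)).perm_of_length_le ?_
  rw [List.length_range, h1]

/-- the permanents vanish -/
theorem allP (sp : List (ℕ × ℤ)) (n t : ℕ) (hn : n = t + 2)
    (h : ∀ i < n, ∀ j < n, i ≠ j → P sp (List.range t) ((2 ^ n - 1) ^^^ 2 ^ i ^^^ 2 ^ j) = 0) :
    ∀ J L, Sub n t t J L → pm (qk k sp) J L = 0 := by
  intro J L hS
  obtain ⟨h1, h2, h3, h4, h5⟩ := hS
  obtain ⟨i, j, hi, hj, hij, rfl⟩ := card2 n t hn J h1 h4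
  rw [(Pool.Agent.N729.HP.BA.ta k).1 _ _ _ (perm_range L t h2 h3 h5), ← P_eq, h i hi j hj hij,
    Int.cast_zero]

/-- the row of the Jacobian matrix -/
theorem row (sp : List (ℕ × ℤ)) (n t N : ℕ) (hN : N + 1 = n + t) (y : ℕ → k)
    (hy : ∀ J L, Sub n t t J L → pd (qk k sp) y J L = 0) (m : ℕ) (cs : List ℤ)
    (hm : ((range n).filter fun j => Nat.testBit m j = true).card = t) (hmn : m < 2 ^ n)
    (h : (List.range' 0 N).map (fun v => Dv sp v (List.range t) m) = cs) : lin y cs 0 = 0 := by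
  have hlt : ∀ j ∈ bs m, j < n := by
    intro j hj
    by_contra hjn
    rw [mem_bs, Nat.testBit_lt_two_pow (lt_of_lt_of_le hmn (Nat.pow_le_pow_right (by norm_num)
      (not_lt.1 hjn)))] at hj
    exact Bool.false_ne_true hj
  have hbm : bs m = (range n).filter fun j => Nat.testBit m j = true := by
    ext j
    rw [mem_filter, mem_range, mem_bs]
    exact ⟨fun hj => ⟨hlt j ((mem_bs m j).2 hj), hj⟩, fun hj => hj.2⟩
  have h1 := hy (bs m) (List.range t) ⟨hbm ▸ hm, List.length_range, List.nodup_range, hlt,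
    fun c hc => List.mem_range.1 hc⟩
  rw [pd_lin _ _ N _ _ (by
    intro j hj c hc
    have := hlt j hj
    have := List.mem_range.1 hc
    omega)] at h1
  rw [← h, lin_map]
  rw [← h1]
  refine sum_congr rfl fun v _ => ?_
  rw [D_eq, zero_add]

end

/-- the point for `(7, 9)` -/
def sp79 : List (ℕ × ℤ) := [(1, 1), (7, 1), (9, -1)]

theorem c79 (k : Type*) [Field k] (hJC : Pool.Agent.N729.HP.StmJC k) (h2 : (2 : k) ≠ 0)
    (N : ℕ) (h : N + 1 = 9 + 7) : ¬ (permIdeal 7 (vm k (hk h))).IsPrime := by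
  obtain rfl : N = 15 := by omega
  refine hJC 15 9 7 7 h (by norm_num) (by norm_num) le_rfl (qk k sp79)
    (allP sp79 9 7 rfl (by decide +kernel)) {3, 5, 7, 9, 11, 13} (by decide) ?_
  intro y hS hy v hv
  have s3 : y 3 = 0 := hS 3 (by decide)
  have s5 : y 5 = 0 := hS 5 (by decide)
  have s7 : y 7 = 0 := hS 7 (by decide)
  have s9 : y 9 = 0 := hS 9 (by decide)
  have s11 : y 11 = 0 := hS 11 (by decide)
  have s13 : y 13 = 0 := hS 13 (by decide)
  have r0 := row sp79 9 7 15 rfl y hy 191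
    [0, -1, 0, 2, 0, -3, 0, 4, 0, 3, 0, -2, 0, 1, 0]
    (by decide +kernel) (by norm_num) (by decide +kernel)
  simp only [lin, s3, s5, s7, s9, s11, s13] at r0
  push_cast at r0
  have r1 := row sp79 9 7 15 rfl y hy 382
    [0, 0, -1, 0, 0, 0, 1, 0, -2, 0, 3, 0, -2, 0, 1]
    (by decide +kernel) (by norm_num) (by decide +kernel)
  simp only [lin, s3, s5, s7, s9, s11, s13] at r1
  push_cast at r1
  have r2 := row sp79 9 7 15 rfl y hy 127
    [1, 0, 2, 0, -1, 0, 0, 0, 3, 0, -2, 0, 1, 0, 0]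
    (by decide +kernel) (by norm_num) (by decide +kernel)
  simp only [lin, s3, s5, s7, s9, s11, s13] at r2
  push_cast at r2
  have r3 := row sp79 9 7 15 rfl y hy 247
    [1, 0, 0, 0, -1, 0, 4, 0, -1, 0, 0, 0, 1, 0, 0]
    (by decide +kernel) (by norm_num) (by decide +kernel)
  simp only [lin, s3, s5, s7, s9, s11, s13] at r3
  push_cast at r3
  have r4 := row sp79 9 7 15 rfl y hy 445
    [1, 0, -1, 0, 1, 0, -1, 0, -1, 0, 1, 0, -1, 0, 1]
    (by decide +kernel) (by norm_num) (by decide +kernel)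
  simp only [lin, s3, s5, s7, s9, s11, s13] at r4
  push_cast at r4
  have r5 := row sp79 9 7 15 rfl y hy 253
    [-1, 0, 0, 0, 1, 0, -2, 0, 3, 0, -2, 0, 1, 0, 0]
    (by decide +kernel) (by norm_num) (by decide +kernel)
  simp only [lin, s3, s5, s7, s9, s11, s13] at r5
  push_cast at r5
  have r6 := row sp79 9 7 15 rfl y hy 478
    [0, 0, 1, 0, -2, 0, 1, 0, 0, 0, -1, 0, 2, 0, -1]
    (by decide +kernel) (by norm_num) (by decide +kernel)
  simp only [lin, s3, s5, s7, s9, s11, s13] at r6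
  push_cast at r6
  have r7 := row sp79 9 7 15 rfl y hy 508
    [0, 0, 1, 0, -2, 0, 3, 0, -4, 0, 3, 0, -2, 0, 1]
    (by decide +kernel) (by norm_num) (by decide +kernel)
  simp only [lin, s3, s5, s7, s9, s11, s13] at r7
  push_cast at r7
  have r8 := row sp79 9 7 15 rfl y hy 223
    [-1, 0, 0, 0, 3, 0, -2, 0, -1, 0, 2, 0, -1, 0, 0]
    (by decide +kernel) (by norm_num) (by decide +kernel)
  simp only [lin, s3, s5, s7, s9, s11, s13] at r8
  push_cast at r8
  have z0 : y 0 = 0 := by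
    have e : (2 : k) ^ 2 * y 0 = 0 := by
      linear_combination (1) * r2 + (1) * r4 + (-2) * r5 + (-1) * r7
    exact (mul_eq_zero.1 e).resolve_left (pow_ne_zero _ h2)
  have z1 : y 1 = 0 := by
    have e : (2 : k) ^ 0 * y 1 = 0 := by
      linear_combination (-1) * r0
    exact (mul_eq_zero.1 e).resolve_left (pow_ne_zero _ h2)
  have z2 : y 2 = 0 := by
    have e : (2 : k) ^ 2 * y 2 = 0 := by
      linear_combination (-1) * r1 + (1) * r2 + (1) * r7 + (1) * r8
    exact (mul_eq_zero.1 e).resolve_left (pow_ne_zero _ h2)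
  have z4 : y 4 = 0 := by
    have e : (2 : k) ^ 2 * y 4 = 0 := by
      linear_combination (-1) * r1 + (1) * r3 + (-1) * r6 + (1) * r8
    exact (mul_eq_zero.1 e).resolve_left (pow_ne_zero _ h2)
  have z6 : y 6 = 0 := by
    have e : (2 : k) ^ 2 * y 6 = 0 := by
      linear_combination (1) * r3 + (-1) * r4 + (-1) * r6
    exact (mul_eq_zero.1 e).resolve_left (pow_ne_zero _ h2)
  have z8 : y 8 = 0 := by
    have e : (2 : k) ^ 2 * y 8 = 0 := by
      linear_combination (2) * r1 + (1) * r2 + (-1) * r4 + (-1) * r7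
    exact (mul_eq_zero.1 e).resolve_left (pow_ne_zero _ h2)
  have z10 : y 10 = 0 := by
    have e : (2 : k) ^ 2 * y 10 = 0 := by
      linear_combination (3) * r1 + (1) * r2 + (2) * r6 + (-1) * r7 + (1) * r8
    exact (mul_eq_zero.1 e).resolve_left (pow_ne_zero _ h2)
  have z12 : y 12 = 0 := by
    have e : (2 : k) ^ 2 * y 12 = 0 := by
      linear_combination (1) * r1 + (1) * r3 + (2) * r4 + (2) * r5 + (3) * r6 + (1) * r8
    exact (mul_eq_zero.1 e).resolve_left (pow_ne_zero _ h2)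
  have z14 : y 14 = 0 := by
    have e : (2 : k) ^ 2 * y 14 = 0 := by
      linear_combination (1) * r3 + (3) * r4 + (4) * r5 + (1) * r6 + (2) * r7
    exact (mul_eq_zero.1 e).resolve_left (pow_ne_zero _ h2)
  interval_cases v <;> assumption

/-- the point for `(8, 10)` -/
def sp810 : List (ℕ × ℤ) := [(3, 1), (5, -1), (10, 1), (11, 1)]

theorem c810 (k : Type*) [Field k] (hJC : Pool.Agent.N729.HP.StmJC k) (h2 : (2 : k) ≠ 0)
    (N : ℕ) (h : N + 1 = 10 + 8) : ¬ (permIdeal 8 (vm k (hk h))).IsPrime := by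
  obtain rfl : N = 17 := by omega
  refine hJC 17 10 8 8 h (by norm_num) (by norm_num) le_rfl (qk k sp810)
    (allP sp810 10 8 rfl (by decide +kernel)) {4, 5, 10, 11, 16} (by decide) ?_
  intro y hS hy v hv
  have s4 : y 4 = 0 := hS 4 (by decide)
  have s5 : y 5 = 0 := hS 5 (by decide)
  have s10 : y 10 = 0 := hS 10 (by decide)
  have s11 : y 11 = 0 := hS 11 (by decide)
  have s16 : y 16 = 0 := hS 16 (by decide)
  have r0 := row sp810 10 8 17 rfl y hy 503
    [0, 0, 0, 0, 0, 0, 0, -2, 0, 0, 0, 0, 0, 2, 2, 0, 0]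
    (by decide +kernel) (by norm_num) (by decide +kernel)
  simp only [lin, s4, s5, s10, s11, s16] at r0
  push_cast at r0
  have r1 := row sp810 10 8 17 rfl y hy 479
    [0, 0, 0, 0, 0, 0, 0, -2, 0, 0, 0, 0, 0, -2, -2, 0, 0]
    (by decide +kernel) (by norm_num) (by decide +kernel)
  simp only [lin, s4, s5, s10, s11, s16] at r1
  push_cast at r1
  have r2 := row sp810 10 8 17 rfl y hy 887
    [0, 0, -2, 0, 0, 0, 0, 0, 2, 0, 0, 0, 0, 0, 0, 2, 2]
    (by decide +kernel) (by norm_num) (by decide +kernel)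
  simp only [lin, s4, s5, s10, s11, s16] at r2
  push_cast at r2
  have r3 := row sp810 10 8 17 rfl y hy 1014
    [0, 0, 0, 0, 0, 0, 0, 0, -2, 0, 0, 0, 0, 0, 2, 2, 0]
    (by decide +kernel) (by norm_num) (by decide +kernel)
  simp only [lin, s4, s5, s10, s11, s16] at r3
  push_cast at r3
  have r4 := row sp810 10 8 17 rfl y hy 990
    [0, 0, 0, 0, 0, 0, 0, 0, -2, 0, 0, 0, 0, 0, -2, -2, 0]
    (by decide +kernel) (by norm_num) (by decide +kernel)
  simp only [lin, s4, s5, s10, s11, s16] at r4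
  push_cast at r4
  have r5 := row sp810 10 8 17 rfl y hy 507
    [0, 0, 0, 0, 0, 0, 0, 2, 0, 0, 0, 0, 0, -2, 2, 0, 0]
    (by decide +kernel) (by norm_num) (by decide +kernel)
  simp only [lin, s4, s5, s10, s11, s16] at r5
  push_cast at r5
  have r6 := row sp810 10 8 17 rfl y hy 735
    [-2, 0, 0, 0, 0, 0, 0, -2, 0, 0, 0, 0, 2, 2, 0, 0, 0]
    (by decide +kernel) (by norm_num) (by decide +kernel)
  simp only [lin, s4, s5, s10, s11, s16] at r6
  push_cast at r6
  have r7 := row sp810 10 8 17 rfl y hy 863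
    [0, 0, -2, 0, 0, 0, 0, 0, -2, -4, 0, 0, 0, 0, 0, -2, -2]
    (by decide +kernel) (by norm_num) (by decide +kernel)
  simp only [lin, s4, s5, s10, s11, s16] at r7
  push_cast at r7
  have r8 := row sp810 10 8 17 rfl y hy 759
    [-2, 0, 0, 0, 0, 0, 4, 2, 0, 0, 0, 0, -2, -2, 0, 0, 0]
    (by decide +kernel) (by norm_num) (by decide +kernel)
  simp only [lin, s4, s5, s10, s11, s16] at r8
  push_cast at r8
  have r9 := row sp810 10 8 17 rfl y hy 509
    [1, 0, 0, 0, 0, 0, 2, 4, 0, 0, 0, 0, 1, 0, -1, 0, 0]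
    (by decide +kernel) (by norm_num) (by decide +kernel)
  simp only [lin, s4, s5, s10, s11, s16] at r9
  push_cast at r9
  have r10 := row sp810 10 8 17 rfl y hy 1018
    [0, -1, 0, 0, 0, 0, 0, 6, 4, 0, 0, 0, 0, -1, 0, 1, 0]
    (by decide +kernel) (by norm_num) (by decide +kernel)
  simp only [lin, s4, s5, s10, s11, s16] at r10
  push_cast at r10
  have r11 := row sp810 10 8 17 rfl y hy 891
    [3, 3, 0, -2, -2, -2, -4, 0, 4, 4, 4, -4, -1, -1, -1, -1, 2]
    (by decide +kernel) (by norm_num) (by decide +kernel)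
  simp only [lin, s4, s5, s10, s11, s16] at r11
  push_cast at r11
  have z0 : y 0 = 0 := by
    have e : (2 : k) ^ 3 * y 0 = 0 := by
      linear_combination (3) * r0 + (2) * r1 + (-2) * r6 + (-1) * r8 + (2) * r9
    exact (mul_eq_zero.1 e).resolve_left (pow_ne_zero _ h2)
  have z1 : y 1 = 0 := by
    have e : (2 : k) ^ 2 * y 1 = 0 := by
      linear_combination (-7) * r0 + (-5) * r1 + (-3) * r3 + (-5) * r4 + (-4) * r10
    exact (mul_eq_zero.1 e).resolve_left (pow_ne_zero _ h2)
  have z2 : y 2 = 0 := by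
    have e : (2 : k) ^ 2 * y 2 = 0 := by
      linear_combination (-1) * r0 + (-2) * r2 + (-2) * r4 + (-1) * r5
    exact (mul_eq_zero.1 e).resolve_left (pow_ne_zero _ h2)
  have z3 : y 3 = 0 := by
    have e : (2 : k) ^ 3 * y 3 = 0 := by
      linear_combination (-19) * r0 + (-16) * r1 + (4) * r2 + (-14) * r3 + (-10) * r4 + (4) * r5 + (-4) * r6 + (-4) * r7 + (-3) * r8 + (-2) * r9 + (-12) * r10 + (-4) * r11
    exact (mul_eq_zero.1 e).resolve_left (pow_ne_zero _ h2)
  have z6 : y 6 = 0 := by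
    have e : (2 : k) ^ 3 * y 6 = 0 := by
      linear_combination (3) * r0 + (2) * r1 + (1) * r8 + (2) * r9
    exact (mul_eq_zero.1 e).resolve_left (pow_ne_zero _ h2)
  have z7 : y 7 = 0 := by
    have e : (2 : k) ^ 2 * y 7 = 0 := by
      linear_combination (-1) * r0 + (-1) * r1
    exact (mul_eq_zero.1 e).resolve_left (pow_ne_zero _ h2)
  have z8 : y 8 = 0 := by
    have e : (2 : k) ^ 2 * y 8 = 0 := by
      linear_combination (-1) * r3 + (-1) * r4
    exact (mul_eq_zero.1 e).resolve_left (pow_ne_zero _ h2)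
  have z9 : y 9 = 0 := by
    have e : (2 : k) ^ 2 * y 9 = 0 := by
      linear_combination (1) * r0 + (1) * r2 + (2) * r4 + (1) * r5 + (-1) * r7
    exact (mul_eq_zero.1 e).resolve_left (pow_ne_zero _ h2)
  have z12 : y 12 = 0 := by
    have e : (2 : k) ^ 3 * y 12 = 0 := by
      linear_combination (1) * r0 + (2) * r1 + (2) * r5 + (2) * r6 + (-1) * r8 + (2) * r9
    exact (mul_eq_zero.1 e).resolve_left (pow_ne_zero _ h2)
  have z13 : y 13 = 0 := by
    have e : (2 : k) ^ 2 * y 13 = 0 := by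
      linear_combination (-1) * r1 + (-1) * r5
    exact (mul_eq_zero.1 e).resolve_left (pow_ne_zero _ h2)
  have z14 : y 14 = 0 := by
    have e : (2 : k) ^ 2 * y 14 = 0 := by
      linear_combination (1) * r0 + (1) * r5
    exact (mul_eq_zero.1 e).resolve_left (pow_ne_zero _ h2)
  have z15 : y 15 = 0 := by
    have e : (2 : k) ^ 2 * y 15 = 0 := by
      linear_combination (-1) * r0 + (1) * r3 + (-1) * r4 + (-1) * r5
    exact (mul_eq_zero.1 e).resolve_left (pow_ne_zero _ h2)
  interval_cases v <;> assumption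

/-- the point for `(9, 11)` -/
def sp911 : List (ℕ × ℤ) := [(3, 1), (5, -1), (11, 1), (12, 1)]

theorem c911 (k : Type*) [Field k] (hJC : Pool.Agent.N729.HP.StmJC k) (h2 : (2 : k) ≠ 0)
    (N : ℕ) (h : N + 1 = 11 + 9) : ¬ (permIdeal 9 (vm k (hk h))).IsPrime := by
  obtain rfl : N = 19 := by omega
  refine hJC 19 11 9 9 h (by norm_num) (by norm_num) le_rfl (qk k sp911)
    (allP sp911 11 9 rfl (by decide +kernel)) {4, 5, 6, 11, 12, 13, 18} (by decide) ?_
  intro y hS hy v hv
  have s4 : y 4 = 0 := hS 4 (by decide)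
  have s5 : y 5 = 0 := hS 5 (by decide)
  have s6 : y 6 = 0 := hS 6 (by decide)
  have s11 : y 11 = 0 := hS 11 (by decide)
  have s12 : y 12 = 0 := hS 12 (by decide)
  have s13 : y 13 = 0 := hS 13 (by decide)
  have s18 : y 18 = 0 := hS 18 (by decide)
  have r0 := row sp911 11 9 19 rfl y hy 1759
    [0, 0, -2, 0, 0, 0, 0, 0, 0, -2, -4, 0, 0, 0, 0, 0, 0, -2, -2]
    (by decide +kernel) (by norm_num) (by decide +kernel)
  simp only [lin, s4, s5, s6, s11, s12, s13, s18] at r0
  push_cast at r0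
  have r1 := row sp911 11 9 19 rfl y hy 1015
    [0, 0, 0, 0, 0, 0, 0, 0, -2, 0, 0, 0, 0, 0, 0, 2, 2, 0, 0]
    (by decide +kernel) (by norm_num) (by decide +kernel)
  simp only [lin, s4, s5, s6, s11, s12, s13, s18] at r1
  push_cast at r1
  have r2 := row sp911 11 9 19 rfl y hy 1887
    [0, 0, 0, 0, 0, 0, 0, 0, 0, 2, 0, 0, 0, 0, 0, 0, 2, 2, 0]
    (by decide +kernel) (by norm_num) (by decide +kernel)
  simp only [lin, s4, s5, s6, s11, s12, s13, s18] at r2
  push_cast at r2
  have r3 := row sp911 11 9 19 rfl y hy 1019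
    [0, 0, 0, 0, 0, 0, 0, 0, 2, 0, 0, 0, 0, 0, 0, -2, 2, 0, 0]
    (by decide +kernel) (by norm_num) (by decide +kernel)
  simp only [lin, s4, s5, s6, s11, s12, s13, s18] at r3
  push_cast at r3
  have r4 := row sp911 11 9 19 rfl y hy 1783
    [0, 0, -2, 0, 0, 0, 0, 0, 0, 2, 0, 0, 0, 0, 0, 0, 0, 2, 2]
    (by decide +kernel) (by norm_num) (by decide +kernel)
  simp only [lin, s4, s5, s6, s11, s12, s13, s18] at r4
  push_cast at r4
  have r5 := row sp911 11 9 19 rfl y hy 511
    [3, 0, 0, 0, 0, 0, 0, -2, 2, 0, 0, 0, 0, 0, 3, 2, -1, 0, 0]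
    (by decide +kernel) (by norm_num) (by decide +kernel)
  simp only [lin, s4, s5, s6, s11, s12, s13, s18] at r5
  push_cast at r5
  have r6 := row sp911 11 9 19 rfl y hy 1527
    [-2, 0, 0, 0, 0, 0, 0, 4, 2, 0, 0, 0, 0, 0, -2, -2, 0, 0, 0]
    (by decide +kernel) (by norm_num) (by decide +kernel)
  simp only [lin, s4, s5, s6, s11, s12, s13, s18] at r6
  push_cast at r6
  have r7 := row sp911 11 9 19 rfl y hy 1911
    [0, 0, 0, 0, 0, 0, 0, 0, 0, 2, 0, 0, 0, 0, 0, 0, -2, -2, 0]
    (by decide +kernel) (by norm_num) (by decide +kernel)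
  simp only [lin, s4, s5, s6, s11, s12, s13, s18] at r7
  push_cast at r7
  have r8 := row sp911 11 9 19 rfl y hy 1503
    [-2, 0, 0, 0, 0, 0, 0, 0, -2, 0, 0, 0, 0, 0, 2, 2, 0, 0, 0]
    (by decide +kernel) (by norm_num) (by decide +kernel)
  simp only [lin, s4, s5, s6, s11, s12, s13, s18] at r8
  push_cast at r8
  have r9 := row sp911 11 9 19 rfl y hy 991
    [0, 0, 0, 0, 0, 0, 0, 0, -2, 0, 0, 0, 0, 0, 0, -2, -2, 0, 0]
    (by decide +kernel) (by norm_num) (by decide +kernel)
  simp only [lin, s4, s5, s6, s11, s12, s13, s18] at r9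
  push_cast at r9
  have r10 := row sp911 11 9 19 rfl y hy 2042
    [0, -1, 0, 0, 0, 0, 0, 0, 6, 4, 0, 0, 0, 0, 0, -1, 0, 1, 0]
    (by decide +kernel) (by norm_num) (by decide +kernel)
  simp only [lin, s4, s5, s6, s11, s12, s13, s18] at r10
  push_cast at r10
  have r11 := row sp911 11 9 19 rfl y hy 767
    [1, 1, 2, -2, -2, -2, -2, 0, 0, -2, 4, 4, -4, -4, -3, 1, 1, -1, 0]
    (by decide +kernel) (by norm_num) (by decide +kernel)
  simp only [lin, s4, s5, s6, s11, s12, s13, s18] at r11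
  push_cast at r11
  have z0 : y 0 = 0 := by
    have e : (2 : k) ^ 3 * y 0 = 0 := by
      linear_combination (3) * r1 + (2) * r5 + (1) * r6 + (-2) * r8 + (2) * r9
    exact (mul_eq_zero.1 e).resolve_left (pow_ne_zero _ h2)
  have z1 : y 1 = 0 := by
    have e : (2 : k) ^ 2 * y 1 = 0 := by
      linear_combination (-7) * r1 + (5) * r2 + (3) * r7 + (-5) * r9 + (-4) * r10
    exact (mul_eq_zero.1 e).resolve_left (pow_ne_zero _ h2)
  have z2 : y 2 = 0 := by
    have e : (2 : k) ^ 2 * y 2 = 0 := by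
      linear_combination (-1) * r1 + (2) * r2 + (-1) * r3 + (-2) * r4
    exact (mul_eq_zero.1 e).resolve_left (pow_ne_zero _ h2)
  have z3 : y 3 = 0 := by
    have e : (2 : k) ^ 3 * y 3 = 0 := by
      linear_combination (-4) * r0 + (-3) * r1 + (-2) * r2 + (-2) * r5 + (-1) * r6 + (2) * r7 + (-4) * r8 + (-8) * r9 + (-4) * r10 + (-4) * r11
    exact (mul_eq_zero.1 e).resolve_left (pow_ne_zero _ h2)
  have z7 : y 7 = 0 := by
    have e : (2 : k) ^ 3 * y 7 = 0 := by
      linear_combination (3) * r1 + (2) * r5 + (3) * r6 + (2) * r9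
    exact (mul_eq_zero.1 e).resolve_left (pow_ne_zero _ h2)
  have z8 : y 8 = 0 := by
    have e : (2 : k) ^ 2 * y 8 = 0 := by
      linear_combination (-1) * r1 + (-1) * r9
    exact (mul_eq_zero.1 e).resolve_left (pow_ne_zero _ h2)
  have z9 : y 9 = 0 := by
    have e : (2 : k) ^ 2 * y 9 = 0 := by
      linear_combination (1) * r2 + (1) * r7
    exact (mul_eq_zero.1 e).resolve_left (pow_ne_zero _ h2)
  have z10 : y 10 = 0 := by
    have e : (2 : k) ^ 2 * y 10 = 0 := by
      linear_combination (-1) * r0 + (1) * r1 + (-2) * r2 + (1) * r3 + (1) * r4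
    exact (mul_eq_zero.1 e).resolve_left (pow_ne_zero _ h2)
  have z14 : y 14 = 0 := by
    have e : (2 : k) ^ 3 * y 14 = 0 := by
      linear_combination (1) * r1 + (2) * r3 + (2) * r5 + (1) * r6 + (2) * r8 + (2) * r9
    exact (mul_eq_zero.1 e).resolve_left (pow_ne_zero _ h2)
  have z15 : y 15 = 0 := by
    have e : (2 : k) ^ 2 * y 15 = 0 := by
      linear_combination (-1) * r3 + (-1) * r9
    exact (mul_eq_zero.1 e).resolve_left (pow_ne_zero _ h2)
  have z16 : y 16 = 0 := by
    have e : (2 : k) ^ 2 * y 16 = 0 := by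
      linear_combination (1) * r1 + (1) * r3
    exact (mul_eq_zero.1 e).resolve_left (pow_ne_zero _ h2)
  have z17 : y 17 = 0 := by
    have e : (2 : k) ^ 2 * y 17 = 0 := by
      linear_combination (-1) * r1 + (1) * r2 + (-1) * r3 + (-1) * r7
    exact (mul_eq_zero.1 e).resolve_left (pow_ne_zero _ h2)
  interval_cases v <;> assumption

theorem b (k : Type*) [Field k] (hJC : Pool.Agent.N729.HP.StmJC k) : StmFCb k := by
  intro h2 t n N h hc
  rcases hc with ⟨rfl, rfl⟩ | ⟨rfl, rfl⟩ | ⟨rfl, rfl⟩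
  · exact c79 k hJC h2 N h
  · exact c810 k hJC h2 N h
  · exact c911 k hJC h2 N h

end Pool.Agent.N633.HB.FCb
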