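import Pool.Agent.N633.HB.Stm2
import Pool.Agent.N729.HP.BA

/-!
Project HB (MP_9bc296_ag), part FCc: the small cases (6,9), (7,10), (8,11) (helper383).

Permanents and their derivatives at sparse integral points are evaluated by functions on lists
which only visit the nonzero entries.
-/

set_option autoImplicit false

namespace Pool.Agent.N633.HB.FCc

open Finset
open Pool.Agent.N186.HK (pm vm pm_nil pm_cons pm_map)
open Pool.Agent.R831.PermIdeal (permIdeal)
open Pool.Agent.N729.HP (pd Sub hk)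

/-! ### Evaluation on lists -/

/-- the permanent, columns in a list -/
def pmL (x : ℕ → ℤ) : List ℕ → List ℕ → ℤ
  | _, [] => 1
  | J, c :: L => (J.map fun j => if x (j + c) = 0 then 0 else x (j + c) * pmL x (J.erase j) L).sum

/-- the derivative, columns in a list -/
def pdL (x y : ℕ → ℤ) : List ℕ → List ℕ → ℤ
  | _, [] => 0
  | J, c :: L => (J.map fun j =>
      (if y (j + c) = 0 then 0 else y (j + c) * pmL x (J.erase j) L) +
      (if x (j + c) = 0 then 0 else x (j + c) * pdL x y (J.erase j) L)).sum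

lemma sum_list {J : List ℕ} (hJ : J.Nodup) (F : ℕ → ℤ) : ∑ j ∈ J.toFinset, F j = (J.map F).sum :=
  List.sum_toFinset F hJ

lemma erase_list {J : List ℕ} (hJ : J.Nodup) (j : ℕ) :
    J.toFinset.erase j = (J.erase j).toFinset := by
  ext a
  rw [Finset.mem_erase, List.mem_toFinset, List.mem_toFinset, hJ.mem_erase_iff]

lemma pmL_eq (x : ℕ → ℤ) (L : List ℕ) : ∀ J : List ℕ, J.Nodup → pm x J.toFinset L = pmL x J L := by
  induction L with
  | nil =>
    intro J _
    rw [pm_nil, pmL]
  | cons c L ih =>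
    intro J hJ
    rw [pm_cons, pmL, sum_list hJ]
    congr 1
    refine List.map_congr_left fun j _ => ?_
    rw [erase_list hJ, ih _ (hJ.erase j)]
    split_ifs with h
    · rw [h, zero_mul]
    · rfl

lemma pd_nil' {D : Type*} [CommSemiring D] (x y : ℕ → D) (J : Finset ℕ) : pd x y J [] = 0 := by
  rw [pd]

lemma pd_cons' {D : Type*} [CommSemiring D] (x y : ℕ → D) (J : Finset ℕ) (c : ℕ) (L : List ℕ) :
    pd x y J (c :: L) =
      ∑ j ∈ J, (y (j + c) * pm x (J.erase j) L + x (j + c) * pd x y (J.erase j) L) := by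
  rw [pd]

lemma pdL_eq (x y : ℕ → ℤ) (L : List ℕ) : ∀ J : List ℕ, J.Nodup →
    pd x y J.toFinset L = pdL x y J L := by
  induction L with
  | nil =>
    intro J _
    rw [pd_nil', pdL]
  | cons c L ih =>
    intro J hJ
    rw [pd_cons', pdL, sum_list hJ]
    congr 1
    refine List.map_congr_left fun j _ => ?_
    rw [erase_list hJ, ih _ (hJ.erase j), pmL_eq x L _ (hJ.erase j)]
    split_ifs with h h'
    · rw [h, h', zero_mul, zero_mul]
    · rw [h, zero_mul]
    · rename_i h'
      rw [h', zero_mul]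
    · rfl

/-- the unit vector -/
def dl (D : Type*) [Zero D] [One D] (v s : ℕ) : D := if s = v then 1 else 0

section

variable {k : Type*} [Field k]

lemma pd_map {S T : Type*} [CommRing S] [CommRing T] (f : S →+* T) (x y : ℕ → S) (L : List ℕ) :
    ∀ J : Finset ℕ, f (pd x y J L) = pd (fun s => f (x s)) (fun s => f (y s)) J L := by
  induction L with
  | nil =>
    intro J
    rw [pd_nil', pd_nil', map_zero]
  | cons c L ih =>
    intro J
    rw [pd_cons', pd_cons', map_sum]
    refine Finset.sum_congr rfl fun j _ => ?_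
    rw [map_add, map_mul, map_mul, ih, pm_map]

/-- the derivative is linear in the direction -/
lemma pd_lin (x y : ℕ → k) (N : ℕ) (L : List ℕ) : ∀ J : Finset ℕ,
    (∀ j ∈ J, ∀ c ∈ L, j + c < N) → pd x y J L = ∑ v ∈ range N, pd x (dl k v) J L * y v := by
  induction L with
  | nil =>
    intro J _
    simp only [pd_nil', zero_mul, Finset.sum_const_zero]
  | cons c L ih =>
    intro J hJ
    have h1 : ∀ v, pd x (dl k v) J (c :: L) * y v = ∑ j ∈ J, ((dl k v (j + c) * y v) *
        pm x (J.erase j) L + x (j + c) * (pd x (dl k v) (J.erase j) L * y v)) := by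
      intro v
      rw [pd_cons', Finset.sum_mul]
      refine Finset.sum_congr rfl fun j _ => ?_
      ring
    rw [pd_cons', Finset.sum_congr rfl fun v _ => h1 v, Finset.sum_comm]
    refine Finset.sum_congr rfl fun j hj => ?_
    have h2 : ∑ v ∈ range N, dl k v (j + c) * y v = y (j + c) := by
      rw [Finset.sum_eq_single (j + c)]
      · simp [dl]
      · intro v _ hv
        have h3 : ¬ (j + c = v) := fun h => hv h.symm
        simp [dl, h3]
      · intro h
        exact absurd (Finset.mem_range.2 (hJ j hj c List.mem_cons_self)) h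
    rw [Finset.sum_add_distrib, ← Finset.sum_mul, h2, ← Finset.mul_sum,
      ih (J.erase j) fun i hi d hd => hJ i (Finset.mem_of_mem_erase hi) d
        (List.mem_cons_of_mem _ hd)]

/-- a relation with integral coefficients -/
lemma rel (x : ℕ → ℤ) (y : ℕ → k) (N : ℕ) (J L : List ℕ) (co : ℕ → ℤ) (hJ : J.Nodup)
    (hb : ∀ j ∈ J, ∀ c ∈ L, j + c < N) (hco : ∀ v < N, pdL x (dl ℤ v) J L = co v)
    (h : pd (fun s => (x s : k)) y J.toFinset L = 0) : ∑ v ∈ range N, (co v : k) * y v = 0 := by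
  rw [← h, pd_lin _ y N L J.toFinset fun j hj c hc => hb j (List.mem_toFinset.1 hj) c hc]
  refine Finset.sum_congr rfl fun v hv => ?_
  have h1 := pd_map (Int.castRingHom k) x (dl ℤ v) L J.toFinset
  rw [pdL_eq x _ L J hJ, hco v (Finset.mem_range.1 hv)] at h1
  have h2 : (fun s => (Int.castRingHom k) (dl ℤ v s)) = dl k v := by
    funext s
    unfold dl
    split_ifs <;> simp
  rw [h2] at h1
  have h3 : (Int.castRingHom k) (co v) = (co v : k) := rfl
  rw [← h3, h1]
  rfl

/-! ### Membership -/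

lemma perm_range {L : List ℕ} {t : ℕ} (h1 : L.length = t) (h2 : L.Nodup) (h3 : ∀ c ∈ L, c < t) :
    L.Perm (List.range t) := by
  refine (List.perm_ext_iff_of_nodup h2 List.nodup_range).2 fun a => ?_
  have h4 : L.toFinset = range t := by
    refine Finset.eq_of_subset_of_card_le (fun c hc => ?_) ?_
    · exact Finset.mem_range.2 (h3 c (List.mem_toFinset.1 hc))
    · rw [Finset.card_range, List.toFinset_card_of_nodup h2, h1]
  rw [← List.mem_toFinset, h4, Finset.mem_range, List.mem_range]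

lemma mem_of (x : ℕ → ℤ) (n t : ℕ)
    (h : ∀ J ∈ (List.range n).sublistsLen t, pmL x J (List.range t) = 0) :
    ∀ J L, Sub n t t J L → pm (fun s => (x s : k)) J L = 0 := by
  rintro J L ⟨h1, h2, h3, h4, h5⟩
  rw [(Pool.Agent.N729.HP.BA.pm_perm _ (perm_range h2 h3 h5) J)]
  have e1 : ((List.range n).filter fun j => j ∈ J).toFinset = J := by
    ext a
    rw [List.mem_toFinset, List.mem_filter, List.mem_range, decide_eq_true_iff]
    exact ⟨fun h => h.2, fun h => ⟨h4 a h, h⟩⟩
  have e2 : ((List.range n).filter fun j => j ∈ J).Nodup := List.nodup_range.filter _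
  have e3 : ((List.range n).filter fun j => j ∈ J) ∈ (List.range n).sublistsLen t := by
    rw [List.mem_sublistsLen]
    refine ⟨List.filter_sublist, ?_⟩
    rw [← List.toFinset_card_of_nodup e2, e1, h1]
  have e4 := h _ e3
  rw [← pmL_eq x _ _ e2, e1] at e4
  have e5 := pm_map (Int.castRingHom k) x (List.range t) J
  rw [e4, map_zero] at e5
  exact e5.symm

end

/-! ### The case (6,9) -/

/-- the point -/
def x6 (v : ℕ) : ℤ :=
  if v = 0 then 1 else if v = 3 then 1 else if v = 4 then 1 else if v = 8 then -1 else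
    if v = 13 then -1 else 0

lemma m6 : ∀ J ∈ (List.range 9).sublistsLen 6, pmL x6 J (List.range 6) = 0 := by
  decide +kernel

lemma r6_1 {k : Type*} [Field k] (y : ℕ → k)
    (h : pd (fun s => (x6 s : k)) y ([0, 1, 2, 4, 5, 8] : List ℕ).toFinset (List.range 6) = 0) :
    (-1) * y 0 + (2) * y 4 + (1) * y 8 + (1) * y 10 = 0 := by
  have h1 := rel x6 y 14 [0, 1, 2, 4, 5, 8] (List.range 6)
    (fun v => ([-1, 0, 0, 0, 2, 0, 0, 0, 1, 0, 1, 0, 0, 0] : List ℤ).getD v 0) (by decide) (by decide)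
    (by decide +kernel) h
  simp [Finset.sum_range_succ] at h1
  linear_combination h1

lemma r6_2 {k : Type*} [Field k] (y : ℕ → k)
    (h : pd (fun s => (x6 s : k)) y ([0, 1, 2, 3, 7, 8] : List ℕ).toFinset (List.range 6) = 0) :
    (1) * y 3 + (2) * y 8 + (-1) * y 11 + (-1) * y 13 = 0 := by
  have h1 := rel x6 y 14 [0, 1, 2, 3, 7, 8] (List.range 6)
    (fun v => ([0, 0, 0, 1, 0, 0, 0, 0, 2, 0, 0, -1, 0, -1] : List ℤ).getD v 0) (by decide) (by decide)
    (by decide +kernel) h
  simp [Finset.sum_range_succ] at h1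
  linear_combination h1

lemma r6_3 {k : Type*} [Field k] (y : ℕ → k)
    (h : pd (fun s => (x6 s : k)) y ([0, 1, 2, 3, 4, 5] : List ℕ).toFinset (List.range 6) = 0) :
    (-1) * y 0 + (2) * y 4 + (2) * y 5 + (1) * y 8 + (-2) * y 9 + (-1) * y 10 = 0 := by
  have h1 := rel x6 y 14 [0, 1, 2, 3, 4, 5] (List.range 6)
    (fun v => ([-1, 0, 0, 0, 2, 2, 0, 0, 1, -2, -1, 0, 0, 0] : List ℤ).getD v 0) (by decide) (by decide)
    (by decide +kernel) h
  simp [Finset.sum_range_succ] at h1
  linear_combination h1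

lemma r6_4 {k : Type*} [Field k] (y : ℕ → k)
    (h : pd (fun s => (x6 s : k)) y ([0, 1, 2, 3, 5, 6] : List ℕ).toFinset (List.range 6) = 0) :
    (-1) * y 1 + (2) * y 6 + (1) * y 9 + (-1) * y 11 = 0 := by
  have h1 := rel x6 y 14 [0, 1, 2, 3, 5, 6] (List.range 6)
    (fun v => ([0, -1, 0, 0, 0, 0, 2, 0, 0, 1, 0, -1, 0, 0] : List ℤ).getD v 0) (by decide) (by decide)
    (by decide +kernel) h
  simp [Finset.sum_range_succ] at h1
  linear_combination h1

lemma r6_5 {k : Type*} [Field k] (y : ℕ → k)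
    (h : pd (fun s => (x6 s : k)) y ([0, 1, 2, 5, 6, 8] : List ℕ).toFinset (List.range 6) = 0) :
    (-1) * y 1 + (1) * y 9 + (2) * y 10 + (1) * y 11 = 0 := by
  have h1 := rel x6 y 14 [0, 1, 2, 5, 6, 8] (List.range 6)
    (fun v => ([0, -1, 0, 0, 0, 0, 0, 0, 0, 1, 2, 1, 0, 0] : List ℤ).getD v 0) (by decide) (by decide)
    (by decide +kernel) h
  simp [Finset.sum_range_succ] at h1
  linear_combination h1

lemma r6_6 {k : Type*} [Field k] (y : ℕ → k)
    (h : pd (fun s => (x6 s : k)) y ([0, 1, 2, 4, 6, 8] : List ℕ).toFinset (List.range 6) = 0) :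
    (-1) * y 0 + (-1) * y 1 + (2) * y 4 + (1) * y 8 + (1) * y 9 + (-1) * y 10 + (1) * y 11 = 0 := by
  have h1 := rel x6 y 14 [0, 1, 2, 4, 6, 8] (List.range 6)
    (fun v => ([-1, -1, 0, 0, 2, 0, 0, 0, 1, 1, -1, 1, 0, 0] : List ℤ).getD v 0) (by decide) (by decide)
    (by decide +kernel) h
  simp [Finset.sum_range_succ] at h1
  linear_combination h1

lemma r6_7 {k : Type*} [Field k] (y : ℕ → k)
    (h : pd (fun s => (x6 s : k)) y ([0, 1, 2, 3, 6, 7] : List ℕ).toFinset (List.range 6) = 0) :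
    (-1) * y 2 + (2) * y 7 + (1) * y 10 + (-1) * y 12 = 0 := by
  have h1 := rel x6 y 14 [0, 1, 2, 3, 6, 7] (List.range 6)
    (fun v => ([0, 0, -1, 0, 0, 0, 0, 2, 0, 0, 1, 0, -1, 0] : List ℤ).getD v 0) (by decide) (by decide)
    (by decide +kernel) h
  simp [Finset.sum_range_succ] at h1
  linear_combination h1

lemma r6_8 {k : Type*} [Field k] (y : ℕ → k)
    (h : pd (fun s => (x6 s : k)) y ([0, 1, 2, 6, 7, 8] : List ℕ).toFinset (List.range 6) = 0) :
    (-1) * y 2 + (1) * y 10 + (2) * y 11 + (1) * y 12 = 0 := by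
  have h1 := rel x6 y 14 [0, 1, 2, 6, 7, 8] (List.range 6)
    (fun v => ([0, 0, -1, 0, 0, 0, 0, 0, 0, 0, 1, 2, 1, 0] : List ℤ).getD v 0) (by decide) (by decide)
    (by decide +kernel) h
  simp [Finset.sum_range_succ] at h1
  linear_combination h1

lemma r6_9 {k : Type*} [Field k] (y : ℕ → k)
    (h : pd (fun s => (x6 s : k)) y ([0, 1, 3, 4, 7, 8] : List ℕ).toFinset (List.range 6) = 0) :
    (-1) * y 3 + (2) * y 7 + (-2) * y 8 + (-1) * y 11 + (2) * y 12 + (1) * y 13 = 0 := by
  have h1 := rel x6 y 14 [0, 1, 3, 4, 7, 8] (List.range 6)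
    (fun v => ([0, 0, 0, -1, 0, 0, 0, 2, -2, 0, 0, -1, 2, 1] : List ℤ).getD v 0) (by decide) (by decide)
    (by decide +kernel) h
  simp [Finset.sum_range_succ] at h1
  linear_combination h1

lemma r6_10 {k : Type*} [Field k] (y : ℕ → k)
    (h : pd (fun s => (x6 s : k)) y ([0, 1, 2, 3, 4, 8] : List ℕ).toFinset (List.range 6) = 0) :
    (1) * y 0 + (1) * y 1 + (1) * y 2 + (1) * y 3 + (-2) * y 4 + (1) * y 8 + (-1) * y 9 + (-1) * y 12 + (-1) * y 13 = 0 := by
  have h1 := rel x6 y 14 [0, 1, 2, 3, 4, 8] (List.range 6)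
    (fun v => ([1, 1, 1, 1, -2, 0, 0, 0, 1, -1, 0, 0, -1, -1] : List ℤ).getD v 0) (by decide) (by decide)
    (by decide +kernel) h
  simp [Finset.sum_range_succ] at h1
  linear_combination h1


lemma z4 {k : Type*} [Field k] (h2 : (2 : k) ≠ 0) {a : k} (h : 4 * a = 0) : a = 0 := by
  have h4 : (4 : k) ≠ 0 := by
    have : (4 : k) = 2 * 2 := by norm_num
    rw [this]
    exact mul_ne_zero h2 h2
  exact (mul_eq_zero.1 h).resolve_left h4

lemma z2 {k : Type*} [Field k] (h2 : (2 : k) ≠ 0) {a : k} (h : 2 * a = 0) : a = 0 :=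
  (mul_eq_zero.1 h).resolve_left h2

lemma sub_of {n t : ℕ} {J : List ℕ} (h1 : J.Nodup) (h2 : J.length = t) (h3 : ∀ j ∈ J, j < n) :
    Sub n t t J.toFinset (List.range t) :=
  ⟨by rw [List.toFinset_card_of_nodup h1, h2], List.length_range, List.nodup_range,
    fun j hj => h3 j (List.mem_toFinset.1 hj), fun _ hc => List.mem_range.1 hc⟩

lemma f6 {k : Type*} [Field k] (h2 : (2 : k) ≠ 0) (y : ℕ → k) (hS : ∀ s ∈ ({4, 8, 9, 13} : Finset ℕ),
    y s = 0) (h : ∀ J L, Sub 9 6 6 J L → pd (fun s => (x6 s : k)) y J L = 0) :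
    ∀ v < 14, y v = 0 := by
  have a4 : y 4 = 0 := hS 4 (by decide)
  have a8 : y 8 = 0 := hS 8 (by decide)
  have a9 : y 9 = 0 := hS 9 (by decide)
  have a13 : y 13 = 0 := hS 13 (by decide)
  have e1 := r6_1 y (h _ _ (sub_of (by decide) (by decide) (by decide)))
  have e2 := r6_2 y (h _ _ (sub_of (by decide) (by decide) (by decide)))
  have e3 := r6_3 y (h _ _ (sub_of (by decide) (by decide) (by decide)))
  have e4 := r6_4 y (h _ _ (sub_of (by decide) (by decide) (by decide)))
  have e5 := r6_5 y (h _ _ (sub_of (by decide) (by decide) (by decide)))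
  have e6 := r6_6 y (h _ _ (sub_of (by decide) (by decide) (by decide)))
  have e7 := r6_7 y (h _ _ (sub_of (by decide) (by decide) (by decide)))
  have e8 := r6_8 y (h _ _ (sub_of (by decide) (by decide) (by decide)))
  have e9 := r6_9 y (h _ _ (sub_of (by decide) (by decide) (by decide)))
  have e10 := r6_10 y (h _ _ (sub_of (by decide) (by decide) (by decide)))
  rw [a4, a8] at e1
  rw [a8, a13] at e2
  rw [a4, a8, a9] at e3
  rw [a9] at e4 e5
  rw [a4, a8, a9] at e6
  rw [a8, a13] at e9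
  rw [a4, a8, a9, a13] at e10
  have b0 : y 0 = 0 := by
    refine z4 h2 ?_
    linear_combination e5 - e6 - 3 * e1
  have b10 : y 10 = 0 := by linear_combination e1 + b0
  have b5 : y 5 = 0 := z2 h2 (by linear_combination e3 + b0 + b10)
  have b12 : y 12 = 0 := z4 h2 (by linear_combination e9 - e7 + e8 + e2)
  have b3 : y 3 = 0 := z4 h2 (by linear_combination e10 + e5 + e8 + 3 * e2 - b0 - 3 * b10)
  have b11 : y 11 = 0 := by linear_combination b3 - e2
  have b1 : y 1 = 0 := by linear_combination 2 * b10 + b11 - e5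
  have b2 : y 2 = 0 := by linear_combination b10 + 2 * b11 + b12 - e8
  have b7 : y 7 = 0 := z2 h2 (by linear_combination e7 + b2 - b10 + b12)
  have b6 : y 6 = 0 := z2 h2 (by linear_combination e4 + b1 + b11)
  intro v hv
  interval_cases v <;> assumption

/-! ### The case (7,10) -/

/-- the point -/
def x7 (v : ℕ) : ℤ :=
  if v = 1 then 1 else if v = 4 then 1 else if v = 10 then 1 else if v = 13 then -1 else 0

lemma x7_eq (k : Type*) [Field k] : (fun s => (x7 s : k)) = qY k 7 1 3 := by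
  funext s
  unfold x7 qY
  have e1 : s + 1 = 1 + 3 + 7 ↔ s = 10 := by omega
  have e2 : s + 2 = 1 + 2 * 7 ↔ s = 13 := by omega
  have e3 : s = 1 + 3 ↔ s = 4 := by omega
  simp only [e1, e2, e3]
  split_ifs <;> simp

lemma r7_1 {k : Type*} [Field k] (y : ℕ → k)
    (h : pd (fun s => (x7 s : k)) y ([0, 1, 2, 3, 4, 5, 7] : List ℕ).toFinset
      (List.range 7) = 0) : (1) * y 1 + (-2) * y 4 + (1) * y 7 + (2) * y 10 + (1) * y 13 = 0 := by
  have h1 := rel x7 y 16 [0, 1, 2, 3, 4, 5, 7] (List.range 7)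
    (fun v => ([0, 1, 0, 0, -2, 0, 0, 1, 0, 0, 2, 0, 0, 1, 0, 0] : List ℤ).getD v 0) (by decide) (by decide)
    (by decide +kernel) h
  simp [Finset.sum_range_succ] at h1
  linear_combination h1

lemma f7 {k : Type*} [Field k] (y : ℕ → k)
    (hS : ∀ s ∈ ({4, 7, 10, 11, 13, 14} : Finset ℕ), y s = 0) (hR : RelY 7 3 1 3 y)
    (h : ∀ J L, Sub 10 7 7 J L → pd (fun s => (x7 s : k)) y J L = 0) : ∀ v < 16, y v = 0 := by
  have a4 : y 4 = 0 := hS 4 (by decide)
  have a7 : y 7 = 0 := hS 7 (by decide)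
  have a10 : y 10 = 0 := hS 10 (by decide)
  have a11 : y 11 = 0 := hS 11 (by decide)
  have a13 : y 13 = 0 := hS 13 (by decide)
  have a14 : y 14 = 0 := hS 14 (by decide)
  have b3 : y 3 = 0 := hR.z 0 (by decide) 3 (by decide)
  have b6 : y 6 = 0 := hR.z 0 (by decide) 6 (by decide)
  have b9 : y 9 = 0 := hR.z 6 (by decide) 3 (by decide)
  have b12 : y 12 = 0 := hR.z 6 (by decide) 6 (by decide)
  have c0 : y 0 + y 3 + y 6 = 0 := hR.p 0 (by decide) 0 (by decide)
  have c1 : y 8 - y 11 + y 14 = 0 := hR.m 6 (by decide) 2 (by decide) (by decide)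
  have c2 : y 5 - y 8 + y 11 = 0 := hR.m 3 (by decide) 2 (by decide) (by decide)
  have c3 : y 2 - y 5 + y 8 = 0 := hR.m 0 (by decide) 2 (by decide) (by decide)
  have c4 : y 9 - y 12 + y 15 = 0 := hR.m 6 (by decide) 3 (by decide) (by decide)
  have e1 := r7_1 y (h _ _ (sub_of (by decide) (by decide) (by decide)))
  have b0 : y 0 = 0 := by linear_combination c0 - b3 - b6
  have b8 : y 8 = 0 := by linear_combination c1 + a11 - a14
  have b5 : y 5 = 0 := by linear_combination c2 + b8 - a11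
  have b2 : y 2 = 0 := by linear_combination c3 + b5 - b8
  have b15 : y 15 = 0 := by linear_combination c4 - b9 + b12
  have b1 : y 1 = 0 := by linear_combination e1 + 2 * a4 - a7 - 2 * a10 - a13
  intro v hv
  interval_cases v <;> assumption

/-! ### The case (8,11) -/

/-- the point -/
def x8 (v : ℕ) : ℤ :=
  if v = 1 then 1 else if v = 5 then 1 else if v = 12 then 1 else if v = 15 then -1 else 0

lemma x8_eq (k : Type*) [Field k] : (fun s => (x8 s : k)) = qY k 8 1 4 := by
  funext s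
  unfold x8 qY
  have e1 : s + 1 = 1 + 4 + 8 ↔ s = 12 := by omega
  have e2 : s + 2 = 1 + 2 * 8 ↔ s = 15 := by omega
  have e3 : s = 1 + 4 ↔ s = 5 := by omega
  simp only [e1, e2, e3]
  split_ifs <;> simp

lemma r8_1 {k : Type*} [Field k] (y : ℕ → k)
    (h : pd (fun s => (x8 s : k)) y ([0, 1, 2, 3, 4, 5, 6, 8] : List ℕ).toFinset
      (List.range 8) = 0) : (1) * y 1 + (-2) * y 5 + (2) * y 8 + (-1) * y 9 + (2) * y 12 + (1) * y 15 = 0 := by
  have h1 := rel x8 y 18 [0, 1, 2, 3, 4, 5, 6, 8] (List.range 8)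
    (fun v => ([0, 1, 0, 0, 0, -2, 0, 0, 2, -1, 0, 0, 2, 0, 0, 1, 0, 0] : List ℤ).getD v 0) (by decide) (by decide)
    (by decide +kernel) h
  simp [Finset.sum_range_succ] at h1
  linear_combination h1

lemma f8 {k : Type*} [Field k] (y : ℕ → k)
    (hS : ∀ s ∈ ({5, 8, 12, 13, 15, 16, 17} : Finset ℕ), y s = 0) (hR : RelY 8 3 1 4 y)
    (h : ∀ J L, Sub 11 8 8 J L → pd (fun s => (x8 s : k)) y J L = 0) : ∀ v < 18, y v = 0 := by
  have a5 : y 5 = 0 := hS 5 (by decide)
  have a8 : y 8 = 0 := hS 8 (by decide)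
  have a12 : y 12 = 0 := hS 12 (by decide)
  have a13 : y 13 = 0 := hS 13 (by decide)
  have a15 : y 15 = 0 := hS 15 (by decide)
  have a16 : y 16 = 0 := hS 16 (by decide)
  have a17 : y 17 = 0 := hS 17 (by decide)
  have b7 : y 7 = 0 := hR.z 0 (by decide) 7 (by decide)
  have b11 : y 11 = 0 := hR.z 4 (by decide) 7 (by decide)
  have b14 : y 14 = 0 := hR.z 7 (by decide) 7 (by decide)
  have c0 : y 0 + y 4 + y 7 = 0 := hR.p 0 (by decide) 0 (by decide)
  have c1 : y 4 + y 8 + y 11 = 0 := hR.p 4 (by decide) 0 (by decide)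
  have c2 : y 10 - y 14 + y 17 = 0 := hR.m 7 (by decide) 3 (by decide) (by decide)
  have c3 : y 3 - y 7 + y 10 = 0 := hR.m 0 (by decide) 3 (by decide) (by decide)
  have c4 : y 9 - y 13 + y 16 = 0 := hR.m 7 (by decide) 2 (by decide) (by decide)
  have c5 : y 6 - y 10 + y 13 = 0 := hR.m 4 (by decide) 2 (by decide) (by decide)
  have c6 : y 2 - y 6 + y 9 = 0 := hR.m 0 (by decide) 2 (by decide) (by decide)
  have e1 := r8_1 y (h _ _ (sub_of (by decide) (by decide) (by decide)))
  have b4 : y 4 = 0 := by linear_combination c1 - a8 - b11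
  have b0 : y 0 = 0 := by linear_combination c0 - b4 - b7
  have b10 : y 10 = 0 := by linear_combination c2 + b14 - a17
  have b3 : y 3 = 0 := by linear_combination c3 + b7 - b10
  have b9 : y 9 = 0 := by linear_combination c4 + a13 - a16
  have b6 : y 6 = 0 := by linear_combination c5 + b10 - a13
  have b2 : y 2 = 0 := by linear_combination c6 + b6 - b9
  have b1 : y 1 = 0 := by linear_combination e1 + 2 * a5 - 2 * a8 + b9 - 2 * a12 - a15
  intro v hv
  interval_cases v <;> assumption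

/-- FCc -/
theorem c (k : Type*) [Field k] (hJC : Pool.Agent.N729.HP.StmJC k) (hY1 : StmY1 k) :
    StmFCc k := by
  intro h2 t n N h hc
  rcases hc with ⟨rfl, rfl⟩ | ⟨rfl, rfl⟩ | ⟨rfl, rfl⟩
  · have hN : N = 14 := by omega
    subst hN
    exact hJC 14 9 6 6 h (by norm_num) (by norm_num) (by norm_num) (fun s => (x6 s : k))
      (mem_of x6 9 6 m6) {4, 8, 9, 13} (by decide) fun y hS hd => f6 h2 y hS hd
  · have hN : N = 16 := by omega
    subst hN
    obtain ⟨k1, k2⟩ := hY1 h2 7 3 1 3 (by norm_num) (by norm_num) (by norm_num) (by norm_num)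
      (by norm_num) (by norm_num)
    rw [← x7_eq] at k1 k2
    exact hJC 16 10 7 7 h (by norm_num) (by norm_num) (by norm_num) (fun s => (x7 s : k))
      k1 {4, 7, 10, 11, 13, 14} (by decide) fun y hS hd => f7 y hS (k2 y hd) hd
  · have hN : N = 18 := by omega
    subst hN
    obtain ⟨k1, k2⟩ := hY1 h2 8 3 1 4 (by norm_num) (by norm_num) (by norm_num) (by norm_num)
      (by norm_num) (by norm_num)
    rw [← x8_eq] at k1 k2
    exact hJC 18 11 8 8 h (by norm_num) (by norm_num) (by norm_num) (fun s => (x8 s : k))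
      k1 {5, 8, 12, 13, 15, 16, 17} (by decide) fun y hS hd => f8 y hS (k2 y hd) hd

end Pool.Agent.N633.HB.FCc

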