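import Pool.Agent.N633.HB.Stm
import Pool.Agent.N729.HP.BA

/-!
Project HB (MP_9bc296_ag): `StmPX`, `StmLE`, `StmCE`: the permanent over the polynomial ring,
Laplace expansions. By helper678.
-/

set_option autoImplicit false

namespace Pool.Agent.N633.HB.LE

open Finset
open Pool.Agent.N186.HK (pm pm_nil pm_cons)
open Pool.Agent.N729.HP (pd StmBA)

section coeff

variable {D : Type*} [CommRing D]

/-- the sequence `x + ε y` -/
noncomputable def pe (x y : ℕ → D) (s : ℕ) : Polynomial D :=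
  Polynomial.C (x s) + Polynomial.X * Polynomial.C (y s)

lemma coeff_lin_zero (a b : D) (f : Polynomial D) :
    ((Polynomial.C a + Polynomial.X * Polynomial.C b) * f).coeff 0 = a * f.coeff 0 := by
  rw [add_mul, mul_assoc, Polynomial.coeff_add, Polynomial.coeff_C_mul, Polynomial.mul_coeff_zero,
    Polynomial.coeff_X_zero, zero_mul, add_zero]

lemma coeff_lin_succ (a b : D) (f : Polynomial D) (n : ℕ) :
    ((Polynomial.C a + Polynomial.X * Polynomial.C b) * f).coeff (n + 1) =
      b * f.coeff n + a * f.coeff (n + 1) := by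
  rw [add_mul, mul_assoc, Polynomial.coeff_add, Polynomial.coeff_C_mul, Polynomial.coeff_X_mul,
    Polynomial.coeff_C_mul, add_comm]

lemma coeff_mul_zero' (f g : Polynomial D) : (f * g).coeff 0 = f.coeff 0 * g.coeff 0 :=
  Polynomial.mul_coeff_zero f g

lemma coeff_mul_one' (f g : Polynomial D) :
    (f * g).coeff 1 = f.coeff 1 * g.coeff 0 + f.coeff 0 * g.coeff 1 := by
  rw [Polynomial.coeff_mul, Finset.Nat.antidiagonal_succ]
  simp
  ring

lemma coeff_mul_two' (f g : Polynomial D) :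
    (f * g).coeff 2 = f.coeff 2 * g.coeff 0 + f.coeff 1 * g.coeff 1 + f.coeff 0 * g.coeff 2 := by
  rw [Polynomial.coeff_mul, Finset.Nat.sum_antidiagonal_eq_sum_range_succ_mk]
  simp [Finset.sum_range_succ]
  ring

end coeff

theorem px (D : Type*) [CommRing D] : StmPX D := by
  intro x y J L
  induction L generalizing J with
  | nil =>
    rw [pm_nil, pm_nil]
    refine ⟨?_, ?_, ?_⟩
    · simp
    · rw [pd, Polynomial.coeff_one]
      simp
    · rw [p2, Polynomial.coeff_one]
      simp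
  | cons c L ih =>
    rw [pm_cons, pm_cons, pd, p2]
    simp only [Polynomial.finsetSum_coeff]
    refine ⟨Finset.sum_congr rfl fun i _ => ?_, Finset.sum_congr rfl fun i _ => ?_,
      Finset.sum_congr rfl fun i _ => ?_⟩
    · rw [coeff_lin_zero, (ih (J.erase i)).1]
    · rw [coeff_lin_succ, (ih (J.erase i)).1, (ih (J.erase i)).2.1]
    · rw [coeff_lin_succ, (ih (J.erase i)).2.1, (ih (J.erase i)).2.2]

section

variable {D : Type*} [CommRing D]

/-- reorganisation of a sum -/
lemma reorg (J : Finset ℕ) (l : ℕ) (F : ℕ → Finset ℕ → Finset ℕ → D) :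
    ∑ j ∈ J, ∑ K ∈ (J.erase j).powersetCard l, F j K ((J.erase j) \ K) =
      ∑ J₁ ∈ J.powersetCard (l + 1), ∑ j ∈ J₁, F j (J₁.erase j) (J \ J₁) := by
  rw [Finset.sum_sigma', Finset.sum_sigma']
  refine Finset.sum_bij' (fun a _ => ⟨insert a.1 a.2, a.1⟩) (fun a _ => ⟨a.2, a.1.erase a.2⟩)
    ?_ ?_ ?_ ?_ ?_
  · rintro ⟨j, K⟩ h
    simp only [Finset.mem_sigma, Finset.mem_powersetCard] at h ⊢
    obtain ⟨hj, hK, hc⟩ := h
    have hjK : j ∉ K := fun h => (Finset.mem_erase.1 (hK h)).1 rfl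
    refine ⟨⟨?_, ?_⟩, Finset.mem_insert_self _ _⟩
    · exact Finset.insert_subset hj (hK.trans (Finset.erase_subset _ _))
    · rw [Finset.card_insert_of_notMem hjK, hc]
  · rintro ⟨J₁, j⟩ h
    simp only [Finset.mem_sigma, Finset.mem_powersetCard] at h ⊢
    obtain ⟨⟨hJ, hc⟩, hj⟩ := h
    refine ⟨hJ hj, Finset.erase_subset_erase _ hJ, ?_⟩
    rw [Finset.card_erase_of_mem hj, hc]
    rfl
  · rintro ⟨j, K⟩ h
    simp only [Finset.mem_sigma, Finset.mem_powersetCard] at h
    obtain ⟨hj, hK, hc⟩ := h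
    have hjK : j ∉ K := fun h => (Finset.mem_erase.1 (hK h)).1 rfl
    simp only [Finset.erase_insert hjK]
  · rintro ⟨J₁, j⟩ h
    simp only [Finset.mem_sigma, Finset.mem_powersetCard] at h
    obtain ⟨⟨hJ, hc⟩, hj⟩ := h
    simp only [Finset.insert_erase hj]
  · rintro ⟨j, K⟩ h
    simp only [Finset.mem_sigma, Finset.mem_powersetCard] at h
    obtain ⟨hj, hK, hc⟩ := h
    have hjK : j ∉ K := fun h => (Finset.mem_erase.1 (hK h)).1 rfl
    simp only [Finset.erase_insert hjK]
    congr 1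
    ext a
    simp only [Finset.mem_sdiff, Finset.mem_erase, Finset.mem_insert]
    tauto

theorem le_pm (x : ℕ → D) (L₁ L₂ : List ℕ) : ∀ J : Finset ℕ,
    pm x J (L₁ ++ L₂) = ∑ J₁ ∈ J.powersetCard L₁.length, pm x J₁ L₁ * pm x (J \ J₁) L₂ := by
  induction L₁ with
  | nil =>
    intro J
    rw [List.nil_append, List.length_nil, Finset.powersetCard_zero, Finset.sum_singleton, pm_nil,
      one_mul, Finset.sdiff_empty]
  | cons c L₁ ih =>
    intro J
    rw [List.cons_append, pm_cons, List.length_cons]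
    have h1 : ∀ j ∈ J, x (j + c) * pm x (J.erase j) (L₁ ++ L₂) =
        ∑ K ∈ (J.erase j).powersetCard L₁.length,
          x (j + c) * (pm x K L₁ * pm x ((J.erase j) \ K) L₂) := by
      intro j _
      rw [ih, Finset.mul_sum]
    rw [Finset.sum_congr rfl h1,
      reorg J L₁.length (fun j K M => x (j + c) * (pm x K L₁ * pm x M L₂))]
    refine Finset.sum_congr rfl fun J₁ _ => ?_
    rw [pm_cons, Finset.sum_mul]
    refine Finset.sum_congr rfl fun j _ => ?_
    ring

theorem ce_pm (x : ℕ → D) (L : List ℕ) : ∀ (J : Finset ℕ), L.Nodup → J.card = L.length →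
    ∀ j ∈ J, pm x J L = ∑ c ∈ L.toFinset, x (j + c) * pm x (J.erase j) (L.erase c) := by
  induction L with
  | nil =>
    intro J _ hJ j hj
    rw [List.length_nil, Finset.card_eq_zero] at hJ
    rw [hJ] at hj
    exact absurd hj (Finset.notMem_empty j)
  | cons c L ih =>
    intro J hn hJ j hj
    obtain ⟨hc, hn'⟩ := List.nodup_cons.1 hn
    have hc' : c ∉ L.toFinset := fun h => hc (List.mem_toFinset.1 h)
    rw [pm_cons, List.toFinset_cons, Finset.sum_insert hc', List.erase_cons_head,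
      ← Finset.add_sum_erase J _ hj]
    congr 1
    have h1 : ∀ i ∈ J.erase j, x (i + c) * pm x (J.erase i) L =
        ∑ d ∈ L.toFinset, x (j + d) * (x (i + c) * pm x ((J.erase j).erase i) (L.erase d)) := by
      intro i hi
      obtain ⟨hij, hiJ⟩ := Finset.mem_erase.1 hi
      rw [ih (J.erase i) hn' (by rw [Finset.card_erase_of_mem hiJ, hJ]; rfl) j
        (Finset.mem_erase.2 ⟨Ne.symm hij, hj⟩), Finset.mul_sum]
      refine Finset.sum_congr rfl fun d _ => ?_
      rw [Finset.erase_right_comm]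
      ring
    rw [Finset.sum_congr rfl h1, Finset.sum_comm]
    refine Finset.sum_congr rfl fun d hd => ?_
    have hdc : c ≠ d := fun h => hc' (h ▸ hd)
    rw [← Finset.mul_sum, List.erase_cons_tail (by simpa using hdc), pm_cons]

end

theorem le (D : Type*) [CommRing D] : StmLE D := by
  have hp : ∀ (x y : ℕ → D) (J : Finset ℕ) (L₁ L₂ : List ℕ), pm (pe x y) J (L₁ ++ L₂) =
      ∑ J₁ ∈ J.powersetCard L₁.length, pm (pe x y) J₁ L₁ * pm (pe x y) (J \ J₁) L₂ :=
    fun x y J L₁ L₂ => le_pm (pe x y) L₁ L₂ J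
  have c0 : ∀ (x y : ℕ → D) (J : Finset ℕ) (L : List ℕ), (pm (pe x y) J L).coeff 0 = pm x J L :=
    fun x y J L => (px D x y J L).1
  have c1 : ∀ (x y : ℕ → D) (J : Finset ℕ) (L : List ℕ), (pm (pe x y) J L).coeff 1 = pd x y J L :=
    fun x y J L => (px D x y J L).2.1
  have c2 : ∀ (x y : ℕ → D) (J : Finset ℕ) (L : List ℕ), (pm (pe x y) J L).coeff 2 = p2 x y J L :=
    fun x y J L => (px D x y J L).2.2
  refine ⟨fun x J L₁ L₂ => le_pm x L₁ L₂ J, fun x y J L₁ L₂ => ?_, fun x y J L₁ L₂ => ?_,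
    fun x y L L' h J => ?_⟩
  · have h := congrArg (fun f : Polynomial D => f.coeff 1) (hp x y J L₁ L₂)
    simp only [Polynomial.finsetSum_coeff, coeff_mul_one', c0, c1] at h
    exact h
  · have h := congrArg (fun f : Polynomial D => f.coeff 2) (hp x y J L₁ L₂)
    simp only [Polynomial.finsetSum_coeff, coeff_mul_two', c0, c1, c2] at h
    exact h
  · have h1 := (Pool.Agent.N729.HP.BA.ta (Polynomial D)).1 (pe x y) L L' h J
    rw [← c2, ← c2, h1]

theorem ce (D : Type*) [CommRing D] : StmCE D := by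
  have hp : ∀ (x y : ℕ → D) (J : Finset ℕ) (L : List ℕ), L.Nodup → J.card = L.length → ∀ j ∈ J,
      pm (pe x y) J L = ∑ c ∈ L.toFinset,
        (Polynomial.C (x (j + c)) + Polynomial.X * Polynomial.C (y (j + c))) *
          pm (pe x y) (J.erase j) (L.erase c) :=
    fun x y J L h1 h2 j hj => ce_pm (pe x y) L J h1 h2 j hj
  have c0 : ∀ (x y : ℕ → D) (J : Finset ℕ) (L : List ℕ), (pm (pe x y) J L).coeff 0 = pm x J L :=
    fun x y J L => (px D x y J L).1
  have c1 : ∀ (x y : ℕ → D) (J : Finset ℕ) (L : List ℕ), (pm (pe x y) J L).coeff 1 = pd x y J L :=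
    fun x y J L => (px D x y J L).2.1
  have c2 : ∀ (x y : ℕ → D) (J : Finset ℕ) (L : List ℕ), (pm (pe x y) J L).coeff 2 = p2 x y J L :=
    fun x y J L => (px D x y J L).2.2
  refine ⟨fun x J L h1 h2 j hj => ce_pm x L J h1 h2 j hj, fun x y J L h1 h2 j hj => ?_,
    fun x y J L h1 h2 j hj => ?_⟩
  · have h := congrArg (fun f : Polynomial D => f.coeff 1) (hp x y J L h1 h2 j hj)
    simp only [Polynomial.finsetSum_coeff, c1] at h
    rw [h]
    refine Finset.sum_congr rfl fun c _ => ?_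
    rw [coeff_lin_succ, c0, c1]
  · have h := congrArg (fun f : Polynomial D => f.coeff 2) (hp x y J L h1 h2 j hj)
    simp only [Polynomial.finsetSum_coeff, c2] at h
    rw [h]
    refine Finset.sum_congr rfl fun c _ => ?_
    rw [coeff_lin_succ, c1, c2]

end Pool.Agent.N633.HB.LE
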