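import Pool.Agent.N633.HB.Stm2
import Pool.Agent.N633.HB.LE
import Pool.Agent.N729.HP.BC

/-!
Project HB (MP_9bc296_ag): `StmG2`, `StmKI`: relations for a zero block, pendant columns.
By helper655.
-/

set_option autoImplicit false

namespace Pool.Agent.N633.HB.G2

open Finset
open Pool.Agent.N186.HK (pm vm pm_nil pm_cons)
open Pool.Agent.N729.HP (pd Sub)

section

variable {k : Type*} [Field k]

/-- a permanent with a zero column -/
lemma pm_zero_col (x : ℕ → k) {J : Finset ℕ} {L : List ℕ} (hn : L.Nodup) (hJ : J.card = L.length)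
    {j : ℕ} (hj : j ∈ J) (h : ∀ c ∈ L, x (j + c) = 0) : pm x J L = 0 := by
  rw [(LE.ce k).1 x J L hn hJ j hj]
  refine Finset.sum_eq_zero fun c hc => ?_
  rw [h c (List.mem_toFinset.1 hc), zero_mul]

/-- the derivative of a permanent with a zero column -/
lemma pd_zero_col (x y : ℕ → k) {J : Finset ℕ} {L : List ℕ} (hn : L.Nodup)
    (hJ : J.card = L.length) {j : ℕ} (hj : j ∈ J) (h : ∀ c ∈ L, x (j + c) = 0) :
    pd x y J L = ∑ c ∈ L.toFinset, y (j + c) * pm x (J.erase j) (L.erase c) := by
  rw [(LE.ce k).2.1 x y J L hn hJ j hj]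
  refine Finset.sum_congr rfl fun c hc => ?_
  rw [h c (List.mem_toFinset.1 hc), zero_mul, add_zero]

/-- the derivative of a permanent with two zero columns -/
lemma pd_two_zero (x y : ℕ → k) {J : Finset ℕ} {L : List ℕ} (hn : L.Nodup)
    (hJ : J.card = L.length) {j j' : ℕ} (hj : j ∈ J) (hj' : j' ∈ J) (hne : j ≠ j')
    (h : ∀ c ∈ L, x (j + c) = 0) (h' : ∀ c ∈ L, x (j' + c) = 0) : pd x y J L = 0 := by
  rw [pd_zero_col x y hn hJ hj h]
  refine Finset.sum_eq_zero fun c hc => ?_
  have hcL := List.mem_toFinset.1 hc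
  rw [pm_zero_col x (hn.erase c) (by
    rw [Finset.card_erase_of_mem hj, List.length_erase_of_mem hcL, hJ])
    (Finset.mem_erase.2 ⟨hne.symm, hj'⟩) (fun d hd => h' d (List.mem_of_mem_erase hd)), mul_zero]

end

theorem g2 (k : Type*) [Field k] : StmG2 k := by
  intro n t x I R J0 hperm hJ0 hz h0 hinj
  have hnd : (I ++ R).Nodup := hperm.nodup_iff.2 List.nodup_range
  have hI : I.Nodup := (List.nodup_append.1 hnd).1
  have hlen : I.length + R.length = t := by
    have := hperm.length_eq
    rwa [List.length_append, List.length_range] at this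
  -- minors of the rows `I`
  have hmin : ∀ J₁ : Finset ℕ, (∀ j ∈ J₁, j < n) → J₁.card = I.length → pm x J₁ I = 0 := by
    intro J₁ hn hc
    by_cases hs : J₁ ⊆ J0
    · exact h0 J₁ hs hc
    · obtain ⟨j, hj, hj0⟩ := Finset.not_subset.1 hs
      exact pm_zero_col x hI hc hj fun c hc' => hz c hc' j (hn j hj) hj0
  refine ⟨?_, ?_⟩
  · rintro J L ⟨hJ, hL, hLn, hJn, hLt⟩
    have hp : L.Perm (I ++ R) := by
      refine List.Perm.trans ?_ hperm.symm
      refine List.perm_of_nodup_nodup_toFinset_eq hLn List.nodup_range ?_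
      rw [List.toFinset_range]
      refine Finset.eq_of_subset_of_card_le (fun c hc => ?_) ?_
      · exact Finset.mem_range.2 (hLt c (List.mem_toFinset.1 hc))
      · rw [Finset.card_range, List.toFinset_card_of_nodup hLn, hL]
    rw [(Pool.Agent.N729.HP.BA.ta k).1 x L (I ++ R) hp J, (LE.le k).1 x J I R]
    refine Finset.sum_eq_zero fun J₁ h₁ => ?_
    obtain ⟨hs, hc⟩ := Finset.mem_powersetCard.1 h₁
    rw [hmin J₁ (fun j hj => hJn j (hs hj)) hc, zero_mul]
  · intro y hy c₀ hc₀ J₂ hJ₂ hJ₂c
    refine hinj (fun c => ∑ j ∈ J₂, y (j + c) * pm x (J₂.erase j) R) ?_ c₀ hc₀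
    intro J₁ hJ₁ hJ₁c
    have hdisj : Disjoint J₁ J₂ := by
      rw [Finset.disjoint_left]
      intro j h1 h2
      exact (hJ₂ j h2).2 (hJ₁ h1)
    have hSub : Sub n t t (J₁ ∪ J₂) (I ++ R) := by
      refine ⟨?_, ?_, hnd, ?_, ?_⟩
      · rw [Finset.card_union_of_disjoint hdisj]
        omega
      · rw [List.length_append, hlen]
      · intro j hj
        rcases Finset.mem_union.1 hj with h | h
        · exact hJ0 j (hJ₁ h)
        · exact (hJ₂ j h).1
      · intro c hc
        exact List.mem_range.1 (hperm.mem_iff.1 hc)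
    have h1 := hy _ _ hSub
    rw [(LE.le k).2.1 x y (J₁ ∪ J₂) I R] at h1
    have hn : ∀ j ∈ J₁ ∪ J₂, j < n := hSub.2.2.2.1
    -- only the sets `insert j J₁` contribute
    have h2 : ∑ J' ∈ J₂.image (fun j => insert j J₁), (pd x y J' I * pm x ((J₁ ∪ J₂) \ J') R +
        pm x J' I * pd x y ((J₁ ∪ J₂) \ J') R) = 0 := by
      rw [← h1]
      refine Finset.sum_subset ?_ ?_
      · intro J' hJ'
        obtain ⟨j, hj, rfl⟩ := Finset.mem_image.1 hJ'
        have hj1 : j ∉ J₁ := fun h => Finset.disjoint_left.1 hdisj h hj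
        rw [Finset.mem_powersetCard]
        refine ⟨Finset.insert_subset (Finset.mem_union_right _ hj) Finset.subset_union_left, ?_⟩
        rw [Finset.card_insert_of_notMem hj1, hJ₁c]
      · intro J' hJ' hnot
        obtain ⟨hs, hc⟩ := Finset.mem_powersetCard.1 hJ'
        rw [hmin J' (fun j hj => hn j (hs hj)) hc, zero_mul, add_zero]
        have htwo : 1 < (J' ∩ J₂).card := by
          by_contra hle
          push Not at hle
          have e1 : J' = (J' ∩ J₁) ∪ (J' ∩ J₂) := by
            rw [← Finset.inter_union_distrib_left]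
            exact (Finset.inter_eq_left.2 hs).symm
          have e2 : J'.card ≤ (J' ∩ J₁).card + (J' ∩ J₂).card := by
            conv_lhs => rw [e1]
            exact Finset.card_union_le _ _
          have e3 : (J' ∩ J₁).card ≤ J₁.card := Finset.card_le_card Finset.inter_subset_right
          have e4 : J' ∩ J₁ = J₁ := Finset.eq_of_subset_of_card_le Finset.inter_subset_right (by omega)
          have e5 : (J' ∩ J₂).card = 1 := by omega
          obtain ⟨j, hj⟩ := Finset.card_eq_one.1 e5
          apply hnot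
          rw [Finset.mem_image]
          have hjm : j ∈ J' ∩ J₂ := by rw [hj]; exact Finset.mem_singleton_self j
          refine ⟨j, (Finset.mem_inter.1 hjm).2, ?_⟩
          rw [e1, e4, hj]
          ext a
          simp only [Finset.mem_insert, Finset.mem_union, Finset.mem_singleton]
          tauto
        obtain ⟨a, ha, b, hb, hab⟩ := Finset.one_lt_card.1 htwo
        obtain ⟨ha1, ha2⟩ := Finset.mem_inter.1 ha
        obtain ⟨hb1, hb2⟩ := Finset.mem_inter.1 hb
        rw [pd_two_zero x y hI hc ha1 hb1 hab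
          (fun c hc' => hz c hc' a (hJ₂ a ha2).1 (hJ₂ a ha2).2)
          (fun c hc' => hz c hc' b (hJ₂ b hb2).1 (hJ₂ b hb2).2), zero_mul]
    rw [Finset.sum_image] at h2
    · have h3 : ∀ j ∈ J₂, pd x y (insert j J₁) I * pm x ((J₁ ∪ J₂) \ insert j J₁) R +
          pm x (insert j J₁) I * pd x y ((J₁ ∪ J₂) \ insert j J₁) R =
          ∑ c ∈ I.toFinset, y (j + c) * pm x (J₂.erase j) R * pm x J₁ (I.erase c) := by
        intro j hj
        have hj1 : j ∉ J₁ := fun h => Finset.disjoint_left.1 hdisj h hj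
        have hc : (insert j J₁).card = I.length := by
          rw [Finset.card_insert_of_notMem hj1, hJ₁c]
        have hs : insert j J₁ ⊆ J₁ ∪ J₂ :=
          Finset.insert_subset (Finset.mem_union_right _ hj) Finset.subset_union_left
        rw [hmin _ (fun i hi => hn i (hs hi)) hc, zero_mul, add_zero,
          pd_zero_col x y hI hc (Finset.mem_insert_self j J₁)
            (fun c hc' => hz c hc' j (hJ₂ j hj).1 (hJ₂ j hj).2), Finset.erase_insert hj1,
          Finset.sum_mul]
        have e : (J₁ ∪ J₂) \ insert j J₁ = J₂.erase j := by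
          ext a
          simp only [Finset.mem_sdiff, Finset.mem_union, Finset.mem_insert, Finset.mem_erase]
          constructor
          · rintro ⟨h4 | h4, h5⟩
            · exact absurd (Or.inr h4) h5
            · exact ⟨fun h => h5 (Or.inl h), h4⟩
          · rintro ⟨h4, h5⟩
            refine ⟨Or.inr h5, ?_⟩
            rintro (h6 | h6)
            · exact h4 h6
            · exact Finset.disjoint_left.1 hdisj h6 h5
        rw [e]
        refine Finset.sum_congr rfl fun c _ => ?_
        ring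
      rw [Finset.sum_congr rfl h3, Finset.sum_comm] at h2
      rw [← h2]
      refine Finset.sum_congr rfl fun c _ => ?_
      rw [Finset.sum_mul]
    · intro a ha b hb hab
      have ha1 : a ∉ J₁ := fun h => Finset.disjoint_left.1 hdisj h ha
      have : a ∈ insert b J₁ := by
        have := Finset.mem_insert_self a J₁
        simp only at hab
        rwa [hab] at this
      rcases Finset.mem_insert.1 this with h | h
      · exact h
      · exact absurd h ha1

section ki

variable {k : Type*} [Field k]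

lemma pm_single (x : ℕ → k) (b ρ : ℕ) : pm x {b} [ρ] = x (b + ρ) := by
  rw [pm_cons, Finset.sum_singleton, pm_nil, mul_one]

lemma pm_pair (x : ℕ → k) {b b' : ℕ} (h : b ≠ b') (ρ ρ' : ℕ) :
    pm x {b, b'} [ρ, ρ'] = x (b + ρ) * x (b' + ρ') + x (b' + ρ) * x (b + ρ') := by
  rw [pm_cons, Finset.sum_pair h]
  have e1 : ({b, b'} : Finset ℕ).erase b = {b'} := by
    ext a
    simp only [Finset.mem_erase, Finset.mem_insert, Finset.mem_singleton]
    constructor
    · rintro ⟨h1, h2 | h2⟩
      · exact absurd h2 h1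
      · exact h2
    · intro h1
      exact ⟨fun h2 => h (h2.symm.trans h1), Or.inr h1⟩
  have e2 : ({b, b'} : Finset ℕ).erase b' = {b} := by
    ext a
    simp only [Finset.mem_erase, Finset.mem_insert, Finset.mem_singleton]
    constructor
    · rintro ⟨h1, h2 | h2⟩
      · exact h2
      · exact absurd h2 h1
    · intro h1
      exact ⟨fun h2 => h (h1.symm.trans h2), Or.inl h1⟩
  rw [e1, e2, pm_single, pm_single]

variable {x : ℕ → k} {π : ℕ → ℕ}

/-- the identity matrix -/
lemma pm_id : ∀ S : List ℕ, S.Nodup →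
    (∀ ρ ∈ S, ∀ ρ' ∈ S, x (π ρ + ρ') = if ρ = ρ' then 1 else 0) →
    pm x (S.toFinset.image π) S = 1 := by
  intro S
  induction S with
  | nil => intro _ _; rw [pm_nil]
  | cons c S ih =>
    intro hn h
    obtain ⟨hc, hn'⟩ := List.nodup_cons.1 hn
    have hne : ∀ ρ ∈ S, π ρ ≠ π c := by
      intro ρ hρ he
      have h1 := h ρ (List.mem_cons_of_mem _ hρ) c List.mem_cons_self
      have h2 := h c List.mem_cons_self c List.mem_cons_self
      rw [he, h2, if_pos rfl, if_neg (fun e : ρ = c => hc (e ▸ hρ))] at h1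
      exact one_ne_zero h1
    have hnm : π c ∉ S.toFinset.image π := by
      intro hm
      obtain ⟨ρ, hρ, he⟩ := Finset.mem_image.1 hm
      exact hne ρ (List.mem_toFinset.1 hρ) he
    rw [pm_cons, List.toFinset_cons, Finset.image_insert, Finset.sum_insert hnm,
      Finset.erase_insert hnm, ih hn' (fun ρ hρ ρ' hρ' => h ρ (List.mem_cons_of_mem _ hρ) ρ'
        (List.mem_cons_of_mem _ hρ')), h c List.mem_cons_self c List.mem_cons_self, if_pos rfl,
      one_mul, Finset.sum_eq_zero, add_zero]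
    intro j hj
    obtain ⟨ρ, hρ, rfl⟩ := Finset.mem_image.1 hj
    have hρ' := List.mem_toFinset.1 hρ
    rw [h ρ (List.mem_cons_of_mem _ hρ') c List.mem_cons_self, if_neg (fun e : ρ = c => hc (e ▸ hρ')),
      zero_mul]

/-- reduction to the rows `S'` -/
lemma pm_red {R S' S : List ℕ} {E' : Finset ℕ} (hR : R.Nodup) (hp : R.Perm (S' ++ S))
    (h : ∀ ρ ∈ R, ∀ ρ' ∈ R, x (π ρ + ρ') = if ρ = ρ' then 1 else 0)
    (hE : ∀ ρ ∈ R, π ρ ∉ E') (hc : E'.card = S'.length) :
    pm x (E' ∪ S.toFinset.image π) R = pm x E' S' := by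
  have hnd : (S' ++ S).Nodup := hp.nodup_iff.1 hR
  obtain ⟨-, hS, hd⟩ := List.nodup_append.1 hnd
  have hmS : ∀ ρ ∈ S, ρ ∈ R := fun ρ hρ => hp.mem_iff.2 (List.mem_append_right _ hρ)
  have hmS' : ∀ ρ ∈ S', ρ ∈ R := fun ρ hρ => hp.mem_iff.2 (List.mem_append_left _ hρ)
  rw [(Pool.Agent.N729.HP.BA.ta k).1 x R (S' ++ S) hp,
    Pool.Agent.N729.HP.BC.tt k x E' (S.toFinset.image π) S' S ?_ ?_ hc,
    pm_id S hS (fun ρ hρ ρ' hρ' => h ρ (hmS ρ hρ) ρ' (hmS ρ' hρ')), mul_one]
  · rw [Finset.disjoint_left]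
    intro j hj hj'
    obtain ⟨ρ, hρ, rfl⟩ := Finset.mem_image.1 hj'
    exact hE ρ (hmS ρ (List.mem_toFinset.1 hρ)) hj
  · intro c hc' j hj
    obtain ⟨ρ, hρ, rfl⟩ := Finset.mem_image.1 hj
    have hρ' := List.mem_toFinset.1 hρ
    rw [h ρ (hmS ρ hρ') c (hmS' c hc'), if_neg]
    rintro rfl
    exact hd ρ hc' ρ hρ' rfl

end ki

theorem ki (k : Type*) [Field k] : StmKI k := by
  intro h2 x u R π E hR h hE hrel
  have hinj : ∀ ρ ∈ R, ∀ ρ' ∈ R, π ρ = π ρ' → ρ = ρ' := by
    intro ρ hρ ρ' hρ' he
    by_contra hne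
    have h1 := h ρ hρ ρ' hρ'
    have h3 := h ρ' hρ' ρ' hρ'
    rw [he, h3, if_pos rfl, if_neg hne] at h1
    exact one_ne_zero h1
  have K1 : ∀ b ∈ E, u b = - ∑ ρ ∈ R.toFinset, u (π ρ) * x (b + ρ) := by
    intro b hb
    have hbn : b ∉ R.toFinset.image π := by
      intro hm
      obtain ⟨ρ, hρ, he⟩ := Finset.mem_image.1 hm
      exact hE ρ (List.mem_toFinset.1 hρ) (he ▸ hb)
    have hcard : (insert b (R.toFinset.image π)).card = R.length + 1 := by
      rw [Finset.card_insert_of_notMem hbn, Finset.card_image_of_injOn,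
        List.toFinset_card_of_nodup hR]
      intro ρ hρ ρ' hρ' he
      exact hinj ρ (List.mem_toFinset.1 hρ) ρ' (List.mem_toFinset.1 hρ') he
    have h1 := hrel (insert b (R.toFinset.image π)) (by
      refine Finset.insert_subset (Finset.mem_union_right _ hb) Finset.subset_union_left) hcard
    rw [Finset.sum_insert hbn, Finset.erase_insert hbn, pm_id R hR h, mul_one,
      Finset.sum_image (fun ρ hρ ρ' hρ' he => hinj ρ (List.mem_toFinset.1 hρ) ρ'
        (List.mem_toFinset.1 hρ') he)] at h1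
    have h3 : ∑ ρ ∈ R.toFinset, u (π ρ) * pm x ((insert b (R.toFinset.image π)).erase (π ρ)) R =
        ∑ ρ ∈ R.toFinset, u (π ρ) * x (b + ρ) := by
      refine Finset.sum_congr rfl fun ρ hρ => ?_
      have hρ' := List.mem_toFinset.1 hρ
      have e : (insert b (R.toFinset.image π)).erase (π ρ) =
          {b} ∪ (R.erase ρ).toFinset.image π := by
        ext a
        simp only [Finset.mem_erase, Finset.mem_insert, Finset.mem_image, List.mem_toFinset,
          Finset.mem_union, Finset.mem_singleton]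
        constructor
        · rintro ⟨h4, h5 | ⟨σ, hσ, rfl⟩⟩
          · exact Or.inl h5
          · exact Or.inr ⟨σ, (List.mem_erase_of_ne (fun e => h4 (by rw [e]))).2 hσ, rfl⟩
        · rintro (rfl | ⟨σ, hσ, rfl⟩)
          · exact ⟨fun e => hE ρ hρ' (e ▸ hb), Or.inl rfl⟩
          · refine ⟨fun e => ?_, Or.inr ⟨σ, List.mem_of_mem_erase hσ, rfl⟩⟩
            have := hinj σ (List.mem_of_mem_erase hσ) ρ hρ' e
            rw [this] at hσ
            exact hR.not_mem_erase hσ
      rw [e, pm_red (S' := [ρ]) (S := R.erase ρ) hR (List.perm_cons_erase hρ') h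
        (fun σ hσ hm => hE σ hσ ((Finset.mem_singleton.1 hm) ▸ hb)) rfl, pm_single]
    rw [h3] at h1
    linear_combination h1
  refine ⟨K1, ?_⟩
  intro ρ hρ b hb b' hb' hbb hxb hxb'
  have hS : (R.erase ρ).Nodup := hR.erase ρ
  have hSm : ∀ σ ∈ R.erase ρ, σ ∈ R := fun σ hσ => List.mem_of_mem_erase hσ
  have hSne : ∀ σ ∈ R.erase ρ, σ ≠ ρ := fun σ hσ e => hR.not_mem_erase (e ▸ hσ)
  have hnI : ∀ a ∈ E, a ∉ (R.erase ρ).toFinset.image π := by
    intro a ha hm
    obtain ⟨σ, hσ, he⟩ := Finset.mem_image.1 hm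
    exact hE σ (hSm σ (List.mem_toFinset.1 hσ)) (he ▸ ha)
  have hb1 : b' ∉ (R.erase ρ).toFinset.image π := hnI b' hb'
  have hb2 : b ∉ insert b' ((R.erase ρ).toFinset.image π) := by
    rw [Finset.mem_insert]
    rintro (h3 | h3)
    · exact hbb h3
    · exact hnI b hb h3
  have hcard : (insert b (insert b' ((R.erase ρ).toFinset.image π))).card = R.length + 1 := by
    rw [Finset.card_insert_of_notMem hb2, Finset.card_insert_of_notMem hb1,
      Finset.card_image_of_injOn, List.toFinset_card_of_nodup hS, List.length_erase_of_mem hρ]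
    · have := List.length_pos_of_mem hρ
      omega
    · intro σ hσ σ' hσ' he
      exact hinj σ (hSm σ (List.mem_toFinset.1 hσ)) σ' (hSm σ' (List.mem_toFinset.1 hσ')) he
  have h1 := hrel (insert b (insert b' ((R.erase ρ).toFinset.image π))) (by
    refine Finset.insert_subset (Finset.mem_union_right _ hb)
      (Finset.insert_subset (Finset.mem_union_right _ hb') ?_)
    refine (Finset.image_subset_image ?_).trans Finset.subset_union_left
    intro σ hσ
    exact List.mem_toFinset.2 (hSm σ (List.mem_toFinset.1 hσ))) hcard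
  rw [Finset.sum_insert hb2, Finset.sum_insert hb1, Finset.erase_insert hb2,
    Finset.sum_image (fun σ hσ σ' hσ' he => hinj σ (hSm σ (List.mem_toFinset.1 hσ)) σ'
      (hSm σ' (List.mem_toFinset.1 hσ')) he)] at h1
  have t1 : pm x (insert b' ((R.erase ρ).toFinset.image π)) R = x (b' + ρ) := by
    rw [Finset.insert_eq, pm_red (S' := [ρ]) (S := R.erase ρ) hR (List.perm_cons_erase hρ) h
      (fun σ hσ hm => hE σ hσ ((Finset.mem_singleton.1 hm) ▸ hb')) rfl, pm_single]
  have t2 : pm x ((insert b (insert b' ((R.erase ρ).toFinset.image π))).erase b') R =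
      x (b + ρ) := by
    have e : (insert b (insert b' ((R.erase ρ).toFinset.image π))).erase b' =
        {b} ∪ (R.erase ρ).toFinset.image π := by
      ext a
      simp only [Finset.mem_erase, Finset.mem_insert, Finset.mem_union, Finset.mem_singleton]
      constructor
      · rintro ⟨h4, h5 | h5 | h5⟩
        · exact Or.inl h5
        · exact absurd h5 h4
        · exact Or.inr h5
      · rintro (h5 | h5)
        · exact ⟨fun e => hbb (h5.symm.trans e), Or.inl h5⟩
        · exact ⟨fun e => hb1 (e ▸ h5), Or.inr (Or.inr h5)⟩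
    rw [e, pm_red (S' := [ρ]) (S := R.erase ρ) hR (List.perm_cons_erase hρ) h
      (fun σ hσ hm => hE σ hσ ((Finset.mem_singleton.1 hm) ▸ hb)) rfl, pm_single]
  have t3 : ∀ σ ∈ (R.erase ρ).toFinset,
      u (π σ) * pm x ((insert b (insert b' ((R.erase ρ).toFinset.image π))).erase (π σ)) R =
      u (π σ) * (x (b + ρ) * x (b' + σ) + x (b' + ρ) * x (b + σ)) := by
    intro σ hσ
    have hσ' := List.mem_toFinset.1 hσ
    have hσR := hSm σ hσ'
    have e : (insert b (insert b' ((R.erase ρ).toFinset.image π))).erase (π σ) =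
        {b, b'} ∪ ((R.erase ρ).erase σ).toFinset.image π := by
      ext a
      simp only [Finset.mem_erase, Finset.mem_insert, Finset.mem_image, List.mem_toFinset,
        Finset.mem_union, Finset.mem_singleton]
      constructor
      · rintro ⟨h4, h5 | h5 | ⟨τ, hτ, rfl⟩⟩
        · exact Or.inl (Or.inl h5)
        · exact Or.inl (Or.inr h5)
        · exact Or.inr ⟨τ, (List.mem_erase_of_ne (fun e => h4 (by rw [e]))).2 hτ, rfl⟩
      · rintro ((rfl | rfl) | ⟨τ, hτ, rfl⟩)
        · exact ⟨fun e => hE σ hσR (e ▸ hb), Or.inl rfl⟩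
        · exact ⟨fun e => hE σ hσR (e ▸ hb'), Or.inr (Or.inl rfl)⟩
        · have hτ' := List.mem_of_mem_erase hτ
          refine ⟨fun e => ?_, Or.inr (Or.inr ⟨τ, hτ', rfl⟩)⟩
          have := hinj τ (hSm τ hτ') σ hσR e
          rw [this] at hτ
          exact hS.not_mem_erase hτ
    have hp : R.Perm ([ρ, σ] ++ (R.erase ρ).erase σ) :=
      (List.perm_cons_erase hρ).trans ((List.perm_cons_erase hσ').cons ρ)
    rw [e, pm_red (S' := [ρ, σ]) (S := (R.erase ρ).erase σ) hR hp h ?_ (Finset.card_pair hbb),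
      pm_pair x hbb]
    intro τ hτ hm
    rcases Finset.mem_insert.1 hm with h4 | h4
    · exact hE τ hτ (h4 ▸ hb)
    · exact hE τ hτ ((Finset.mem_singleton.1 h4) ▸ hb')
  rw [t1, t2, Finset.sum_congr rfl t3] at h1
  have e1 := K1 b hb
  have e2 := K1 b' hb'
  have hins : R.toFinset = insert ρ (R.erase ρ).toFinset := by
    ext a
    simp only [List.mem_toFinset, Finset.mem_insert]
    constructor
    · intro ha
      by_cases hae : a = ρ
      · exact Or.inl hae
      · exact Or.inr ((List.mem_erase_of_ne hae).2 ha)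
    · rintro (rfl | ha)
      · exact hρ
      · exact hSm a ha
  have hρn : ρ ∉ (R.erase ρ).toFinset := fun hm => hR.not_mem_erase (List.mem_toFinset.1 hm)
  rw [hins, Finset.sum_insert hρn] at e1 e2
  rw [e1, e2] at h1
  have h3 : ∑ σ ∈ (R.erase ρ).toFinset,
      u (π σ) * (x (b + ρ) * x (b' + σ) + x (b' + ρ) * x (b + σ)) =
      x (b + ρ) * ∑ σ ∈ (R.erase ρ).toFinset, u (π σ) * x (b' + σ) +
      x (b' + ρ) * ∑ σ ∈ (R.erase ρ).toFinset, u (π σ) * x (b + σ) := by
    rw [Finset.mul_sum, Finset.mul_sum, ← Finset.sum_add_distrib]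
    refine Finset.sum_congr rfl fun σ _ => ?_
    ring
  rw [h3] at h1
  have h4 : 2 * u (π ρ) * x (b + ρ) * x (b' + ρ) = 0 := by linear_combination -h1
  rcases mul_eq_zero.1 h4 with h5 | h5
  · rcases mul_eq_zero.1 h5 with h6 | h6
    · rcases mul_eq_zero.1 h6 with h7 | h7
      · exact absurd h7 h2
      · exact h7
    · exact absurd h6 hxb
  · exact absurd h5 hxb'

end Pool.Agent.N633.HB.G2
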