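import Pool.Agent.N633.HB.Stm
import Pool.Agent.N729.HP.JA
import Pool.Agent.N729.HP.JC

/-!
Project HB (MP_9bc296_ag), part JD: the second order criterion.
-/

set_option autoImplicit false

namespace Pool.Agent.N633.HB.JD

open Finset MvPolynomial
open Pool.Agent.N186.HK (pm vm IsHankel zz pm_map pm_congr pm_nil pm_cons pm_mem permanent_eq_pm)
open Pool.Agent.R831.PermIdeal (permIdeal permIdeal_le_ker)
open Pool.Agent.N729.HP (pd Sub hk StmJB)
open Pool.Agent.N729.HP.JA (span chain)
open Pool.Agent.N729.HP.JC (isHankel_hk zz_hk dd dd_apply dd_pm ext0 ext0_of eval_pm)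

/-! ### The transcendence degree -/

theorem eq_zero_of_dual {F M : Type*} [Field F] [AddCommGroup M] [Module F M] (v : M)
    (h : ∀ φ : M →ₗ[F] F, φ v = 0) : v = 0 :=
  (Module.forall_dual_apply_eq_zero_iff F v).1 h

/-- upper bound for the transcendence degree from the linear relations in the field of fractions -/
theorem trdeg_le {k : Type*} [Field k] {N : ℕ} (P : Ideal (MvPolynomial (Fin N) k)) [P.IsPrime]
    (A : Finset (Fin N))
    (hA : ∀ η : Fin N → FractionRing (MvPolynomial (Fin N) k ⧸ P), (∀ w ∈ A, η w = 0) →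
      (∀ f ∈ P, ∑ w, algebraMap (MvPolynomial (Fin N) k ⧸ P)
        (FractionRing (MvPolynomial (Fin N) k ⧸ P)) (Ideal.Quotient.mk P (pderiv w f)) * η w = 0) →
      ∀ w, η w = 0) :
    Algebra.trdeg k (MvPolynomial (Fin N) k ⧸ P) ≤ (A.card : Cardinal) := by
  have : IsDomain (MvPolynomial (Fin N) k ⧸ P) := Ideal.Quotient.isDomain P
  set D := MvPolynomial (Fin N) k ⧸ P with hD
  let F := FractionRing D
  have hinj : Function.Injective (algebraMap D F) := IsFractionRing.injective D F
  let z : Fin N → F := fun w => algebraMap D F (Ideal.Quotient.mk P (X w))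
  have hz : ∀ f : MvPolynomial (Fin N) k, aeval z f = algebraMap D F (Ideal.Quotient.mk P f) := by
    intro f
    have : (aeval z : MvPolynomial (Fin N) k →ₐ[k] F) =
        (IsScalarTower.toAlgHom k D F).comp (Ideal.Quotient.mkₐ k P) := by
      ext w
      simp only [aeval_X, AlgHom.comp_apply]
      rfl
    rw [this]
    rfl
  let s : Set F := z '' (A : Set (Fin N))
  let K0 := IntermediateField.adjoin k s
  let δ := KaehlerDifferential.D K0 F
  have hδs : ∀ w ∈ A, δ (z w) = 0 := by
    intro w hw
    have hm : z w ∈ K0 := IntermediateField.subset_adjoin k s ⟨w, hw, rfl⟩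
    exact δ.map_algebraMap (⟨z w, hm⟩ : K0)
  have hδz : ∀ u, δ (z u) = 0 := by
    intro u
    refine eq_zero_of_dual (F := F) _ fun φ => ?_
    exact hA (fun w => φ (δ (z w))) (fun w hw => by
      show φ (δ (z w)) = 0
      rw [hδs w hw, map_zero]) (fun f hf => by
      have h1 : δ (aeval z f) = 0 := by
        rw [hz, Ideal.Quotient.eq_zero_iff_mem.2 hf, map_zero, map_zero]
      rw [chain δ z f] at h1
      have h2 := congrArg φ h1
      rw [map_sum, map_zero] at h2
      rw [← h2]
      refine Finset.sum_congr rfl fun w _ => ?_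
      rw [map_smul, smul_eq_mul, hz]) u
  have hδD : ∀ d : D, δ (algebraMap D F d) = 0 := by
    intro d
    obtain ⟨g, rfl⟩ := Ideal.Quotient.mk_surjective d
    rw [← hz g, chain δ z g]
    exact Finset.sum_eq_zero fun v _ => by rw [hδz v, smul_zero]
  have hδ : ∀ x : F, δ x = 0 := by
    intro x
    obtain ⟨a, b, hb0, rfl⟩ := IsFractionRing.div_surjective (A := D) x
    have hb1 : algebraMap D F b ≠ 0 := by
      intro h
      exact nonZeroDivisors.ne_zero hb0 (hinj (h.trans (map_zero _).symm))
    have h1 : δ (algebraMap D F b * (algebraMap D F a / algebraMap D F b)) = 0 := by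
      rw [mul_div_cancel₀ _ hb1]
      exact hδD a
    rw [Derivation.leibniz, hδD b, smul_zero, add_zero] at h1
    exact (smul_eq_zero.1 h1).resolve_left hb1
  have hsub : Subsingleton (Ω[F⁄K0]) := by
    have hsp := KaehlerDifferential.span_range_derivation K0 F
    have hr : Set.range (KaehlerDifferential.D K0 F) ⊆ {0} := by
      rintro _ ⟨x, rfl⟩
      exact hδ x
    have : (⊤ : Submodule F (Ω[F⁄K0])) ≤ ⊥ := by
      rw [← hsp, Submodule.span_le]
      intro x hx
      exact hr hx
    refine ⟨fun x y => ?_⟩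
    have hx := this (Submodule.mem_top (x := x))
    have hy := this (Submodule.mem_top (x := y))
    rw [Submodule.mem_bot] at hx hy
    rw [hx, hy]
  have hfu : Algebra.FormallyUnramified K0 F := ⟨hsub⟩
  have hess0 : Algebra.EssFiniteType k F := inferInstance
  have hess : Algebra.EssFiniteType K0 F := Algebra.EssFiniteType.of_comp k K0 F
  have hsep : Algebra.IsSeparable K0 F := Algebra.FormallyUnramified.isSeparable K0 F
  have halg0 : Algebra.IsAlgebraic K0 F := inferInstance
  have halg : Algebra.IsAlgebraic (Algebra.adjoin k s) F :=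
    IntermediateField.isAlgebraic_adjoin_iff_top.1 halg0
  have h1 : Algebra.trdeg k F ≤ Cardinal.mk s := Algebra.IsAlgebraic.trdeg_le_cardinalMk k s
  have h2 : Algebra.trdeg k D ≤ Algebra.trdeg k F :=
    trdeg_le_of_injective (IsScalarTower.toAlgHom k D F) hinj
  have h3 : Cardinal.mk s ≤ (A.card : Cardinal) := by
    have := Cardinal.mk_image_le_lift (f := z) (s := (A : Set (Fin N)))
    simpa using this
  exact (h2.trans h1).trans h3

/-! ### A tangent vector with polynomial entries -/

/-- the polynomial vector field -/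
theorem field_exists {k : Type*} [Field k] {N t : ℕ} (P : Ideal (MvPolynomial (Fin N) k))
    [P.IsPrime] (q : Fin N → k) (hq : ∀ f ∈ P, eval q f = 0) (S : Finset (Fin N))
    (hS : ∀ y : Fin N → k, (∀ s ∈ S, y s = 0) →
      (∀ f ∈ P, ∑ v, eval q (pderiv v f) * y v = 0) → y = 0)
    (htr : (t : Cardinal) ≤ Algebra.trdeg k (MvPolynomial (Fin N) k ⧸ P))
    (hcard : S.card ≤ t) (s : Fin N) (hs : s ∈ S) :
    ∃ g : Fin N → MvPolynomial (Fin N) k, (∀ f ∈ P, ∑ w, pderiv w f * g w ∈ P) ∧
      eval q (g s) = 1 ∧ ∀ w ∈ S, w ≠ s → eval q (g w) = 0 := by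
  have : IsDomain (MvPolynomial (Fin N) k ⧸ P) := Ideal.Quotient.isDomain P
  set D := MvPolynomial (Fin N) k ⧸ P with hD
  let F := FractionRing D
  have hinj : Function.Injective (algebraMap D F) := IsFractionRing.injective D F
  choose f hf c hc hb using fun v : Fin N => span P q S hS (Pi.single v 1)
  let M' : Matrix (Fin N) (Fin N) D :=
    fun v w => Ideal.Quotient.mk P (pderiv w (f v)) + Ideal.Quotient.mk P (C (c v w))
  let ev : D →+* k := Ideal.Quotient.lift P (eval q) hq
  have hM1 : ev.mapMatrix M' = 1 := by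
    ext v w
    have := hb v w
    rw [RingHom.mapMatrix_apply, Matrix.map_apply, map_add, Ideal.Quotient.lift_mk,
      Ideal.Quotient.lift_mk, eval_C, ← this, Matrix.one_apply, Pi.single_apply]
    simp only [eq_comm]
  have hevdet : ev M'.det = 1 := by
    rw [ev.map_det M', hM1, Matrix.det_one]
  have hdet' : M'.det ≠ 0 := by
    intro h0
    rw [h0, map_zero] at hevdet
    exact zero_ne_one hevdet
  let M : Matrix (Fin N) (Fin N) F := (algebraMap D F).mapMatrix M'
  have hMdet : M.det = algebraMap D F M'.det := ((algebraMap D F).map_det M').symm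
  have hdet : M.det ≠ 0 := by
    rw [hMdet]
    exact fun h => hdet' (hinj (h.trans (map_zero _).symm))
  -- the relations give the product with the matrix
  have hMη : ∀ η : Fin N → F, (∀ f ∈ P, ∑ w, algebraMap D F (Ideal.Quotient.mk P (pderiv w f)) *
      η w = 0) → ∀ v, M.mulVec η v = ∑ w, algebraMap D F (Ideal.Quotient.mk P (C (c v w))) * η w := by
    intro η hη v
    have h1 : M.mulVec η v = ∑ w, (algebraMap D F (Ideal.Quotient.mk P (pderiv w (f v))) * η w +
        algebraMap D F (Ideal.Quotient.mk P (C (c v w))) * η w) := by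
      rw [Matrix.mulVec, dotProduct]
      refine Finset.sum_congr rfl fun w _ => ?_
      have : M v w = algebraMap D F (Ideal.Quotient.mk P (pderiv w (f v))) +
          algebraMap D F (Ideal.Quotient.mk P (C (c v w))) := map_add (algebraMap D F) _ _
      rw [this, add_mul]
    rw [h1, Finset.sum_add_distrib, hη (f v) (hf v), zero_add]
  have hzero : ∀ η : Fin N → F, (∀ w ∈ S, η w = 0) →
      (∀ f ∈ P, ∑ w, algebraMap D F (Ideal.Quotient.mk P (pderiv w f)) * η w = 0) →
      η = 0 := by
    intro η h0 hη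
    apply Matrix.eq_zero_of_mulVec_eq_zero hdet
    funext v
    rw [hMη η hη v]
    refine Finset.sum_eq_zero fun w _ => ?_
    by_cases hw : w ∈ S
    · rw [h0 w hw, mul_zero]
    · rw [hc v w hw, map_zero, map_zero, map_zero, zero_mul]
  -- a tangent vector over the field of fractions
  obtain ⟨η, hηs, hη0, hη⟩ : ∃ η : Fin N → F, η s = 1 ∧ (∀ w ∈ S, w ≠ s → η w = 0) ∧
      (∀ f ∈ P, ∑ w, algebraMap D F (Ideal.Quotient.mk P (pderiv w f)) * η w = 0) := by
    by_contra hne
    have h1 := trdeg_le P (S.erase s) (by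
      intro η h0 hη
      have hηs : η s = 0 := by
        by_contra hs0
        apply hne
        refine ⟨fun w => (η s)⁻¹ * η w, inv_mul_cancel₀ hs0, fun w hw hws => ?_, fun f hf => ?_⟩
        · show (η s)⁻¹ * η w = 0
          rw [h0 w (Finset.mem_erase.2 ⟨hws, hw⟩), mul_zero]
        · have h2 := hη f hf
          have h3 : ∑ w, algebraMap D F (Ideal.Quotient.mk P (pderiv w f)) * ((η s)⁻¹ * η w) =
              (η s)⁻¹ * ∑ w, algebraMap D F (Ideal.Quotient.mk P (pderiv w f)) * η w := by
            rw [Finset.mul_sum]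
            exact Finset.sum_congr rfl fun w _ => by ring
          show ∑ w, algebraMap D F (Ideal.Quotient.mk P (pderiv w f)) * ((η s)⁻¹ * η w) = 0
          rw [h3]
          exact (congrArg ((η s)⁻¹ * ·) h2).trans (mul_zero _)
      have h4 := hzero η (fun w hw => by
        by_cases hws : w = s
        · rw [hws]; exact hηs
        · exact h0 w (Finset.mem_erase.2 ⟨hws, hw⟩)) hη
      intro w
      rw [h4]
      rfl)
    have h2 : t ≤ (S.erase s).card := by exact_mod_cast htr.trans h1
    rw [Finset.card_erase_of_mem hs] at h2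
    have : 0 < S.card := Finset.card_pos.2 ⟨s, hs⟩
    omega
  -- the vector over `D`
  let b' : Fin N → D := fun v => Ideal.Quotient.mk P (C (c v s))
  let η' : Fin N → D := M'.adjugate.mulVec b'
  have hb' : ∀ v, M.mulVec η v = algebraMap D F (b' v) := by
    intro v
    rw [hMη η hη v, Finset.sum_eq_single s]
    · rw [hηs, mul_one]
    · intro w _ hws
      by_cases hw : w ∈ S
      · rw [hη0 w hw hws, mul_zero]
      · rw [hc v w hw, map_zero, map_zero, map_zero, zero_mul]
    · intro h
      exact absurd (Finset.mem_univ s) h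
  have hη' : ∀ w, algebraMap D F (η' w) = M.det * η w := by
    intro w
    have h1 : M.adjugate.mulVec (M.mulVec η) = M.det • η := by
      rw [Matrix.mulVec_mulVec, Matrix.adjugate_mul, Matrix.smul_mulVec, Matrix.one_mulVec]
    have h2 : M.adjugate.mulVec (M.mulVec η) w = M.det * η w := by
      rw [h1, Pi.smul_apply, smul_eq_mul]
    rw [← h2]
    have h3 : M.adjugate = (algebraMap D F).mapMatrix M'.adjugate :=
      ((algebraMap D F).map_adjugate M').symm
    rw [h3, Matrix.mulVec, dotProduct]
    show algebraMap D F (∑ v, M'.adjugate w v * b' v) = _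
    rw [map_sum]
    refine Finset.sum_congr rfl fun v _ => ?_
    rw [hb' v, map_mul]
    rfl
  have hrel : ∀ f ∈ P, ∑ w, Ideal.Quotient.mk P (pderiv w f) * η' w = 0 := by
    intro f hf
    apply hinj
    rw [map_sum, map_zero]
    have h1 : ∑ w, algebraMap D F (Ideal.Quotient.mk P (pderiv w f) * η' w) =
        M.det * ∑ w, algebraMap D F (Ideal.Quotient.mk P (pderiv w f)) * η w := by
      rw [Finset.mul_sum]
      refine Finset.sum_congr rfl fun w _ => ?_
      rw [map_mul, hη' w]
      ring
    rw [h1, hη f hf, mul_zero]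
  choose g hg using fun w => Ideal.Quotient.mk_surjective (I := P) (η' w)
  have heg : ∀ w, eval q (g w) = ev (η' w) := by
    intro w
    rw [← hg w]
    rfl
  refine ⟨g, fun f hf => ?_, ?_, fun w hw hws => ?_⟩
  · rw [← Ideal.Quotient.eq_zero_iff_mem, map_sum]
    have h1 := hrel f hf
    rw [← h1]
    refine Finset.sum_congr rfl fun w _ => ?_
    rw [map_mul, hg w]
  · have h1 : η' s = M'.det := by
      apply hinj
      rw [hη' s, hηs, mul_one, hMdet]
    rw [heg, h1, hevdet]
  · have h1 : η' w = 0 := by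
      apply hinj
      rw [hη' w, hη0 w hw hws, mul_zero, map_zero]
    rw [heg, h1, map_zero]

/-! ### The second derivative of a permanent along a polynomial vector field -/

variable {k : Type*} [Field k]

/-- the derivative along the polynomial vector field `g` -/
noncomputable def DD {N : ℕ} (g : Fin N → MvPolynomial (Fin N) k) (f : MvPolynomial (Fin N) k) :
    MvPolynomial (Fin N) k := ∑ w, pderiv w f * g w

variable {N : ℕ} (g : Fin N → MvPolynomial (Fin N) k)

lemma DD_add (f f' : MvPolynomial (Fin N) k) : DD g (f + f') = DD g f + DD g f' := by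
  unfold DD
  rw [← sum_add_distrib]
  exact sum_congr rfl fun w _ => by rw [map_add, add_mul]

lemma DD_zero : DD g 0 = 0 := by
  unfold DD
  exact sum_eq_zero fun w _ => by rw [map_zero, zero_mul]

lemma DD_sum {ι : Type*} [DecidableEq ι] (s : Finset ι) (f : ι → MvPolynomial (Fin N) k) :
    DD g (∑ i ∈ s, f i) = ∑ i ∈ s, DD g (f i) := by
  induction s using Finset.induction_on with
  | empty => rw [sum_empty, sum_empty, DD_zero]
  | insert a s ha ih => rw [sum_insert ha, sum_insert ha, DD_add, ih]

lemma DD_mul (f f' : MvPolynomial (Fin N) k) : DD g (f * f') = DD g f * f' + f * DD g f' := by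
  unfold DD
  rw [sum_mul, mul_sum, ← sum_add_distrib]
  refine sum_congr rfl fun w _ => ?_
  rw [Derivation.leibniz, smul_eq_mul, smul_eq_mul]
  ring

lemma DD_C_mul (a : k) (f : MvPolynomial (Fin N) k) : DD g (C a * f) = C a * DD g f := by
  unfold DD
  rw [mul_sum]
  refine sum_congr rfl fun w _ => ?_
  rw [pderiv_C_mul, mul_assoc]

lemma DD_one : DD g 1 = 0 := by
  unfold DD
  exact sum_eq_zero fun w _ => by rw [Derivation.map_one_eq_zero, zero_mul]

lemma DD_X (v : Fin N) : DD g (X v) = g v := by
  unfold DD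
  rw [Finset.sum_eq_single v]
  · rw [pderiv_X_self, one_mul]
  · intro w _ hw
    rw [pderiv_X_of_ne hw.symm, zero_mul]
  · intro h
    exact absurd (mem_univ v) h

lemma eval_DD (q : Fin N → k) (f : MvPolynomial (Fin N) k) :
    eval q (DD g f) = dd q (fun w => eval q (g w)) f := by
  rw [dd_apply]
  unfold DD
  rw [map_sum]
  exact sum_congr rfl fun w _ => by rw [map_mul]

lemma DD2_mul (f f' : MvPolynomial (Fin N) k) :
    DD g (DD g (f * f')) = DD g (DD g f) * f' + 2 * (DD g f * DD g f') + f * DD g (DD g f') := by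
  rw [DD_mul, DD_add, DD_mul, DD_mul]
  ring

lemma DD2_pm {n m : ℕ} (h : N + 1 = n + m) (hn : 0 < n) (hm : 0 < m) (q : ℕ → k)
    (L : List ℕ) : ∀ J : Finset ℕ, (∀ j ∈ J, ∀ c ∈ L, j + c < N) →
    eval (fun v : Fin N => q v) (DD g (DD g (pm (zz k (hk h)) J L))) =
      2 * p2 q (ext0 fun w => eval (fun v : Fin N => q v) (g w)) J L +
        pd q (ext0 fun w => eval (fun v : Fin N => q v) (DD g (g w))) J L := by
  induction L with
  | nil =>
    intro J _
    rw [pm_nil, DD_one, DD_zero, map_zero, p2, pd]
    ring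
  | cons c L ih =>
    intro J hJ
    rw [pm_cons, p2, pd, DD_sum, DD_sum, map_sum, mul_sum, ← sum_add_distrib]
    refine sum_congr rfl fun j hj => ?_
    have h1 : j + c < N := hJ j hj c List.mem_cons_self
    have h2 : ∀ i ∈ J.erase j, ∀ d ∈ L, i + d < N := fun i hi d hd =>
      hJ i (mem_of_mem_erase hi) d (List.mem_cons_of_mem _ hd)
    rw [DD2_mul, map_add, map_add, map_mul, map_mul, map_mul, map_mul, ih _ h2,
      eval_pm h hn hm q _ _ h2, zz_hk h hn hm h1, DD_X, eval_X, eval_DD g _ (pm _ _ _),
      dd_pm h hn hm q _ L _ h2, ext0_of _ h1, ext0_of _ h1, map_ofNat]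
    ring

/-! ### The criterion -/

/-- **JD** -/
theorem t (k : Type*) [Field k] (hJB : StmJB k) : StmJD k := by
  intro h2k N n m t h ht htn htm q hq S hS hy hP s hs hsN
  have hn : 0 < n := by omega
  have hm : 0 < m := by omega
  have := hP
  obtain ⟨q', hq'⟩ : ∃ q' : Fin N → k, q' = fun v : Fin N => q v := ⟨_, rfl⟩
  -- membership of the point
  have h1 : ∀ f ∈ permIdeal t (vm k (hk h)), eval q' f = 0 := by
    have h2 : permIdeal t (vm k (hk h)) ≤ RingHom.ker (eval q') := by
      apply permIdeal_le_ker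
      intro r c
      have e1 : ((vm k (hk h)).map (eval q')).submatrix r c =
          Matrix.of fun i j : Fin t => q ((fun i => (r i).val) i + (fun j => (c j).val) j) := by
        ext1 i j
        simp only [Matrix.submatrix_apply, Matrix.map_apply, vm, Matrix.of_apply, eval_X, hq', hk]
      rw [e1, permanent_eq_pm q t (fun i => (r i).val) (Fin.val_injective.comp r.injective)
        (fun j => (c j).val)]
      apply hq
      refine ⟨?_, ?_, ?_, ?_, ?_⟩
      · refine (Finset.card_image_of_injective _ (Fin.val_injective.comp r.injective)).trans ?_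
        rw [card_univ, Fintype.card_fin]
      · rw [List.length_ofFn]
      · rw [List.nodup_ofFn]
        exact Fin.val_injective.comp c.injective
      · intro j hj
        rw [Finset.mem_image] at hj
        obtain ⟨i, -, rfl⟩ := hj
        exact (r i).isLt
      · intro j hj
        rw [List.mem_ofFn] at hj
        obtain ⟨i, rfl⟩ := hj
        exact (c i).isLt
    intro f hf
    exact h2 hf
  obtain ⟨S', hS'⟩ : ∃ S' : Finset (Fin N), S' = univ.filter fun v : Fin N => (v : ℕ) ∈ S :=
    ⟨_, rfl⟩
  have hcard : S'.card ≤ t := by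
    refine le_trans ?_ hS
    rw [← Finset.card_image_of_injective S' Fin.val_injective]
    apply Finset.card_le_card
    intro v hv
    rw [Finset.mem_image] at hv
    obtain ⟨w, hw, rfl⟩ := hv
    rw [hS', Finset.mem_filter] at hw
    exact hw.2
  have hSub : ∀ J L, Sub n m t J L → ∀ j ∈ J, ∀ c ∈ L, j + c < N := by
    intro J L hJL j hj c hc
    obtain ⟨-, -, -, a4, a5⟩ := hJL
    have := a4 j hj
    have := a5 c hc
    omega
  obtain ⟨g, hgP, hgs, hg0⟩ := field_exists (permIdeal t (vm k (hk h))) q' h1 S' (by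
    intro y hy0 hy1
    have h4 := hy (ext0 y) ?_ ?_
    · funext v
      have h5 := h4 v v.isLt
      rw [ext0_of y v.isLt] at h5
      exact h5
    · intro s hs
      by_cases hsN : s < N
      · rw [ext0_of y hsN]
        apply hy0
        rw [hS', Finset.mem_filter]
        exact ⟨mem_univ _, hs⟩
      · exact dif_neg hsN
    · intro J L hJL
      obtain ⟨a1, a2, a3, a4, a5⟩ := hJL
      have h5 := hy1 _ (pm_mem (k := k) (isHankel_hk h) a1 a2 a4 a5 a3)
      rw [← dd_apply, hq', dd_pm h hn hm q y L J (hSub J L ⟨a1, a2, a3, a4, a5⟩)] at h5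
      exact h5) (hJB N n m t h ht htn htm hP) hcard ⟨s, hsN⟩
      (by rw [hS', Finset.mem_filter]; exact ⟨mem_univ _, hs⟩)
  refine ⟨ext0 fun w => eval q' (g w), ?_, ?_, ?_, ?_⟩
  · rw [ext0_of _ hsN]
    exact hgs
  · intro v hv hvs
    by_cases hvN : v < N
    · rw [ext0_of _ hvN]
      apply hg0
      · rw [hS', Finset.mem_filter]
        exact ⟨mem_univ _, hv⟩
      · intro he
        exact hvs (congrArg Fin.val he)
    · exact dif_neg hvN
  · intro J L hJL
    have hJL' := hJL
    obtain ⟨a1, a2, a3, a4, a5⟩ := hJL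
    have h5 := h1 _ (hgP _ (pm_mem (k := k) (isHankel_hk h) a1 a2 a4 a5 a3))
    have h6 : eval q' (DD g (pm (zz k (hk h)) J L)) = 0 := h5
    rw [eval_DD, hq', dd_pm h hn hm q _ L J (hSub J L hJL')] at h6
    rw [hq']
    exact h6
  · intro J J' L L' a b hJL hJL' hab
    have hs1 := hSub J L hJL
    have hs2 := hSub J' L' hJL'
    obtain ⟨a1, a2, a3, a4, a5⟩ := hJL
    obtain ⟨b1, b2, b3, b4, b5⟩ := hJL'
    have hm1 := pm_mem (k := k) (isHankel_hk h) a1 a2 a4 a5 a3
    have hm2 := pm_mem (k := k) (isHankel_hk h) b1 b2 b4 b5 b3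
    have hmem : C a * pm (zz k (hk h)) J L + C b * pm (zz k (hk h)) J' L' ∈
        permIdeal t (vm k (hk h)) :=
      Ideal.add_mem _ (Ideal.mul_mem_left _ _ hm1) (Ideal.mul_mem_left _ _ hm2)
    have h5 : eval q' (DD g (DD g (C a * pm (zz k (hk h)) J L +
        C b * pm (zz k (hk h)) J' L'))) = 0 := h1 _ (hgP _ (hgP _ hmem))
    rw [DD_add, DD_add, DD_C_mul, DD_C_mul, DD_C_mul, DD_C_mul, map_add, map_mul, map_mul,
      eval_C, eval_C, hq', DD2_pm g h hn hm q L J hs1, DD2_pm g h hn hm q L' J' hs2] at h5
    have h6 := hab (ext0 fun w => eval (fun v : Fin N => q v) (DD g (g w)))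
    rw [hq']
    have h7 : 2 * (a * p2 q (ext0 fun w => eval (fun v : Fin N => q v) (g w)) J L +
        b * p2 q (ext0 fun w => eval (fun v : Fin N => q v) (g w)) J' L') = 0 := by
      linear_combination h5 - h6
    exact (mul_eq_zero.1 h7).resolve_left h2k

end Pool.Agent.N633.HB.JD
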