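import Pool.Agent.N633.HB.Stm2

/-!
Project HB (MP_9bc296_ag): the bulk family.
-/

set_option autoImplicit false

namespace Pool.Agent.N633.HB.P2

open Finset
open Pool.Agent.N186.HK (pm vm pm_nil pm_cons)
open Pool.Agent.R831.PermIdeal (permIdeal)
open Pool.Agent.N729.HP (pd hk StmSL StmJC)

variable {k : Type*} [Field k]

section

variable {t e w : ℕ}

/-- the rows with few entries -/
def I (t w : ℕ) : List ℕ := 0 :: List.range' (t - w) w

lemma mem_I {c : ℕ} (hw : w ≤ t) : c ∈ I t w ↔ c = 0 ∨ (t - w ≤ c ∧ c < t) := by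
  unfold I
  rw [List.mem_cons, List.mem_range'_1]
  omega

lemma qz (hw : 1 ≤ w) (ht : e + 2 + 2 * w ≤ t) {z : ℕ} (h1 : e + 1 ≤ z) (h2 : z ≤ e + 1 + w) :
    qP k t e w z = (if z = e + 1 then 1 else 0) + (if z = e + 1 + w then -1 else 0) := by
  unfold qP
  split_ifs <;> first | omega | simp

lemma q0 {v : ℕ} (h1 : v ≠ e + 1) (h2 : v ≠ e + 1 + w) (h3 : v ≠ t + e) (h4 : v ≠ t + e + 1) :
    qP k t e w v = 0 := by
  unfold qP
  rw [if_neg h1, if_neg h2, if_neg h3, if_neg h4]

lemma strip (ht : e + 2 + 2 * w ≤ t) : ∀ j, t + e + 1 ≤ j + t → j + (t - w) ≤ t + e + 1 →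
    ∀ c, t - w ≤ c → c < t →
      qP k t e w (j + c) = if j + c + 1 = t + e + 1 ∨ j + c = t + e + 1 then 1 else 0 := by
  intro j h1 h2 c h3 h4
  unfold qP
  split_ifs <;> first | omega | rfl

lemma icc1 : t + e + 1 - t = e + 1 := by omega

lemma icc2 (hw : w ≤ t) : t + e + 1 - (t - w) = e + 1 + w := by omega

lemma cof0 (hSL : StmSL k) (ht : e + 2 + 2 * w ≤ t) {z : ℕ} (hz : z ∈ Icc (e + 1) (e + 1 + w)) :
    pm (qP k t e w) ((Icc (e + 1) (e + 1 + w)).erase z) (List.range' (t - w) w) = 1 := by
  have h := hSL.2.1 (qP k t e w) (t + e + 1) (t - w) t (by omega) (by omega) (strip ht)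
  rw [icc1, icc2 (by omega), show t - (t - w) = w by omega] at h
  exact h z hz

lemma cof2 (hSL : StmSL k) (ht : e + 2 + 2 * w ≤ t) {i : ℕ} (hi : t - w ≤ i) (hit : i < t)
    {z z' : ℕ} (hz : z ∈ Icc (e + 1) (e + 1 + w)) (hz' : z' ∈ Icc (e + 1) (e + 1 + w))
    (hne : z ≠ z') :
    pm (qP k t e w) (((Icc (e + 1) (e + 1 + w)).erase z).erase z')
      (List.range' (t - w) (i - (t - w)) ++ List.range' (i + 1) (t - 1 - i)) =
      if (z + i < t + e + 1 ∧ t + e + 1 ≤ z' + i) ∨ (z' + i < t + e + 1 ∧ t + e + 1 ≤ z + i)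
        then 1 else 0 := by
  have h := hSL.2.2 (qP k t e w) (t + e + 1) (t - w) t i hi hit (by omega)
    (fun j h1 h2 c h3 h4 _ => strip ht j h1 h2 c h3 h4)
  rw [icc1, icc2 (by omega)] at h
  exact h z hz z' hz' hne

lemma erase_range {i : ℕ} (hw : w ≤ t) (hi : t - w ≤ i) (hit : i < t) :
    (List.range' (t - w) w).erase i =
      List.range' (t - w) (i - (t - w)) ++ List.range' (i + 1) (t - 1 - i) := by
  have e1 : List.range' (t - w) w =
      List.range' (t - w) (i - (t - w)) ++ (i :: List.range' (i + 1) (t - 1 - i)) := by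
    have h1 : i :: List.range' (i + 1) (t - 1 - i) = List.range' i (t - i) := by
      rw [show t - i = (t - 1 - i) + 1 by omega, List.range'_succ]
    rw [h1]
    have h2 := List.range'_append (s := t - w) (m := i - (t - w)) (n := t - i) (step := 1)
    rw [show t - w + 1 * (i - (t - w)) = i by omega, show i - (t - w) + (t - i) = w by omega] at h2
    exact h2.symm
  rw [e1, List.erase_append_right, List.erase_cons_head]
  rw [List.mem_range'_1]
  omega

lemma sum_q (hw : 1 ≤ w) (ht : e + 2 + 2 * w ≤ t) (J : Finset ℕ)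
    (hJ : J ⊆ Icc (e + 1) (e + 1 + w)) (F : ℕ → k) :
    ∑ z ∈ J, qP k t e w (z + 0) * F z =
      (if e + 1 ∈ J then F (e + 1) else 0) - (if e + 1 + w ∈ J then F (e + 1 + w) else 0) := by
  have h1 : ∀ z ∈ J, qP k t e w (z + 0) * F z =
      (if z = e + 1 then F (e + 1) else 0) - (if z = e + 1 + w then F (e + 1 + w) else 0) := by
    intro z hz
    have h2 := hJ hz
    rw [mem_Icc] at h2
    rw [add_zero, qz hw ht h2.1 h2.2]
    by_cases h3 : z = e + 1
    · have h4 : z ≠ e + 1 + w := by omega
      rw [if_pos h3, if_neg h4, if_pos h3, if_neg h4, h3]; ring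
    · by_cases h4 : z = e + 1 + w
      · rw [if_neg h3, if_pos h4, if_neg h3, if_pos h4, h4]; ring
      · rw [if_neg h3, if_neg h4, if_neg h3, if_neg h4]; ring
  rw [sum_congr rfl h1, sum_sub_distrib, sum_ite_eq', sum_ite_eq']

lemma pmI (hSL : StmSL k) (hw : 1 ≤ w) (ht : e + 2 + 2 * w ≤ t) :
    pm (qP k t e w) (Icc (e + 1) (e + 1 + w)) (I t w) = 0 := by
  unfold I
  rw [pm_cons, sum_q hw ht _ (Finset.Subset.refl _), if_pos (by rw [mem_Icc]; omega),
    if_pos (by rw [mem_Icc]; omega), cof0 hSL ht (by rw [mem_Icc]; omega),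
    cof0 hSL ht (by rw [mem_Icc]; omega)]
  ring

lemma cofi (hSL : StmSL k) (hw : 1 ≤ w) (ht : e + 2 + 2 * w ≤ t) {i z : ℕ} (hi : t - w ≤ i)
    (hit : i < t) (hz : z ∈ Icc (e + 1) (e + 1 + w)) :
    pm (qP k t e w) ((Icc (e + 1) (e + 1 + w)).erase z) ((I t w).erase i) =
      if t + e + 1 ≤ z + i then 1 else -1 := by
  have hi0 : ¬ (0 = i) := by omega
  have e1 : (I t w).erase i = 0 :: (List.range' (t - w) w).erase i := by
    unfold I
    rw [List.erase_cons, if_neg]
    simpa using hi0
  rw [e1, pm_cons, sum_q hw ht _ (Finset.erase_subset _ _), erase_range (by omega) hi hit]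
  have hz' := hz
  rw [mem_Icc] at hz'
  have key : ∀ z', z' ∈ Icc (e + 1) (e + 1 + w) → z ≠ z' → _ := fun z' a b =>
    cof2 (k := k) hSL ht hi hit hz a b
  by_cases h1 : z = e + 1
  · subst h1
    rw [if_neg (by rw [mem_erase]; tauto), if_pos (by rw [mem_erase, mem_Icc]; omega),
      key _ (by rw [mem_Icc]; omega) (by omega), if_pos (by omega), if_neg (by omega)]
    ring
  · by_cases h2 : z = e + 1 + w
    · subst h2
      rw [if_pos (by rw [mem_erase, mem_Icc]; omega), if_neg (by rw [mem_erase]; tauto),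
        key _ (by rw [mem_Icc]; omega) (by omega), if_pos (by omega), if_pos (by omega)]
      ring
    · rw [if_pos (by rw [mem_erase, mem_Icc]; omega), if_pos (by rw [mem_erase, mem_Icc]; omega),
        key _ (by rw [mem_Icc]; omega) (by omega), key _ (by rw [mem_Icc]; omega) (by omega)]
      by_cases h3 : t + e + 1 ≤ z + i
      · rw [if_pos (by omega), if_neg (by omega), if_pos h3]; ring
      · rw [if_neg (by omega), if_pos (by omega), if_neg h3]; ring

lemma toFin (hw : w ≤ t) (h1 : 1 ≤ t - w) : (I t w).toFinset = insert 0 (Ico (t - w) t) := by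
  ext c
  rw [List.mem_toFinset, mem_I hw, mem_insert, mem_Ico]

lemma inj (hSL : StmSL k) (h2 : (2 : k) ≠ 0) (hw : 1 ≤ w) (ht : e + 2 + 2 * w ≤ t) (v : ℕ → k)
    (hv : ∀ J₁ ⊆ Icc (e + 1) (e + 1 + w), J₁.card + 1 = (I t w).length →
      ∑ c ∈ (I t w).toFinset, v c * pm (qP k t e w) J₁ ((I t w).erase c) = 0) :
    ∀ c ∈ I t w, v c = 0 := by
  have hz : ∀ z ∈ Icc (e + 1) (e + 1 + w),
      v 0 + ∑ i ∈ Ico (t - w) t, v i * (if t + e + 1 ≤ z + i then 1 else -1) = 0 := by
    intro z hz
    have h := hv ((Icc (e + 1) (e + 1 + w)).erase z) (Finset.erase_subset _ _) (by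
      rw [Finset.card_erase_of_mem hz, Nat.card_Icc]
      unfold I
      rw [List.length_cons, List.length_range']
      omega)
    rw [toFin (by omega) (by omega), sum_insert (by rw [mem_Ico]; omega)] at h
    have e1 : (I t w).erase 0 = List.range' (t - w) w := by
      unfold I
      rw [List.erase_cons_head]
    rw [e1, cof0 hSL ht hz, mul_one] at h
    rw [← h]
    congr 1
    refine sum_congr rfl fun i hi => ?_
    rw [mem_Ico] at hi
    rw [cofi hSL hw ht hi.1 hi.2 hz]
  have hi : ∀ i ∈ Ico (t - w) t, v i = 0 := by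
    intro i hi
    have hi' := hi
    rw [mem_Ico] at hi'
    have a1 := hz (t + e - i) (by rw [mem_Icc]; omega)
    have a2 := hz (t + e - i + 1) (by rw [mem_Icc]; omega)
    have a3 : ∑ j ∈ Ico (t - w) t, v j * (if t + e + 1 ≤ t + e - i + 1 + j then 1 else -1) -
        ∑ j ∈ Ico (t - w) t, v j * (if t + e + 1 ≤ t + e - i + j then 1 else -1) = 2 * v i := by
      rw [← sum_sub_distrib, sum_eq_single i]
      · rw [if_pos (by omega), if_neg (by omega)]; ring
      · intro j hj hji
        rw [mem_Ico] at hj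
        by_cases h3 : i < j
        · rw [if_pos (by omega), if_pos (by omega)]; ring
        · rw [if_neg (by omega), if_neg (by omega)]; ring
      · intro h; exact absurd hi h
    have a4 : (2 : k) * v i = 0 := by
      rw [← a3]
      linear_combination a2 - a1
    exact (mul_eq_zero.1 a4).resolve_left h2
  have h0 : v 0 = 0 := by
    have a1 := hz (e + 1) (by rw [mem_Icc]; omega)
    rw [sum_eq_zero (fun i hi' => by rw [hi i hi', zero_mul]), add_zero] at a1
    exact a1
  intro c hc
  rw [mem_I (by omega)] at hc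
  rcases hc with rfl | hc
  · exact h0
  · exact hi c (by rw [mem_Ico]; exact hc)

lemma perm_I (hw : 1 ≤ w) (ht : e + 2 + 2 * w ≤ t) :
    (I t w ++ List.range' 1 (t - w - 1)).Perm (List.range t) := by
  refine (List.perm_ext_iff_of_nodup ?_ List.nodup_range).2 fun a => ?_
  · unfold I
    rw [List.cons_append, List.nodup_cons, List.mem_append, List.mem_range'_1, List.mem_range'_1,
      List.nodup_append]
    refine ⟨by omega, List.nodup_range', List.nodup_range', ?_⟩
    intro a ha b hb hab
    rw [List.mem_range'_1] at ha hb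
    omega
  · rw [List.mem_append, mem_I (by omega), List.mem_range'_1, List.mem_range]
    omega

lemma mem_pth' {n l j : ℕ} (hl : l ≤ n) : j ∈ pth n l ↔ n < j + l ∧ j + 1 ≤ n := by
  unfold pth
  simp only [mem_image, mem_Ico]
  constructor
  · rintro ⟨m, hm, rfl⟩
    omega
  · intro h
    exact ⟨n - j, by omega, by omega⟩

end

theorem t (k : Type*) [Field k] (hSL : StmSL k) (hJC : Pool.Agent.N729.HP.StmJC k)
    (hG2 : StmG2 k) (hPU : StmPU k) : StmP k := by
  intro two t e w N h he hw h5 ht1 ht2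
  obtain ⟨g1, g2⟩ := hG2 (t + e) t (qP k t e w) (I t w) (List.range' 1 (t - w - 1))
    (Icc (e + 1) (e + 1 + w)) (perm_I (e := e) (by omega) ht1)
    (fun j hj => by rw [mem_Icc] at hj; omega)
    (fun c hc j hj1 hj2 => by
      rw [mem_I (by omega)] at hc
      rw [mem_Icc] at hj2
      apply q0 <;> omega)
    (fun J₁ hJ hc => by
      have e1 : J₁ = Icc (e + 1) (e + 1 + w) := by
        refine Finset.eq_of_subset_of_card_le hJ ?_
        rw [hc, Nat.card_Icc]
        unfold I
        rw [List.length_cons, List.length_range']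
        omega
      rw [e1]
      exact pmI hSL (by omega) ht1)
    (fun v hv => inj hSL two (by omega) ht1 v hv)
  have hrel : ∀ y : ℕ → k, (∀ J L, Pool.Agent.N729.HP.Sub (t + e) t t J L →
      pd (qP k t e w) y J L = 0) → ∀ c, (c = 0 ∨ (t - w ≤ c ∧ c < t)) →
      (∀ m, ((2 ≤ m ∧ m ≤ e) ∨ (w + 1 ≤ m ∧ m + 1 ≤ e + w)) → y (t + e - m + c) = 0) ∧
      (∀ i, 2 ≤ i → i ≤ e → y (e + 1 - i + c) = 0) ∧ y (e + c) = - y (t + e - 1 + c) ∧
      y (0 + c) = y (t + e - e - w + c) := by
    intro y hy c hc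
    refine hPU two (qP k t e w) (fun j => y (j + c)) (t + e) e w (t - w - 1) he hw h5 (by omega)
      (by omega) ?_ ?_ ?_
    · intro m h1 h2 ρ h3 h4
      unfold qP
      split_ifs <;> first | omega | rfl
    · intro i h1 h2 ρ h3 h4
      unfold qP
      split_ifs <;> first | omega | rfl
    · intro J₂ hJ hcard
      refine g2 y hy c ((mem_I (by omega)).2 hc) J₂ ?_ ?_
      · intro j hj
        have h6 := hJ hj
        rw [mem_union, mem_pth' (by omega), mem_range] at h6
        rw [mem_Icc]
        omega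
      · rw [hcard, List.length_range']
  refine hJC N (t + e) t t h (by omega) (by omega) (by omega) (qP k t e w) g1
    (Icc e (t - w) ∪ Ico (t + e) (2 * t - 2 * w)) ?_ ?_
  · refine lt_of_le_of_lt (Finset.card_union_le _ _) ?_
    rw [Nat.card_Icc, Nat.card_Ico]
    omega
  · intro y hy0 hy
    have hr := hrel y hy
    have z0 : ∀ v, e ≤ v → v ≤ t - w → y v = 0 := fun v h1 h2 =>
      hy0 v (by rw [mem_union, mem_Icc, mem_Ico]; omega)
    have z1 : ∀ v, t + e ≤ v → v < 2 * t - 2 * w → y v = 0 := fun v h1 h2 =>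
      hy0 v (by rw [mem_union, mem_Icc, mem_Ico]; omega)
    -- `[1, e - 1]`
    have z2 : ∀ v, 1 ≤ v → v < e → y v = 0 := by
      intro v h1 h2
      have h6 := (hr 0 (Or.inl rfl)).2.1 (e + 1 - v) (by omega) (by omega)
      rwa [show e + 1 - (e + 1 - v) + 0 = v by omega] at h6
    -- `[t - w + 1, t + e - 2]`
    have z3 : ∀ v, t - w + 1 ≤ v → v + 2 ≤ t + e → y v = 0 := by
      intro v h1 h2
      rcases Nat.lt_or_ge v t with h3 | h3
      · have h6 := (hr (v - 1) (Or.inr (by omega))).2.1 e (by omega) (by omega)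
        rwa [show e + 1 - e + (v - 1) = v by omega] at h6
      · have h6 := (hr (t - 1) (Or.inr (by omega))).2.1 (e + 1 - (v + 1 - t)) (by omega) (by omega)
        rwa [show e + 1 - (e + 1 - (v + 1 - t)) + (t - 1) = v by omega] at h6
    -- `t + e - 1`
    have z4 : y (t + e - 1) = 0 := by
      have h6 := (hr 0 (Or.inl rfl)).2.2.1
      rw [add_zero, add_zero, z0 e (le_refl _) (by omega)] at h6
      exact neg_eq_zero.1 h6.symm
    -- `2 t + e - 2`
    have z5 : y (2 * t + e - 2) = 0 := by
      have h6 := (hr (t - 1) (Or.inr (by omega))).2.2.1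
      rw [show e + (t - 1) = t + e - 1 by omega, z4,
        show t + e - 1 + (t - 1) = 2 * t + e - 2 by omega] at h6
      exact neg_eq_zero.1 h6.symm
    -- `0`
    have z6 : y 0 = 0 := by
      have h6 := (hr 0 (Or.inl rfl)).2.2.2
      rw [add_zero, show t + e - e - w + 0 = t - w by omega, z0 (t - w) (by omega) (le_refl _)]
        at h6
      exact h6
    -- `2 t - 2 w`
    have z7 : y (2 * t - 2 * w) = 0 := by
      have h6 := (hr (t - w) (Or.inr (by omega))).2.2.2
      rw [zero_add, z0 (t - w) (by omega) (le_refl _),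
        show t + e - e - w + (t - w) = 2 * t - 2 * w by omega] at h6
      exact h6.symm
    -- `[2 t - 2 w + 1, 2 t + e - 3]`
    have z8 : ∀ v, 2 * t - 2 * w + 1 ≤ v → v + 3 ≤ 2 * t + e → y v = 0 := by
      intro v h1 h2
      rcases Nat.lt_or_ge v (2 * t - w) with h3 | h3
      · -- `m = e + w - 1`, `c = v - (t - w + 1)`
        rcases Nat.lt_or_ge v (2 * t - w + 1) with h4 | h4
        · have h6 := (hr (v - (t - w + 1)) (Or.inr (by omega))).1 (e + w - 1)
            (Or.inr ⟨by omega, by omega⟩)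
          rwa [show t + e - (e + w - 1) + (v - (t - w + 1)) = v by omega] at h6
        · omega
      · rcases Nat.lt_or_ge v (2 * t) with h4 | h4
        · -- `m = e`, `c = v - t`
          have h6 := (hr (v - t) (Or.inr (by omega))).1 e (Or.inl ⟨by omega, by omega⟩)
          rwa [show t + e - e + (v - t) = v by omega] at h6
        · -- `c = t - 1`, `m = 2 t + e - 1 - v`
          have h6 := (hr (t - 1) (Or.inr (by omega))).1 (2 * t + e - 1 - v)
            (Or.inl ⟨by omega, by omega⟩)
          rwa [show t + e - (2 * t + e - 1 - v) + (t - 1) = v by omega] at h6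
    intro v hv
    rcases Nat.lt_or_ge v 1 with h1 | h1
    · obtain rfl : v = 0 := by omega
      exact z6
    rcases Nat.lt_or_ge v e with h2 | h2
    · exact z2 v h1 h2
    rcases Nat.lt_or_ge (t - w) v with h3 | h3
    · rcases Nat.lt_or_ge v (t + e - 1) with h4 | h4
      · exact z3 v (by omega) (by omega)
      rcases Nat.lt_or_ge (t + e - 1) v with h6 | h6
      · rcases Nat.lt_or_ge v (2 * t - 2 * w) with h7 | h7
        · exact z1 v (by omega) h7
        rcases Nat.lt_or_ge (2 * t - 2 * w) v with h8 | h8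
        · rcases Nat.lt_or_ge v (2 * t + e - 2) with h9 | h9
          · exact z8 v (by omega) (by omega)
          · obtain rfl : v = 2 * t + e - 2 := by omega
            exact z5
        · obtain rfl : v = 2 * t - 2 * w := by omega
          exact z7
      · obtain rfl : v = t + e - 1 := by omega
        exact z4
    · exact z0 v h2 (by omega)

end Pool.Agent.N633.HB.P2
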