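import Pool.Agent.N633.HB.Stm2

/-!
Project HB (MP_9bc296_ag): `StmPC`, contraction of a path in a permanent. By helper106.
-/

set_option autoImplicit false

namespace Pool.Agent.N633.HB.PC

open Finset
open Pool.Agent.N186.HK (pm pm_nil pm_cons)

variable {D : Type*} [CommRing D]

lemma sg_succ (x : ℕ → D) (b : ℕ) {a e : ℕ} (h : a ≤ e) :
    sg x b a e = x (b + a) + sg x b (a + 1) e := by
  unfold sg
  have e1 : Icc a e = insert a (Icc (a + 1) e) := by
    ext i
    simp only [mem_Icc, mem_insert]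
    omega
  rw [e1, sum_insert (by simp)]

lemma sg_self (x : ℕ → D) (b a : ℕ) : sg x b a a = x (b + a) := by simp [sg]

/-- the path property: the columns `n - m`, `a ≤ m < a + K`, in the rows `a, …, a + K` -/
def Pa (x : ℕ → D) (n a K : ℕ) : Prop :=
  ∀ j ρ, n < j + a + K → j + a ≤ n → a ≤ ρ → ρ ≤ a + K →
    x (j + ρ) = if j + ρ = n ∨ j + ρ = n + 1 then 1 else 0

lemma Pa.tail {x : ℕ → D} {n a K : ℕ} (h : Pa x n a (K + 1)) : Pa x n (a + 1) K :=
  fun j ρ h1 h2 h3 h4 => h j ρ (by omega) (by omega) (by omega) (by omega)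

lemma Pa.one {x : ℕ → D} {n a K : ℕ} (h : Pa x n a (K + 1)) (ha : a + (K + 1) ≤ n) :
    x (n - a + a) = 1 := by
  rw [h (n - a) a (by omega) (by omega) (by omega) (by omega), if_pos (by omega)]

lemma Pa.zero {x : ℕ → D} {n a K j : ℕ} (h : Pa x n a (K + 1)) (h1 : n < j + a + (K + 1))
    (h2 : j + a < n) : x (j + a) = 0 := by
  rw [h j a (by omega) (by omega) (by omega) (by omega), if_neg (by omega)]

lemma Pa.sg1 {x : ℕ → D} {n a K e : ℕ} (h : Pa x n a (K + 1)) (ha : a + (K + 1) ≤ n)
    (h1 : a + 1 ≤ e) (h2 : e ≤ a + (K + 1)) : sg x (n - a) (a + 1) e = 1 := by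
  unfold sg
  rw [sum_eq_single (a + 1)]
  · rw [h (n - a) (a + 1) (by omega) (by omega) (by omega) (by omega), if_pos (by omega)]
  · intro ρ hρ hne
    rw [mem_Icc] at hρ
    rw [h (n - a) ρ (by omega) (by omega) (by omega) (by omega), if_neg (by omega)]
  · intro h3
    exact absurd (mem_Icc.2 ⟨le_rfl, h1⟩) h3

lemma Pa.sg0 {x : ℕ → D} {n a K i e : ℕ} (h : Pa x n a (K + 1)) (ha : a + (K + 1) ≤ n)
    (h1 : a + 1 < i) (h2 : e ≤ a + (K + 1)) : sg x (n - a) i e = 0 := by
  unfold sg
  refine sum_eq_zero fun ρ hρ => ?_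
  rw [mem_Icc] at hρ
  rw [h (n - a) ρ (by omega) (by omega) (by omega) (by omega), if_neg (by omega)]

lemma sum2 {s : Finset ℕ} {f : ℕ → D} (a b : ℕ) (hab : a ≠ b) (ha : a ∈ s) (hb : b ∈ s)
    (h : ∀ i ∈ s, i ≠ a → i ≠ b → f i = 0) : ∑ i ∈ s, f i = f a + f b := by
  have h1 : ({a, b} : Finset ℕ) ⊆ s := by
    intro i hi
    simp only [mem_insert, mem_singleton] at hi
    rcases hi with rfl | rfl <;> assumption
  rw [← sum_subset h1, sum_pair hab]
  intro i hi hn
  simp only [mem_insert, mem_singleton, not_or] at hn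
  exact h i hi hn.1 hn.2

lemma sum3 {s : Finset ℕ} {f : ℕ → D} (a b c : ℕ) (hab : a ≠ b) (hac : a ≠ c) (hbc : b ≠ c)
    (ha : a ∈ s) (hb : b ∈ s) (hc : c ∈ s)
    (h : ∀ i ∈ s, i ≠ a → i ≠ b → i ≠ c → f i = 0) : ∑ i ∈ s, f i = f a + f b + f c := by
  have h1 : ({a, b, c} : Finset ℕ) ⊆ s := by
    intro i hi
    simp only [mem_insert, mem_singleton] at hi
    rcases hi with rfl | rfl | rfl <;> assumption
  rw [← sum_subset h1, sum_insert (by simp [hab, hac]), sum_pair hbc, add_assoc]
  intro i hi hn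
  simp only [mem_insert, mem_singleton, not_or] at hn
  exact h i hi hn.1 hn.2.1 hn.2.2

lemma sum4 {s : Finset ℕ} {f : ℕ → D} (a b c d : ℕ) (hab : a ≠ b) (hac : a ≠ c) (had : a ≠ d)
    (hbc : b ≠ c) (hbd : b ≠ d) (hcd : c ≠ d) (ha : a ∈ s) (hb : b ∈ s) (hc : c ∈ s) (hd : d ∈ s)
    (h : ∀ i ∈ s, i ≠ a → i ≠ b → i ≠ c → i ≠ d → f i = 0) :
    ∑ i ∈ s, f i = f a + f b + f c + f d := by
  have h1 : ({a, b, c, d} : Finset ℕ) ⊆ s := by
    intro i hi
    simp only [mem_insert, mem_singleton] at hi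
    rcases hi with rfl | rfl | rfl | rfl <;> assumption
  rw [← sum_subset h1, sum_insert (by simp [hab, hac, had]), sum_insert (by simp [hbc, hbd]),
    sum_pair hcd]
  · ring
  intro i hi hn
  simp only [mem_insert, mem_singleton, not_or] at hn
  exact h i hi hn.1 hn.2.1 hn.2.2.1 hn.2.2.2

lemma part1 (x : ℕ → D) (n : ℕ) : ∀ (K a b : ℕ) (J : Finset ℕ), a + K ≤ n → Pa x n a K →
    ¬ (n < b + a + K ∧ b + a ≤ n) → (∀ j, j ∈ J ↔ j = b ∨ (n < j + a + K ∧ j + a ≤ n)) →
    pm x J (List.range' a (K + 1)) = sg x b a (a + K)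
  | 0, a, b, J, _, _, _, hJ => by
    have e1 : J = {b} := by
      ext j
      rw [hJ, mem_singleton]
      omega
    rw [e1, List.range'_succ, List.range'_zero, pm_cons, sum_singleton, pm_nil, mul_one, add_zero,
      sg_self]
  | K + 1, a, b, J, hn, hP, hb, hJ => by
    rw [List.range'_succ, pm_cons, sum2 b (n - a) (by omega) (by rw [hJ]; omega)
      (by rw [hJ]; omega) (fun i hi h1 h2 => by
        rw [hJ] at hi
        rw [hP.zero (by omega) (by omega), zero_mul])]
    have e1 := part1 x n K (a + 1) (n - a) (J.erase b) (by omega) hP.tail (by omega)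
      (fun j => by rw [mem_erase, hJ]; omega)
    have e2 := part1 x n K (a + 1) b (J.erase (n - a)) (by omega) hP.tail (by omega)
      (fun j => by rw [mem_erase, hJ]; omega)
    rw [e1, e2, hP.one hn, hP.sg1 hn (by omega) (by omega), sg_succ x b (by omega : a ≤ a + (K + 1)),
      show a + 1 + K = a + (K + 1) by omega]
    ring

lemma part2 (x : ℕ → D) (n m : ℕ) : ∀ (K a b b' : ℕ) (J : Finset ℕ), a + K ≤ n → Pa x n a K →
    a ≤ m → m < a + K → b ≠ b' → ¬ (n < b + a + K ∧ b + a ≤ n) →
    ¬ (n < b' + a + K ∧ b' + a ≤ n) →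
    (∀ j, j ∈ J ↔ j = b ∨ j = b' ∨ (n < j + a + K ∧ j + a ≤ n ∧ j + m ≠ n)) →
    pm x J (List.range' a (K + 1)) =
      sg x b a m * sg x b' (m + 1) (a + K) + sg x b' a m * sg x b (m + 1) (a + K)
  | 0, a, b, b', J, _, _, h1, h2, _, _, _, _ => by omega
  | K + 1, a, b, b', J, hn, hP, h1, h2, hbb, hb, hb', hJ => by
    have e0 : a + 1 + K = a + (K + 1) := by omega
    rcases eq_or_lt_of_le h1 with h1 | h1
    · subst h1
      rw [List.range'_succ, pm_cons, sum2 b b' hbb (by rw [hJ]; omega)
        (by rw [hJ]; omega) (fun i hi h1 h2 => by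
          rw [hJ] at hi
          rw [hP.zero (by omega) (by omega), zero_mul])]
      have e1 := part1 x n K (a + 1) b' (J.erase b) (by omega) hP.tail (by omega)
        (fun j => by rw [mem_erase, hJ]; omega)
      have e2 := part1 x n K (a + 1) b (J.erase b') (by omega) hP.tail (by omega)
        (fun j => by rw [mem_erase, hJ]; omega)
      rw [e1, e2, sg_self, sg_self, e0]
    · rw [List.range'_succ, pm_cons, sum3 b b' (n - a) hbb (by omega) (by omega)
        (by rw [hJ]; omega) (by rw [hJ]; omega) (by rw [hJ]; omega) (fun i hi h1 h2 h3 => by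
          rw [hJ] at hi
          rw [hP.zero (by omega) (by omega), zero_mul])]
      have e1 := part2 x n m K (a + 1) b' (n - a) (J.erase b) (by omega) hP.tail (by omega)
        (by omega) (by omega) (by omega) (by omega) (fun j => by rw [mem_erase, hJ]; omega)
      have e2 := part2 x n m K (a + 1) b (n - a) (J.erase b') (by omega) hP.tail (by omega)
        (by omega) (by omega) (by omega) (by omega) (fun j => by rw [mem_erase, hJ]; omega)
      have e3 := part2 x n m K (a + 1) b b' (J.erase (n - a)) (by omega) hP.tail (by omega)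
        (by omega) (by omega) (by omega) (by omega) (fun j => by rw [mem_erase, hJ]; omega)
      rw [e1, e2, e3, hP.one hn, hP.sg1 hn (by omega) (by omega), e0,
        hP.sg0 hn (by omega) (by omega), sg_succ x b h1.le, sg_succ x b' h1.le]
      ring

lemma part3 (x : ℕ → D) (n m m' : ℕ) : ∀ (K a b b' b'' : ℕ) (J : Finset ℕ), a + K ≤ n →
    Pa x n a K → a ≤ m → m < m' → m' < a + K → b ≠ b' → b ≠ b'' → b' ≠ b'' →
    ¬ (n < b + a + K ∧ b + a ≤ n) → ¬ (n < b' + a + K ∧ b' + a ≤ n) →
    ¬ (n < b'' + a + K ∧ b'' + a ≤ n) →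
    (∀ j, j ∈ J ↔ j = b ∨ j = b' ∨ j = b'' ∨
      (n < j + a + K ∧ j + a ≤ n ∧ j + m ≠ n ∧ j + m' ≠ n)) →
    pm x J (List.range' a (K + 1)) =
      perm3 (sg x b a m) (sg x b (m + 1) m') (sg x b (m' + 1) (a + K))
      (sg x b' a m) (sg x b' (m + 1) m') (sg x b' (m' + 1) (a + K))
      (sg x b'' a m) (sg x b'' (m + 1) m') (sg x b'' (m' + 1) (a + K))
  | 0, a, b, b', b'', J, _, _, h1, h2, h3, _, _, _, _, _, _, _ => by omega
  | K + 1, a, b, b', b'', J, hn, hP, h1, h2, h3, hbb, hbb', hbb'', hb, hb', hb'', hJ => by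
    have e0 : a + 1 + K = a + (K + 1) := by omega
    rcases eq_or_lt_of_le h1 with h1 | h1
    · subst h1
      rw [List.range'_succ, pm_cons, sum3 b b' b'' hbb hbb' hbb'' (by rw [hJ]; omega)
        (by rw [hJ]; omega) (by rw [hJ]; omega) (fun i hi h1 h2 h3 => by
          rw [hJ] at hi
          rw [hP.zero (by omega) (by omega), zero_mul])]
      have e1 := part2 x n m' K (a + 1) b' b'' (J.erase b) (by omega) hP.tail (by omega)
        (by omega) (by omega) (by omega) (by omega) (fun j => by rw [mem_erase, hJ]; omega)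
      have e2 := part2 x n m' K (a + 1) b b'' (J.erase b') (by omega) hP.tail (by omega)
        (by omega) (by omega) (by omega) (by omega) (fun j => by rw [mem_erase, hJ]; omega)
      have e3 := part2 x n m' K (a + 1) b b' (J.erase b'') (by omega) hP.tail (by omega)
        (by omega) (by omega) (by omega) (by omega) (fun j => by rw [mem_erase, hJ]; omega)
      rw [e1, e2, e3, sg_self, sg_self, sg_self, e0]
      unfold perm3
      ring
    · rw [List.range'_succ, pm_cons, sum4 b b' b'' (n - a) hbb hbb' (by omega) hbb'' (by omega)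
        (by omega) (by rw [hJ]; omega) (by rw [hJ]; omega) (by rw [hJ]; omega)
        (by rw [hJ]; omega) (fun i hi h1 h2 h3 h4 => by
          rw [hJ] at hi
          rw [hP.zero (by omega) (by omega), zero_mul])]
      have e1 := part3 x n m m' K (a + 1) b' b'' (n - a) (J.erase b) (by omega) hP.tail (by omega)
        h2 (by omega) (by omega) (by omega) (by omega) (by omega) (by omega) (by omega)
        (fun j => by rw [mem_erase, hJ]; omega)
      have e2 := part3 x n m m' K (a + 1) b b'' (n - a) (J.erase b') (by omega) hP.tail (by omega)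
        h2 (by omega) (by omega) (by omega) (by omega) (by omega) (by omega) (by omega)
        (fun j => by rw [mem_erase, hJ]; omega)
      have e3 := part3 x n m m' K (a + 1) b b' (n - a) (J.erase b'') (by omega) hP.tail (by omega)
        h2 (by omega) (by omega) (by omega) (by omega) (by omega) (by omega) (by omega)
        (fun j => by rw [mem_erase, hJ]; omega)
      have e4 := part3 x n m m' K (a + 1) b b' b'' (J.erase (n - a)) (by omega) hP.tail (by omega)
        h2 (by omega) (by omega) (by omega) (by omega) (by omega) (by omega) (by omega)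
        (fun j => by rw [mem_erase, hJ]; omega)
      rw [e1, e2, e3, e4, hP.one hn, hP.sg1 hn (by omega) (by omega), e0,
        hP.sg0 hn (by omega : a + 1 < m + 1) (by omega),
        hP.sg0 hn (by omega : a + 1 < m' + 1) (by omega), sg_succ x b h1.le,
        sg_succ x b' h1.le, sg_succ x b'' h1.le]
      unfold perm3
      ring

lemma mem_pth {n l j : ℕ} (hl : l ≤ n) : j ∈ pth n l ↔ n < j + l ∧ j + 1 ≤ n := by
  unfold pth
  simp only [mem_image, mem_Ico]
  constructor
  · rintro ⟨m, hm, rfl⟩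
    omega
  · intro h
    exact ⟨n - j, by omega, by omega⟩

theorem t (D : Type*) [CommRing D] : StmPC D := by
  intro x n l hl hln hx
  obtain ⟨K, rfl⟩ : ∃ K, l = K + 1 := ⟨l - 1, by omega⟩
  have hP : Pa x n 1 K := by
    intro j ρ h1 h2 h3 h4
    have h := hx (n - j) (by omega) (by omega) ρ h3 (by omega)
    rw [show n - (n - j) = j by omega] at h
    rw [h]
    congr 1
    apply propext
    omega
  have e0 : K + 1 = 1 + K := by omega
  refine ⟨?_, ?_, ?_⟩
  · intro b hb
    rw [mem_pth hln] at hb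
    rw [part1 x n K 1 b _ (by omega) hP (by omega) (fun j => by
      rw [mem_insert, mem_pth hln]; omega), e0]
  · intro m h1 h2 b b' hb hb' hbb
    rw [mem_pth hln] at hb hb'
    rw [part2 x n m K 1 b b' _ (by omega) hP h1 (by omega) hbb (by omega) (by omega) (fun j => by
      rw [mem_insert, mem_insert, mem_erase, mem_pth hln]; omega), e0]
  · intro m m' h1 h2 h3 b b' b'' hb hb' hb'' hbb hbb' hbb''
    rw [mem_pth hln] at hb hb' hb''
    rw [part3 x n m m' K 1 b b' b'' _ (by omega) hP h1 h2 (by omega) hbb hbb' hbb'' (by omega)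
      (by omega) (by omega) (fun j => by
        rw [mem_insert, mem_insert, mem_insert, mem_erase, mem_erase, mem_pth hln]; omega), e0]

end Pool.Agent.N633.HB.PC
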