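import Pool.Agent.N633.HB.Stm2

/-!
Project HB (helper633), PU (helper152): relations for a path with chords.
-/

set_option autoImplicit false

namespace Pool.Agent.N633.HB.PU

open Finset
open Pool.Agent.N186.HK (pm vm)
open Pool.Agent.N633.HB

/-- the sums of the column of the chord `i` over the first rows -/
def W (k : Type*) [Field k] (w i m : ℕ) : k := if i ≤ m ∧ m < i + w then 1 else 0

theorem sg_split {D : Type*} [CommRing D] (x : ℕ → D) (b : ℕ) {m m' : ℕ} (h : m ≤ m') :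
    sg x b 1 m + sg x b (m + 1) m' = sg x b 1 m' := by
  unfold sg
  have e1 : ∀ i j : ℕ, Icc i j = Ico i (j + 1) := by
    intro i j
    ext r
    simp only [mem_Icc, mem_Ico]
    omega
  rw [e1, e1, e1]
  exact Finset.sum_Ico_consecutive (fun ρ => x (b + ρ)) (by omega) (by omega)

section

variable {k : Type*} [Field k]

theorem sg_W (x : ℕ → k) (e w l i : ℕ) (hw : 1 ≤ w) (hi : 1 ≤ i)
    (h : ∀ ρ, 1 ≤ ρ → ρ ≤ l → x (e + 1 - i + ρ) = if ρ = i then 1 else if ρ = i + w then -1 else 0) :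
    ∀ m, m ≤ l → sg x (e + 1 - i) 1 m = W k w i m := by
  intro m
  induction m with
  | zero =>
    intro _
    unfold sg W
    rw [if_neg (by omega)]
    simp
  | succ m ih =>
    intro hm
    unfold sg at ih ⊢
    rw [Finset.sum_Icc_succ_top (by omega), ih (by omega), h (m + 1) (by omega) hm]
    unfold W
    split_ifs <;> first | omega | norm_num

theorem pth_mem {n l b : ℕ} : b ∈ pth n l ↔ ∃ m, 1 ≤ m ∧ m < l ∧ n - m = b := by
  unfold pth
  rw [mem_image]
  constructor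
  · rintro ⟨m, hm, rfl⟩
    rw [mem_Ico] at hm
    exact ⟨m, hm.1, hm.2, rfl⟩
  · rintro ⟨m, h1, h2, rfl⟩
    exact ⟨m, mem_Ico.2 ⟨h1, h2⟩, rfl⟩

theorem pth_sum {n l : ℕ} (hln : l ≤ n) (f : ℕ → k) (S : Finset ℕ) (hS : S ⊆ Ico 1 l) :
    ∑ j ∈ S.image (fun m => n - m), f j = ∑ m ∈ S, f (n - m) := by
  rw [Finset.sum_image]
  intro a ha b hb hab
  have h1 := mem_Ico.1 (hS ha)
  have h2 := mem_Ico.1 (hS hb)
  have h3 : n - a = n - b := hab
  omega

theorem pth_erase {n l m₀ : ℕ} (hln : l ≤ n) (h1 : 1 ≤ m₀) (h2 : m₀ < l) :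
    (pth n l).erase (n - m₀) = ((Ico 1 l).erase m₀).image (fun m => n - m) := by
  ext b
  rw [mem_erase, mem_image, pth_mem]
  constructor
  · rintro ⟨hb, m, h3, h4, rfl⟩
    refine ⟨m, ?_, rfl⟩
    rw [mem_erase, mem_Ico]
    exact ⟨fun h => hb (by rw [h]), h3, h4⟩
  · rintro ⟨m, hm, rfl⟩
    rw [mem_erase, mem_Ico] at hm
    refine ⟨?_, m, hm.2.1, hm.2.2, rfl⟩
    intro h
    apply hm.1
    omega

theorem pth_card {n l : ℕ} (hln : l ≤ n) : (pth n l).card = l - 1 := by
  unfold pth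
  rw [Finset.card_image_of_injOn, Nat.card_Ico]
  intro a ha b hb hab
  have h1 := mem_Ico.1 (Finset.mem_coe.1 ha)
  have h2 := mem_Ico.1 (Finset.mem_coe.1 hb)
  have h3 : n - a = n - b := hab
  omega

theorem sum_ind (S A : Finset ℕ) (hA : A ⊆ S) (U : ℕ → k) :
    ∑ m ∈ S, U m * (if m ∈ A then 1 else 0) = ∑ m ∈ A, U m := by
  simp only [mul_ite, mul_one, mul_zero]
  rw [Finset.sum_ite_mem, Finset.inter_eq_right.2 hA]

/-- the data -/
structure Dat (k : Type*) [Field k] (x u : ℕ → k) (n e w l : ℕ) : Prop where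
  he : 2 ≤ e
  hw : 2 ≤ w
  hl : e + 1 + w ≤ l
  hn : n = l + w + 1 + e
  col : ∀ i, 1 ≤ i → i ≤ e + 1 → ∀ m, m ≤ l → sg x (e + 1 - i) 1 m = W k w i m
  pc1 : ∀ b, b ∉ pth n l → pm x (insert b (pth n l)) (List.range' 1 l) = sg x b 1 l
  pc2 : ∀ m, 1 ≤ m → m < l → ∀ b b', b ∉ pth n l → b' ∉ pth n l → b ≠ b' →
    pm x (insert b (insert b' ((pth n l).erase (n - m)))) (List.range' 1 l) =
      sg x b 1 m * sg x b' (m + 1) l + sg x b' 1 m * sg x b (m + 1) l
  pc3 : ∀ m m', 1 ≤ m → m < m' → m' < l → ∀ b b' b'', b ∉ pth n l → b' ∉ pth n l →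
    b'' ∉ pth n l → b ≠ b' → b ≠ b'' → b' ≠ b'' →
    pm x (insert b (insert b' (insert b'' (((pth n l).erase (n - m)).erase (n - m')))))
      (List.range' 1 l) =
    perm3 (sg x b 1 m) (sg x b (m + 1) m') (sg x b (m' + 1) l)
      (sg x b' 1 m) (sg x b' (m + 1) m') (sg x b' (m' + 1) l)
      (sg x b'' 1 m) (sg x b'' (m + 1) m') (sg x b'' (m' + 1) l)
  rel : ∀ J₂ : Finset ℕ, J₂ ⊆ pth n l ∪ range (e + 1) → J₂.card = l + 1 →
    ∑ j ∈ J₂, u j * pm x (J₂.erase j) (List.range' 1 l) = 0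

section

variable {x u : ℕ → k} {n e w l : ℕ}

theorem Dat.nch (h : Dat k x u n e w l) {i : ℕ} (_h1 : 1 ≤ i) : e + 1 - i ∉ pth n l := by
  have := h.hl
  have := h.hn
  rw [pth_mem]
  rintro ⟨m, h3, h4, h5⟩
  omega

theorem Dat.pair (h : Dat k x u n e w l) {m : ℕ} (h1 : 1 ≤ m) (h2 : m < l) {i i' : ℕ} (hi : 1 ≤ i)
    (hi2 : i ≤ e + 1) (hi' : 1 ≤ i') (hi2' : i' ≤ e + 1) (hii : i ≠ i') :
    pm x (insert (e + 1 - i) (insert (e + 1 - i') ((pth n l).erase (n - m)))) (List.range' 1 l) =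
      -2 * (W k w i m * W k w i' m) := by
  have hl := h.hl
  rw [h.pc2 m h1 h2 _ _ (h.nch hi) (h.nch hi') (by omega)]
  have e1 := sg_split x (e + 1 - i) (m := m) (m' := l) (by omega)
  have e2 := sg_split x (e + 1 - i') (m := m) (m' := l) (by omega)
  rw [h.col i hi hi2 m (by omega), h.col i hi hi2 l le_rfl] at e1
  rw [h.col i' hi' hi2' m (by omega), h.col i' hi' hi2' l le_rfl] at e2
  rw [h.col i hi hi2 m (by omega), h.col i' hi' hi2' m (by omega)]
  have z1 : W k w i l = 0 := by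
    unfold W
    exact if_neg (by omega)
  have z2 : W k w i' l = 0 := by
    unfold W
    exact if_neg (by omega)
  rw [z1] at e1
  rw [z2] at e2
  linear_combination (W k w i' m) * e1 + (W k w i m) * e2

/-- two chords -/
theorem Dat.R0 (h : Dat k x u n e w l) (h2 : (2 : k) ≠ 0) {i i' : ℕ} (hi : 1 ≤ i) (hii : i < i')
    (hi' : i' ≤ e + 1) : ∑ m ∈ Ico i' (i + w), u (n - m) = 0 := by
  have hl := h.hl
  have hn := h.hn
  have hw := h.hw
  have hln : l ≤ n := by omega
  have hb : e + 1 - i ≠ e + 1 - i' := by omega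
  have nb := h.nch hi
  have nb' := h.nch (i := i') (by omega)
  have hr := h.rel (insert (e + 1 - i) (insert (e + 1 - i') (pth n l))) (by
    intro j hj
    rw [mem_insert, mem_insert] at hj
    rw [mem_union, mem_range]
    rcases hj with rfl | rfl | hj
    · right; omega
    · right; omega
    · left; exact hj) (by
    rw [Finset.card_insert_of_notMem, Finset.card_insert_of_notMem nb', pth_card hln]
    · omega
    · rw [mem_insert]
      rintro (h3 | h3)
      · exact hb h3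
      · exact nb h3)
  have nb2 : e + 1 - i ∉ insert (e + 1 - i') (pth n l) := by
    rw [mem_insert]
    rintro (h3 | h3)
    · exact hb h3
    · exact nb h3
  rw [Finset.sum_insert nb2, Finset.sum_insert nb', Finset.erase_insert nb2] at hr
  have z1 : pm x (insert (e + 1 - i') (pth n l)) (List.range' 1 l) = 0 := by
    rw [h.pc1 _ nb', h.col i' (by omega) hi' l le_rfl]
    unfold W
    exact if_neg (by omega)
  have z2 : pm x ((insert (e + 1 - i) (insert (e + 1 - i') (pth n l))).erase (e + 1 - i'))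
      (List.range' 1 l) = 0 := by
    rw [Finset.erase_insert_of_ne hb, Finset.erase_insert nb', h.pc1 _ nb,
      h.col i hi (by omega) l le_rfl]
    unfold W
    exact if_neg (by omega)
  rw [z1, z2, mul_zero, mul_zero, zero_add, zero_add] at hr
  have hp : pth n l = (Ico 1 l).image (fun m => n - m) := rfl
  rw [Finset.sum_congr hp fun _ _ => rfl, pth_sum hln _ _ (Subset.refl _)] at hr
  have hr2 : ∑ m ∈ Ico 1 l, (-2 : k) * (u (n - m) * (if m ∈ Ico i' (i + w) then 1 else 0)) = 0 := by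
    refine Eq.trans (Finset.sum_congr rfl fun m hm => ?_) hr
    rw [mem_Ico] at hm
    have n1 : e + 1 - i ≠ n - m := fun h3 => nb (pth_mem.2 ⟨m, hm.1, hm.2, h3.symm⟩)
    have n2 : e + 1 - i' ≠ n - m := fun h3 => nb' (pth_mem.2 ⟨m, hm.1, hm.2, h3.symm⟩)
    rw [Finset.erase_insert_of_ne n1, Finset.erase_insert_of_ne n2,
      h.pair hm.1 hm.2 hi (by omega) (by omega) hi' (by omega)]
    have hW : W k w i m * W k w i' m = if m ∈ Ico i' (i + w) then 1 else 0 := by
      unfold W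
      simp only [mem_Ico]
      split_ifs <;> first | omega | norm_num
    rw [hW]
    ring
  rw [← Finset.mul_sum, sum_ind (Ico 1 l) (Ico i' (i + w)) (by
    intro m hm
    rw [mem_Ico] at hm ⊢
    omega) (fun m => u (n - m))] at hr2
  rcases mul_eq_zero.1 hr2 with h3 | h3
  · exact absurd (neg_eq_zero.1 h3) h2
  · exact h3

/-- the coefficients for three chords -/
def T (k : Type*) [Field k] (w i₁ i₂ i₃ m m' : ℕ) : k :=
  (W k w i₁ m' * W k w i₂ m * W k w i₃ m + W k w i₂ m' * W k w i₁ m * W k w i₃ m +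
    W k w i₃ m' * W k w i₁ m * W k w i₂ m) -
  (W k w i₁ m * W k w i₂ m' * W k w i₃ m' + W k w i₂ m * W k w i₁ m' * W k w i₃ m' +
    W k w i₃ m * W k w i₁ m' * W k w i₂ m')

theorem Dat.triple (h : Dat k x u n e w l) {m m' : ℕ} (h1 : 1 ≤ m) (hmm : m < m') (h2 : m' < l)
    {i₁ i₂ i₃ : ℕ} (hi₁ : 1 ≤ i₁) (hi₁2 : i₁ < i₂) (hi₂ : i₂ < i₃) (hi₃ : i₃ ≤ e + 1) :
    pm x (insert (e + 1 - i₁) (insert (e + 1 - i₂) (insert (e + 1 - i₃)
      (((pth n l).erase (n - m)).erase (n - m'))))) (List.range' 1 l) =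
      2 * T k w i₁ i₂ i₃ m m' := by
  have hl := h.hl
  rw [h.pc3 m m' h1 hmm h2 _ _ _ (h.nch hi₁) (h.nch (by omega)) (h.nch (by omega)) (by omega)
    (by omega) (by omega)]
  have key : ∀ i, 1 ≤ i → i ≤ e + 1 → sg x (e + 1 - i) 1 m = W k w i m ∧
      sg x (e + 1 - i) (m + 1) m' = W k w i m' - W k w i m ∧
      sg x (e + 1 - i) (m' + 1) l = - W k w i m' := by
    intro i hi hi2
    have e1 := sg_split x (e + 1 - i) (m := m) (m' := m') (by omega)
    have e2 := sg_split x (e + 1 - i) (m := m') (m' := l) (by omega)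
    rw [h.col i hi hi2 m (by omega), h.col i hi hi2 m' (by omega)] at e1
    rw [h.col i hi hi2 m' (by omega), h.col i hi hi2 l le_rfl] at e2
    have z1 : W k w i l = 0 := by
      unfold W
      exact if_neg (by omega)
    rw [z1] at e2
    refine ⟨h.col i hi hi2 m (by omega), ?_, ?_⟩
    · linear_combination e1
    · linear_combination e2
  obtain ⟨a1, a2, a3⟩ := key i₁ hi₁ (by omega)
  obtain ⟨b1, b2, b3⟩ := key i₂ (by omega) (by omega)
  obtain ⟨c1, c2, c3⟩ := key i₃ (by omega) hi₃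
  rw [a1, a2, a3, b1, b2, b3, c1, c2, c3]
  unfold perm3 T
  ring

/-- three chords -/
theorem Dat.R1 (h : Dat k x u n e w l) (h2 : (2 : k) ≠ 0) {i₁ i₂ i₃ m₀ : ℕ} (hi₁ : 1 ≤ i₁)
    (hi₁2 : i₁ < i₂) (hi₂ : i₂ < i₃) (hi₃ : i₃ ≤ e + 1) (hm₀ : 1 ≤ m₀) (hm₀l : m₀ < l) :
    u (e + 1 - i₁) * (W k w i₂ m₀ * W k w i₃ m₀) + u (e + 1 - i₂) * (W k w i₁ m₀ * W k w i₃ m₀) +
      u (e + 1 - i₃) * (W k w i₁ m₀ * W k w i₂ m₀) =
    ∑ m ∈ (Ico 1 l).erase m₀, u (n - m) * T k w i₁ i₂ i₃ (min m m₀) (max m m₀) := by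
  have hl := h.hl
  have hn := h.hn
  have hw := h.hw
  have hln : l ≤ n := by omega
  obtain ⟨b₁, hb₁⟩ : ∃ b₁, b₁ = e + 1 - i₁ := ⟨_, rfl⟩
  obtain ⟨b₂, hb₂⟩ : ∃ b₂, b₂ = e + 1 - i₂ := ⟨_, rfl⟩
  obtain ⟨b₃, hb₃⟩ : ∃ b₃, b₃ = e + 1 - i₃ := ⟨_, rfl⟩
  have nb₁ : b₁ ∉ pth n l := by rw [hb₁]; exact h.nch hi₁
  have nb₂ : b₂ ∉ pth n l := by rw [hb₂]; exact h.nch (by omega)
  have nb₃ : b₃ ∉ pth n l := by rw [hb₃]; exact h.nch (by omega)
  have b12 : b₁ ≠ b₂ := by omega
  have b13 : b₁ ≠ b₃ := by omega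
  have b23 : b₂ ≠ b₃ := by omega
  obtain ⟨Q, hQ⟩ : ∃ Q, Q = (pth n l).erase (n - m₀) := ⟨_, rfl⟩
  have hQs : Q ⊆ pth n l := by
    rw [hQ]
    exact Finset.erase_subset _ _
  have q₁ : b₁ ∉ Q := fun h3 => nb₁ (hQs h3)
  have q₂ : b₂ ∉ Q := fun h3 => nb₂ (hQs h3)
  have q₃ : b₃ ∉ Q := fun h3 => nb₃ (hQs h3)
  have r₂ : b₂ ∉ insert b₃ Q := by
    rw [mem_insert]
    rintro (h3 | h3)
    · exact b23 h3
    · exact q₂ h3
  have r₁ : b₁ ∉ insert b₂ (insert b₃ Q) := by
    rw [mem_insert, mem_insert]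
    rintro (h3 | h3 | h3)
    · exact b12 h3
    · exact b13 h3
    · exact q₁ h3
  have hmem : n - m₀ ∈ pth n l := pth_mem.2 ⟨m₀, hm₀, hm₀l, rfl⟩
  have hr := h.rel (insert b₁ (insert b₂ (insert b₃ Q))) (by
    intro j hj
    rw [mem_insert, mem_insert, mem_insert] at hj
    rw [mem_union, mem_range]
    rcases hj with rfl | rfl | rfl | hj
    · right; omega
    · right; omega
    · right; omega
    · left; exact hQs hj) (by
    rw [Finset.card_insert_of_notMem r₁, Finset.card_insert_of_notMem r₂,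
      Finset.card_insert_of_notMem q₃, hQ, Finset.card_erase_of_mem hmem, pth_card hln]
    omega)
  rw [Finset.sum_insert r₁, Finset.sum_insert r₂, Finset.sum_insert q₃, Finset.erase_insert r₁,
    Finset.erase_insert_of_ne b12, Finset.erase_insert r₂, Finset.erase_insert_of_ne b13,
    Finset.erase_insert_of_ne b23, Finset.erase_insert q₃] at hr
  have p1 : pm x (insert b₂ (insert b₃ Q)) (List.range' 1 l) = -2 * (W k w i₂ m₀ * W k w i₃ m₀) := by
    rw [hb₂, hb₃, hQ]
    exact h.pair hm₀ hm₀l (by omega) (by omega) (by omega) hi₃ (by omega)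
  have p2 : pm x (insert b₁ (insert b₃ Q)) (List.range' 1 l) = -2 * (W k w i₁ m₀ * W k w i₃ m₀) := by
    rw [hb₁, hb₃, hQ]
    exact h.pair hm₀ hm₀l (by omega) (by omega) (by omega) hi₃ (by omega)
  have p3 : pm x (insert b₁ (insert b₂ Q)) (List.range' 1 l) = -2 * (W k w i₁ m₀ * W k w i₂ m₀) := by
    rw [hb₁, hb₂, hQ]
    exact h.pair hm₀ hm₀l (by omega) (by omega) (by omega) (by omega) (by omega)
  rw [p1, p2, p3] at hr
  have hQ' : Q = ((Ico 1 l).erase m₀).image (fun m => n - m) := by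
    rw [hQ, pth_erase hln hm₀ hm₀l]
  rw [Finset.sum_congr hQ' fun _ _ => rfl, pth_sum hln _ _ (Finset.erase_subset _ _)] at hr
  have hs : ∑ m ∈ (Ico 1 l).erase m₀, u (n - m) *
      pm x ((insert b₁ (insert b₂ (insert b₃ Q))).erase (n - m)) (List.range' 1 l) =
      2 * ∑ m ∈ (Ico 1 l).erase m₀, u (n - m) * T k w i₁ i₂ i₃ (min m m₀) (max m m₀) := by
    rw [Finset.mul_sum]
    refine Finset.sum_congr rfl fun m hm => ?_
    rw [mem_erase, mem_Ico] at hm
    obtain ⟨hne, hm1, hm2⟩ := hm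
    have n1 : b₁ ≠ n - m := fun h3 => nb₁ (pth_mem.2 ⟨m, hm1, hm2, h3.symm⟩)
    have n2 : b₂ ≠ n - m := fun h3 => nb₂ (pth_mem.2 ⟨m, hm1, hm2, h3.symm⟩)
    have n3 : b₃ ≠ n - m := fun h3 => nb₃ (pth_mem.2 ⟨m, hm1, hm2, h3.symm⟩)
    rw [Finset.erase_insert_of_ne n1, Finset.erase_insert_of_ne n2, Finset.erase_insert_of_ne n3]
    have e1 : pm x (insert b₁ (insert b₂ (insert b₃ (Q.erase (n - m))))) (List.range' 1 l) =
        2 * T k w i₁ i₂ i₃ (min m m₀) (max m m₀) := by
      rw [hb₁, hb₂, hb₃, hQ]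
      rcases lt_or_gt_of_ne hne with h3 | h3
      · rw [min_eq_left h3.le, max_eq_right h3.le, Finset.erase_right_comm]
        exact h.triple hm1 h3 hm₀l hi₁ hi₁2 hi₂ hi₃
      · rw [min_eq_right h3.le, max_eq_left h3.le]
        exact h.triple hm₀ h3 hm2 hi₁ hi₁2 hi₂ hi₃
    rw [e1]
    ring
  rw [hs] at hr
  rw [← hb₁, ← hb₂, ← hb₃]
  have hr2 : (2 : k) * (u b₁ * (W k w i₂ m₀ * W k w i₃ m₀) + u b₂ * (W k w i₁ m₀ * W k w i₃ m₀) +
      u b₃ * (W k w i₁ m₀ * W k w i₂ m₀)) =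
      2 * ∑ m ∈ (Ico 1 l).erase m₀, u (n - m) * T k w i₁ i₂ i₃ (min m m₀) (max m m₀) := by
    linear_combination (-1 : k) * hr
  exact mul_left_cancel₀ h2 hr2

/-- the value of a chord, from the left -/
theorem Dat.E1 (h : Dat k x u n e w l) (h2 : (2 : k) ≠ 0) {i : ℕ} (hi : 1 ≤ i) (hi2 : i + 1 ≤ e) :
    u (e + 1 - i) = - u (n - i) := by
  have hl := h.hl
  have hw := h.hw
  have hR := h.R1 h2 (i₁ := i) (i₂ := i + 1) (i₃ := i + 2) (m₀ := i + w) hi (by omega) (by omega)
    (by omega) (by omega) (by omega)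
  have w1 : W k w i (i + w) = 0 := by unfold W; exact if_neg (by omega)
  have w2 : W k w (i + 1) (i + w) = 1 := by unfold W; exact if_pos (by omega)
  have w3 : W k w (i + 2) (i + w) = 1 := by unfold W; exact if_pos (by omega)
  rw [w1, w2, w3] at hR
  have hT : ∑ m ∈ (Ico 1 l).erase (i + w), u (n - m) *
      T k w i (i + 1) (i + 2) (min m (i + w)) (max m (i + w)) =
      ∑ m ∈ (Ico 1 l).erase (i + w), (u (n - m) * (if m ∈ Ico (i + 2) (i + w) then 1 else 0) -
        u (n - m) * (if m ∈ ({i} : Finset ℕ) then 1 else 0)) := by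
    refine Finset.sum_congr rfl fun m hm => ?_
    rw [mem_erase, mem_Ico] at hm
    rw [← mul_sub]
    congr 1
    unfold T
    rcases lt_or_gt_of_ne hm.1 with h3 | h3
    · rw [min_eq_left h3.le, max_eq_right h3.le, w1, w2, w3]
      unfold W
      simp only [mem_Ico, mem_singleton]
      split_ifs <;> first | omega | norm_num
    · rw [min_eq_right h3.le, max_eq_left h3.le, w1, w2, w3]
      unfold W
      simp only [mem_Ico, mem_singleton]
      split_ifs <;> first | omega | norm_num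
  rw [hT, Finset.sum_sub_distrib, sum_ind _ (Ico (i + 2) (i + w)) (by
      intro m hm
      rw [mem_Ico] at hm
      rw [mem_erase, mem_Ico]
      omega) (fun m => u (n - m)), sum_ind _ {i} (by
      intro m hm
      rw [mem_singleton] at hm
      rw [mem_erase, mem_Ico]
      omega) (fun m => u (n - m)), Finset.sum_singleton,
    h.R0 h2 hi (by omega : i < i + 2) (by omega)] at hR
  linear_combination hR

/-- the value of a chord, from the right -/
theorem Dat.E2 (h : Dat k x u n e w l) (h2 : (2 : k) ≠ 0) {i : ℕ} (hi : 3 ≤ i) (hi2 : i ≤ e + 1) :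
    u (e + 1 - i) = u (n - (i + w - 1)) := by
  have hl := h.hl
  have hw := h.hw
  obtain ⟨j, rfl⟩ : ∃ j, i = j + 2 := ⟨i - 2, by omega⟩
  have hR := h.R1 h2 (i₁ := j) (i₂ := j + 1) (i₃ := j + 2) (m₀ := j + 1) (by omega) (by omega)
    (by omega) (by omega) (by omega) (by omega)
  have w1 : W k w j (j + 1) = 1 := by unfold W; exact if_pos (by omega)
  have w2 : W k w (j + 1) (j + 1) = 1 := by unfold W; exact if_pos (by omega)
  have w3 : W k w (j + 2) (j + 1) = 0 := by unfold W; exact if_neg (by omega)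
  rw [w1, w2, w3] at hR
  have hT : ∑ m ∈ (Ico 1 l).erase (j + 1), u (n - m) *
      T k w j (j + 1) (j + 2) (min m (j + 1)) (max m (j + 1)) =
      ∑ m ∈ (Ico 1 l).erase (j + 1), (u (n - m) * (if m ∈ ({j + 2 + w - 1} : Finset ℕ) then 1 else 0) -
        u (n - m) * (if m ∈ Ico (j + 2) (j + w) then 1 else 0)) := by
    refine Finset.sum_congr rfl fun m hm => ?_
    rw [mem_erase, mem_Ico] at hm
    rw [← mul_sub]
    congr 1
    unfold T
    rcases lt_or_gt_of_ne hm.1 with h3 | h3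
    · rw [min_eq_left h3.le, max_eq_right h3.le, w1, w2, w3]
      unfold W
      simp only [mem_Ico, mem_singleton]
      split_ifs <;> first | omega | norm_num
    · rw [min_eq_right h3.le, max_eq_left h3.le, w1, w2, w3]
      unfold W
      simp only [mem_Ico, mem_singleton]
      split_ifs <;> first | omega | norm_num
  rw [hT, Finset.sum_sub_distrib, sum_ind _ (Ico (j + 2) (j + w)) (by
      intro m hm
      rw [mem_Ico] at hm
      rw [mem_erase, mem_Ico]
      omega) (fun m => u (n - m)), sum_ind _ {j + 2 + w - 1} (by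
      intro m hm
      rw [mem_singleton] at hm
      rw [mem_erase, mem_Ico]
      omega) (fun m => u (n - m)), Finset.sum_singleton,
    h.R0 h2 (by omega : 1 ≤ j) (by omega : j < j + 2) (by omega)] at hR
  linear_combination hR

/-- the case of three chords -/
theorem Dat.E3 (h : Dat k x u n e w l) (h2 : (2 : k) ≠ 0) (he : e = 2) (hw3 : 3 ≤ w) :
    u (e + 1 - 1) + u (e + 1 - 2) + u (e + 1 - 3) =
      u (n - (w + 1)) + u (n - (w + 2)) - (u (n - 1) + u (n - 2)) := by
  have hl := h.hl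
  have hR := h.R1 h2 (i₁ := 1) (i₂ := 2) (i₃ := 3) (m₀ := 3) (by omega) (by omega)
    (by omega) (by omega) (by omega) (by omega)
  have w1 : W k w 1 3 = 1 := by unfold W; exact if_pos (by omega)
  have w2 : W k w 2 3 = 1 := by unfold W; exact if_pos (by omega)
  have w3 : W k w 3 3 = 1 := by unfold W; exact if_pos (by omega)
  rw [w1, w2, w3] at hR
  have hT : ∑ m ∈ (Ico 1 l).erase 3, u (n - m) *
      T k w 1 2 3 (min m 3) (max m 3) =
      ∑ m ∈ (Ico 1 l).erase 3, (u (n - m) * (if m ∈ Ico (w + 1) (w + 3) then 1 else 0) -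
        u (n - m) * (if m ∈ Ico 1 3 then 1 else 0)) := by
    refine Finset.sum_congr rfl fun m hm => ?_
    rw [mem_erase, mem_Ico] at hm
    rw [← mul_sub]
    congr 1
    unfold T
    rcases lt_or_gt_of_ne hm.1 with h3 | h3
    · rw [min_eq_left h3.le, max_eq_right h3.le, w1, w2, w3]
      unfold W
      simp only [mem_Ico]
      split_ifs <;> first | omega | norm_num
    · rw [min_eq_right h3.le, max_eq_left h3.le, w1, w2, w3]
      unfold W
      simp only [mem_Ico]
      split_ifs <;> first | omega | norm_num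
  rw [hT, Finset.sum_sub_distrib, sum_ind _ (Ico (w + 1) (w + 3)) (by
      intro m hm
      rw [mem_Ico] at hm
      rw [mem_erase, mem_Ico]
      omega) (fun m => u (n - m)), sum_ind _ (Ico 1 3) (by
      intro m hm
      rw [mem_Ico] at hm
      rw [mem_erase, mem_Ico]
      omega) (fun m => u (n - m))] at hR
  have s1 : ∑ m ∈ Ico (w + 1) (w + 3), u (n - m) = u (n - (w + 1)) + u (n - (w + 2)) := by
    rw [Finset.sum_Ico_succ_top (by omega), Finset.sum_Ico_succ_top (by omega), Finset.Ico_self,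
      Finset.sum_empty, zero_add]
  have s2 : ∑ m ∈ Ico 1 3, u (n - m) = u (n - 1) + u (n - 2) := by
    rw [Finset.sum_Ico_succ_top (by omega), Finset.sum_Ico_succ_top (by omega), Finset.Ico_self,
      Finset.sum_empty, zero_add]
  rw [s1, s2] at hR
  linear_combination hR

/-- vanishing on the path, lower part -/
theorem Dat.a1 (h : Dat k x u n e w l) (h2 : (2 : k) ≠ 0) {m : ℕ} (hm : 2 ≤ m) (hm2 : m ≤ e) :
    u (n - m) = 0 := by
  have hw := h.hw
  have r1 := h.R0 h2 (i := m - 1) (i' := m) (by omega) (by omega) (by omega)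
  have r2 := h.R0 h2 (i := m - 1) (i' := m + 1) (by omega) (by omega) (by omega)
  rw [Finset.sum_eq_sum_Ico_succ_bot (by omega), r2, add_zero] at r1
  exact r1

/-- vanishing on the path, upper part -/
theorem Dat.a2 (h : Dat k x u n e w l) (h2 : (2 : k) ≠ 0) {m : ℕ} (hm : w + 1 ≤ m)
    (hm2 : m + 1 ≤ e + w) : u (n - m) = 0 := by
  have hw := h.hw
  have r1 := h.R0 h2 (i := m - w + 1) (i' := m - w + 2) (by omega) (by omega) (by omega)
  have r2 := h.R0 h2 (i := m - w) (i' := m - w + 2) (by omega) (by omega) (by omega)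
  have e1 : m - w + 1 + w = m + 1 := by omega
  have e2 : m - w + w = m := by omega
  rw [e1, Finset.sum_Ico_succ_top (by omega)] at r1
  rw [e2] at r2
  rw [r2, zero_add] at r1
  exact r1

end

end

theorem t (k : Type*) [Field k] (hPC : StmPC k) : StmPU k := by
  intro h2 x u n e w l he hw hew hl hn hpath hchord hrel
  obtain ⟨p1, p2, p3⟩ := hPC x n l (by omega) (by omega) hpath
  have h : Dat k x u n e w l := ⟨he, hw, hl, hn, fun i hi hi2 m hm =>
    sg_W x e w l i (by omega) hi (hchord i hi hi2) m hm, p1, p2, p3, hrel⟩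
  refine ⟨?_, ?_, ?_, ?_⟩
  · rintro m (⟨h3, h4⟩ | ⟨h3, h4⟩)
    · exact h.a1 h2 h3 h4
    · exact h.a2 h2 h3 h4
  · intro i hi hi2
    rcases Nat.lt_or_ge i e with h3 | h3
    · rw [h.E1 h2 (by omega) (by omega), h.a1 h2 hi (by omega), neg_zero]
    · have hie : i = e := by omega
      rcases Nat.lt_or_ge 2 e with h4 | h4
      · rw [hie, h.E2 h2 (by omega) (by omega)]
        exact h.a2 h2 (by omega) (by omega)
      · have he2 : e = 2 := by omega
        have r1 := h.E3 h2 he2 (by omega)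
        have r2 := h.E1 h2 (i := 1) le_rfl (by omega)
        have r3 := h.E2 h2 (i := 3) le_rfl (by omega)
        have r4 := h.a1 h2 (m := 2) le_rfl (by omega)
        have r5 := h.a2 h2 (m := w + 1) le_rfl (by omega)
        have e1 : 3 + w - 1 = w + 2 := by omega
        rw [e1] at r3
        have hi2' : i = 2 := by omega
        rw [hi2']
        linear_combination r1 - r2 - r3 - r4 + r5
  · have := h.E1 h2 (i := 1) le_rfl (by omega)
    rw [Nat.add_sub_cancel] at this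
    exact this
  · have := h.E2 h2 (i := e + 1) (by omega) le_rfl
    have e1 : e + 1 - (e + 1) = 0 := by omega
    have e2 : n - (e + 1 + w - 1) = n - e - w := by omega
    rw [e1, e2] at this
    exact this

end Pool.Agent.N633.HB.PU
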