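import Pool.Agent.N633.HB.Stm2
import Pool.Agent.N729.HP.BA

/-!
Project HB: the case `t = 3`, `n = 4`.
-/

set_option autoImplicit false

namespace Pool.Agent.N633.HB.T3

open Finset
open Pool.Agent.N186.HK (pm vm pm_cons pm_nil)
open Pool.Agent.R831.PermIdeal (permIdeal)
open Pool.Agent.N729.HP (pd Sub hk)

variable {k : Type*} [Field k]

lemma sum3 {a b c : ℕ} (hab : a ≠ b) (hac : a ≠ c) (hbc : b ≠ c) (f : ℕ → k) :
    ∑ i ∈ ({a, b, c} : Finset ℕ), f i = f a + f b + f c := by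
  rw [sum_insert (by simp [hab, hac]), sum_insert (by simp [hbc]), sum_singleton]
  ring

lemma sum2 {a b : ℕ} (hab : a ≠ b) (f : ℕ → k) :
    ∑ i ∈ ({a, b} : Finset ℕ), f i = f a + f b := by
  rw [sum_insert (by simp [hab]), sum_singleton]

lemma er1 {a b c : ℕ} (hab : a ≠ b) (hac : a ≠ c) : ({a, b, c} : Finset ℕ).erase a = {b, c} := by
  ext v; simp only [mem_erase, mem_insert, mem_singleton]; omega

lemma er2 {a b c : ℕ} (hab : a ≠ b) (hbc : b ≠ c) : ({a, b, c} : Finset ℕ).erase b = {a, c} := by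
  ext v; simp only [mem_erase, mem_insert, mem_singleton]; omega

lemma er3 {a b c : ℕ} (hac : a ≠ c) (hbc : b ≠ c) : ({a, b, c} : Finset ℕ).erase c = {a, b} := by
  ext v; simp only [mem_erase, mem_insert, mem_singleton]; omega

lemma es1 {a b : ℕ} (hab : a ≠ b) : ({a, b} : Finset ℕ).erase a = {b} := by
  ext v; simp only [mem_erase, mem_insert, mem_singleton]; omega

lemma es2 {a b : ℕ} (hab : a ≠ b) : ({a, b} : Finset ℕ).erase b = {a} := by
  ext v; simp only [mem_erase, mem_insert, mem_singleton]; omega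

lemma pm2 (x : ℕ → k) {a b : ℕ} (hab : a ≠ b) (c d : ℕ) :
    pm x {a, b} [c, d] = x (a + c) * x (b + d) + x (b + c) * x (a + d) := by
  rw [pm_cons, sum2 hab, es1 hab, es2 hab, pm_cons, pm_cons, sum_singleton, sum_singleton, pm_nil,
    pm_nil]
  ring

lemma pm3 (x : ℕ → k) {a b c : ℕ} (hab : a ≠ b) (hac : a ≠ c) (hbc : b ≠ c) :
    pm x {a, b, c} [0, 1, 2] = x (a + 0) * (x (b + 1) * x (c + 2) + x (c + 1) * x (b + 2)) +
      x (b + 0) * (x (a + 1) * x (c + 2) + x (c + 1) * x (a + 2)) +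
      x (c + 0) * (x (a + 1) * x (b + 2) + x (b + 1) * x (a + 2)) := by
  rw [pm_cons, sum3 hab hac hbc, er1 hab hac, er2 hab hbc, er3 hac hbc, pm2 x hbc, pm2 x hac,
    pm2 x hab]

lemma pd1 (x y : ℕ → k) (a c : ℕ) : pd x y {a} [c] = y (a + c) := by
  simp [pd, pm_nil]

lemma pd2 (x y : ℕ → k) {a b : ℕ} (hab : a ≠ b) (c d : ℕ) :
    pd x y {a, b} [c, d] = y (a + c) * x (b + d) + x (a + c) * y (b + d) +
      y (b + c) * x (a + d) + x (b + c) * y (a + d) := by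
  rw [pd, sum2 hab, es1 hab, es2 hab, pm_cons, pm_cons, sum_singleton, sum_singleton, pm_nil,
    pm_nil, pd1, pd1]
  ring

lemma pd3 (x y : ℕ → k) {a b c : ℕ} (hab : a ≠ b) (hac : a ≠ c) (hbc : b ≠ c) :
    pd x y {a, b, c} [0, 1, 2] =
      (y (a + 0) * pm x {b, c} [1, 2] + x (a + 0) * pd x y {b, c} [1, 2]) +
      (y (b + 0) * pm x {a, c} [1, 2] + x (b + 0) * pd x y {a, c} [1, 2]) +
      (y (c + 0) * pm x {a, b} [1, 2] + x (c + 0) * pd x y {a, b} [1, 2]) := by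
  rw [pd, sum3 hab hac hbc, er1 hab hac, er2 hab hbc, er3 hac hbc]

lemma p21 (x y : ℕ → k) (a c : ℕ) : p2 x y {a} [c] = 0 := by
  simp [p2, pd]

lemma p22 (x y : ℕ → k) {a b : ℕ} (hab : a ≠ b) (c d : ℕ) :
    p2 x y {a, b} [c, d] = y (a + c) * y (b + d) + y (b + c) * y (a + d) := by
  rw [p2, sum2 hab, es1 hab, es2 hab, pd1, pd1, p21, p21]
  ring

lemma p23 (x y : ℕ → k) {a b c : ℕ} (hab : a ≠ b) (hac : a ≠ c) (hbc : b ≠ c) :
    p2 x y {a, b, c} [0, 1, 2] =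
      (y (a + 0) * pd x y {b, c} [1, 2] + x (a + 0) * p2 x y {b, c} [1, 2]) +
      (y (b + 0) * pd x y {a, c} [1, 2] + x (b + 0) * p2 x y {a, c} [1, 2]) +
      (y (c + 0) * pd x y {a, b} [1, 2] + x (c + 0) * p2 x y {a, b} [1, 2]) := by
  rw [p2, sum3 hab hac hbc, er1 hab hac, er2 hab hbc, er3 hac hbc]

/-- the point -/
def q3 (k : Type*) [Field k] (v : ℕ) : k :=
  if v = 0 then 1 else if v = 2 then 1 else if v = 4 then -1 else 0

lemma rows {L : List ℕ} (h1 : L.length = 3) (h2 : L.Nodup) (h3 : ∀ c ∈ L, c < 3) :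
    L.Perm [0, 1, 2] := by
  refine (List.perm_of_nodup_nodup_toFinset_eq h2 (by decide) ?_)
  have e : L.toFinset ⊆ range 3 := fun c hc => by
    rw [List.mem_toFinset] at hc
    exact mem_range.2 (h3 c hc)
  have e2 := Finset.eq_of_subset_of_card_le e (by
    rw [card_range, List.toFinset_card_of_nodup h2, h1])
  rw [e2]
  decide

lemma cols {J : Finset ℕ} (h1 : J.card = 3) (h2 : ∀ j ∈ J, j < 4) :
    J = {0, 1, 2} ∨ J = {0, 1, 3} ∨ J = {0, 2, 3} ∨ J = {1, 2, 3} := by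
  have e : J ∈ (range 4).powersetCard 3 := by
    rw [mem_powersetCard]
    exact ⟨fun j hj => mem_range.2 (h2 j hj), h1⟩
  have e2 : (range 4).powersetCard 3 = {{0, 1, 2}, {0, 1, 3}, {0, 2, 3}, {1, 2, 3}} := by decide
  rw [e2] at e
  simpa using e

theorem t (k : Type*) [Field k] (hBA : Pool.Agent.N729.HP.StmBA k) (hJD : StmJD k)
    (two : (2 : k) ≠ 0) (N : ℕ) (h : N + 1 = 4 + 3) : ¬ (permIdeal 3 (vm k (hk h))).IsPrime := by
  intro hprime
  have hN : N = 6 := by omega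
  subst hN
  have x0 : q3 k 0 = 1 := by simp [q3]
  have x1 : q3 k 1 = 0 := by simp [q3]
  have x2 : q3 k 2 = 1 := by simp [q3]
  have x3 : q3 k 3 = 0 := by simp [q3]
  have x4 : q3 k 4 = -1 := by simp [q3]
  have x5 : q3 k 5 = 0 := by simp [q3]
  have n01 : (0 : ℕ) ≠ 1 := by decide
  have n02 : (0 : ℕ) ≠ 2 := by decide
  have n03 : (0 : ℕ) ≠ 3 := by decide
  have n12 : (1 : ℕ) ≠ 2 := by decide
  have n13 : (1 : ℕ) ≠ 3 := by decide
  have n23 : (2 : ℕ) ≠ 3 := by decide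
  have hmem : ∀ J L, Sub 4 3 3 J L → pm (q3 k) J L = 0 := by
    rintro J L ⟨a1, a2, a3, a4, a5⟩
    rw [hBA.1 _ L _ (rows a2 a3 a5) J]
    rcases cols a1 a4 with rfl | rfl | rfl | rfl
    · rw [pm3 _ n01 n02 n12]; simp only [Nat.reduceAdd, x0, x1, x2, x3, x4, x5]; ring
    · rw [pm3 _ n01 n03 n13]; simp only [Nat.reduceAdd, x0, x1, x2, x3, x4, x5]; ring
    · rw [pm3 _ n02 n03 n23]; simp only [Nat.reduceAdd, x0, x1, x2, x3, x4, x5]; ring
    · rw [pm3 _ n12 n13 n23]; simp only [Nat.reduceAdd, x0, x1, x2, x3, x4, x5]; ring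
  have g1 : ∀ y : ℕ → k, pd (q3 k) y {0, 1, 2} [0, 1, 2] = - y 0 + 2 * y 2 + y 4 := by
    intro y
    rw [pd3 _ _ n01 n02 n12, pm2 _ n12, pm2 _ n02, pm2 _ n01, pd2 _ _ n12, pd2 _ _ n02,
      pd2 _ _ n01]
    simp only [Nat.reduceAdd, x0, x1, x2, x3, x4, x5]; ring
  have g2 : ∀ y : ℕ → k, pd (q3 k) y {0, 1, 3} [0, 1, 2] = - y 1 + y 5 := by
    intro y
    rw [pd3 _ _ n01 n03 n13, pm2 _ n13, pm2 _ n03, pm2 _ n01, pd2 _ _ n13, pd2 _ _ n03,
      pd2 _ _ n01]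
    simp only [Nat.reduceAdd, x0, x1, x2, x3, x4, x5]; ring
  have g3 : ∀ y : ℕ → k, pd (q3 k) y {0, 2, 3} [0, 1, 2] = y 0 - 2 * y 2 - y 4 := by
    intro y
    rw [pd3 _ _ n02 n03 n23, pm2 _ n23, pm2 _ n03, pm2 _ n02, pd2 _ _ n23, pd2 _ _ n03,
      pd2 _ _ n02]
    simp only [Nat.reduceAdd, x0, x1, x2, x3, x4, x5]; ring
  have g4 : ∀ y : ℕ → k, pd (q3 k) y {1, 2, 3} [0, 1, 2] = y 1 - 2 * y 3 + y 5 := by
    intro y
    rw [pd3 _ _ n12 n13 n23, pm2 _ n23, pm2 _ n13, pm2 _ n12, pd2 _ _ n23, pd2 _ _ n13,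
      pd2 _ _ n12]
    simp only [Nat.reduceAdd, x0, x1, x2, x3, x4, x5]; ring
  have s1 : Sub 4 3 3 {0, 1, 2} [0, 1, 2] := by unfold Pool.Agent.N729.HP.Sub; decide
  have s2 : Sub 4 3 3 {0, 1, 3} [0, 1, 2] := by unfold Pool.Agent.N729.HP.Sub; decide
  have s3 : Sub 4 3 3 {0, 2, 3} [0, 1, 2] := by unfold Pool.Agent.N729.HP.Sub; decide
  have s4 : Sub 4 3 3 {1, 2, 3} [0, 1, 2] := by unfold Pool.Agent.N729.HP.Sub; decide
  have hrel : ∀ y : ℕ → k, (∀ J L, Sub 4 3 3 J L → pd (q3 k) y J L = 0) →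
      y 4 = y 0 - 2 * y 2 ∧ y 5 = y 1 ∧ y 3 = y 1 := by
    intro y hy
    have h1 := hy _ _ s1
    have h2 := hy _ _ s2
    have h4 := hy _ _ s4
    rw [g1] at h1
    rw [g2] at h2
    rw [g4] at h4
    refine ⟨by linear_combination h1, by linear_combination h2, ?_⟩
    have e : (2 : k) * (y 3 - y 1) = 0 := by linear_combination h2 - h4
    exact sub_eq_zero.1 ((mul_eq_zero.1 e).resolve_left two)
  have hzero : ∀ y : ℕ → k, (∀ s ∈ range 3, y s = 0) →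
      (∀ J L, Sub 4 3 3 J L → pd (q3 k) y J L = 0) → ∀ v < 6, y v = 0 := by
    intro y hy0 hy v hv
    obtain ⟨c4, c5, c3⟩ := hrel y hy
    have z0 : y 0 = 0 := hy0 0 (by decide)
    have z1 : y 1 = 0 := hy0 1 (by decide)
    have z2 : y 2 = 0 := hy0 2 (by decide)
    rw [z0, z2] at c4
    rw [z1] at c5 c3
    interval_cases v
    · exact z0
    · exact z1
    · exact z2
    · exact c3
    · rw [c4]; ring
    · exact c5
  obtain ⟨y, y1, y2, y3, y4⟩ := hJD two 6 4 3 3 h (by omega) (by omega) (by omega)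
    (q3 k) hmem (range 3) (by decide) hzero hprime 1 (by decide) (by omega)
  obtain ⟨c4, c5, c3⟩ := hrel y y3
  have z0 : y 0 = 0 := y2 0 (by decide) (by decide)
  have z2 : y 2 = 0 := y2 2 (by decide) (by decide)
  have hp := y4 _ _ _ _ 1 1 s1 s3 (fun y' => by rw [g1, g3]; ring)
  rw [p23 _ _ n01 n02 n12, p23 _ _ n02 n03 n23, pd2 _ _ n12, pd2 _ _ n02, pd2 _ _ n01, p22 _ _ n12,
    p22 _ _ n02, p22 _ _ n01, pd2 _ _ n23, pd2 _ _ n03, p22 _ _ n23, p22 _ _ n03] at hp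
  simp only [Nat.reduceAdd, x0, x1, x2, x3, x4, x5, z0, z2, c3, c4, c5, y1] at hp
  ring_nf at hp
  have h4 : (2 : k) * 2 = 0 := by
    rw [← hp]; norm_num
  exact mul_ne_zero two two h4

end Pool.Agent.N633.HB.T3
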