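import Pool.Agent.N633.HB.Stm
import Pool.Agent.N729.HP.BA

/-!
HB/W1 (helper163): the points of the case `e = 1`: membership, relations, second order.
-/

set_option autoImplicit false

namespace Pool.Agent.N633.HB.W1

open Finset
open Pool.Agent.N186.HK (pm vm)
open Pool.Agent.N729.HP (pd Sub hk StmBA StmBE)
open Pool.Agent.N633.HB

/-- the odd columns -/
def Co (a : ℕ) : Finset ℕ := (range a).image fun l => 1 + 2 * l
/-- the positive even columns -/
def Cp (b : ℕ) : Finset ℕ := (range b).image fun l => 2 + 2 * l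
/-- the even rows -/
def RE (a : ℕ) : List ℕ := (List.range a).map fun i => 0 + 2 * i
/-- the odd rows -/
def RO (b : ℕ) : List ℕ := (List.range b).map fun i => 1 + 2 * i

theorem inj_aff (c : ℕ) : Function.Injective fun l : ℕ => c + 2 * l := by
  intro x y h
  have : c + 2 * x = c + 2 * y := h
  omega

theorem mem_Co {a x : ℕ} : x ∈ Co a ↔ x % 2 = 1 ∧ x < 2 * a := by
  unfold Co
  rw [mem_image]
  constructor
  · rintro ⟨l, hl, rfl⟩
    rw [mem_range] at hl
    constructor <;> omega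
  · rintro ⟨h1, h2⟩
    exact ⟨x / 2, mem_range.2 (by omega), by omega⟩

theorem mem_Cp {b x : ℕ} : x ∈ Cp b ↔ x % 2 = 0 ∧ 0 < x ∧ x < 2 * b + 2 := by
  unfold Cp
  rw [mem_image]
  constructor
  · rintro ⟨l, hl, rfl⟩
    rw [mem_range] at hl
    refine ⟨?_, ?_, ?_⟩ <;> omega
  · rintro ⟨h1, h2, h3⟩
    exact ⟨x / 2 - 1, mem_range.2 (by omega), by omega⟩

theorem mem_RE {a x : ℕ} : x ∈ RE a ↔ x % 2 = 0 ∧ x < 2 * a := by
  unfold RE
  rw [List.mem_map]
  constructor
  · rintro ⟨l, hl, rfl⟩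
    rw [List.mem_range] at hl
    constructor <;> omega
  · rintro ⟨h1, h2⟩
    exact ⟨x / 2, List.mem_range.2 (by omega), by omega⟩

theorem mem_RO {b x : ℕ} : x ∈ RO b ↔ x % 2 = 1 ∧ x < 2 * b := by
  unfold RO
  rw [List.mem_map]
  constructor
  · rintro ⟨l, hl, rfl⟩
    rw [List.mem_range] at hl
    constructor <;> omega
  · rintro ⟨h1, h2⟩
    exact ⟨x / 2, List.mem_range.2 (by omega), by omega⟩

theorem card_Co (a : ℕ) : (Co a).card = a := by
  rw [Co, card_image_of_injective _ (inj_aff 1), card_range]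

theorem card_Cp (b : ℕ) : (Cp b).card = b := by
  rw [Cp, card_image_of_injective _ (inj_aff 2), card_range]

theorem length_RE (a : ℕ) : (RE a).length = a := by
  rw [RE, List.length_map, List.length_range]

theorem length_RO (b : ℕ) : (RO b).length = b := by
  rw [RO, List.length_map, List.length_range]

theorem nodup_RE (a : ℕ) : (RE a).Nodup := (List.nodup_range (n := a)).map (inj_aff 0)
theorem nodup_RO (b : ℕ) : (RO b).Nodup := (List.nodup_range (n := b)).map (inj_aff 1)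

variable {k : Type*} [Field k]

theorem q_zero (Y : ℕ → k) : eq1 Y 0 = 1 := by simp [eq1]

theorem q_odd (Y : ℕ → k) {v : ℕ} (h : v % 2 = 1) : eq1 Y v = Y (v / 2) := by
  unfold eq1
  rw [if_neg (by omega), if_pos h]

theorem q_even (Y : ℕ → k) {v : ℕ} (h : v % 2 = 0) (h0 : v ≠ 0) : eq1 Y v = 0 := by
  unfold eq1
  rw [if_neg h0, if_neg (by omega)]

/-! ### zero columns -/

theorem zp1 (hCE : StmCE k) (x : ℕ → k) (J : Finset ℕ) (L : List ℕ) (hL : L.Nodup)
    (hc : J.card = L.length) {j : ℕ} (hj : j ∈ J) (h : ∀ c ∈ L, x (j + c) = 0) :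
    pm x J L = 0 := by
  rw [hCE.1 x J L hL hc j hj]
  refine sum_eq_zero fun c hcL => ?_
  rw [h c (List.mem_toFinset.1 hcL), zero_mul]

theorem ce1 (hCE : StmCE k) (x y : ℕ → k) (J : Finset ℕ) (L : List ℕ) (hL : L.Nodup)
    (hc : J.card = L.length) {j : ℕ} (hj : j ∈ J) (h : ∀ c ∈ L, x (j + c) = 0) :
    pd x y J L = ∑ c ∈ L.toFinset, y (j + c) * pm x (J.erase j) (L.erase c) := by
  rw [hCE.2.1 x y J L hL hc j hj]
  refine sum_congr rfl fun c hcL => ?_
  rw [h c (List.mem_toFinset.1 hcL), zero_mul, add_zero]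

theorem zp2 (hCE : StmCE k) (x y : ℕ → k) (J : Finset ℕ) (L : List ℕ) (hL : L.Nodup)
    (hc : J.card = L.length) {j j' : ℕ} (hj : j ∈ J) (h : ∀ c ∈ L, x (j + c) = 0)
    (hj' : j' ∈ J) (hne : j' ≠ j) (h' : ∀ c ∈ L, x (j' + c) = 0) :
    pd x y J L = 0 := by
  rw [ce1 hCE x y J L hL hc hj h]
  refine sum_eq_zero fun c hcL => ?_
  rw [List.mem_toFinset] at hcL
  rw [zp1 hCE x (J.erase j) (L.erase c) (hL.erase c) ?_ (mem_erase.2 ⟨hne, hj'⟩)
    fun c' hc' => h' c' (List.mem_of_mem_erase hc'), mul_zero]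
  rw [card_erase_of_mem hj, List.length_erase_of_mem hcL, hc]

/-! ### sums over the subsets -/

theorem sumA (C J : Finset ℕ) (d : ℕ) (hd : d ∈ C) (hdJ : d ∉ J) (hJ : C.erase d ⊆ J)
    (f : Finset ℕ → k)
    (hf : ∀ J₁ ⊆ J, J₁.card = C.card → 2 ≤ (C \ J₁).card → f J₁ = 0) :
    ∑ J₁ ∈ J.powersetCard C.card, f J₁ = ∑ n ∈ J \ C, f (insert n (C.erase d)) := by
  have hinj : Set.InjOn (fun n => insert n (C.erase d)) (J \ C : Finset ℕ) := by
    intro n hn n' _ h
    have h1 : n ∈ insert n' (C.erase d) := by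
      have h2 : n ∈ insert n (C.erase d) := mem_insert_self _ _
      have h3 : insert n (C.erase d) = insert n' (C.erase d) := h
      rwa [h3] at h2
    rcases mem_insert.1 h1 with h2 | h2
    · exact h2
    · exact absurd (mem_of_mem_erase h2) (mem_sdiff.1 (mem_coe.1 hn)).2
  rw [← sum_image (f := f) hinj]
  symm
  apply sum_subset
  · intro J₁ h1
    obtain ⟨n, hn, rfl⟩ := mem_image.1 h1
    rw [mem_sdiff] at hn
    rw [mem_powersetCard]
    refine ⟨insert_subset hn.1 hJ, ?_⟩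
    rw [card_insert_of_notMem fun h => hn.2 (mem_of_mem_erase h), card_erase_of_mem hd]
    have := card_pos.2 ⟨d, hd⟩
    omega
  · intro J₁ h1 h2
    rw [mem_powersetCard] at h1
    apply hf J₁ h1.1 h1.2
    by_contra hcon
    apply h2
    have hdJ1 : d ∉ J₁ := fun h => hdJ (h1.1 h)
    have hd1 : d ∈ C \ J₁ := mem_sdiff.2 ⟨hd, hdJ1⟩
    have hle : (C \ J₁).card ≤ 1 := by omega
    have hsub : C.erase d ⊆ J₁ := by
      intro x hx
      by_contra hxJ
      have := card_le_one.1 hle x (mem_sdiff.2 ⟨mem_of_mem_erase hx, hxJ⟩) d hd1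
      exact (mem_erase.1 hx).1 this
    have hcard : (J₁ \ C.erase d).card = 1 := by
      rw [card_sdiff_of_subset hsub, h1.2, card_erase_of_mem hd]
      have := card_pos.2 ⟨d, hd⟩
      omega
    obtain ⟨n, hn⟩ := card_eq_one.1 hcard
    have hn' : n ∈ J₁ \ C.erase d := by rw [hn]; exact mem_singleton_self _
    rw [mem_sdiff] at hn'
    refine mem_image.2 ⟨n, mem_sdiff.2 ⟨h1.1 hn'.1, fun hC => ?_⟩, ?_⟩
    · apply hn'.2
      refine mem_erase.2 ⟨?_, hC⟩
      rintro rfl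
      exact hdJ1 hn'.1
    · show insert n (C.erase d) = J₁
      rw [insert_eq, ← hn, sdiff_union_of_subset hsub]

theorem sumB (C J : Finset ℕ) (hJ : C ⊆ J) (f : Finset ℕ → k)
    (hf : ∀ J₁ ⊆ J, J₁.card = C.card → 2 ≤ (C \ J₁).card → f J₁ = 0) :
    ∑ J₁ ∈ J.powersetCard C.card, f J₁ =
      f C + ∑ d ∈ C, ∑ n ∈ J \ C, f (insert n (C.erase d)) := by
  have hinj : Set.InjOn (fun p : ℕ × ℕ => insert p.2 (C.erase p.1)) (C ×ˢ (J \ C) : Finset (ℕ × ℕ)) := by
    rintro ⟨d, n⟩ hp ⟨d', n'⟩ hp' h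
    have hp1 := mem_product.1 (mem_coe.1 hp)
    have hp2 := mem_product.1 (mem_coe.1 hp')
    dsimp only at hp1 hp2 h
    have h3 : insert n (C.erase d) = insert n' (C.erase d') := h
    have hn1 := (mem_sdiff.1 hp1.2).2
    have hn2 := (mem_sdiff.1 hp2.2).2
    have hnn : n = n' := by
      have h2 : n ∈ insert n (C.erase d) := mem_insert_self _ _
      rw [h3] at h2
      rcases mem_insert.1 h2 with h2 | h2
      · exact h2
      · exact absurd (mem_of_mem_erase h2) hn1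
    have hdd : d = d' := by
      by_contra hne
      have h4 : d ∈ insert n' (C.erase d') := mem_insert_of_mem (mem_erase.2 ⟨hne, hp1.1⟩)
      rw [← h3] at h4
      rcases mem_insert.1 h4 with h5 | h5
      · exact hn1 (h5 ▸ hp1.1)
      · exact (mem_erase.1 h5).1 rfl
    rw [hnn, hdd]
  have hC : C ∉ (C ×ˢ (J \ C)).image (fun p : ℕ × ℕ => insert p.2 (C.erase p.1)) := by
    intro h
    obtain ⟨⟨d, n⟩, hp, h1⟩ := mem_image.1 h
    have hp1 := mem_product.1 hp
    dsimp only at hp1 h1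
    have h2 : n ∈ insert n (C.erase d) := mem_insert_self _ _
    rw [h1] at h2
    exact (mem_sdiff.1 hp1.2).2 h2
  rw [← sum_product' C (J \ C) fun d n => f (insert n (C.erase d))]
  have e : ∑ x ∈ C ×ˢ (J \ C), f (insert x.2 (C.erase x.1)) =
      ∑ J₁ ∈ (C ×ˢ (J \ C)).image (fun p : ℕ × ℕ => insert p.2 (C.erase p.1)), f J₁ :=
    (sum_image (f := f) hinj).symm
  rw [e, ← sum_insert hC]
  symm
  apply sum_subset
  · intro J₁ h1
    rcases mem_insert.1 h1 with rfl | h1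
    · exact mem_powersetCard.2 ⟨hJ, rfl⟩
    · obtain ⟨⟨d, n⟩, hp, rfl⟩ := mem_image.1 h1
      have hp1 := mem_product.1 hp
      dsimp only at hp1 ⊢
      have hn := mem_sdiff.1 hp1.2
      rw [mem_powersetCard]
      refine ⟨insert_subset hn.1 ((erase_subset _ _).trans hJ), ?_⟩
      rw [card_insert_of_notMem fun h => hn.2 (mem_of_mem_erase h), card_erase_of_mem hp1.1]
      have := card_pos.2 ⟨d, hp1.1⟩
      omega
  · intro J₁ h1 h2
    rw [mem_powersetCard] at h1
    apply hf J₁ h1.1 h1.2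
    by_contra hcon
    apply h2
    rw [mem_insert]
    by_cases hCJ : C ⊆ J₁
    · left
      exact (eq_of_subset_of_card_le hCJ h1.2.le).symm
    · right
      obtain ⟨d, hd, hdJ1⟩ := not_subset.1 hCJ
      have hd1 : d ∈ C \ J₁ := mem_sdiff.2 ⟨hd, hdJ1⟩
      have hle : (C \ J₁).card ≤ 1 := by omega
      have hsub : C.erase d ⊆ J₁ := by
        intro x hx
        by_contra hxJ
        have := card_le_one.1 hle x (mem_sdiff.2 ⟨mem_of_mem_erase hx, hxJ⟩) d hd1
        exact (mem_erase.1 hx).1 this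
      have hcard : (J₁ \ C.erase d).card = 1 := by
        rw [card_sdiff_of_subset hsub, h1.2, card_erase_of_mem hd]
        have := card_pos.2 ⟨d, hd⟩
        omega
      obtain ⟨n, hn⟩ := card_eq_one.1 hcard
      have hn' : n ∈ J₁ \ C.erase d := by rw [hn]; exact mem_singleton_self _
      rw [mem_sdiff] at hn'
      refine mem_image.2 ⟨(d, n), mem_product.2 ⟨hd, mem_sdiff.2 ⟨h1.1 hn'.1, fun hC => ?_⟩⟩, ?_⟩
      · apply hn'.2
        refine mem_erase.2 ⟨?_, hC⟩
        rintro rfl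
        exact hdJ1 hn'.1
      · show insert n (C.erase d) = J₁
        rw [insert_eq, ← hn, sdiff_union_of_subset hsub]

/-! ### the blocks -/

theorem b1 (Y y : ℕ → k) (a : ℕ) : pm (eq1 Y) (Co a) (RE a) = pm Y (range a) (List.range a) ∧
    pd (eq1 Y) y (Co a) (RE a) = dH Y y a := by
  have h := Pool.Agent.N729.HP.BA.te k (eq1 Y) y 2 0 1 (by norm_num) (range a) (List.range a)
  have e1 : (fun s => eq1 Y (0 + 1 + 2 * s)) = Y := by
    funext s
    rw [q_odd Y (by omega)]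
    congr 1
    omega
  have e2 : (fun s => y (0 + 1 + 2 * s)) = fun s => y (2 * s + 1) := by
    funext s
    congr 1
    omega
  rw [e1, e2] at h
  exact h

theorem b2 (Y y : ℕ → k) (b : ℕ) : pm (eq1 Y) (Cp b) (RO b) =
      pm (fun s => Y (s + 1)) (range b) (List.range b) ∧
    pd (eq1 Y) y (Cp b) (RO b) = dK Y y b := by
  have h := Pool.Agent.N729.HP.BA.te k (eq1 Y) y 2 1 2 (by norm_num) (range b) (List.range b)
  have e1 : (fun s => eq1 Y (1 + 2 + 2 * s)) = fun s => Y (s + 1) := by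
    funext s
    rw [q_odd Y (by omega)]
    congr 1
    omega
  have e2 : (fun s => y (1 + 2 + 2 * s)) = fun s => y (2 * s + 3) := by
    funext s
    congr 1
    omega
  rw [e1, e2] at h
  exact h

theorem b3 (Y : ℕ → k) (a i l : ℕ) :
    pm (eq1 Y) ((Co a).erase (1 + 2 * l)) ((RE a).erase (0 + 2 * i)) = cfA Y a i l := by
  have h := (Pool.Agent.N729.HP.BA.te k (eq1 Y) Y 2 0 1 (by norm_num) ((range a).erase l)
    ((List.range a).erase i)).1
  have e1 : (fun s => eq1 Y (0 + 1 + 2 * s)) = Y := by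
    funext s
    rw [q_odd Y (by omega)]
    congr 1
    omega
  have e3 : ((range a).erase l).image (fun l => 1 + 2 * l) = (Co a).erase (1 + 2 * l) := by
    rw [image_erase (inj_aff 1)]
    rfl
  have e4 : ((List.range a).erase i).map (fun i => 0 + 2 * i) = (RE a).erase (0 + 2 * i) := by
    rw [List.map_erase (inj_aff 0)]
    rfl
  rw [e1, e3, e4] at h
  exact h

theorem b4 (Y : ℕ → k) (b i r : ℕ) :
    pm (eq1 Y) ((Cp b).erase (2 + 2 * r)) ((RO b).erase (1 + 2 * i)) = cfB Y b i r := by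
  have h := (Pool.Agent.N729.HP.BA.te k (eq1 Y) Y 2 1 2 (by norm_num) ((range b).erase r)
    ((List.range b).erase i)).1
  have e1 : (fun s => eq1 Y (1 + 2 + 2 * s)) = fun s => Y (s + 1) := by
    funext s
    rw [q_odd Y (by omega)]
    congr 1
    omega
  have e3 : ((range b).erase r).image (fun l => 2 + 2 * l) = (Cp b).erase (2 + 2 * r) := by
    rw [image_erase (inj_aff 2)]
    rfl
  have e4 : ((List.range b).erase i).map (fun i => 1 + 2 * i) = (RO b).erase (1 + 2 * i) := by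
    rw [List.map_erase (inj_aff 1)]
    rfl
  rw [e1, e3, e4] at h
  exact h

theorem sum_RE (a : ℕ) (F : ℕ → k) : ∑ c ∈ (RE a).toFinset, F c = ∑ i ∈ range a, F (0 + 2 * i) := by
  have e : (RE a).toFinset = (range a).image fun i => 0 + 2 * i := by
    ext x
    rw [List.mem_toFinset, mem_RE, mem_image]
    constructor
    · rintro ⟨h1, h2⟩
      exact ⟨x / 2, mem_range.2 (by omega), by omega⟩
    · rintro ⟨i, hi, rfl⟩
      rw [mem_range] at hi
      constructor <;> omega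
  rw [e, sum_image fun x _ y _ h => inj_aff 0 h]

theorem sum_RO (b : ℕ) (F : ℕ → k) : ∑ c ∈ (RO b).toFinset, F c = ∑ i ∈ range b, F (1 + 2 * i) := by
  have e : (RO b).toFinset = (range b).image fun i => 1 + 2 * i := by
    ext x
    rw [List.mem_toFinset, mem_RO, mem_image]
    constructor
    · rintro ⟨h1, h2⟩
      exact ⟨x / 2, mem_range.2 (by omega), by omega⟩
    · rintro ⟨i, hi, rfl⟩
      rw [mem_range] at hi
      constructor <;> omega
  rw [e, sum_image fun x _ y _ h => inj_aff 1 h]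

/-- the columns which are zero on the even rows -/
theorem zE (Y : ℕ → k) {n : ℕ} (h : n % 2 = 0) (h0 : 0 < n) (a : ℕ) :
    ∀ c ∈ RE a, eq1 Y (n + c) = 0 := by
  intro c hc
  rw [mem_RE] at hc
  exact q_even Y (by omega) (by omega)

/-- the columns which are zero on the odd rows -/
theorem zO (Y : ℕ → k) {n : ℕ} (h : n % 2 = 1) (b : ℕ) :
    ∀ c ∈ RO b, eq1 Y (n + c) = 0 := by
  intro c hc
  rw [mem_RO] at hc
  exact q_even Y (by omega) (by omega)

theorem card_ins {C : Finset ℕ} {n d : ℕ} (hd : d ∈ C) (hn : n ∉ C) :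
    (insert n (C.erase d)).card = C.card := by
  rw [card_insert_of_notMem fun h => hn (mem_of_mem_erase h), card_erase_of_mem hd]
  have := card_pos.2 ⟨d, hd⟩
  omega

theorem erase_ins {C : Finset ℕ} {n d : ℕ} (hn : n ∉ C) :
    (insert n (C.erase d)).erase n = C.erase d :=
  erase_insert fun h => hn (mem_of_mem_erase h)

theorem t1 (hCE : StmCE k) (Y y : ℕ → k) (a l r : ℕ) (hl : l < a) :
    pd (eq1 Y) y (insert (2 + 2 * r) ((Co a).erase (1 + 2 * l))) (RE a) =
      ∑ i ∈ range a, y (2 * (i + r + 1)) * cfA Y a i l := by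
  have hd : 1 + 2 * l ∈ Co a := mem_Co.2 ⟨by omega, by omega⟩
  have hn : 2 + 2 * r ∉ Co a := fun h => by have := (mem_Co.1 h).1; omega
  rw [ce1 hCE (eq1 Y) y _ (RE a) (nodup_RE a) (by rw [card_ins hd hn, card_Co, length_RE])
    (mem_insert_self _ _) (zE Y (by omega) (by omega) a), sum_RE]
  refine sum_congr rfl fun i _ => ?_
  rw [erase_ins hn, b3]
  congr 2
  omega

theorem t2 (hCE : StmCE k) (Y : ℕ → k) (a l : ℕ) (hl : l < a) :
    pm (eq1 Y) (insert 0 ((Co a).erase (1 + 2 * l))) (RE a) = cfA Y a 0 l := by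
  have hd : 1 + 2 * l ∈ Co a := mem_Co.2 ⟨by omega, by omega⟩
  have hn : 0 ∉ Co a := fun h => by have := (mem_Co.1 h).1; omega
  rw [hCE.1 (eq1 Y) _ (RE a) (nodup_RE a) (by rw [card_ins hd hn, card_Co, length_RE]) 0
    (mem_insert_self _ _), sum_RE, sum_eq_single_of_mem 0 (mem_range.2 (by omega))]
  · rw [erase_ins hn, b3, mul_zero, add_zero, q_zero, one_mul]
  · intro i _ hi
    rw [q_even Y (by omega) (by omega), zero_mul]

theorem t4 (hCE : StmCE k) (Y : ℕ → k) (b r : ℕ) (hr : r < b) :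
    pm (eq1 Y) (insert 0 ((Cp b).erase (2 + 2 * r))) (RO b) =
      ∑ i ∈ range b, Y i * cfB Y b i r := by
  have hd : 2 + 2 * r ∈ Cp b := mem_Cp.2 ⟨by omega, by omega, by omega⟩
  have hn : 0 ∉ Cp b := fun h => by have := (mem_Cp.1 h).2.1; omega
  rw [hCE.1 (eq1 Y) _ (RO b) (nodup_RO b) (by rw [card_ins hd hn, card_Cp, length_RO]) 0
    (mem_insert_self _ _), sum_RO]
  refine sum_congr rfl fun i _ => ?_
  rw [erase_ins hn, b4, q_odd Y (by omega)]
  congr 2
  omega

theorem t5 (hCE : StmCE k) (Y y : ℕ → k) (b l r : ℕ) (hr : r < b) :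
    pd (eq1 Y) y (insert (1 + 2 * l) ((Cp b).erase (2 + 2 * r))) (RO b) =
      ∑ i ∈ range b, y (2 * (i + l + 1)) * cfB Y b i r := by
  have hd : 2 + 2 * r ∈ Cp b := mem_Cp.2 ⟨by omega, by omega, by omega⟩
  have hn : 1 + 2 * l ∉ Cp b := fun h => by have := (mem_Cp.1 h).1; omega
  rw [ce1 hCE (eq1 Y) y _ (RO b) (nodup_RO b) (by rw [card_ins hd hn, card_Cp, length_RO])
    (mem_insert_self _ _) (zO Y (by omega) b), sum_RO]
  refine sum_congr rfl fun i _ => ?_
  rw [erase_ins hn, b4]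
  congr 2
  omega

/-! ### the vanishing terms -/

theorem vE (hCE : StmCE k) (Y : ℕ → k) (a : ℕ) (J₁ : Finset ℕ) (hc : J₁.card = a) {n : ℕ}
    (hn : n ∈ J₁) (h : n % 2 = 0) (h0 : 0 < n) : pm (eq1 Y) J₁ (RE a) = 0 :=
  zp1 hCE _ _ _ (nodup_RE a) (by rw [hc, length_RE]) hn (zE Y h h0 a)

theorem vO (hCE : StmCE k) (Y : ℕ → k) (b : ℕ) (J₂ : Finset ℕ) (hc : J₂.card = b) {n : ℕ}
    (hn : n ∈ J₂) (h : n % 2 = 1) : pm (eq1 Y) J₂ (RO b) = 0 :=
  zp1 hCE _ _ _ (nodup_RO b) (by rw [hc, length_RO]) hn (zO Y h b)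

/-- a subset which lacks at least two odd columns -/
theorem far {t a b j' : ℕ} (ht : t = a + b) (ha : a = (t + 1) / 2) (_hb : b = t / 2)
    (hj' : j' < t + 1) {J₁ : Finset ℕ} (h1 : J₁ ⊆ (range (t + 1)).erase j') (h2 : J₁.card = a)
    (h3 : 2 ≤ (Co a \ J₁).card) :
    (((range (t + 1)).erase j') \ J₁).card = b ∧
    (∃ n ∈ J₁, n % 2 = 0 ∧ 0 < n) ∧
    (∃ d ∈ ((range (t + 1)).erase j') \ J₁, d % 2 = 1) := by
  have e1 : (J₁ \ Co a).card = (Co a \ J₁).card := by
    have := card_sdiff_add_card_inter J₁ (Co a)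
    have h' := card_sdiff_add_card_inter (Co a) J₁
    rw [inter_comm, card_Co] at h'
    omega
  refine ⟨?_, ?_, ?_⟩
  · rw [card_sdiff_of_subset h1, h2, card_erase_of_mem (mem_range.2 hj'), card_range]
    omega
  · obtain ⟨n, hn, hn0⟩ := exists_mem_ne (show 1 < (J₁ \ Co a).card by omega) 0
    rw [mem_sdiff] at hn
    have h4 := mem_range.1 (mem_of_mem_erase (h1 hn.1))
    have h5 : n % 2 ≠ 1 := fun h => hn.2 (mem_Co.2 ⟨h, by omega⟩)
    exact ⟨n, hn.1, by omega, by omega⟩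
  · obtain ⟨d, hd, hd0⟩ := exists_mem_ne (show 1 < (Co a \ J₁).card by omega) j'
    rw [mem_sdiff, mem_Co] at hd
    exact ⟨d, mem_sdiff.2 ⟨mem_erase.2 ⟨hd0, mem_range.2 (by omega)⟩, hd.2⟩, hd.1.1⟩

/-- a subset of the nonzero columns which lacks at least two odd columns -/
theorem far2 {t a b : ℕ} (ht : t = a + b) (ha : a = (t + 1) / 2) (_hb : b = t / 2)
    {J₁ : Finset ℕ} (h1 : J₁ ⊆ (range (t + 1)).erase 0) (h2 : J₁.card = a)
    (h3 : 2 ≤ (Co a \ J₁).card) :
    (∃ n ∈ J₁, ∃ n' ∈ J₁, n' ≠ n ∧ (n % 2 = 0 ∧ 0 < n) ∧ n' % 2 = 0 ∧ 0 < n') ∧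
    (∃ d ∈ ((range (t + 1)).erase 0) \ J₁, ∃ d' ∈ ((range (t + 1)).erase 0) \ J₁,
      d' ≠ d ∧ d % 2 = 1 ∧ d' % 2 = 1) := by
  have e1 : (J₁ \ Co a).card = (Co a \ J₁).card := by
    have := card_sdiff_add_card_inter J₁ (Co a)
    have h' := card_sdiff_add_card_inter (Co a) J₁
    rw [inter_comm, card_Co] at h'
    omega
  constructor
  · obtain ⟨n, hn, n', hn', hne⟩ := one_lt_card.1 (show 1 < (J₁ \ Co a).card by omega)
    rw [mem_sdiff] at hn hn'
    have h4 := mem_range.1 (mem_of_mem_erase (h1 hn.1))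
    have h5 : n % 2 ≠ 1 := fun h => hn.2 (mem_Co.2 ⟨h, by omega⟩)
    have h6 := (mem_erase.1 (h1 hn.1)).1
    have h4' := mem_range.1 (mem_of_mem_erase (h1 hn'.1))
    have h5' : n' % 2 ≠ 1 := fun h => hn'.2 (mem_Co.2 ⟨h, by omega⟩)
    have h6' := (mem_erase.1 (h1 hn'.1)).1
    exact ⟨n, hn.1, n', hn'.1, fun h => hne h.symm, ⟨by omega, by omega⟩, by omega, by omega⟩
  · obtain ⟨d, hd, d', hd', hne⟩ := one_lt_card.1 (show 1 < (Co a \ J₁).card by omega)
    rw [mem_sdiff, mem_Co] at hd hd'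
    exact ⟨d, mem_sdiff.2 ⟨mem_erase.2 ⟨by omega, mem_range.2 (by omega)⟩, hd.2⟩,
      d', mem_sdiff.2 ⟨mem_erase.2 ⟨by omega, mem_range.2 (by omega)⟩, hd'.2⟩,
      fun h => hne h.symm, hd.1.1, hd'.1.1⟩

theorem perm_rows {t a b : ℕ} (ht : t = a + b) (ha : a = (t + 1) / 2) (hb : b = t / 2)
    {L : List ℕ} (h1 : L.length = t) (h2 : L.Nodup) (h3 : ∀ c ∈ L, c < t) :
    L.Perm (RE a ++ RO b) := by
  have hnd : (RE a ++ RO b).Nodup := by
    rw [List.nodup_append']
    refine ⟨nodup_RE a, nodup_RO b, ?_⟩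
    intro x hx hx'
    rw [mem_RE] at hx
    rw [mem_RO] at hx'
    omega
  have h4 : L.toFinset = range t := by
    apply eq_of_subset_of_card_le
    · intro x hx
      exact mem_range.2 (h3 x (List.mem_toFinset.1 hx))
    · rw [card_range, List.toFinset_card_of_nodup h2, h1]
  rw [List.perm_ext_iff_of_nodup h2 hnd]
  intro x
  rw [← List.mem_toFinset, h4, mem_range, List.mem_append, mem_RE, mem_RO]
  omega

theorem sub_EO {t a b j' : ℕ} (ht : t = a + b) (ha : a = (t + 1) / 2) (hb : b = t / 2)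
    (hj' : j' < t + 1) : Sub (t + 1) t t ((range (t + 1)).erase j') (RE a ++ RO b) := by
  refine ⟨?_, ?_, ?_, ?_, ?_⟩
  · rw [card_erase_of_mem (mem_range.2 hj'), card_range]
    omega
  · rw [List.length_append, length_RE, length_RO, ht]
  · rw [List.nodup_append']
    refine ⟨nodup_RE a, nodup_RO b, ?_⟩
    intro x hx hx'
    rw [mem_RE] at hx
    rw [mem_RO] at hx'
    omega
  · intro j hj
    exact mem_range.1 (mem_of_mem_erase hj)
  · intro c hc
    rw [List.mem_append, mem_RE, mem_RO] at hc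
    omega

/-! ### the complements -/

theorem s1 {t a b l : ℕ} (_ht : t = a + b) (ha : a = (t + 1) / 2) (hb : b = t / 2) (_hl : l < a) :
    ((range (t + 1)).erase (1 + 2 * l)) \ Co a = insert 0 (Cp b) := by
  ext x
  simp only [mem_sdiff, mem_erase, mem_insert, mem_range, mem_Co, mem_Cp]
  omega

theorem s1' {t a b l : ℕ} (_ht : t = a + b) (ha : a = (t + 1) / 2) (hb : b = t / 2) (_hl : l < a) :
    ((range (t + 1)).erase (1 + 2 * l)) \ insert 0 ((Co a).erase (1 + 2 * l)) = Cp b := by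
  ext x
  simp only [mem_sdiff, mem_erase, mem_insert, mem_range, mem_Co, mem_Cp]
  omega

theorem s1'' {t a b l r : ℕ} (_ht : t = a + b) (ha : a = (t + 1) / 2) (hb : b = t / 2)
    (_hl : l < a) (_hr : r < b) :
    ((range (t + 1)).erase (1 + 2 * l)) \ insert (2 + 2 * r) ((Co a).erase (1 + 2 * l)) =
      insert 0 ((Cp b).erase (2 + 2 * r)) := by
  ext x
  simp only [mem_sdiff, mem_erase, mem_insert, mem_range, mem_Co, mem_Cp]
  omega

theorem s2 {t a b r : ℕ} (_ht : t = a + b) (ha : a = (t + 1) / 2) (hb : b = t / 2) (_hr : r < b) :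
    ((range (t + 1)).erase (2 + 2 * r)) \ Co a = insert 0 ((Cp b).erase (2 + 2 * r)) := by
  ext x
  simp only [mem_sdiff, mem_erase, mem_insert, mem_range, mem_Co, mem_Cp]
  omega

theorem s2' {t a b l r : ℕ} (_ht : t = a + b) (ha : a = (t + 1) / 2) (hb : b = t / 2)
    (_hl : l < a) (_hr : r < b) :
    ((range (t + 1)).erase (2 + 2 * r)) \ insert 0 ((Co a).erase (1 + 2 * l)) =
      insert (1 + 2 * l) ((Cp b).erase (2 + 2 * r)) := by
  ext x
  simp only [mem_sdiff, mem_erase, mem_insert, mem_range, mem_Co, mem_Cp]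
  omega

theorem s3 {t a b : ℕ} (_ht : t = a + b) (ha : a = (t + 1) / 2) (hb : b = t / 2) :
    ((range (t + 1)).erase 0) \ Co a = Cp b := by
  ext x
  simp only [mem_sdiff, mem_erase, mem_range, mem_Co, mem_Cp]
  omega

theorem s3' {t a b l r : ℕ} (_ht : t = a + b) (ha : a = (t + 1) / 2) (hb : b = t / 2)
    (_hl : l < a) (_hr : r < b) :
    ((range (t + 1)).erase 0) \ insert (2 + 2 * r) ((Co a).erase (1 + 2 * l)) =
      insert (1 + 2 * l) ((Cp b).erase (2 + 2 * r)) := by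
  ext x
  simp only [mem_sdiff, mem_erase, mem_insert, mem_range, mem_Co, mem_Cp]
  omega

theorem sub_odd {t a l : ℕ} (ha : a = (t + 1) / 2) :
    (Co a).erase (1 + 2 * l) ⊆ (range (t + 1)).erase (1 + 2 * l) := by
  intro x hx
  simp only [mem_erase, mem_range, mem_Co] at hx ⊢
  omega

theorem sub_even {t a j' : ℕ} (ha : a = (t + 1) / 2) (hj : j' % 2 = 0) :
    Co a ⊆ (range (t + 1)).erase j' := by
  intro x hx
  simp only [mem_erase, mem_range, mem_Co] at hx ⊢
  omega

/-- in the complement of a neighbour of `Co` there is an odd column -/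
theorem near {t a b j' d n : ℕ} (ht : t = a + b) (ha : a = (t + 1) / 2) (_hb : b = t / 2)
    (hj' : j' < t + 1) (hj : j' % 2 = 0) (hd : d ∈ Co a)
    (hn : n ∈ ((range (t + 1)).erase j') \ Co a) :
    (((range (t + 1)).erase j') \ insert n ((Co a).erase d)).card = b ∧
      d ∈ ((range (t + 1)).erase j') \ insert n ((Co a).erase d) ∧ d % 2 = 1 := by
  rw [mem_sdiff] at hn
  have hd' := mem_Co.1 hd
  have h1 : insert n ((Co a).erase d) ⊆ (range (t + 1)).erase j' :=
    insert_subset hn.1 ((erase_subset _ _).trans (sub_even ha hj))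
  refine ⟨?_, ?_, hd'.1⟩
  · rw [card_sdiff_of_subset h1, card_ins hd hn.2, card_Co, card_erase_of_mem (mem_range.2 hj'),
      card_range]
    omega
  · refine mem_sdiff.2 ⟨sub_even ha hj hd, fun h => ?_⟩
    rcases mem_insert.1 h with h | h
    · exact hn.2 (h ▸ hd)
    · exact (mem_erase.1 h).1 rfl

theorem sum_Co (a : ℕ) (F : ℕ → k) : ∑ c ∈ Co a, F c = ∑ i ∈ range a, F (1 + 2 * i) := by
  rw [Co, sum_image fun x _ y _ h => inj_aff 1 h]

theorem sum_Cp (b : ℕ) (F : ℕ → k) : ∑ c ∈ Cp b, F c = ∑ i ∈ range b, F (2 + 2 * i) := by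
  rw [Cp, sum_image fun x _ y _ h => inj_aff 2 h]

theorem t (k : Type*) [Field k] (hLE : StmLE k) (hCE : StmCE k) : StmW1 k := by
  intro t a b Y ht2 ha hb hA hB
  have ht : t = a + b := by omega
  obtain ⟨hBA1, hBA2, -⟩ := Pool.Agent.N729.HP.BA.ta k
  have hCo : (Co a).card = a := card_Co a
  have hlen : (RE a).length = (Co a).card := by rw [length_RE, card_Co]
  have pA : pm (eq1 Y) (Co a) (RE a) = 0 := ((b1 Y Y a).1).trans hA
  have pB : pm (eq1 Y) (Cp b) (RO b) = 0 := ((b2 Y Y b).1).trans hB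
  have h0Cp : 0 ∉ Cp b := fun h => by have := (mem_Cp.1 h).2.1; omega
  have h0Co : 0 ∉ Co a := fun h => by have := (mem_Co.1 h).1; omega
  have hev : ∀ n ∈ Cp b, n % 2 = 0 ∧ 0 < n := fun n hn => ⟨(mem_Cp.1 hn).1, (mem_Cp.1 hn).2.1⟩
  have hnCo : ∀ n, n % 2 = 0 → n ∉ Co a := fun n h h' => by have := (mem_Co.1 h').1; omega
  -- the permanents
  have hpm : ∀ j' < t + 1, pm (eq1 Y) ((range (t + 1)).erase j') (RE a ++ RO b) = 0 := by
    intro j' hj'
    have hf : ∀ J₁ ⊆ (range (t + 1)).erase j', J₁.card = (Co a).card → 2 ≤ (Co a \ J₁).card →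
        pm (eq1 Y) J₁ (RE a) * pm (eq1 Y) (((range (t + 1)).erase j') \ J₁) (RO b) = 0 := by
      intro J₁ h1 h2 h3
      obtain ⟨-, ⟨n, hn, h4, h5⟩, -⟩ := far ht ha hb hj' h1 (by rw [h2, hCo]) h3
      rw [vE hCE Y a J₁ (by rw [h2, hCo]) hn h4 h5, zero_mul]
    by_cases hodd : j' % 2 = 1
    · obtain ⟨l, rfl⟩ : ∃ l, j' = 1 + 2 * l := ⟨j' / 2, by omega⟩
      have hl : l < a := by omega
      have hd : 1 + 2 * l ∈ Co a := mem_Co.2 ⟨by omega, by omega⟩
      rw [hLE.1, hlen, sumA (Co a) _ (1 + 2 * l) hd (notMem_erase _ _) (sub_odd ha) _ hf,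
        s1 ht ha hb hl, sum_insert h0Cp, s1' ht ha hb hl, pB, mul_zero, zero_add]
      refine sum_eq_zero fun n hn => ?_
      rw [vE hCE Y a _ (by rw [card_ins hd (hnCo n (hev n hn).1), hCo]) (mem_insert_self _ _)
        (hev n hn).1 (hev n hn).2, zero_mul]
    · have hj : j' % 2 = 0 := by omega
      rw [hLE.1, hlen, sumB (Co a) _ (sub_even ha hj) _ hf, pA, zero_mul, zero_add]
      refine sum_eq_zero fun d hd => sum_eq_zero fun n hn => ?_
      obtain ⟨h1, h2, h3⟩ := near ht ha hb hj' hj hd hn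
      rw [vO hCE Y b _ h1 h2 h3, mul_zero]
  -- the terms of the derivative for far subsets
  have hfd : ∀ (y : ℕ → k), ∀ j' < t + 1, ∀ J₁ ⊆ (range (t + 1)).erase j',
      J₁.card = (Co a).card → 2 ≤ (Co a \ J₁).card →
      pd (eq1 Y) y J₁ (RE a) * pm (eq1 Y) (((range (t + 1)).erase j') \ J₁) (RO b) +
        pm (eq1 Y) J₁ (RE a) * pd (eq1 Y) y (((range (t + 1)).erase j') \ J₁) (RO b) = 0 := by
    intro y j' hj' J₁ h1 h2 h3
    obtain ⟨h6, ⟨n, hn, h4, h5⟩, ⟨d, hd, h7⟩⟩ := far ht ha hb hj' h1 (by rw [h2, hCo]) h3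
    rw [vE hCE Y a J₁ (by rw [h2, hCo]) hn h4 h5, vO hCE Y b _ h6 hd h7, zero_mul, mul_zero,
      add_zero]
  refine ⟨?_, ?_, ?_, ?_⟩
  · rintro J L ⟨h1, h2, h3, h4, h5⟩
    rw [hBA1 (eq1 Y) L _ (perm_rows ht ha hb h2 h3 h5) J]
    have h6 : J ⊆ range (t + 1) := fun x hx => mem_range.2 (h4 x hx)
    have h7 : (range (t + 1) \ J).card = 1 := by
      rw [card_sdiff_of_subset h6, card_range, h1]
      omega
    obtain ⟨j', hj'⟩ := card_eq_one.1 h7
    have h8 : j' ∈ range (t + 1) \ J := by rw [hj']; exact mem_singleton_self _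
    have h9 : J = (range (t + 1)).erase j' := by
      rw [← sdiff_singleton_eq_erase, ← hj', Finset.sdiff_sdiff_eq_self h6]
    rw [h9]
    exact hpm j' (mem_range.1 (mem_sdiff.1 h8).1)
  · intro y hy
    constructor
    · intro l hl
      have hd : 1 + 2 * l ∈ Co a := mem_Co.2 ⟨by omega, by omega⟩
      have h1 := hy _ _ (sub_EO (j' := 1 + 2 * l) ht ha hb (by omega))
      rw [hLE.2.1, hlen, sumA (Co a) _ (1 + 2 * l) hd (notMem_erase _ _) (sub_odd ha) _
        (hfd y _ (by omega)), s1 ht ha hb hl, sum_insert h0Cp, s1' ht ha hb hl, pB, mul_zero,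
        zero_add, t2 hCE Y a l hl, (b2 Y y b).2, sum_Cp] at h1
      rw [← h1]
      congr 1
      rw [sum_comm]
      refine sum_congr rfl fun r hr => ?_
      rw [mem_range] at hr
      rw [s1'' ht ha hb hl hr, t4 hCE Y b r hr, t1 hCE Y y a l r hl,
        vE hCE Y a _ (by rw [card_ins hd (hnCo _ (by omega)), hCo]) (mem_insert_self _ _)
        (by omega) (by omega), zero_mul, add_zero, sum_mul]
    · intro r hr
      have h1 := hy _ _ (sub_EO (j' := 2 + 2 * r) ht ha hb (by omega))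
      rw [hLE.2.1, hlen, sumB (Co a) _ (sub_even ha (by omega)) _ (hfd y _ (by omega)), pA,
        zero_mul, add_zero, (b1 Y y a).2, s2 ht ha hb hr, t4 hCE Y b r hr] at h1
      rw [← h1]
      congr 1
      rw [sum_comm, sum_Co]
      refine sum_congr rfl fun l hl => ?_
      rw [mem_range] at hl
      have hd : 1 + 2 * l ∈ Co a := mem_Co.2 ⟨by omega, by omega⟩
      have h2 : (0 : ℕ) ∉ (Cp b).erase (2 + 2 * r) := fun h => h0Cp (mem_of_mem_erase h)
      have h3 : ∑ n ∈ (Cp b).erase (2 + 2 * r),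
          (pd (eq1 Y) y (insert n ((Co a).erase (1 + 2 * l))) (RE a) *
            pm (eq1 Y) (((range (t + 1)).erase (2 + 2 * r)) \
              insert n ((Co a).erase (1 + 2 * l))) (RO b) +
            pm (eq1 Y) (insert n ((Co a).erase (1 + 2 * l))) (RE a) *
            pd (eq1 Y) y (((range (t + 1)).erase (2 + 2 * r)) \
              insert n ((Co a).erase (1 + 2 * l))) (RO b)) = 0 := by
        refine sum_eq_zero fun n hn => ?_
        have hn' := mem_of_mem_erase hn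
        obtain ⟨h1, h2, h3⟩ := near (j' := 2 + 2 * r) (n := n) ht ha hb (by omega) (by omega) hd
          (by rw [s2 ht ha hb hr]; exact mem_insert_of_mem hn)
        rw [vO hCE Y b _ h1 h2 h3, vE hCE Y a _ (by rw [card_ins hd (hnCo n (hev n hn').1), hCo])
          (mem_insert_self _ _) (hev n hn').1 (hev n hn').2, mul_zero, zero_mul, add_zero]
      have h4 := near (j' := 2 + 2 * r) (n := 0) ht ha hb (by omega) (by omega) hd
          (by rw [s2 ht ha hb hr]; exact mem_insert_self _ _)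
      rw [sum_insert h2, h3, add_zero, vO hCE Y b _ h4.1 h4.2.1 h4.2.2, mul_zero, zero_add,
        t2 hCE Y a l hl, s2' ht ha hb hl hr, t5 hCE Y y b l r hr, mul_sum]
      refine sum_congr rfl fun i _ => ?_
      ring
  · intro y
    rw [hBA2 (eq1 Y) y (List.range t) _ (perm_rows ht ha hb List.length_range List.nodup_range
      fun c hc => List.mem_range.1 hc), hLE.2.1, hlen, sumB (Co a) _ (sub_even ha rfl) _
      (hfd y _ (by omega)), pA, zero_mul, add_zero, s3 ht ha hb, pB, mul_zero, zero_add]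
    refine sum_eq_zero fun d hd => sum_eq_zero fun n hn => ?_
    obtain ⟨h1, h2, h3⟩ := near (j' := 0) (n := n) ht ha hb (by omega) rfl hd
      (by rw [s3 ht ha hb]; exact hn)
    rw [vO hCE Y b _ h1 h2 h3, vE hCE Y a _ (by rw [card_ins hd (hnCo n (hev n hn).1), hCo])
      (mem_insert_self _ _) (hev n hn).1 (hev n hn).2, mul_zero, zero_mul, add_zero]
  · intro y
    have hf2 : ∀ J₁ ⊆ (range (t + 1)).erase 0, J₁.card = (Co a).card → 2 ≤ (Co a \ J₁).card →
        p2 (eq1 Y) y J₁ (RE a) * pm (eq1 Y) (((range (t + 1)).erase 0) \ J₁) (RO b) +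
          pd (eq1 Y) y J₁ (RE a) * pd (eq1 Y) y (((range (t + 1)).erase 0) \ J₁) (RO b) +
          pm (eq1 Y) J₁ (RE a) * p2 (eq1 Y) y (((range (t + 1)).erase 0) \ J₁) (RO b) = 0 := by
      intro J₁ h1 h2 h3
      have h2' : J₁.card = a := by rw [h2, hCo]
      obtain ⟨h6, ⟨n, hn, h4, h5⟩, ⟨d, hd, h7⟩⟩ := far ht ha hb (by omega) h1 h2' h3
      obtain ⟨⟨n1, hn1, n2, hn2, hne, ho1, ho2, ho3⟩, -⟩ := far2 ht ha hb h1 h2' h3
      rw [vE hCE Y a J₁ h2' hn h4 h5, vO hCE Y b _ h6 hd h7,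
        zp2 hCE (eq1 Y) y J₁ (RE a) (nodup_RE a) (by rw [h2', length_RE]) hn1
          (zE Y ho1.1 ho1.2 a) hn2 hne (zE Y ho2 ho3 a), mul_zero, zero_mul, zero_mul, add_zero,
        add_zero]
    rw [hLE.2.2.2 (eq1 Y) y (List.range t) _ (perm_rows ht ha hb List.length_range List.nodup_range
      fun c hc => List.mem_range.1 hc), hLE.2.2.1, hlen, sumB (Co a) _ (sub_even ha rfl) _ hf2, pA,
      zero_mul, add_zero, s3 ht ha hb, pB, mul_zero, zero_add, (b1 Y y a).2, (b2 Y y b).2, sum_Co]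
    congr 1
    have h3 : ∀ l ∈ range a, ∑ n ∈ Cp b,
        (p2 (eq1 Y) y (insert n ((Co a).erase (1 + 2 * l))) (RE a) *
            pm (eq1 Y) (((range (t + 1)).erase 0) \ insert n ((Co a).erase (1 + 2 * l))) (RO b) +
          pd (eq1 Y) y (insert n ((Co a).erase (1 + 2 * l))) (RE a) *
            pd (eq1 Y) y (((range (t + 1)).erase 0) \ insert n ((Co a).erase (1 + 2 * l))) (RO b) +
          pm (eq1 Y) (insert n ((Co a).erase (1 + 2 * l))) (RE a) *
            p2 (eq1 Y) y (((range (t + 1)).erase 0) \ insert n ((Co a).erase (1 + 2 * l)))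
              (RO b)) =
        ∑ r ∈ range b, ∑ i ∈ range a, ∑ i' ∈ range b,
          y (2 * (i + r + 1)) * y (2 * (i' + l + 1)) * cfA Y a i l * cfB Y b i' r := by
      intro l hl
      rw [mem_range] at hl
      have hd : 1 + 2 * l ∈ Co a := mem_Co.2 ⟨by omega, by omega⟩
      rw [sum_Cp]
      refine sum_congr rfl fun r hr => ?_
      rw [mem_range] at hr
      obtain ⟨h1, h2, h3⟩ := near (j' := 0) (n := 2 + 2 * r) ht ha hb (by omega) rfl hd
        (by rw [s3 ht ha hb]; exact mem_Cp.2 ⟨by omega, by omega, by omega⟩)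
      rw [vO hCE Y b _ h1 h2 h3, vE hCE Y a _ (by rw [card_ins hd (hnCo _ (by omega)), hCo])
        (mem_insert_self _ _) (by omega) (by omega), mul_zero, zero_mul, add_zero, zero_add,
        s3' ht ha hb hl hr, t1 hCE Y y a l r hl, t5 hCE Y y b l r hr, sum_mul_sum]
      refine sum_congr rfl fun i _ => sum_congr rfl fun i' _ => ?_
      ring
    rw [sum_congr rfl h3]
    unfold qf
    rw [sum_comm]
    rw [show (∑ i ∈ range a, ∑ r ∈ range b, ∑ i' ∈ range b, ∑ l ∈ range a,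
        (fun s => y (2 * s)) (i + r + 1) * (fun s => y (2 * s)) (i' + l + 1) * cfA Y a i l *
          cfB Y b i' r) = ∑ r ∈ range b, ∑ i ∈ range a, ∑ i' ∈ range b, ∑ l ∈ range a,
        (fun s => y (2 * s)) (i + r + 1) * (fun s => y (2 * s)) (i' + l + 1) * cfA Y a i l *
          cfB Y b i' r from sum_comm]
    refine sum_congr rfl fun r _ => ?_
    rw [sum_comm]
    refine sum_congr rfl fun i _ => ?_
    rw [sum_comm]

end Pool.Agent.N633.HB.W1
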