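import Pool.Agent.N633.HB.Stm
import Pool.Agent.N729.HP.BA
import Pool.Agent.N729.HP.SL
import Pool.Agent.N729.HP.CX

/-!
Project HB, part WE1: permanents and cofactors for the sequence `uE`.
-/

set_option autoImplicit false

namespace Pool.Agent.N633.HB.WE1

open Finset
open Pool.Agent.N186.HK (pm pm_nil pm_cons pm_congr)
open Pool.Agent.N729.HP
open Pool.Agent.N633.HB

/-! ### lists -/

lemma perm1 (m : ℕ) (h : 2 ≤ m) :
    (List.range m).Perm ((m - 1) :: (m - 2) :: List.range' 0 (m - 2)) := by
  rw [List.perm_ext_iff_of_nodup List.nodup_range]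
  · intro a
    simp only [List.mem_range, List.mem_cons, List.mem_range'_1]
    omega
  · rw [List.nodup_cons, List.nodup_cons]
    refine ⟨?_, ?_, List.nodup_range'⟩
    · simp only [List.mem_cons, List.mem_range'_1]
      omega
    · simp only [List.mem_range'_1]
      omega

lemma perm2 (m : ℕ) (h : 2 ≤ m) :
    ((List.range m).erase (m - 1)).Perm ((m - 2) :: List.range' 0 (m - 2)) := by
  rw [List.perm_ext_iff_of_nodup (List.nodup_range.erase _)]
  · intro a
    rw [List.nodup_range.mem_erase_iff]
    simp only [List.mem_range, List.mem_cons, List.mem_range'_1]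
    omega
  · rw [List.nodup_cons]
    refine ⟨?_, List.nodup_range'⟩
    simp only [List.mem_range'_1]
    omega

lemma perm3 (m : ℕ) (h : 2 ≤ m) :
    ((List.range m).erase (m - 2)).Perm ((m - 1) :: List.range' 0 (m - 2)) := by
  rw [List.perm_ext_iff_of_nodup (List.nodup_range.erase _)]
  · intro a
    rw [List.nodup_range.mem_erase_iff]
    simp only [List.mem_range, List.mem_cons, List.mem_range'_1]
    omega
  · rw [List.nodup_cons]
    refine ⟨?_, List.nodup_range'⟩
    simp only [List.mem_range'_1]
    omega

lemma perm4 (m i : ℕ) (h : i + 2 < m) :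
    ((List.range m).erase i).Perm
      ((m - 1) :: (m - 2) :: (List.range' 0 (i - 0) ++ List.range' (i + 1) (m - 2 - 1 - i))) := by
  rw [List.perm_ext_iff_of_nodup (List.nodup_range.erase i)]
  · intro a
    rw [List.nodup_range.mem_erase_iff]
    simp only [List.mem_range, List.mem_cons, List.mem_append, List.mem_range'_1]
    omega
  · rw [List.nodup_cons, List.nodup_cons, List.nodup_append]
    refine ⟨?_, ?_, List.nodup_range', List.nodup_range', ?_⟩
    · simp only [List.mem_cons, List.mem_append, List.mem_range'_1]
      omega
    · simp only [List.mem_append, List.mem_range'_1]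
      omega
    · intro a ha b hb
      simp only [List.mem_range'_1] at ha hb
      omega

section

variable {k : Type*} [Field k]

/-- the shifted sequence -/
def v (k : Type*) [Field k] (m s : ℕ) : k := uE k m (s + 1)

lemma v1 (m s : ℕ) (h : s + 3 = m ∨ s + 2 = m) : v k m s = 1 := by
  unfold v uE; split_ifs <;> first | rfl | contradiction | omega

lemma v2 (m s : ℕ) (hm : 3 ≤ m) (h : s + 3 = 2 * m ∨ s + 2 = 2 * m) : v k m s = -1 := by
  unfold v uE; split_ifs <;> first | rfl | contradiction | omega

lemma v3 (m s : ℕ) (h1 : s + 3 ≠ m) (h2 : s + 2 ≠ m) (h3 : s + 3 ≠ 2 * m) (h4 : s + 2 ≠ 2 * m) :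
    v k m s = 0 := by
  unfold v uE; split_ifs <;> first | rfl | contradiction | omega

lemma icc (m : ℕ) (h : 2 ≤ m) : Icc (m - 2 - (m - 2)) (m - 2 - 0) = range (m - 1) := by
  ext a; simp only [mem_Icc, mem_range]; omega

/-! ### strips -/

lemma s2 (hSL : StmSL k) (m : ℕ) (hm : 3 ≤ m) (l : ℕ) (hl : l < m - 1) :
    pm (v k m) ((range (m - 1)).erase l) (List.range' 0 (m - 2)) = 1 := by
  have h := hSL.2.1 (v k m) (m - 2) 0 (m - 2) (by omega) le_rfl (by
    intro j _ hj c hc hc'
    by_cases h1 : j + c + 1 = m - 2 ∨ j + c = m - 2
    · rw [if_pos h1, v1 m _ (by omega)]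
    · rw [if_neg h1, v3 m _ (by omega) (by omega) (by omega) (by omega)]) l
      (by rw [icc m (by omega)]; exact mem_range.2 hl)
  rwa [icc m (by omega)] at h

lemma s3 (hSL : StmSL k) (m : ℕ) (hm : 3 ≤ m) (i : ℕ) (hi : i + 2 < m) (z z' : ℕ)
    (hz : z < m - 1) (hz' : z' < m - 1) (hzz : z ≠ z') :
    pm (v k m) (((range (m - 1)).erase z).erase z')
      (List.range' 0 (i - 0) ++ List.range' (i + 1) (m - 2 - 1 - i)) =
      if (z + i < m - 2 ∧ m - 2 ≤ z' + i) ∨ (z' + i < m - 2 ∧ m - 2 ≤ z + i) then 1 else 0 := by
  have h := hSL.2.2 (v k m) (m - 2) 0 (m - 2) i (by omega) (by omega) le_rfl (by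
    intro j _ hj c hc hc' _
    by_cases h1 : j + c + 1 = m - 2 ∨ j + c = m - 2
    · rw [if_pos h1, v1 m _ (by omega)]
    · rw [if_neg h1, v3 m _ (by omega) (by omega) (by omega) (by omega)]) z
      (by rw [icc m (by omega)]; exact mem_range.2 hz) z'
      (by rw [icc m (by omega)]; exact mem_range.2 hz') hzz
  rwa [icc m (by omega)] at h

/-- the last column vanishes on the rows `< m - 2` -/
lemma z0 (hSL : StmSL k) (m : ℕ) (hm : 3 ≤ m) (J : Finset ℕ) (L : List ℕ) (hL : ∀ c ∈ L, c < m - 2)
    (hJ : m - 1 ∈ J) (hc : J.card ≤ L.length) : pm (v k m) J L = 0 := by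
  refine hSL.1 _ _ _ hc (m - 1) hJ ?_
  intro c hcc
  have := hL c hcc
  exact v3 m _ (by omega) (by omega) (by omega) (by omega)

/-- expansion along the row `m - 2` -/
lemma rowA (m : ℕ) (hm : 3 ≤ m) (J : Finset ℕ) (hJ : J ⊆ range m) (f : ℕ → k) :
    ∑ j ∈ J, v k m (j + (m - 2)) * f j =
      (if 0 ∈ J then f 0 else 0) + if m - 1 ∈ J then - f (m - 1) else 0 := by
  have h : ∀ j ∈ J, v k m (j + (m - 2)) * f j =
      (if j = 0 then f 0 else 0) + if j = m - 1 then - f (m - 1) else 0 := by
    intro j hj
    have hj' := mem_range.1 (hJ hj)
    by_cases h0 : j = 0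
    · subst h0
      rw [v1 m _ (by omega), if_pos rfl, if_neg (by omega)]; ring
    · by_cases h1 : j = m - 1
      · subst h1
        rw [v2 m _ hm (by omega), if_neg h0, if_pos rfl]; ring
      · rw [v3 m _ (by omega) (by omega) (by omega) (by omega), if_neg h0, if_neg h1]; ring
  rw [sum_congr rfl h, sum_add_distrib, sum_ite_eq', sum_ite_eq']

/-- expansion along the row `m - 1` -/
lemma rowB (m : ℕ) (hm : 3 ≤ m) (J : Finset ℕ) (hJ : J ⊆ range m) (f : ℕ → k) :
    ∑ j ∈ J, v k m (j + (m - 1)) * f j =
      (if m - 2 ∈ J then - f (m - 2) else 0) + if m - 1 ∈ J then - f (m - 1) else 0 := by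
  have h : ∀ j ∈ J, v k m (j + (m - 1)) * f j =
      (if j = m - 2 then - f (m - 2) else 0) + if j = m - 1 then - f (m - 1) else 0 := by
    intro j hj
    have hj' := mem_range.1 (hJ hj)
    by_cases h0 : j = m - 2
    · subst h0
      rw [v2 m _ hm (by omega), if_pos rfl, if_neg (by omega)]; ring
    · by_cases h1 : j = m - 1
      · subst h1
        rw [v2 m _ hm (by omega), if_neg h0, if_pos rfl]; ring
      · rw [v3 m _ (by omega) (by omega) (by omega) (by omega), if_neg h0, if_neg h1]; ring
  rw [sum_congr rfl h, sum_add_distrib, sum_ite_eq', sum_ite_eq']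

/-- the sequences agree on the first matrix -/
lemma uE_eq (m s : ℕ) (hm : 3 ≤ m) (hs : s + 2 ≤ 2 * m) : uE k m s = uX k m (s + 1) := by
  unfold uE uX
  split_ifs <;> first | rfl | contradiction | omega

lemma er1 (m : ℕ) (hm : 3 ≤ m) (l : ℕ) :
    ((range m).erase (m - 1)).erase l = (range (m - 1)).erase l := by
  ext a; simp only [mem_erase, mem_range]; omega

lemma er2 (m : ℕ) (hm : 3 ≤ m) (l : ℕ) :
    ((range m).erase l).erase (m - 1) = (range (m - 1)).erase l := by
  ext a; simp only [mem_erase, mem_range]; omega

end

theorem t (k : Type*) [Field k] : StmWE1 k := by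
  have hBA := BA.ta k
  have hBB := BA.tb k
  have hSL := SL.t k hBA hBB
  have hCX := CX.tx k hBA hBB hSL
  intro m hm
  obtain ⟨-, -, c3, c4, -, -⟩ := hCX m (by omega)
  have hlen : (List.range' 0 (m - 2)).length = m - 2 := List.length_range'
  have hmemL : ∀ c ∈ List.range' 0 (m - 2), c < m - 2 := by
    intro c hc
    rw [List.mem_range'_1] at hc
    omega
  refine ⟨?_, ?_, ?_, ?_⟩
  · rw [← c3]
    refine pm_congr _ _ fun i hi c hc => ?_
    have h1 := mem_range.1 hi
    have h2 := List.mem_range.1 hc
    exact uE_eq m _ hm (by omega)
  · show pm (v k m) (range m) (List.range m) = 0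
    rw [hBA.1 _ _ _ (perm1 m (by omega)), pm_cons, rowB m hm _ (Subset.refl _),
      if_pos (mem_range.2 (by omega)), if_pos (mem_range.2 (by omega)),
      pm_cons, rowA m hm _ (erase_subset _ _), pm_cons, rowA m hm _ (erase_subset _ _)]
    simp only [mem_erase, mem_range]
    rw [if_pos (by omega), if_pos (by omega), if_pos (by omega), if_neg (by omega),
      z0 hSL m hm (((range m).erase (m - 2)).erase 0) _ hmemL
        (by simp only [mem_erase, mem_range]; omega)
        (by
          rw [card_erase_of_mem (by simp only [mem_erase, mem_range]; omega),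
            card_erase_of_mem (by simp only [mem_range]; omega), card_range, hlen]
          omega),
      er2 m hm, s2 hSL m hm _ (by omega), er1 m hm, s2 hSL m hm _ (by omega)]
    ring
  · intro i hi l hl
    unfold cfA AE
    have h := c4 i hi l hl
    rw [show pm (uE k m) ((range m).erase l) ((List.range m).erase i) =
      pm (fun s => uX k m (s + 1)) ((range m).erase l) ((List.range m).erase i) from
      pm_congr _ _ fun j hj c hc => by
        have h1 := mem_range.1 (mem_of_mem_erase hj)
        have h2 := List.mem_range.1 (List.mem_of_mem_erase hc)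
        exact uE_eq m _ hm (by omega), h]
    by_cases h1 : i + l + 1 < m
    · rw [if_pos h1, if_neg (by omega)]
    · rw [if_neg h1, if_pos (by omega)]
  · intro i hi l hl
    unfold cfB BE
    show pm (v k m) ((range m).erase l) ((List.range m).erase i) = _
    by_cases hi1 : i = m - 1
    · subst hi1
      rw [hBA.1 _ _ _ (perm2 m (by omega)), pm_cons, rowA m hm _ (erase_subset _ _)]
      simp only [mem_erase, mem_range]
      by_cases hl1 : l = m - 1
      · subst hl1
        rw [if_pos (by omega), if_neg (by omega), if_pos (by omega), er1 m hm,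
          s2 hSL m hm _ (by omega)]
        ring
      · rw [if_neg (by omega : ¬ (m - 1 + 1 = m ∧ l + 1 = m)),
          if_pos (by omega : m - 1 + 1 = m ∨ l + 1 = m), if_pos (by omega : m - 1 ≠ l ∧ m - 1 < m),
          er2 m hm, s2 hSL m hm _ (by omega)]
        by_cases hl0 : l = 0
        · rw [if_neg (by omega)]; ring
        · rw [if_pos (by omega), z0 hSL m hm _ _ hmemL
            (by simp only [mem_erase, mem_range]; omega)
            (by
              rw [card_erase_of_mem (by simp only [mem_erase, mem_range]; omega),
                card_erase_of_mem (by simp only [mem_range]; omega), card_range, hlen]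
              omega)]
          ring
    · rw [if_neg (by omega : ¬ (i + 1 = m ∧ l + 1 = m))]
      by_cases hi2 : i = m - 2
      · subst hi2
        rw [hBA.1 _ _ _ (perm3 m (by omega)), pm_cons, rowB m hm _ (erase_subset _ _)]
        simp only [mem_erase, mem_range]
        by_cases hl1 : l = m - 1
        · subst hl1
          rw [if_pos (by omega), if_neg (by omega), if_pos (by omega), er1 m hm,
            s2 hSL m hm _ (by omega)]
          ring
        · rw [if_neg (by omega : ¬ (m - 2 + 1 = m ∨ l + 1 = m)),
            if_neg (by omega : ¬ (m - 2 + l + 2 < m)), if_pos (by omega : m - 1 ≠ l ∧ m - 1 < m),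
            er2 m hm, s2 hSL m hm _ (by omega)]
          by_cases hl0 : l = m - 2
          · rw [if_neg (by omega)]; ring
          · rw [if_pos (by omega), z0 hSL m hm _ _ hmemL
              (by simp only [mem_erase, mem_range]; omega)
              (by
                rw [card_erase_of_mem (by simp only [mem_erase, mem_range]; omega),
                  card_erase_of_mem (by simp only [mem_range]; omega), card_range, hlen]
                omega)]
            ring
      · have hi3 : i + 2 < m := by omega
        have hmemL' : ∀ c ∈ List.range' 0 (i - 0) ++ List.range' (i + 1) (m - 2 - 1 - i),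
            c < m - 2 := by
          intro c hc
          simp only [List.mem_append, List.mem_range'_1] at hc
          omega
        have hlen' : (List.range' 0 (i - 0) ++ List.range' (i + 1) (m - 2 - 1 - i)).length = m - 3 := by
          rw [List.length_append, List.length_range', List.length_range']
          omega
        rw [hBA.1 _ _ _ (perm4 m i hi3), pm_cons, rowB m hm _ (erase_subset _ _)]
        simp only [mem_erase, mem_range]
        by_cases hl1 : l = m - 1
        · subst hl1
          rw [if_pos (by omega : i + 1 = m ∨ m - 1 + 1 = m), if_neg (by omega : ¬ (m - 1 ≠ m - 1 ∧ m - 1 < m)),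
            if_pos (by omega), pm_cons,
            rowA m hm _ ((erase_subset _ _).trans (erase_subset _ _))]
          simp only [mem_erase, mem_range]
          rw [if_pos (by omega), if_neg (by omega), er1 m hm,
            s3 hSL m hm i hi3 (m - 2) 0 (by omega) (by omega) (by omega), if_pos (by omega)]
          ring
        · rw [if_neg (by omega : ¬ (i + 1 = m ∨ l + 1 = m)),
            if_pos (by omega : m - 1 ≠ l ∧ m - 1 < m)]
          -- the column `m - 1` in the row `m - 1`
          have hX : pm (v k m) (((range m).erase l).erase (m - 1))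
              ((m - 2) :: (List.range' 0 (i - 0) ++ List.range' (i + 1) (m - 2 - 1 - i))) =
              if m - 2 ≤ l + i then 1 else 0 := by
            rw [pm_cons, rowA m hm _ ((erase_subset _ _).trans (erase_subset _ _))]
            simp only [mem_erase, mem_range]
            rw [if_neg (by omega : ¬ (m - 1 ≠ m - 1 ∧ m - 1 ≠ l ∧ m - 1 < m))]
            by_cases hl0 : l = 0
            · rw [if_neg (by omega), if_neg (by omega)]; ring
            · rw [if_pos (by omega), er2 m hm,
                s3 hSL m hm i hi3 l 0 (by omega) (by omega) (by omega)]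
              by_cases h : m - 2 ≤ l + i
              · rw [if_pos (by omega), if_pos h]; ring
              · rw [if_neg (by omega), if_neg h]; ring
          rw [hX]
          by_cases hl2 : l = m - 2
          · rw [if_neg (by omega : ¬ (m - 2 ≠ l ∧ m - 2 < m)), if_pos (by omega : m - 2 ≤ l + i),
              if_neg (by omega : ¬ (i + l + 2 < m))]
            ring
          · have hY : pm (v k m) (((range m).erase l).erase (m - 2))
                ((m - 2) :: (List.range' 0 (i - 0) ++ List.range' (i + 1) (m - 2 - 1 - i))) =
                if l + i < m - 2 then -1 else 0 := by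
              rw [pm_cons, rowA m hm _ ((erase_subset _ _).trans (erase_subset _ _))]
              simp only [mem_erase, mem_range]
              rw [if_pos (by omega : m - 1 ≠ m - 2 ∧ m - 1 ≠ l ∧ m - 1 < m),
                show (((range m).erase l).erase (m - 2)).erase (m - 1) =
                  ((range (m - 1)).erase l).erase (m - 2) by
                  ext a; simp only [mem_erase, mem_range]; omega,
                s3 hSL m hm i hi3 l (m - 2) (by omega) (by omega) (by omega)]
              have hzz : (if 0 ≠ m - 2 ∧ 0 ≠ l ∧ 0 < m then
                  pm (v k m) ((((range m).erase l).erase (m - 2)).erase 0)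
                    (List.range' 0 (i - 0) ++ List.range' (i + 1) (m - 2 - 1 - i)) else 0) = 0 := by
                by_cases hl0 : l = 0
                · rw [if_neg (by omega)]
                · rw [if_pos (by omega), z0 hSL m hm _ _ hmemL'
                    (by simp only [mem_erase, mem_range]; omega)
                    (by
                      rw [card_erase_of_mem (by simp only [mem_erase, mem_range]; omega),
                        card_erase_of_mem (by simp only [mem_erase, mem_range]; omega),
                        card_erase_of_mem (by simp only [mem_range]; omega), card_range, hlen']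
                      omega)]
              rw [hzz]
              by_cases h : l + i < m - 2
              · rw [if_pos (by omega), if_pos h]; ring
              · rw [if_neg (by omega), if_neg h]; ring
            rw [if_pos (by omega : m - 2 ≠ l ∧ m - 2 < m), hY]
            by_cases h : i + l + 2 < m
            · rw [if_pos (by omega), if_neg (by omega), if_pos h]; ring
            · rw [if_neg (by omega), if_pos (by omega), if_neg h]; ring

end Pool.Agent.N633.HB.WE1
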