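import Pool.Agent.N633.HB.Stm

/-!
Project HB (helper633), parts WE2 and WE3: linear algebra and the quadratic form, even family (helper702).
-/

set_option autoImplicit false

namespace Pool.Agent.N633.HB.WE2

open Finset

variable {k : Type*} [Field k]

theorem ind (m i a b : ℕ) (f : ℕ → k) :
    ∑ r ∈ range m, (if i + r + a = b then f r else 0) =
      if i + a ≤ b ∧ b < m + i + a then f (b - a - i) else 0 := by
  by_cases h : i + a ≤ b ∧ b < m + i + a
  · rw [if_pos h, sum_eq_single (b - a - i)]
    · rw [if_pos (by omega)]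
    · intro r _ hr
      rw [if_neg (by omega)]
    · intro hr
      rw [mem_range] at hr
      omega
  · rw [if_neg h]
    refine sum_eq_zero fun r hr => ?_
    rw [mem_range] at hr
    rw [if_neg (by omega)]

/-! ### The linear algebra -/

theorem kerA (h2 : (2 : k) ≠ 0) (n : ℕ) (F : ℕ → k)
    (h : ∀ l < n + 3, ∑ i ∈ range (n + 3), AE k (n + 3) i l * F i = 0) : ∀ i < n + 3, F i = 0 := by
  have h1 : ∀ i < n + 2, F i = 0 := by
    intro i hi
    have e1 := h (n + 1 - i) (by omega)
    have e2 := h (n + 1 - i + 1) (by omega)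
    have e3 : ∑ j ∈ range (n + 3), (if (n + 1 - i) + j + 2 = n + 3 then 2 * F j else 0) = 0 := by
      have e4 : ∑ j ∈ range (n + 3), (AE k (n + 3) j (n + 1 - i + 1) * F j - AE k (n + 3) j (n + 1 - i) * F j) = 0 := by
        rw [sum_sub_distrib, e1, e2, sub_zero]
      refine Eq.trans (sum_congr rfl fun j hj => ?_) e4
      unfold AE
      by_cases c1 : (n + 1 - i) + j + 2 = n + 3
      · rw [if_pos c1, if_pos (by omega), if_neg (by omega)]
        ring
      · rw [if_neg c1]
        by_cases c2 : n + 3 ≤ j + (n + 1 - i) + 1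
        · rw [if_pos c2, if_pos (by omega)]
          ring
        · rw [if_neg c2, if_neg (by omega)]
          ring
    rw [ind (n + 3) (n + 1 - i) 2 (n + 3) (fun j => 2 * F j), if_pos (by omega)] at e3
    have e5 : n + 3 - 2 - (n + 1 - i) = i := by omega
    rw [e5] at e3
    exact (mul_eq_zero.1 e3).resolve_left h2
  intro i hi
  by_cases hi2 : i < n + 2
  · exact h1 i hi2
  · obtain rfl : i = n + 2 := by omega
    have e1 := h 0 (by omega)
    rw [sum_range_succ, sum_eq_zero (fun j hj => by rw [h1 j (mem_range.1 hj), mul_zero]), zero_add] at e1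
    unfold AE at e1
    rw [if_pos (by omega), one_mul] at e1
    exact e1

theorem kerB (h2 : (2 : k) ≠ 0) (n : ℕ) (F : ℕ → k)
    (h : ∀ r < n + 3, ∑ i ∈ range (n + 3), BE k (n + 3) i r * F i = 0) : ∀ i < n + 3, F i = 0 := by
  have h1 : ∀ i < n + 1, F i = 0 := by
    intro i hi
    have e1 := h (n - i) (by omega)
    have e2 := h (n - i + 1) (by omega)
    have e3 : ∑ j ∈ range (n + 3), (if (n - i) + j + 3 = n + 3 then 2 * F j else 0) = 0 := by
      have e4 : ∑ j ∈ range (n + 3), (BE k (n + 3) j (n - i) * F j - BE k (n + 3) j (n - i + 1) * F j) = 0 := by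
        rw [sum_sub_distrib, e1, e2, sub_zero]
      refine Eq.trans (sum_congr rfl fun j hj => ?_) e4
      rw [mem_range] at hj
      unfold BE
      rw [if_neg (by omega : ¬ (j + 1 = n + 3 ∧ n - i + 1 = n + 3)),
        if_neg (by omega : ¬ (j + 1 = n + 3 ∧ n - i + 1 + 1 = n + 3))]
      by_cases c0 : j + 1 = n + 3
      · rw [if_pos (Or.inl c0), if_pos (Or.inl c0), if_neg (by omega)]
        ring
      · rw [if_neg (by omega : ¬ (j + 1 = n + 3 ∨ n - i + 1 = n + 3)),
          if_neg (by omega : ¬ (j + 1 = n + 3 ∨ n - i + 1 + 1 = n + 3))]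
        by_cases c1 : (n - i) + j + 3 = n + 3
        · rw [if_pos c1, if_pos (by omega), if_neg (by omega)]
          ring
        · rw [if_neg c1]
          by_cases c2 : j + (n - i) + 2 < n + 3
          · rw [if_pos c2, if_pos (by omega)]
            ring
          · rw [if_neg c2, if_neg (by omega)]
            ring
    rw [ind (n + 3) (n - i) 3 (n + 3) (fun j => 2 * F j), if_pos (by omega)] at e3
    have e5 : n + 3 - 3 - (n - i) = i := by omega
    rw [e5] at e3
    exact (mul_eq_zero.1 e3).resolve_left h2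
  have e1 := h (n + 2) (by omega)
  rw [sum_range_succ, sum_range_succ, sum_eq_zero (fun j hj => by rw [h1 j (mem_range.1 hj), mul_zero]), zero_add] at e1
  have e2 := h 0 (by omega)
  rw [sum_range_succ, sum_range_succ, sum_eq_zero (fun j hj => by rw [h1 j (mem_range.1 hj), mul_zero]), zero_add] at e2
  have b1 : BE k (n + 3) (n + 1) (n + 2) = -1 := by
    unfold BE
    rw [if_neg (by omega), if_pos (by omega)]
  have b2 : BE k (n + 3) (n + 2) (n + 2) = 1 := by
    unfold BE
    rw [if_pos (by omega)]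
  have b3 : BE k (n + 3) (n + 1) 0 = -1 := by
    unfold BE
    rw [if_neg (by omega), if_neg (by omega), if_neg (by omega)]
  have b4 : BE k (n + 3) (n + 2) 0 = -1 := by
    unfold BE
    rw [if_neg (by omega), if_pos (by omega)]
  rw [b1, b2] at e1
  rw [b3, b4] at e2
  have e3 : 2 * F (n + 1) = 0 := by linear_combination (-1 : k) * e1 - e2
  have e4 : F (n + 1) = 0 := (mul_eq_zero.1 e3).resolve_left h2
  have e5 : F (n + 2) = 0 := by linear_combination e1 + e4
  intro i hi
  rcases Nat.lt_or_ge i (n + 1) with hi1 | hi1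
  · exact h1 i hi1
  · rcases Nat.eq_or_lt_of_le hi1 with hi2 | hi2
    · rw [← hi2]; exact e4
    · obtain rfl : i = n + 2 := by omega
      exact e5

theorem uE_lt (n i : ℕ) (hi : i < n + 3) : uE k (n + 3) i = if n + 1 ≤ i then 1 else 0 := by
  unfold uE
  by_cases c1 : i + 2 = n + 3
  · rw [if_pos c1, if_pos (by omega)]
  · rw [if_neg c1]
    by_cases c2 : i + 1 = n + 3
    · rw [if_pos c2, if_pos (by omega)]
    · rw [if_neg c2, if_neg (by omega), if_neg (by omega), if_neg (by omega)]

theorem beta (n r : ℕ) (hr : r < n + 3) :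
    ∑ i' ∈ range (n + 3), uE k (n + 3) i' * BE k (n + 3) i' r = if r = n + 2 then 0 else -2 := by
  have e0 : ∑ i' ∈ range (n + 1), uE k (n + 3) i' * BE k (n + 3) i' r = 0 := by
    refine sum_eq_zero fun i hi => ?_
    rw [mem_range] at hi
    rw [uE_lt n i (by omega), if_neg (by omega), zero_mul]
  rw [sum_range_succ, sum_range_succ, e0, zero_add, uE_lt n (n + 1) (by omega), uE_lt n (n + 2) (by omega),
    if_pos (by omega), if_pos (by omega), one_mul, one_mul]
  by_cases c : r = n + 2
  · rw [if_pos c, c]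
    unfold BE
    rw [if_neg (by omega), if_pos (by omega), if_pos (by omega)]
    ring
  · rw [if_neg c]
    unfold BE
    rw [if_neg (by omega), if_neg (by omega), if_neg (by omega), if_neg (by omega), if_pos (by omega)]
    ring

theorem t2 (k : Type*) [Field k] : StmWE2 k := by
  intro h2 m hm w η δ hR
  obtain ⟨n, rfl⟩ : ∃ n, m = n + 3 := ⟨m - 3, by omega⟩
  obtain ⟨W, hW⟩ : ∃ W : ℕ → k, ∀ i, W i = ∑ r ∈ range (n + 2), w (i + r + 1) := ⟨_, fun _ => rfl⟩
  -- the first relation
  have hψ : ∀ i < n + 3, (if i = 0 then δ else 0) - 2 * W i = 0 := by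
    refine kerA h2 n (fun i => (if i = 0 then δ else 0) - 2 * W i) fun l hl => ?_
    refine Eq.trans ?_ (hR.r1 l hl)
    have e1 : ∀ i, ∑ r ∈ range (n + 3), w (i + r + 1) * AE k (n + 3) i l *
        (∑ i' ∈ range (n + 3), uE k (n + 3) i' * BE k (n + 3) i' r) = AE k (n + 3) i l * (-2 * W i) := by
      intro i
      rw [sum_range_succ, beta n (n + 2) (by omega), if_pos rfl, mul_zero, add_zero, hW, mul_sum, mul_sum]
      refine sum_congr rfl fun r hr => ?_
      rw [mem_range] at hr
      rw [beta n r (by omega), if_neg (by omega)]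
      ring
    simp only [e1]
    have e2 : AE k (n + 3) 0 l * δ = ∑ i ∈ range (n + 3), AE k (n + 3) i l * (if i = 0 then δ else 0) := by
      rw [sum_eq_single 0]
      · rw [if_pos rfl]
      · intro j _ hj
        rw [if_neg hj, mul_zero]
      · intro h0
        exact absurd (mem_range.2 (by omega)) h0
    rw [e2, ← sum_add_distrib]
    refine sum_congr rfl fun i _ => ?_
    ring
  -- the second relation
  have hθ : ∀ i < n + 3, η * uE k (n + 3) i + (w (i + (n + 3)) - W i) = 0 := by
    refine kerB h2 n (fun i => η * uE k (n + 3) i + (w (i + (n + 3)) - W i)) fun r hr => ?_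
    refine Eq.trans ?_ (hR.r2 r hr)
    have e1 : ∀ i, ∑ l ∈ range (n + 3), w (i + l + 1) * AE k (n + 3) 0 l * BE k (n + 3) i r =
        BE k (n + 3) i r * (w (i + (n + 3)) - W i) := by
      intro i
      have a1 : AE k (n + 3) 0 (n + 2) = 1 := by unfold AE; rw [if_pos (by omega)]
      have a2 : ∑ l ∈ range (n + 2), w (i + l + 1) * AE k (n + 3) 0 l * BE k (n + 3) i r =
          - (BE k (n + 3) i r * W i) := by
        rw [hW, mul_sum, ← sum_neg_distrib]
        refine sum_congr rfl fun l hl => ?_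
        rw [mem_range] at hl
        have a3 : AE k (n + 3) 0 l = -1 := by unfold AE; rw [if_neg (by omega)]
        rw [a3]
        ring
      rw [sum_range_succ, a1, a2, show i + (n + 2) + 1 = i + (n + 3) by omega]
      ring
    simp only [e1]
    rw [mul_sum, ← sum_add_distrib]
    refine sum_congr rfl fun i _ => ?_
    ring
  have hW0 : δ = 2 * W 0 := by
    have := hψ 0 (by omega)
    rw [if_pos rfl] at this
    linear_combination this
  have hWi : ∀ i, 1 ≤ i → i < n + 3 → W i = 0 := by
    intro i hi1 hi2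
    have := hψ i hi2
    rw [if_neg (by omega), zero_sub, neg_eq_zero] at this
    exact (mul_eq_zero.1 this).resolve_left h2
  have hbig : ∀ i, 1 ≤ i → i < n + 3 → w (i + (n + 3)) = if n + 1 ≤ i then -η else 0 := by
    intro i hi1 hi2
    have h3 := hθ i hi2
    rw [uE_lt n i hi2, hWi i hi1 hi2] at h3
    split_ifs at h3 ⊢ with c
    · linear_combination h3
    · linear_combination h3
  have hstep : ∀ i, W i + w (i + (n + 3)) = W (i + 1) + w (i + 1) := by
    intro i
    have e1 : ∑ r ∈ range (n + 3), w (i + r + 1) = W i + w (i + (n + 3)) := by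
      rw [sum_range_succ, hW, show i + (n + 2) + 1 = i + (n + 3) by omega]
    have e2 : ∑ r ∈ range (n + 3), w (i + r + 1) = W (i + 1) + w (i + 1) := by
      rw [sum_range_succ', hW, add_zero]
      congr 1
      refine sum_congr rfl fun r _ => ?_
      rw [show i + (r + 1) + 1 = i + 1 + r + 1 by omega]
    rw [← e1, e2]
  have hsmall : ∀ i, 1 ≤ i → i < n + 2 → w (i + 1) = if n + 1 ≤ i then -η else 0 := by
    intro i hi1 hi2
    have h3 := hstep i
    rw [hWi i hi1 (by omega), hWi (i + 1) (by omega) (by omega), zero_add, zero_add] at h3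
    rw [← h3, hbig i hi1 (by omega)]
  have hm0 : w (n + 3) = W 0 := by
    have h3 := hθ 0 (by omega)
    rw [uE_lt n 0 (by omega), if_neg (by omega), zero_add] at h3
    linear_combination h3
  have h1 : w 1 = 2 * w (n + 3) := by
    have h3 := hstep 0
    rw [hWi (0 + 1) (by omega) (by omega), ← hm0, zero_add, zero_add] at h3
    linear_combination -h3
  have hmid : w (n + 3) = η := by
    have h3 := hWi (n + 2) (by omega) (by omega)
    rw [hW, sum_range_succ', sum_range_succ] at h3
    have e0 : ∑ r ∈ range n, w (n + 2 + (r + 1) + 1) = 0 := by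
      refine sum_eq_zero fun r hr => ?_
      rw [mem_range] at hr
      have := hbig (r + 1) (by omega) (by omega)
      rw [if_neg (by omega)] at this
      rw [← this]
      congr 1
      omega
    have e1 : w (n + 2 + (n + 1) + 1) = -η := by
      have := hbig (n + 1) (by omega) (by omega)
      rw [if_pos (by omega)] at this
      rw [← this]
      congr 1
      omega
    rw [e0, e1, show n + 2 + 0 + 1 = n + 3 by omega] at h3
    linear_combination h3
  refine ⟨by rw [h1, hmid], ?_, hmid, ?_, ?_, ?_, ?_⟩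
  · have h3 := hsmall (n + 1) (by omega) (by omega)
    rw [if_pos (by omega)] at h3
    rw [← h3]
    congr 1
  · have h3 := hbig (n + 1) (by omega) (by omega)
    rw [if_pos (by omega)] at h3
    rw [← h3]
    congr 1
    omega
  · have h3 := hbig (n + 2) (by omega) (by omega)
    rw [if_pos (by omega)] at h3
    rw [← h3]
    congr 1
    omega
  · intro s s1 s2 s3 s4 s5 s6 s7
    rcases Nat.lt_or_ge s (n + 3) with hs | hs
    · have h3 := hsmall (s - 1) (by omega) (by omega)
      rw [if_neg (by omega)] at h3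
      rw [← h3]
      congr 1
      omega
    · have h3 := hbig (s - (n + 3)) (by omega) (by omega)
      rw [if_neg (by omega)] at h3
      rw [← h3]
      congr 1
      omega
  · rw [hW0, ← hm0, hmid]

/-! ### The quadratic form -/

/-- sums against `w` -/
theorem S (n : ℕ) (w : ℕ → k) (η : k) (h1 : w 1 = 2 * η) (h2 : w (n + 2) = - η) (h3 : w (n + 3) = η)
    (h4 : w (2 * n + 4) = - η) (h5 : w (2 * n + 5) = - η)
    (h0 : ∀ s, 1 ≤ s → s < 2 * (n + 3) → s ≠ 1 → s ≠ n + 2 → s ≠ n + 3 → s ≠ 2 * n + 4 → s ≠ 2 * n + 5 → w s = 0)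
    (f : ℕ → k) (i : ℕ) (hi : i < n + 3) :
    ∑ r ∈ range (n + 3), w (i + r + 1) * f r = η * ((if i = 0 then 2 * f 0 else 0) -
      (if i ≤ n + 1 then f (n + 1 - i) else 0) + f (n + 2 - i) - (if i = n + 1 then f (n + 2) else 0) -
      (if i = n + 2 then f (n + 1) + f (n + 2) else 0)) := by
  have e1 : ∀ r ∈ range (n + 3), w (i + r + 1) * f r = η * ((if i + r + 0 = 0 then 2 * f r else 0) -
      (if i + r + 1 = n + 2 then f r else 0) + (if i + r + 1 = n + 3 then f r else 0) -
      (if i + r + 1 = 2 * n + 4 then f r else 0) - (if i + r + 1 = 2 * n + 5 then f r else 0)) := by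
    intro r hr
    rw [mem_range] at hr
    by_cases c1 : i + r + 0 = 0
    · rw [if_pos c1, if_neg (by omega), if_neg (by omega), if_neg (by omega), if_neg (by omega),
        show i + r + 1 = 1 by omega, h1]
      ring
    · by_cases c2 : i + r + 1 = n + 2
      · rw [if_neg c1, if_pos c2, if_neg (by omega), if_neg (by omega), if_neg (by omega), c2, h2]
        ring
      · by_cases c3 : i + r + 1 = n + 3
        · rw [if_neg c1, if_neg c2, if_pos c3, if_neg (by omega), if_neg (by omega), c3, h3]
          ring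
        · by_cases c4 : i + r + 1 = 2 * n + 4
          · rw [if_neg c1, if_neg c2, if_neg c3, if_pos c4, if_neg (by omega), c4, h4]
            ring
          · by_cases c5 : i + r + 1 = 2 * n + 5
            · rw [if_neg c1, if_neg c2, if_neg c3, if_neg c4, if_pos c5, c5, h5]
              ring
            · rw [if_neg c1, if_neg c2, if_neg c3, if_neg c4, if_neg c5,
                h0 _ (by omega) (by omega) (by omega) c2 c3 c4 c5]
              ring
  rw [sum_congr rfl e1, ← mul_sum, sum_sub_distrib, sum_sub_distrib, sum_add_distrib, sum_sub_distrib,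
    ind (n + 3) i 0 0 (fun r => 2 * f r), ind, ind, ind, ind]
  congr 1
  have a1 : (if i + 0 ≤ 0 ∧ 0 < n + 3 + i + 0 then 2 * f (0 - 0 - i) else 0) = if i = 0 then 2 * f 0 else 0 := by
    by_cases c : i = 0
    · rw [if_pos c, if_pos (by omega), c]
    · rw [if_neg c, if_neg (by omega)]
  have a2 : (if i + 1 ≤ n + 2 ∧ n + 2 < n + 3 + i + 1 then f (n + 2 - 1 - i) else 0) =
      if i ≤ n + 1 then f (n + 1 - i) else 0 := by
    by_cases c : i ≤ n + 1
    · rw [if_pos c, if_pos (by omega), show n + 2 - 1 - i = n + 1 - i by omega]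
    · rw [if_neg c, if_neg (by omega)]
  have a3 : (if i + 1 ≤ n + 3 ∧ n + 3 < n + 3 + i + 1 then f (n + 3 - 1 - i) else 0) = f (n + 2 - i) := by
    rw [if_pos (by omega), show n + 3 - 1 - i = n + 2 - i by omega]
  have a4 : (if i + 1 ≤ 2 * n + 4 ∧ 2 * n + 4 < n + 3 + i + 1 then f (2 * n + 4 - 1 - i) else 0) =
      (if i = n + 1 then f (n + 2) else 0) + (if i = n + 2 then f (n + 1) else 0) := by
    by_cases c : i = n + 1
    · rw [if_pos c, if_neg (by omega : ¬ i = n + 2), if_pos (by omega), show 2 * n + 4 - 1 - i = n + 2 by omega,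
        add_zero]
    · by_cases c' : i = n + 2
      · rw [if_neg c, if_pos c', if_pos (by omega), show 2 * n + 4 - 1 - i = n + 1 by omega, zero_add]
      · rw [if_neg c, if_neg c', if_neg (by omega), add_zero]
  have a5 : (if i + 1 ≤ 2 * n + 5 ∧ 2 * n + 5 < n + 3 + i + 1 then f (2 * n + 5 - 1 - i) else 0) =
      (if i = n + 2 then f (n + 2) else 0) := by
    by_cases c' : i = n + 2
    · rw [if_pos c', if_pos (by omega), show 2 * n + 5 - 1 - i = n + 2 by omega]
    · rw [if_neg c', if_neg (by omega)]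
  rw [a1, a2, a3, a4, a5]
  split_ifs <;> ring

theorem B1 (n : ℕ) : BE k (n + 3) (n + 2) (n + 2) = 1 := by
  unfold BE
  rw [if_pos (by omega)]

theorem B2 (n i : ℕ) (hi : i ≤ n + 1) : BE k (n + 3) i (n + 2) = -1 := by
  unfold BE
  rw [if_neg (by omega), if_pos (by omega)]

theorem B2' (n l : ℕ) (hl : l ≤ n + 1) : BE k (n + 3) (n + 2) l = -1 := by
  unfold BE
  rw [if_neg (by omega), if_pos (by omega)]

theorem B3 (n i l : ℕ) (h : i + l ≤ n) : BE k (n + 3) i l = 1 := by
  unfold BE
  rw [if_neg (by omega), if_neg (by omega), if_pos (by omega)]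

theorem B4 (n i l : ℕ) (hi : i ≤ n + 1) (hl : l ≤ n + 1) (h : n < i + l) : BE k (n + 3) i l = -1 := by
  unfold BE
  rw [if_neg (by omega), if_neg (by omega), if_neg (by omega)]

theorem A1 (n i l : ℕ) (h : n + 2 ≤ i + l) : AE k (n + 3) i l = 1 := by
  unfold AE
  rw [if_pos (by omega)]

theorem A2 (n i l : ℕ) (h : i + l < n + 2) : AE k (n + 3) i l = -1 := by
  unfold AE
  rw [if_neg (by omega)]

theorem t3 (k : Type*) [Field k] : StmWE3 k := by
  intro m hm w η h1 h2 h3 h4 h5 h0
  obtain ⟨n, rfl⟩ : ∃ n, m = n + 3 := ⟨m - 3, by omega⟩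
  have hS := S n w η h1 (by rw [← h2]; congr 1) h3 (by rw [← h4]; congr 1) (by rw [← h5]; congr 1)
    (fun s a b c d e f g => h0 s a b c (by omega) e (by omega) (by omega))
  have S0 : ∀ f : ℕ → k, ∑ r ∈ range (n + 3), w (0 + r + 1) * f r = η * (2 * f 0 - f (n + 1) + f (n + 2)) := by
    intro f
    rw [hS f 0 (by omega), if_pos rfl, if_pos (by omega), if_neg (by omega), if_neg (by omega), Nat.sub_zero,
      Nat.sub_zero]
    ring
  have Sm : ∀ (f : ℕ → k) (i : ℕ), 1 ≤ i → i ≤ n →
      ∑ r ∈ range (n + 3), w (i + r + 1) * f r = η * (- f (n + 1 - i) + f (n + 2 - i)) := by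
    intro f i hi1 hi2
    rw [hS f i (by omega), if_neg (by omega), if_pos (by omega), if_neg (by omega), if_neg (by omega)]
    ring
  have S1 : ∀ f : ℕ → k, ∑ r ∈ range (n + 3), w (n + 1 + r + 1) * f r = η * (- f 0 + f 1 - f (n + 2)) := by
    intro f
    rw [hS f (n + 1) (by omega), if_neg (by omega), if_pos (by omega), if_pos rfl, if_neg (by omega),
      Nat.sub_self, show n + 2 - (n + 1) = 1 by omega]
    ring
  have S2 : ∀ f : ℕ → k, ∑ r ∈ range (n + 3), w (n + 2 + r + 1) * f r = η * (f 0 - f (n + 1) - f (n + 2)) := by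
    intro f
    rw [hS f (n + 2) (by omega), if_neg (by omega), if_neg (by omega), if_neg (by omega), if_pos rfl,
      Nat.sub_self]
    ring
  obtain ⟨G, hG⟩ : ∃ G : ℕ → ℕ → k, ∀ i i', G i i' = ∑ r ∈ range (n + 3), w (i + r + 1) * BE k (n + 3) i' r :=
    ⟨_, fun _ _ => rfl⟩
  obtain ⟨H, hH⟩ : ∃ H : ℕ → ℕ → k, ∀ i' i, H i' i = ∑ l ∈ range (n + 3), w (i' + l + 1) * AE k (n + 3) i l :=
    ⟨_, fun _ _ => rfl⟩
  have hq : qf (n + 3) (n + 3) (AE k (n + 3)) (BE k (n + 3)) w =
      ∑ i ∈ range (n + 3), ∑ i' ∈ range (n + 3), G i i' * H i' i := by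
    unfold qf
    refine sum_congr rfl fun i _ => ?_
    rw [sum_comm]
    refine sum_congr rfl fun i' _ => ?_
    rw [hG, hH, sum_mul_sum]
    refine sum_congr rfl fun r _ => sum_congr rfl fun l _ => ?_
    ring
  have hrow : ∀ i < n + 3, ∑ i' ∈ range (n + 3), G i i' * H i' i =
      G i 0 * H 0 i + G i (n + 1) * H (n + 1) i + G i (n + 2) * H (n + 2) i := by
    intro i hi
    rw [sum_range_succ, sum_range_succ, sum_range_succ']
    have e0 : ∑ j ∈ range n, G i (j + 1) * H (j + 1) i = 0 := by
      refine sum_eq_zero fun j hj => ?_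
      rw [mem_range] at hj
      by_cases c : i = j + 1
      · have e1 : G i (j + 1) = 0 := by
          rw [hG, Sm _ i (by omega) (by omega), B4 n (j + 1) (n + 1 - i) (by omega) (by omega) (by omega),
            B4 n (j + 1) (n + 2 - i) (by omega) (by omega) (by omega)]
          ring
        rw [e1, zero_mul]
      · have e1 : H (j + 1) i = 0 := by
          rw [hH, Sm _ (j + 1) (by omega) (by omega)]
          rcases Nat.lt_or_ge i (j + 1) with c' | c'
          · rw [A2 n i (n + 1 - (j + 1)) (by omega), A2 n i (n + 2 - (j + 1)) (by omega)]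
            ring
          · rw [A1 n i (n + 1 - (j + 1)) (by omega), A1 n i (n + 2 - (j + 1)) (by omega)]
            ring
        rw [e1, mul_zero]
    rw [e0, zero_add]
  -- the rows
  have r0 : ∑ i' ∈ range (n + 3), G 0 i' * H i' 0 = 2 * η ^ 2 := by
    have a1 : H 0 0 = 0 := by
      rw [hH, S0, A2 n 0 0 (by omega), A2 n 0 (n + 1) (by omega), A1 n 0 (n + 2) (by omega)]
      ring
    have a2 : G 0 (n + 1) = -2 * η := by
      rw [hG, S0, B4 n (n + 1) 0 (by omega) (by omega) (by omega), B4 n (n + 1) (n + 1) (by omega) (by omega) (by omega),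
        B2 n (n + 1) (by omega)]
      ring
    have a3 : H (n + 1) 0 = -η := by
      rw [hH, S1, A2 n 0 0 (by omega), A2 n 0 1 (by omega), A1 n 0 (n + 2) (by omega)]
      ring
    have a4 : G 0 (n + 2) = 0 := by
      rw [hG, S0, B2' n 0 (by omega), B2' n (n + 1) (by omega), B1]
      ring
    rw [hrow 0 (by omega), a1, a2, a3, a4]
    ring
  have hH0 : ∀ i, 1 ≤ i → i ≤ n + 1 → H 0 i = -2 * η := by
    intro i hi1 hi2
    rw [hH, S0, A2 n i 0 (by omega), A1 n i (n + 1) (by omega), A1 n i (n + 2) (by omega)]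
    ring
  have rm : ∀ i, 1 ≤ i → i ≤ n → ∑ i' ∈ range (n + 3), G i i' * H i' i = if i = 1 then 4 * η ^ 2 else 0 := by
    intro i hi1 hi2
    have a2 : G i (n + 1) = 0 := by
      rw [hG, Sm _ i hi1 hi2, B4 n (n + 1) (n + 1 - i) (by omega) (by omega) (by omega),
        B4 n (n + 1) (n + 2 - i) (by omega) (by omega) (by omega)]
      ring
    have a4 : G i (n + 2) = 0 := by
      rw [hG, Sm _ i hi1 hi2, B2' n (n + 1 - i) (by omega), B2' n (n + 2 - i) (by omega)]
      ring
    rw [hrow i (by omega), hH0 i hi1 (by omega), a2, a4, hG, Sm _ i hi1 hi2, B3 n 0 (n + 1 - i) (by omega)]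
    by_cases c : i = 1
    · rw [if_pos c, B4 n 0 (n + 2 - i) (by omega) (by omega) (by omega)]
      ring
    · rw [if_neg c, B3 n 0 (n + 2 - i) (by omega)]
      ring
  have r1 : ∑ i' ∈ range (n + 3), G (n + 1) i' * H i' (n + 1) = if n = 0 then 6 * η ^ 2 else 2 * η ^ 2 := by
    have a2 : G (n + 1) (n + 1) = η := by
      rw [hG, S1, B4 n (n + 1) 0 (by omega) (by omega) (by omega), B4 n (n + 1) 1 (by omega) (by omega) (by omega),
        B2 n (n + 1) (by omega)]
      ring
    have a3 : H (n + 1) (n + 1) = η := by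
      rw [hH, S1, A2 n (n + 1) 0 (by omega), A1 n (n + 1) 1 (by omega), A1 n (n + 1) (n + 2) (by omega)]
      ring
    have a4 : G (n + 1) (n + 2) = -η := by
      rw [hG, S1, B2' n 0 (by omega), B2' n 1 (by omega), B1]
      ring
    have a5 : H (n + 2) (n + 1) = -3 * η := by
      rw [hH, S2, A2 n (n + 1) 0 (by omega), A1 n (n + 1) (n + 1) (by omega), A1 n (n + 1) (n + 2) (by omega)]
      ring
    rw [hrow (n + 1) (by omega), hH0 (n + 1) (by omega) (by omega), a2, a3, a4, a5, hG, S1,
      B3 n 0 0 (by omega), B2 n 0 (by omega)]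
    by_cases c : n = 0
    · rw [if_pos c, B4 n 0 1 (by omega) (by omega) (by omega)]
      ring
    · rw [if_neg c, B3 n 0 1 (by omega)]
      ring
  have r2 : ∑ i' ∈ range (n + 3), G (n + 2) i' * H i' (n + 2) = 6 * η ^ 2 := by
    have a0 : G (n + 2) 0 = 3 * η := by
      rw [hG, S2, B3 n 0 0 (by omega), B4 n 0 (n + 1) (by omega) (by omega) (by omega), B2 n 0 (by omega)]
      ring
    have a1 : H 0 (n + 2) = 2 * η := by
      rw [hH, S0, A1 n (n + 2) 0 (by omega), A1 n (n + 2) (n + 1) (by omega), A1 n (n + 2) (n + 2) (by omega)]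
      ring
    have a2 : G (n + 2) (n + 1) = η := by
      rw [hG, S2, B4 n (n + 1) 0 (by omega) (by omega) (by omega),
        B4 n (n + 1) (n + 1) (by omega) (by omega) (by omega), B2 n (n + 1) (by omega)]
      ring
    have a3 : H (n + 1) (n + 2) = -η := by
      rw [hH, S1, A1 n (n + 2) 0 (by omega), A1 n (n + 2) 1 (by omega), A1 n (n + 2) (n + 2) (by omega)]
      ring
    have a4 : G (n + 2) (n + 2) = -η := by
      rw [hG, S2, B2' n 0 (by omega), B2' n (n + 1) (by omega), B1]
      ring
    have a5 : H (n + 2) (n + 2) = -η := by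
      rw [hH, S2, A1 n (n + 2) 0 (by omega), A1 n (n + 2) (n + 1) (by omega), A1 n (n + 2) (n + 2) (by omega)]
      ring
    rw [hrow (n + 2) (by omega), a0, a1, a2, a3, a4, a5]
    ring
  rw [hq, sum_range_succ, sum_range_succ, sum_range_succ', r0, r1, r2]
  have e1 : ∑ j ∈ range n, ∑ i' ∈ range (n + 3), G (j + 1) i' * H i' (j + 1) = if n = 0 then 0 else 4 * η ^ 2 := by
    rw [sum_congr rfl (fun j hj => rm (j + 1) (by omega) (by rw [mem_range] at hj; omega))]
    by_cases c : n = 0
    · rw [if_pos c, c, range_zero, sum_empty]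
    · rw [if_neg c, sum_eq_single 0]
      · rw [if_pos rfl]
      · intro j _ hj
        rw [if_neg (by omega)]
      · intro hj
        exact absurd (mem_range.2 (by omega)) hj
  rw [e1]
  by_cases c : n = 0
  · rw [if_pos c, if_pos c]
    ring
  · rw [if_neg c, if_neg c]
    ring

end Pool.Agent.N633.HB.WE2
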