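import Pool.Agent.N633.HB.Stm
import Pool.Agent.N729.HP.BC

/-!
Project HB, part WF (helper531): the cases `t` even, `t` odd and `t = 4` from the parts.
-/

set_option autoImplicit false

namespace Pool.Agent.N633.HB.WF

open Finset
open Pool.Agent.N186.HK (pm vm pm_nil pm_cons)
open Pool.Agent.R831.PermIdeal (permIdeal)
open Pool.Agent.N729.HP (pd Sub hk)
open Pool.Agent.N633.HB

section

variable {k : Type*} [Field k]

lemma sum2 (a : ℕ) (f : ℕ → ℕ → k) (c0 j0 : ℕ) (hc : c0 < a) (hj : j0 < a)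
    (h : ∀ c < a, ∀ j < a, ¬ (c = c0 ∧ j = j0) → f c j = 0) :
    ∑ c ∈ range a, ∑ j ∈ range a, f c j = f c0 j0 := by
  rw [Finset.sum_eq_single c0]
  · rw [Finset.sum_eq_single j0]
    · intro j hj' hne
      exact h c0 hc j (mem_range.1 hj') (fun h => hne h.2)
    · intro hn
      exact absurd (mem_range.2 hj) hn
  · intro c hc' hne
    exact Finset.sum_eq_zero fun j hj' =>
      h c (mem_range.1 hc') j (mem_range.1 hj') (fun h => hne h.1)
  · intro hn
    exact absurd (mem_range.2 hc) hn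

lemma dH_eq (Y y : ℕ → k) (a : ℕ) :
    dH Y y a = ∑ c ∈ range a, ∑ j ∈ range a, y (2 * (j + c) + 1) * cfA Y a c j := by
  unfold dH cfA
  rw [Pool.Agent.N729.HP.BC.tf k _ _ _ _ List.nodup_range, List.toFinset_range]

lemma dK_eq (Y y : ℕ → k) (b : ℕ) :
    dK Y y b = ∑ c ∈ range b, ∑ j ∈ range b, y (2 * (j + c) + 3) * cfB Y b c j := by
  unfold dK cfB
  rw [Pool.Agent.N729.HP.BC.tf k _ _ _ _ List.nodup_range, List.toFinset_range]

lemma rel_congr {Y : ℕ → k} {a b : ℕ} {A B A' B' : ℕ → ℕ → k} {w : ℕ → k} {η δ : k}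
    (ha : 0 < a) (hA : ∀ i < a, ∀ l < a, A i l = A' i l) (hB : ∀ i < b, ∀ l < b, B i l = B' i l)
    (h : Rel1 Y a b A B w η δ) : Rel1 Y a b A' B' w η δ := by
  have hβ : ∀ r < b, ∑ i' ∈ range b, Y i' * B' i' r = ∑ i' ∈ range b, Y i' * B i' r :=
    fun r hr => Finset.sum_congr rfl fun i hi => by rw [hB i (mem_range.1 hi) r hr]
  constructor
  · intro l hl
    rw [← h.r1 l hl, hA 0 ha l hl]
    congr 1
    refine Finset.sum_congr rfl fun i hi => Finset.sum_congr rfl fun r hr => ?_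
    rw [hβ r (mem_range.1 hr), hA i (mem_range.1 hi) l hl]
  · intro r hr
    rw [← h.r2 r hr, hβ r hr]
    congr 1
    refine Finset.sum_congr rfl fun i hi => Finset.sum_congr rfl fun l hl => ?_
    rw [hA 0 ha l (mem_range.1 hl), hB i (mem_range.1 hi) r hr]

lemma qf_congr {a b : ℕ} {A B A' B' : ℕ → ℕ → k} (w : ℕ → k)
    (hA : ∀ i < a, ∀ l < a, A i l = A' i l) (hB : ∀ i < b, ∀ l < b, B i l = B' i l) :
    qf a b A B w = qf a b A' B' w := by
  unfold qf
  refine Finset.sum_congr rfl fun i hi => Finset.sum_congr rfl fun r hr =>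
    Finset.sum_congr rfl fun i' hi' => Finset.sum_congr rfl fun l hl => ?_
  rw [hA i (mem_range.1 hi) l (mem_range.1 hl), hB i' (mem_range.1 hi') r (mem_range.1 hr)]

lemma sub0 (t : ℕ) : Sub (t + 1) t t ((range (t + 1)).erase 0) (List.range t) := by
  refine ⟨?_, List.length_range, List.nodup_range, ?_, ?_⟩
  · rw [card_erase_of_mem (mem_range.2 (by omega)), card_range]; omega
  · intro j hj
    exact mem_range.1 (mem_of_mem_erase hj)
  · intro c hc
    exact List.mem_range.1 hc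

end

theorem we (k : Type*) [Field k] (hJD : StmJD k) (hW1 : StmW1 k) (h1 : StmWE1 k)
    (h2 : StmWE2 k) (h3 : StmWE3 k) : StmWE k := by
  intro two m N h hm hprime
  have hN : N = 4 * m := by omega
  subst hN
  obtain ⟨e1, e2, e3, e4⟩ := h1 m hm
  obtain ⟨f1, f2, f3, f4⟩ := hW1 (2 * m) m m (uE k m) (by omega) (by omega) (by omega) e1 e2
  -- the relations
  have hrel : ∀ y : ℕ → k, (∀ J L, Sub (2 * m + 1) (2 * m) (2 * m) J L →
      pd (eq1 (uE k m)) y J L = 0) → Rel1 (uE k m) m m (AE k m) (BE k m) (fun s => y (2 * s))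
        (dH (uE k m) y m) (dK (uE k m) y m) := fun y hy => rel_congr (by omega) e3 e4 (f2 y hy)
  obtain ⟨S, hS⟩ : ∃ S : Finset ℕ, S = insert 0 (insert 2
    ((Finset.Icc 1 (2 * m - 2)).image (fun s => 2 * s + 1))) := ⟨_, rfl⟩
  have hS0 : 0 ∈ S := by rw [hS]; simp
  have hS2 : 2 ∈ S := by rw [hS]; simp
  have hSo : ∀ s, 1 ≤ s → s ≤ 2 * m - 2 → 2 * s + 1 ∈ S := by
    intro s h5 h6
    rw [hS]
    refine mem_insert_of_mem (mem_insert_of_mem (mem_image.2 ⟨s, mem_Icc.2 ⟨h5, h6⟩, rfl⟩))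
  have hcard : S.card ≤ 2 * m := by
    rw [hS]
    have g1 := card_insert_le 0 (insert 2 ((Finset.Icc 1 (2 * m - 2)).image (fun s => 2 * s + 1)))
    have g2 := card_insert_le 2 ((Finset.Icc 1 (2 * m - 2)).image (fun s => 2 * s + 1))
    have g3 := card_image_le (s := Finset.Icc 1 (2 * m - 2)) (f := fun s => 2 * s + 1)
    rw [Nat.card_Icc] at g3
    omega
  have hzero : ∀ y : ℕ → k, (∀ s ∈ S, y s = 0) →
      (∀ J L, Sub (2 * m + 1) (2 * m) (2 * m) J L → pd (eq1 (uE k m)) y J L = 0) →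
      ∀ v < 4 * m, y v = 0 := by
    intro y hy0 hy v hv
    obtain ⟨w1, w2, w3, w4, w5, w6, w7⟩ := h2 two m hm _ _ _ (hrel y hy)
    have hη : dH (uE k m) y m = 0 := by
      have : (2 : k) * dH (uE k m) y m = 0 := by
        rw [← w1]; exact hy0 2 hS2
      exact (mul_eq_zero.1 this).resolve_left two
    rw [hη] at w1 w2 w3 w4 w5 w7
    rw [mul_zero] at w7
    rcases Nat.even_or_odd' v with ⟨s, hs | hs⟩
    · -- even
      subst hs
      rcases Nat.eq_zero_or_pos s with hs0 | hs0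
      · rw [hs0]; exact hy0 _ hS0
      · by_cases c1 : s = 1
        · rw [c1]; exact hy0 2 hS2
        · by_cases c2 : s = m - 1
          · rw [c2]; simpa using w2
          · by_cases c3 : s = m
            · rw [c3]; exact w3
            · by_cases c4 : s = 2 * m - 2
              · rw [c4]; simpa using w4
              · by_cases c5 : s = 2 * m - 1
                · rw [c5]; simpa using w5
                · exact w6 s hs0 (by omega) c1 c2 c3 c4 c5
    · subst hs
      by_cases c1 : s = 0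
      · subst c1
        rw [dH_eq, sum2 m _ 0 0 (by omega) (by omega)] at hη
        · rw [e3 0 (by omega) 0 (by omega)] at hη
          unfold AE at hη
          rw [if_neg (by omega)] at hη
          simpa using hη
        · intro c hc j hj hne
          rw [hy0 _ (hSo (j + c) (by omega) (by omega)), zero_mul]
      · by_cases c2 : s = 2 * m - 1
        · subst c2
          rw [dK_eq, sum2 m _ (m - 1) (m - 1) (by omega) (by omega)] at w7
          · rw [e4 (m - 1) (by omega) (m - 1) (by omega)] at w7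
            unfold BE at w7
            rw [if_pos ⟨by omega, by omega⟩, mul_one] at w7
            rw [← w7]
            congr 1
            omega
          · intro c hc j hj hne
            have e5 : 2 * (j + c) + 3 = 2 * (j + c + 1) + 1 := by ring
            rw [e5, hy0 _ (hSo (j + c + 1) (by omega) (by omega)), zero_mul]
        · exact hy0 _ (hSo s (by omega) (by omega))
  obtain ⟨y, y1, _, y3, y4⟩ := hJD two (4 * m) (2 * m + 1) (2 * m) (2 * m) h (by omega) (by omega)
    (by omega) (eq1 (uE k m)) f1 S hcard hzero hprime 2 hS2 (by omega)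
  obtain ⟨w1, w2, w3, w4, w5, w6, w7⟩ := h2 two m hm _ _ _ (hrel y y3)
  have hp := y4 _ _ _ _ 1 0 (sub0 (2 * m)) (sub0 (2 * m)) (fun y' => by
    rw [f3 y']; ring)
  have hq : qf m m (cfA (uE k m) m) (cfB (uE k m) m) (fun s => y (2 * s)) =
      14 * (dH (uE k m) y m) ^ 2 := by
    rw [qf_congr _ e3 e4]
    exact h3 m hm _ _ w1 w2 w3 w4 w5 w6
  rw [one_mul, zero_mul, add_zero, f4 y, hq, w7] at hp
  have hw1 : (2 : k) * dH (uE k m) y m = 1 := by
    rw [← w1]; exact y1
  have h4 : (4 : k) = 0 := by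
    have : (4 : k) = dH (uE k m) y m * (2 * dH (uE k m) y m) + 14 * dH (uE k m) y m ^ 2 := by
      have e : dH (uE k m) y m * (2 * dH (uE k m) y m) + 14 * dH (uE k m) y m ^ 2 =
        4 * (2 * dH (uE k m) y m) ^ 2 := by ring
      rw [e, hw1]; ring
    rw [this, hp]
  have h5 : (4 : k) = 2 * 2 := by norm_num
  rw [h5] at h4
  exact two (mul_self_eq_zero.1 h4)

theorem wo (k : Type*) [Field k] (hJD : StmJD k) (hW1 : StmW1 k) (h1 : StmWO1 k)
    (h2 : StmWO2 k) : StmWO k := by
  intro two g hg hg1 hg2 m N h hm hprime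
  have hN : N = 4 * m + 2 := by omega
  subst hN
  obtain ⟨e1, e2, e3, e4⟩ := h1 g hg m hm
  obtain ⟨f1, f2, f3, f4⟩ := hW1 (2 * m + 1) (m + 1) m (uO g m) (by omega) (by omega) (by omega)
    e1 e2
  have hrel : ∀ y : ℕ → k, (∀ J L, Sub (2 * m + 1 + 1) (2 * m + 1) (2 * m + 1) J L →
      pd (eq1 (uO g m)) y J L = 0) → Rel1 (uO g m) (m + 1) m (AO g m) (BO g m)
        (fun s => y (2 * s)) (dH (uO g m) y (m + 1)) (dK (uO g m) y m) :=
    fun y hy => rel_congr (by omega) e3 e4 (f2 y hy)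
  obtain ⟨S, hS⟩ : ∃ S : Finset ℕ, S = insert 0 (insert 4
    (((Finset.Icc 1 (2 * m)).erase (2 * m - 1)).image (fun s => 2 * s + 1))) := ⟨_, rfl⟩
  have hS0 : 0 ∈ S := by rw [hS]; simp
  have hS4 : 4 ∈ S := by rw [hS]; simp
  have hSo : ∀ s, 1 ≤ s → s ≤ 2 * m → s ≠ 2 * m - 1 → 2 * s + 1 ∈ S := by
    intro s h5 h6 h7
    rw [hS]
    refine mem_insert_of_mem (mem_insert_of_mem (mem_image.2
      ⟨s, mem_erase.2 ⟨h7, mem_Icc.2 ⟨h5, h6⟩⟩, rfl⟩))
  have hcard : S.card ≤ 2 * m + 1 := by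
    rw [hS]
    have g1 := card_insert_le 0 (insert 4
      (((Finset.Icc 1 (2 * m)).erase (2 * m - 1)).image (fun s => 2 * s + 1)))
    have g2 := card_insert_le 4
      (((Finset.Icc 1 (2 * m)).erase (2 * m - 1)).image (fun s => 2 * s + 1))
    have g3 := card_image_le (s := (Finset.Icc 1 (2 * m)).erase (2 * m - 1))
      (f := fun s => 2 * s + 1)
    rw [card_erase_of_mem (mem_Icc.2 ⟨by omega, by omega⟩), Nat.card_Icc] at g3
    omega
  have hzero : ∀ y : ℕ → k, (∀ s ∈ S, y s = 0) →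
      (∀ J L, Sub (2 * m + 1 + 1) (2 * m + 1) (2 * m + 1) J L →
        pd (eq1 (uO g m)) y J L = 0) → ∀ v < 4 * m + 2, y v = 0 := by
    intro y hy0 hy v hv
    obtain ⟨w1, w2, w3, w4, _⟩ := h2 two g hg hg1 hg2 m hm _ _ _ (hrel y hy)
    have hw2 : y (2 * 2) = 0 := hy0 4 hS4
    have hη : dH (uO g m) y (m + 1) = 0 := by
      have : g ^ 2 * dH (uO g m) y (m + 1) = 0 := by
        rw [← w2]
        show (2 + g) * y (2 * 2) = 0
        rw [hw2, mul_zero]
      exact (mul_eq_zero.1 this).resolve_left (pow_ne_zero 2 hg)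
    have hw1 : y (2 * 1) = 0 := by
      have : y (2 * 1) = 2 * g * y (2 * 2) := w1
      rw [this, hw2, mul_zero]
    have hodd1 : y (4 * m - 1) = 0 := by
      rw [dK_eq, sum2 m _ (m - 1) (m - 1) (by omega) (by omega)] at w4
      · rw [e4 (m - 1) (by omega) (m - 1) (by omega)] at w4
        unfold BO at w4
        rw [if_neg (by omega), if_neg (by omega), if_neg (by omega)] at w4
        have e6 : 2 * (m - 1 + (m - 1)) + 3 = 4 * m - 1 := by omega
        rw [e6] at w4
        exact (mul_eq_zero.1 w4).resolve_right hg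
      · intro c hc j hj hne
        have e5 : 2 * (j + c) + 3 = 2 * (j + c + 1) + 1 := by ring
        rw [e5, hy0 _ (hSo (j + c + 1) (by omega) (by omega) (by omega)), zero_mul]
    rcases Nat.even_or_odd' v with ⟨s, hs | hs⟩
    · subst hs
      rcases Nat.eq_zero_or_pos s with hs0 | hs0
      · rw [hs0]; exact hy0 _ hS0
      · by_cases c1 : s = 1
        · rw [c1]; exact hw1
        · by_cases c2 : s = 2
          · rw [c2]; exact hw2
          · exact w3 s (by omega) (by omega)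
    · subst hs
      by_cases c1 : s = 0
      · subst c1
        rw [dH_eq, sum2 (m + 1) _ 0 0 (by omega) (by omega)] at hη
        · rw [e3 0 (by omega) 0 (by omega)] at hη
          unfold AO at hη
          rw [if_neg (by omega), if_neg (by omega), if_pos ⟨rfl, rfl⟩] at hη
          refine (mul_eq_zero.1 hη).resolve_right ?_
          exact div_ne_zero (neg_ne_zero.2 hg2) hg
        · intro c hc j hj hne
          by_cases c3 : j + c = 2 * m - 1
          · have e6 : 2 * (j + c) + 1 = 4 * m - 1 := by omega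
            rw [e6, hodd1, zero_mul]
          · rw [hy0 _ (hSo (j + c) (by omega) (by omega) c3), zero_mul]
      · by_cases c2 : s = 2 * m - 1
        · subst c2
          have e6 : 2 * (2 * m - 1) + 1 = 4 * m - 1 := by omega
          rw [e6]; exact hodd1
        · exact hy0 _ (hSo s (by omega) (by omega) c2)
  obtain ⟨y, y1, _, y3, y4⟩ := hJD two (4 * m + 2) (2 * m + 2) (2 * m + 1) (2 * m + 1) h
    (by omega) (by omega) (by omega) (eq1 (uO g m)) f1 S hcard hzero hprime 4 hS4 (by omega)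
  obtain ⟨_, _, _, w4, w5⟩ := h2 two g hg hg1 hg2 m hm _ _ _ (hrel y y3)
  have hp := y4 _ _ _ _ 1 0 (sub0 (2 * m + 1)) (sub0 (2 * m + 1)) (fun y' => by
    rw [f3 y']; ring)
  rw [one_mul, zero_mul, add_zero, f4 y, w4, mul_zero, zero_add, qf_congr _ e3 e4] at hp
  rw [hp, mul_zero] at w5
  have hy2 : y (2 * 2) = 1 := y1
  have w6 : (0 : k) = - (2 * (1 + g) ^ 2) * y (2 * 2) ^ 2 := w5
  rw [hy2, one_pow, mul_one] at w6
  have w7 : 2 * (1 + g) ^ 2 = (0 : k) := neg_eq_zero.1 w6.symm
  exact (mul_ne_zero two (pow_ne_zero 2 hg1)) w7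

theorem wok (k : Type*) [Field k] (hBX : StmBX k) (h : StmWO (RatFunc k)) : StmWOk k := by
  intro two m N hN hm hprime
  have h2 : (2 : RatFunc k) ≠ 0 := by
    have e : (2 : RatFunc k) = algebraMap k (RatFunc k) 2 := by
      rw [map_ofNat]
    rw [e]
    intro h0
    exact two ((map_eq_zero (algebraMap k (RatFunc k))).1 h0)
  have hX : ∀ c : k, algebraMap k (RatFunc k) c + RatFunc.X ≠ 0 := by
    intro c h0
    have e : algebraMap k (RatFunc k) c + RatFunc.X =
        algebraMap (Polynomial k) (RatFunc k) (Polynomial.C c + Polynomial.X) := by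
      rw [map_add, RatFunc.algebraMap_X, RatFunc.algebraMap_C]
      rfl
    rw [e] at h0
    have h1 : Polynomial.C c + Polynomial.X = (0 : Polynomial k) :=
      (map_eq_zero_iff _ (IsFractionRing.injective (Polynomial k) (RatFunc k))).1 h0
    have h3 := congrArg (fun p => Polynomial.coeff p 1) h1
    simp at h3
  refine h h2 RatFunc.X RatFunc.X_ne_zero ?_ ?_ m N hN hm (hBX N _ _ _ hN hprime)
  · have := hX 1
    rwa [map_one] at this
  · have := hX 2
    rwa [map_ofNat] at this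

/-- the sequence for `t = 4` -/
def Y4 (k : Type*) [Field k] (s : ℕ) : k :=
  if s = 0 then -1 else if s = 1 then 1 else if s = 2 then 1 else if s = 3 then -1 else 0

theorem w4 (k : Type*) [Field k] (hJD : StmJD k) (hW1 : StmW1 k) : StmW4 k := by
  intro two three N h hprime
  have hN : N = 8 := by omega
  subst hN
  have r2 : ∀ f : ℕ → k, ∑ i ∈ range 2, f i = f 0 + f 1 := fun f => by
    rw [Finset.sum_range_succ, Finset.sum_range_one]
  have l2 : List.range 2 = [0, 1] := rfl
  have pm1 : ∀ (x : ℕ → k) (j c : ℕ), pm x {j} [c] = x (j + c) := by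
    intro x j c
    rw [pm_cons, Finset.sum_singleton, pm_nil, mul_one]
  have er0 : (range 2).erase 0 = {1} := by decide
  have er1 : (range 2).erase 1 = {0} := by decide
  have le0 : ([0, 1] : List ℕ).erase 0 = [1] := by decide
  have le1 : ([0, 1] : List ℕ).erase 1 = [0] := by decide
  have e1 : pm (Y4 k) (range 2) (List.range 2) = 0 := by
    rw [l2, pm_cons, r2, er0, er1, pm1, pm1]
    unfold Y4
    norm_num
  have e2 : pm (fun s => Y4 k (s + 1)) (range 2) (List.range 2) = 0 := by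
    rw [l2, pm_cons, r2, er0, er1, pm1, pm1]
    unfold Y4
    norm_num
  have a00 : cfA (Y4 k) 2 0 0 = 1 := by
    unfold cfA; rw [l2, er0, le0, pm1]; unfold Y4; norm_num
  have a01 : cfA (Y4 k) 2 0 1 = 1 := by
    unfold cfA; rw [l2, er1, le0, pm1]; unfold Y4; norm_num
  have a10 : cfA (Y4 k) 2 1 0 = 1 := by
    unfold cfA; rw [l2, er0, le1, pm1]; unfold Y4; norm_num
  have a11 : cfA (Y4 k) 2 1 1 = -1 := by
    unfold cfA; rw [l2, er1, le1, pm1]; unfold Y4; norm_num
  have b00 : cfB (Y4 k) 2 0 0 = -1 := by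
    unfold cfB; rw [l2, er0, le0, pm1]; unfold Y4; norm_num
  have b01 : cfB (Y4 k) 2 0 1 = 1 := by
    unfold cfB; rw [l2, er1, le0, pm1]; unfold Y4; norm_num
  have b10 : cfB (Y4 k) 2 1 0 = 1 := by
    unfold cfB; rw [l2, er0, le1, pm1]; unfold Y4; norm_num
  have b11 : cfB (Y4 k) 2 1 1 = 1 := by
    unfold cfB; rw [l2, er1, le1, pm1]; unfold Y4; norm_num
  have y0 : Y4 k 0 = -1 := by unfold Y4; norm_num
  have y1' : Y4 k 1 = 1 := by unfold Y4; norm_num
  obtain ⟨f1, f2, f3, f4⟩ := hW1 4 2 2 (Y4 k) (by omega) (by omega) (by omega) e1 e2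
  -- the relations
  have hrel : ∀ y : ℕ → k, (∀ J L, Sub (4 + 1) 4 4 J L → pd (eq1 (Y4 k)) y J L = 0) →
      y 2 = dH (Y4 k) y 2 ∧ y 4 = 0 ∧ y 6 = - dH (Y4 k) y 2 ∧
        dK (Y4 k) y 2 = - 2 * dH (Y4 k) y 2 := by
    intro y hy
    have hR := f2 y hy
    have q0 := hR.r1 0 (by omega)
    have q1 := hR.r1 1 (by omega)
    have q2 := hR.r2 0 (by omega)
    have q3 := hR.r2 1 (by omega)
    simp only [r2, a00, a01, a10, a11, b00, b01, b10, b11, y0, y1'] at q0 q1 q2 q3
    norm_num at q0 q1 q2 q3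
    have c4 : y 4 = 0 := by
      have e : (2 * 2 : k) * y 4 = 0 := by linear_combination q0 - q1
      exact (mul_eq_zero.1 e).resolve_left (mul_ne_zero two two)
    have c6 : y 6 = - y 2 := by linear_combination q3 - 2 * c4
    have c2 : y 2 = dH (Y4 k) y 2 := by
      have e : (2 : k) * (y 2 - dH (Y4 k) y 2) = 0 := by linear_combination - q2 + c6
      exact sub_eq_zero.1 ((mul_eq_zero.1 e).resolve_left two)
    refine ⟨c2, c4, by rw [c6, ← c2], ?_⟩
    rw [← c2]
    linear_combination q0 - 2 * c4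
  obtain ⟨S, hS⟩ : ∃ S : Finset ℕ, S = {0, 2, 3, 5} := ⟨_, rfl⟩
  have hcard : S.card ≤ 4 := by rw [hS]; decide
  have hzero : ∀ y : ℕ → k, (∀ s ∈ S, y s = 0) →
      (∀ J L, Sub (4 + 1) 4 4 J L → pd (eq1 (Y4 k)) y J L = 0) → ∀ v < 8, y v = 0 := by
    intro y hy0 hy v hv
    obtain ⟨c2, c4, c6, cK⟩ := hrel y hy
    have z0 : y 0 = 0 := hy0 0 (by rw [hS]; decide)
    have z2 : y 2 = 0 := hy0 2 (by rw [hS]; decide)
    have z3 : y 3 = 0 := hy0 3 (by rw [hS]; decide)
    have z5 : y 5 = 0 := hy0 5 (by rw [hS]; decide)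
    have hη : dH (Y4 k) y 2 = 0 := by rw [← c2, z2]
    rw [hη, neg_zero] at c6
    rw [hη, mul_zero] at cK
    rw [dH_eq] at hη
    rw [dK_eq] at cK
    simp only [r2, a00, a01, a10, a11, b00, b01, b10, b11] at hη cK
    norm_num at hη cK
    rw [z3, z5] at hη cK
    have z1 : y 1 = 0 := by simpa using hη
    have z7 : y 7 = 0 := by simpa using cK
    interval_cases v
    · exact z0
    · exact z1
    · exact z2
    · exact z3
    · exact c4
    · exact z5
    · exact c6
    · exact z7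
  obtain ⟨y, y1, _, y3, y4⟩ := hJD two 8 5 4 4 h (by omega) (by omega) (by omega)
    (eq1 (Y4 k)) f1 S hcard hzero hprime 2 (by rw [hS]; decide) (by omega)
  obtain ⟨c2, c4, c6, cK⟩ := hrel y y3
  have hp := y4 _ _ _ _ 1 0 (sub0 4) (sub0 4) (fun y' => by rw [f3 y']; ring)
  rw [one_mul, zero_mul, add_zero, f4 y, cK, ← c2, y1] at hp
  unfold qf at hp
  simp only [r2, a00, a01, a10, a11, b00, b01, b10, b11] at hp
  norm_num at hp
  rw [c4, c6, ← c2, y1] at hp
  have h6 : (2 : k) * 3 = 0 := by linear_combination - hp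
  exact mul_ne_zero two three h6

end Pool.Agent.N633.HB.WF
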