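import Pool.Agent.N633.HB.Stm
import Pool.Agent.N729.HP.SL
import Pool.Agent.N729.HP.BA

/-!
Project HB (helper633), job WO1 (helper592): the cofactors for the odd family. The permanents are
expanded along the exceptional rows; the interior rows form a strip.
-/

set_option autoImplicit false
set_option linter.unusedSimpArgs false

namespace Pool.Agent.N633.HB.WO1

open Finset
open Pool.Agent.N186.HK (pm pm_nil pm_cons)
open Pool.Agent.N729.HP (StmBA StmBB StmSL)

/-- the columns `< n` which are not in the list `s` -/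
def Rm (n : ℕ) (s : List ℕ) : Finset ℕ := (range n).filter (fun j => j ∉ s)

theorem Rm_nil (n : ℕ) : Rm n [] = range n := by simp [Rm]

theorem Rm_erase (n : ℕ) (s : List ℕ) (j : ℕ) : (Rm n s).erase j = Rm n (j :: s) := by
  ext a
  simp only [Rm, mem_erase, mem_filter, List.mem_cons, not_or]
  tauto

theorem mem_Rm {n : ℕ} {s : List ℕ} {j : ℕ} : j ∈ Rm n s ↔ j < n ∧ j ∉ s := by simp [Rm]

open Classical in
/-- the permanent with the columns of the list `s` removed -/
noncomputable def Pp {D : Type*} [CommRing D] (x : ℕ → D) (n : ℕ) (s L : List ℕ) : D :=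
  if s.Nodup ∧ ∀ z ∈ s, z < n then pm x (Rm n s) L else 0

theorem Pp_nil {D : Type*} [CommRing D] (x : ℕ → D) (n : ℕ) (L : List ℕ) :
    Pp x n [] L = pm x (range n) L := by
  rw [Pp, if_pos (by simp), Rm_nil]

theorem Pp_one {D : Type*} [CommRing D] (x : ℕ → D) (n l : ℕ) (hl : l < n) (L : List ℕ) :
    Pp x n [l] L = pm x ((range n).erase l) L := by
  rw [Pp, if_pos (by simpa using hl), ← Rm_nil, Rm_erase]

/-- expansion along a row with one, two or three nonzero entries -/
theorem row3 {D : Type*} [CommRing D] (x : ℕ → D) (n : ℕ) (s : List ℕ) (r : ℕ) (L : List ℕ)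
    (a b c : ℕ) (u v w : D) (ha : a < n) (hb : b < n) (hc : c < n)
    (hx : ∀ j < n, x (j + r) =
      (if j = a then u else 0) + (if j = b then v else 0) + (if j = c then w else 0)) :
    Pp x n s (r :: L) = u * Pp x n (a :: s) L + v * Pp x n (b :: s) L + w * Pp x n (c :: s) L := by
  classical
  by_cases hs : s.Nodup ∧ ∀ z ∈ s, z < n
  · have key : ∀ (a : ℕ) (u : D), a < n →
        ∑ j ∈ Rm n s, (if j = a then u else 0) * pm x (Rm n (j :: s)) L = u * Pp x n (a :: s) L := by
      intro a u ha
      have h1 : ∀ j ∈ Rm n s, (if j = a then u else 0) * pm x (Rm n (j :: s)) L =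
          if j = a then u * pm x (Rm n (a :: s)) L else 0 := by
        intro j _
        split_ifs with h
        · rw [h]
        · rw [zero_mul]
      rw [Finset.sum_congr rfl h1, Finset.sum_ite_eq', Pp]
      by_cases has : a ∈ s
      · rw [if_neg (by rw [mem_Rm]; tauto), if_neg (by simp [has]), mul_zero]
      · rw [if_pos (by rw [mem_Rm]; exact ⟨ha, has⟩), if_pos]
        refine ⟨List.nodup_cons.2 ⟨has, hs.1⟩, ?_⟩
        intro z hz
        rcases List.mem_cons.1 hz with rfl | hz
        · exact ha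
        · exact hs.2 z hz
    rw [Pp, if_pos hs, pm_cons, ← key a u ha, ← key b v hb, ← key c w hc, ← Finset.sum_add_distrib,
      ← Finset.sum_add_distrib]
    refine Finset.sum_congr rfl fun j hj => ?_
    rw [hx j (mem_Rm.1 hj).1, Rm_erase]
    ring
  · have h0 : ∀ a, Pp x n (a :: s) L = 0 := by
      intro a
      rw [Pp, if_neg]
      rintro ⟨h1, h2⟩
      exact hs ⟨(List.nodup_cons.1 h1).2, fun z hz => h2 z (List.mem_cons_of_mem _ hz)⟩
    rw [Pp, if_neg hs, h0, h0, h0]
    ring

theorem row2 {D : Type*} [CommRing D] (x : ℕ → D) (n : ℕ) (s : List ℕ) (r : ℕ) (L : List ℕ)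
    (a b : ℕ) (u v : D) (ha : a < n) (hb : b < n)
    (hx : ∀ j < n, x (j + r) = (if j = a then u else 0) + (if j = b then v else 0)) :
    Pp x n s (r :: L) = u * Pp x n (a :: s) L + v * Pp x n (b :: s) L := by
  rw [row3 x n s r L a b b u v 0 ha hb hb (fun j hj => by rw [hx j hj]; simp)]
  ring

/-- splitting of three members of a list -/
theorem split3 {s : List ℕ} {a b c : ℕ} (ha : a ∈ s) (hb : b ∈ s) (hc : c ∈ s) (hab : a ≠ b)
    (hac : a ≠ c) (hbc : b ≠ c) : ∃ t, s.Perm (a :: b :: c :: t) := by
  refine ⟨((s.erase a).erase b).erase c, ?_⟩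
  have h1 := List.perm_cons_erase ha
  have hb' : b ∈ s.erase a := (List.mem_erase_of_ne hab.symm).2 hb
  have h2 := List.perm_cons_erase hb'
  have hc' : c ∈ (s.erase a).erase b :=
    (List.mem_erase_of_ne hbc.symm).2 ((List.mem_erase_of_ne hac.symm).2 hc)
  have h3 := List.perm_cons_erase hc'
  exact h1.trans ((h2.trans (h3.cons b)).cons a)

theorem Rm_congr {n : ℕ} {s t : List ℕ} (h : s.Perm t) : Rm n s = Rm n t := by
  ext a
  rw [mem_Rm, mem_Rm, h.mem_iff]

theorem card_Rm {n : ℕ} {s : List ℕ} (hs : s.Nodup) (hn : ∀ z ∈ s, z < n) :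
    (Rm n s).card = n - s.length := by
  have h1 : Rm n s = range n \ s.toFinset := by
    ext a
    simp [Rm, mem_sdiff]
  rw [h1, card_sdiff_of_subset, card_range, List.toFinset_card_of_nodup hs]
  intro z hz
  rw [List.mem_toFinset] at hz
  exact mem_range.2 (hn z hz)

/-- the sequence on the interior of the first matrix -/
theorem uO_zero {k : Type*} [Field k] (g : k) (m s : ℕ) (h0 : s ≠ 0) (h1 : s ≠ 1) (h2 : s ≠ m)
    (h3 : s ≠ m + 1) (h4 : s + 1 ≠ 2 * m) : uO g m s = 0 := by
  simp [uO, h0, h1, h2, h3, h4]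

section H

variable {k : Type*} [Field k] (g : k) (m : ℕ) (hm : 3 ≤ m)

include hm in
theorem strip_H (j c : ℕ) (h1 : 2 ≤ j) (h2 : j < m) (h3 : 2 ≤ c) (h4 : c < m - 1) :
    uO g m (j + c) = if j + c + 1 = m + 1 ∨ j + c = m + 1 then 1 else 0 := by
  unfold uO
  rw [if_neg (by omega), if_neg (by omega)]
  by_cases h5 : j + c = m
  · rw [if_pos h5, if_pos (Or.inl (by omega))]
  · rw [if_neg h5]
    by_cases h6 : j + c = m + 1
    · rw [if_pos h6, if_pos (Or.inr h6)]
    · rw [if_neg h6, if_neg (by omega), if_neg (by omega)]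

include hm in
/-- the interior rows -/
theorem leafA (s : List ℕ) (hl : s.length = 4) :
    Pp (uO g m) (m + 1) s (List.range' 2 (m - 3)) =
      if s.Nodup ∧ (∀ z ∈ s, z < m + 1) ∧ 0 ∈ s ∧ 1 ∈ s ∧ m ∈ s then 1 else 0 := by
  classical
  have hSL := Pool.Agent.N729.HP.SL.t k (Pool.Agent.N729.HP.BA.ta k) (Pool.Agent.N729.HP.BA.tb k)
  by_cases hs : s.Nodup ∧ ∀ z ∈ s, z < m + 1
  · rw [Pp, if_pos hs]
    obtain ⟨hnd, hle⟩ := hs
    by_cases h : 0 ∈ s ∧ 1 ∈ s ∧ m ∈ s
    · rw [if_pos ⟨hnd, hle, h⟩]
      obtain ⟨t, ht⟩ := split3 h.1 h.2.1 h.2.2 (by omega) (by omega) (by omega)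
      have hlt : t.length = 1 := by
        have := ht.length_eq
        simp only [List.length_cons] at this
        omega
      obtain ⟨z, rfl⟩ := List.length_eq_one_iff.1 hlt
      have hnd' := ht.nodup_iff.1 hnd
      have hz : z < m + 1 := hle z (ht.mem_iff.2 (by simp))
      simp only [List.nodup_cons, List.mem_cons, List.not_mem_nil, or_false, not_or] at hnd'
      have h2 := hSL.2.1 (uO g m) (m + 1) 2 (m - 1) (by omega) (by omega) (by
        intro j hj1 hj2 c hc1 hc2
        exact strip_H g m hm j c (by omega) (by omega) hc1 hc2) z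
        (by rw [mem_Icc]; omega)
      have h3 : Rm (m + 1) s = (Icc (m + 1 - (m - 1)) (m + 1 - 2)).erase z := by
        ext a
        rw [mem_Rm, ht.mem_iff, mem_erase, mem_Icc]
        simp only [List.mem_cons, List.not_mem_nil, or_false, not_or]
        omega
      rw [h3]
      have h4 : m - 1 - 2 = m - 3 := by omega
      rw [h4] at h2
      exact h2
    · rw [if_neg (by tauto)]
      have hcard : (Rm (m + 1) s).card ≤ (List.range' 2 (m - 3)).length := by
        rw [card_Rm hnd hle, hl, List.length_range']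
        omega
      have hz : ∃ j ∈ Rm (m + 1) s, j = 0 ∨ j = 1 ∨ j = m := by
        simp only [mem_Rm]
        by_cases h0 : 0 ∈ s
        · by_cases h1 : 1 ∈ s
          · exact ⟨m, ⟨by omega, by tauto⟩, by tauto⟩
          · exact ⟨1, ⟨by omega, h1⟩, by tauto⟩
        · exact ⟨0, ⟨by omega, h0⟩, by tauto⟩
      obtain ⟨j, hj, hj'⟩ := hz
      refine hSL.1 (uO g m) (Rm (m + 1) s) _ hcard j hj ?_
      intro c hc
      rw [List.mem_range'_1] at hc
      apply uO_zero <;> omega
  · rw [Pp, if_neg hs, if_neg (by tauto)]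

include hm in
/-- the interior rows without one of them -/
theorem leafB (i : ℕ) (hi1 : 2 ≤ i) (hi2 : i < m - 1) (s : List ℕ) (hl : s.length = 5) :
    Pp (uO g m) (m + 1) s (List.range' 2 (i - 2) ++ List.range' (i + 1) (m - 1 - 1 - i)) =
      if s.Nodup ∧ (∀ z ∈ s, z < m + 1) ∧ 0 ∈ s ∧ 1 ∈ s ∧ m ∈ s ∧
        (s.filter (fun z => z + i ≤ m)).length = 3 then 1 else 0 := by
  classical
  have hSL := Pool.Agent.N729.HP.SL.t k (Pool.Agent.N729.HP.BA.ta k) (Pool.Agent.N729.HP.BA.tb k)
  by_cases hs : s.Nodup ∧ ∀ z ∈ s, z < m + 1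
  · rw [Pp, if_pos hs]
    obtain ⟨hnd, hle⟩ := hs
    by_cases h : 0 ∈ s ∧ 1 ∈ s ∧ m ∈ s
    · obtain ⟨t, ht⟩ := split3 h.1 h.2.1 h.2.2 (by omega) (by omega) (by omega)
      have hlt : t.length = 2 := by
        have := ht.length_eq
        simp only [List.length_cons] at this
        omega
      obtain ⟨z, z', rfl⟩ := List.length_eq_two.1 hlt
      have hnd' := ht.nodup_iff.1 hnd
      have hz : z < m + 1 := hle z (ht.mem_iff.2 (by simp))
      have hz' : z' < m + 1 := hle z' (ht.mem_iff.2 (by simp))
      simp only [List.nodup_cons, List.mem_cons, List.not_mem_nil, or_false, not_or] at hnd'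
      have h2 := hSL.2.2 (uO g m) (m + 1) 2 (m - 1) i (by omega) (by omega) (by omega) (by
        intro j hj1 hj2 c hc1 hc2 _
        exact strip_H g m hm j c (by omega) (by omega) hc1 hc2) z
        (by rw [mem_Icc]; omega) z' (by rw [mem_Icc]; omega) (by tauto)
      have h3 : Rm (m + 1) s = ((Icc (m + 1 - (m - 1)) (m + 1 - 2)).erase z).erase z' := by
        ext a
        rw [mem_Rm, ht.mem_iff, mem_erase, mem_erase, mem_Icc]
        simp only [List.mem_cons, List.not_mem_nil, or_false, not_or]
        omega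
      rw [h3, h2]
      have h5 : (s.filter (fun z => z + i ≤ m)).length = 3 ↔
          (z + i < m + 1 ∧ m + 1 ≤ z' + i) ∨ (z' + i < m + 1 ∧ m + 1 ≤ z + i) := by
        rw [(ht.filter _).length_eq]
        have e0 : 0 + i ≤ m := by omega
        have e1 : 1 + i ≤ m := by omega
        have em : ¬ (m + i ≤ m) := by omega
        simp only [List.filter_cons, List.filter_nil, decide_eq_true_eq]
        rw [if_pos e0, if_pos e1, if_neg em]
        split_ifs with f1 f2 f2
        · refine ⟨fun h => ?_, fun _ => ?_⟩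
          · simp at h
          · omega
        · refine ⟨fun _ => ?_, fun _ => rfl⟩
          left; omega
        · refine ⟨fun _ => ?_, fun _ => rfl⟩
          right; omega
        · refine ⟨fun h => ?_, fun _ => ?_⟩
          · simp at h
          · omega
      by_cases h6 : (z + i < m + 1 ∧ m + 1 ≤ z' + i) ∨ (z' + i < m + 1 ∧ m + 1 ≤ z + i)
      · rw [if_pos h6, if_pos ⟨hnd, hle, h.1, h.2.1, h.2.2, h5.2 h6⟩]
      · rw [if_neg h6, if_neg (fun h7 => h6 (h5.1 h7.2.2.2.2.2))]
    · rw [if_neg (by tauto)]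
      have hcard : (Rm (m + 1) s).card ≤
          (List.range' 2 (i - 2) ++ List.range' (i + 1) (m - 1 - 1 - i)).length := by
        rw [card_Rm hnd hle, hl, List.length_append, List.length_range', List.length_range']
        omega
      have hz : ∃ j ∈ Rm (m + 1) s, j = 0 ∨ j = 1 ∨ j = m := by
        simp only [mem_Rm]
        by_cases h0 : 0 ∈ s
        · by_cases h1 : 1 ∈ s
          · exact ⟨m, ⟨by omega, by tauto⟩, by tauto⟩
          · exact ⟨1, ⟨by omega, h1⟩, by tauto⟩
        · exact ⟨0, ⟨by omega, h0⟩, by tauto⟩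
      obtain ⟨j, hj, hj'⟩ := hz
      refine hSL.1 (uO g m) (Rm (m + 1) s) _ hcard j hj ?_
      intro c hc
      rw [List.mem_append, List.mem_range'_1, List.mem_range'_1] at hc
      apply uO_zero <;> omega
  · rw [Pp, if_neg hs, if_neg (by tauto)]

include hm in
theorem rowH0 (s L : List ℕ) : Pp (uO g m) (m + 1) s (0 :: L) =
    g ^ 2 * Pp (uO g m) (m + 1) (0 :: s) L + g * Pp (uO g m) (m + 1) (1 :: s) L +
      1 * Pp (uO g m) (m + 1) (m :: s) L := by
  apply row3 _ _ _ _ _ _ _ _ _ _ _ (by omega) (by omega) (by omega)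
  intro j hj
  unfold uO
  split_ifs <;> first | omega | contradiction | simp

include hm in
theorem rowH1 (s L : List ℕ) : Pp (uO g m) (m + 1) s (1 :: L) =
    g * Pp (uO g m) (m + 1) (0 :: s) L + 1 * Pp (uO g m) (m + 1) ((m - 1) :: s) L +
      1 * Pp (uO g m) (m + 1) (m :: s) L := by
  apply row3 _ _ _ _ _ _ _ _ _ _ _ (by omega) (by omega) (by omega)
  intro j hj
  unfold uO
  split_ifs <;> first | omega | contradiction | simp

include hm in
theorem rowHp (s L : List ℕ) : Pp (uO g m) (m + 1) s ((m - 1) :: L) =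
    1 * Pp (uO g m) (m + 1) (1 :: s) L + 1 * Pp (uO g m) (m + 1) (2 :: s) L +
      (- (1 + g) / g) * Pp (uO g m) (m + 1) (m :: s) L := by
  apply row3 _ _ _ _ _ _ _ _ _ _ _ (by omega) (by omega) (by omega)
  intro j hj
  unfold uO
  split_ifs <;> first | omega | contradiction | simp

include hm in
theorem rowHm (s L : List ℕ) : Pp (uO g m) (m + 1) s (m :: L) =
    1 * Pp (uO g m) (m + 1) (0 :: s) L + 1 * Pp (uO g m) (m + 1) (1 :: s) L +
      (- (1 + g) / g) * Pp (uO g m) (m + 1) ((m - 1) :: s) L := by
  apply row3 _ _ _ _ _ _ _ _ _ _ _ (by omega) (by omega) (by omega)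
  intro j hj
  unfold uO
  split_ifs <;> first | omega | contradiction | simp

/-- the order of the rows -/
theorem cfA_eq (i l : ℕ) (hl : l < m + 1) (S T : List ℕ) (hS : (S ++ T).Nodup)
    (h : ∀ a, a ∈ S ++ T ↔ a ≠ i ∧ a < m + 1) :
    cfA (uO g m) (m + 1) i l = Pp (uO g m) (m + 1) [l] (S ++ T) := by
  rw [Pp_one _ _ _ hl, cfA]
  apply (Pool.Agent.N729.HP.BA.ta k).1
  refine (List.perm_ext_iff_of_nodup (List.nodup_range.erase i) hS).2 fun a => ?_
  rw [List.nodup_range.mem_erase_iff, List.mem_range, h]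

theorem nodup_app (S : List ℕ) (a n : ℕ) (hS : S.Nodup) (h : ∀ z ∈ S, ¬ (a ≤ z ∧ z < a + n)) :
    (S ++ List.range' a n).Nodup := by
  rw [List.nodup_append]
  refine ⟨hS, List.nodup_range', ?_⟩
  rintro z hz b hb rfl
  exact h z hz (List.mem_range'_1.1 hb)

include hm in
theorem cA0 (hg : g ≠ 0) (l : ℕ) (hl : l < m + 1) :
    cfA (uO g m) (m + 1) 0 l = AO g m 0 l := by
  have hA := fun a b c d => leafA g m hm [a, b, c, d] rfl
  rw [cfA_eq g m 0 l hl [1, m - 1, m] (List.range' 2 (m - 3))
    (nodup_app _ _ _ (by simp; omega) (by simp; omega)) (by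
      intro a; simp only [List.mem_append, List.mem_cons, List.not_mem_nil, or_false,
        List.mem_range'_1]; omega)]
  simp only [List.cons_append, List.nil_append, rowH0 g m hm, rowH1 g m hm, rowHp g m hm,
    rowHm g m hm, hA]
  unfold AO
  rcases Nat.lt_or_ge m 4 with hm4 | hm4
  · obtain rfl : m = 3 := by omega
    interval_cases l <;> simp [List.nodup_cons] <;> field_simp <;> ring
  have q1 : m ≠ 0 := by omega
  have q2 : m ≠ 1 := by omega
  have q3 : m ≠ 2 := by omega
  have q4 : m - 1 ≠ 0 := by omega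
  have q5 : m - 1 ≠ 1 := by omega
  have q6 : m - 1 ≠ m := by omega
  have q7 : m - 1 ≠ 2 := by omega
  have q8 : 1 ≤ m := by omega
  have q9 : 2 ≤ m := by omega
  rcases Nat.lt_or_ge l 2 with h1 | h1
  · rcases Nat.lt_or_ge l 1 with h2 | h2
    · have h3 : l = 0 := by omega
      subst h3
      simp [List.nodup_cons, q1, q2, q3, q4, q5, q6, q7, q1.symm, q2.symm, q3.symm, q4.symm,
        q5.symm, q6.symm, q7.symm, q8, q9]
      field_simp
      ring
    · have h3 : l = 1 := by omega
      subst h3
      simp [List.nodup_cons, q1, q2, q3, q4, q5, q6, q7, q1.symm, q2.symm, q3.symm, q4.symm,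
        q5.symm, q6.symm, q7.symm, q8, q9]
      field_simp
      ring
  · rcases Nat.lt_or_ge l m with h2 | h2
    · have r1 : l ≠ 0 := by omega
      have r2 : l ≠ 1 := by omega
      have r3 : l ≠ m := by omega
      have r4 : l ≤ m := by omega
      have r5 : ¬ (m - 1 + l ≤ m) := by omega
      have r6 : 1 + l ≤ m := by omega
      have r7 : ¬ (m - 1 + l = 1) := by omega
      simp [List.nodup_cons, q1, q2, q3, q4, q5, q6, q7, q1.symm, q2.symm, q3.symm, q4.symm,
        q5.symm, q6.symm, q7.symm, q8, q9,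
        r1, r2, r3, r1.symm, r2.symm, r3.symm, r4, r5, r6, r7]
      field_simp
      ring
    · have h3 : l = m := by omega
      subst h3
      simp [List.nodup_cons, q1, q2, q3, q4, q5, q6, q7, q1.symm, q2.symm, q3.symm, q4.symm,
        q5.symm, q6.symm, q7.symm, q8, q9]
      field_simp
      ring

include hm in
theorem cA1 (hg : g ≠ 0) (l : ℕ) (hl : l < m + 1) :
    cfA (uO g m) (m + 1) 1 l = AO g m 1 l := by
  have hA := fun a b c d => leafA g m hm [a, b, c, d] rfl
  rw [cfA_eq g m 1 l hl [0, m - 1, m] (List.range' 2 (m - 3))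
    (nodup_app _ _ _ (by simp; omega) (by simp; omega)) (by
      intro a; simp only [List.mem_append, List.mem_cons, List.not_mem_nil, or_false,
        List.mem_range'_1]; omega)]
  simp only [List.cons_append, List.nil_append, rowH0 g m hm, rowH1 g m hm, rowHp g m hm,
    rowHm g m hm, hA]
  unfold AO
  rcases Nat.lt_or_ge m 4 with hm4 | hm4
  · obtain rfl : m = 3 := by omega
    interval_cases l <;> simp [List.nodup_cons] <;> field_simp <;> ring
  have q1 : m ≠ 0 := by omega
  have q2 : m ≠ 1 := by omega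
  have q3 : m ≠ 2 := by omega
  have q4 : m - 1 ≠ 0 := by omega
  have q5 : m - 1 ≠ 1 := by omega
  have q6 : m - 1 ≠ m := by omega
  have q7 : m - 1 ≠ 2 := by omega
  have q8 : 1 ≤ m := by omega
  have q9 : 2 ≤ m := by omega
  rcases Nat.lt_or_ge l 2 with h1 | h1
  · rcases Nat.lt_or_ge l 1 with h2 | h2
    · have h3 : l = 0 := by omega
      subst h3
      simp [List.nodup_cons, q1, q2, q3, q4, q5, q6, q7, q1.symm, q2.symm, q3.symm, q4.symm,
        q5.symm, q6.symm, q7.symm, q8, q9]
      field_simp
      ring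
    · have h3 : l = 1 := by omega
      subst h3
      simp [List.nodup_cons, q1, q2, q3, q4, q5, q6, q7, q1.symm, q2.symm, q3.symm, q4.symm,
        q5.symm, q6.symm, q7.symm, q8, q9]
      field_simp
      ring
  · rcases Nat.lt_or_ge l m with h2 | h2
    · have r1 : l ≠ 0 := by omega
      have r2 : l ≠ 1 := by omega
      have r3 : l ≠ m := by omega
      have r4 : l ≤ m := by omega
      have r5 : ¬ (m - 1 + l ≤ m) := by omega
      have r6 : 1 + l ≤ m := by omega
      have r7 : ¬ (m - 1 + l = 1) := by omega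
      simp [List.nodup_cons, q1, q2, q3, q4, q5, q6, q7, q1.symm, q2.symm, q3.symm, q4.symm,
        q5.symm, q6.symm, q7.symm, q8, q9,
        r1, r2, r3, r1.symm, r2.symm, r3.symm, r4, r5, r6, r7]
      field_simp
      ring
    · have h3 : l = m := by omega
      subst h3
      simp [List.nodup_cons, q1, q2, q3, q4, q5, q6, q7, q1.symm, q2.symm, q3.symm, q4.symm,
        q5.symm, q6.symm, q7.symm, q8, q9]
      field_simp
      ring

include hm in
theorem cAp (hg : g ≠ 0) (l : ℕ) (hl : l < m + 1) :
    cfA (uO g m) (m + 1) (m - 1) l = AO g m (m - 1) l := by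
  have hA := fun a b c d => leafA g m hm [a, b, c, d] rfl
  rw [cfA_eq g m (m - 1) l hl [0, 1, m] (List.range' 2 (m - 3))
    (nodup_app _ _ _ (by simp; omega) (by simp; omega)) (by
      intro a; simp only [List.mem_append, List.mem_cons, List.not_mem_nil, or_false,
        List.mem_range'_1]; omega)]
  simp only [List.cons_append, List.nil_append, rowH0 g m hm, rowH1 g m hm, rowHp g m hm,
    rowHm g m hm, hA]
  unfold AO
  rcases Nat.lt_or_ge m 4 with hm4 | hm4
  · obtain rfl : m = 3 := by omega
    interval_cases l <;> simp [List.nodup_cons] <;> field_simp <;> ring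
  have q1 : m ≠ 0 := by omega
  have q2 : m ≠ 1 := by omega
  have q3 : m ≠ 2 := by omega
  have q4 : m - 1 ≠ 0 := by omega
  have q5 : m - 1 ≠ 1 := by omega
  have q6 : m - 1 ≠ m := by omega
  have q7 : m - 1 ≠ 2 := by omega
  have q8 : 1 ≤ m := by omega
  have q9 : 2 ≤ m := by omega
  rcases Nat.lt_or_ge l 2 with h1 | h1
  · rcases Nat.lt_or_ge l 1 with h2 | h2
    · have h3 : l = 0 := by omega
      subst h3
      simp [List.nodup_cons, q1, q2, q3, q4, q5, q6, q7, q1.symm, q2.symm, q3.symm, q4.symm,
        q5.symm, q6.symm, q7.symm, q8, q9]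
      field_simp
      ring
    · have h3 : l = 1 := by omega
      subst h3
      simp [List.nodup_cons, q1, q2, q3, q4, q5, q6, q7, q1.symm, q2.symm, q3.symm, q4.symm,
        q5.symm, q6.symm, q7.symm, q8, q9]
      field_simp
      ring
  · rcases Nat.lt_or_ge l m with h2 | h2
    · have r1 : l ≠ 0 := by omega
      have r2 : l ≠ 1 := by omega
      have r3 : l ≠ m := by omega
      have r4 : l ≤ m := by omega
      have r5 : ¬ (m - 1 + l ≤ m) := by omega
      have r6 : 1 + l ≤ m := by omega
      have r7 : ¬ (m - 1 + l = 1) := by omega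
      simp [List.nodup_cons, q1, q2, q3, q4, q5, q6, q7, q1.symm, q2.symm, q3.symm, q4.symm,
        q5.symm, q6.symm, q7.symm, q8, q9,
        r1, r2, r3, r1.symm, r2.symm, r3.symm, r4, r5, r6, r7]
      field_simp
      ring
    · have h3 : l = m := by omega
      subst h3
      simp [List.nodup_cons, q1, q2, q3, q4, q5, q6, q7, q1.symm, q2.symm, q3.symm, q4.symm,
        q5.symm, q6.symm, q7.symm, q8, q9]
      field_simp
      ring

include hm in
theorem cAm (hg : g ≠ 0) (l : ℕ) (hl : l < m + 1) :
    cfA (uO g m) (m + 1) m l = AO g m m l := by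
  have hA := fun a b c d => leafA g m hm [a, b, c, d] rfl
  rw [cfA_eq g m m l hl [0, 1, m - 1] (List.range' 2 (m - 3))
    (nodup_app _ _ _ (by simp; omega) (by simp; omega)) (by
      intro a; simp only [List.mem_append, List.mem_cons, List.not_mem_nil, or_false,
        List.mem_range'_1]; omega)]
  simp only [List.cons_append, List.nil_append, rowH0 g m hm, rowH1 g m hm, rowHp g m hm,
    rowHm g m hm, hA]
  unfold AO
  rcases Nat.lt_or_ge m 4 with hm4 | hm4
  · obtain rfl : m = 3 := by omega
    interval_cases l <;> simp [List.nodup_cons] <;> field_simp <;> ring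
  have q1 : m ≠ 0 := by omega
  have q2 : m ≠ 1 := by omega
  have q3 : m ≠ 2 := by omega
  have q4 : m - 1 ≠ 0 := by omega
  have q5 : m - 1 ≠ 1 := by omega
  have q6 : m - 1 ≠ m := by omega
  have q7 : m - 1 ≠ 2 := by omega
  have q8 : 1 ≤ m := by omega
  have q9 : 2 ≤ m := by omega
  rcases Nat.lt_or_ge l 2 with h1 | h1
  · rcases Nat.lt_or_ge l 1 with h2 | h2
    · have h3 : l = 0 := by omega
      subst h3
      simp [List.nodup_cons, q1, q2, q3, q4, q5, q6, q7, q1.symm, q2.symm, q3.symm, q4.symm,
        q5.symm, q6.symm, q7.symm, q8, q9]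
      field_simp
      ring
    · have h3 : l = 1 := by omega
      subst h3
      simp [List.nodup_cons, q1, q2, q3, q4, q5, q6, q7, q1.symm, q2.symm, q3.symm, q4.symm,
        q5.symm, q6.symm, q7.symm, q8, q9]
      field_simp
      ring
  · rcases Nat.lt_or_ge l m with h2 | h2
    · have r1 : l ≠ 0 := by omega
      have r2 : l ≠ 1 := by omega
      have r3 : l ≠ m := by omega
      have r4 : l ≤ m := by omega
      have r5 : ¬ (m - 1 + l ≤ m) := by omega
      have r6 : 1 + l ≤ m := by omega
      have r7 : ¬ (m - 1 + l = 1) := by omega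
      simp [List.nodup_cons, q1, q2, q3, q4, q5, q6, q7, q1.symm, q2.symm, q3.symm, q4.symm,
        q5.symm, q6.symm, q7.symm, q8, q9,
        r1, r2, r3, r1.symm, r2.symm, r3.symm, r4, r5, r6, r7]
      field_simp
      ring
    · have h3 : l = m := by omega
      subst h3
      simp [List.nodup_cons, q1, q2, q3, q4, q5, q6, q7, q1.symm, q2.symm, q3.symm, q4.symm,
        q5.symm, q6.symm, q7.symm, q8, q9]
      field_simp
      ring

set_option maxHeartbeats 2000000 in
include hm in
theorem cAi (hg : g ≠ 0) (i : ℕ) (hi1 : 2 ≤ i) (hi2 : i < m - 1) (l : ℕ) (hl : l < m + 1) :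
    cfA (uO g m) (m + 1) i l = AO g m i l := by
  have hB := fun a b c d e => leafB g m hm i hi1 hi2 [a, b, c, d, e] rfl
  rw [cfA_eq g m i l hl [0, 1, m - 1, m]
    (List.range' 2 (i - 2) ++ List.range' (i + 1) (m - 1 - 1 - i)) (by
      rw [List.nodup_append]
      refine ⟨by simp; omega, nodup_app _ _ _ List.nodup_range' (by
        intro z hz; rw [List.mem_range'_1] at hz; omega), ?_⟩
      intro a ha b hb
      simp only [List.mem_append, List.mem_cons, List.not_mem_nil, or_false,
        List.mem_range'_1] at ha hb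
      omega) (by
      intro a; simp only [List.mem_append, List.mem_cons, List.not_mem_nil, or_false,
        List.mem_range'_1]; omega)]
  simp only [List.cons_append, List.nil_append, rowH0 g m hm, rowH1 g m hm, rowHp g m hm,
    rowHm g m hm, hB]
  unfold AO
  have q1 : m ≠ 0 := by omega
  have q2 : m ≠ 1 := by omega
  have q3 : m ≠ 2 := by omega
  have q4 : m - 1 ≠ 0 := by omega
  have q5 : m - 1 ≠ 1 := by omega
  have q6 : m - 1 ≠ m := by omega
  have q7 : m - 1 ≠ 2 := by omega
  have q8 : 1 ≤ m := by omega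
  have q9 : 2 ≤ m := by omega
  have s1 : i ≤ m := by omega
  have s2 : 1 + i ≤ m := by omega
  have s3 : 2 + i ≤ m := by omega
  have s4 : ¬ (m - 1 + i ≤ m) := by omega
  have s5 : i ≠ 0 := by omega
  have s6 : i ≠ m := by omega
  have s7 : i ≠ 1 := by omega
  rcases Nat.lt_or_ge l 2 with h1 | h1
  · rcases Nat.lt_or_ge l 1 with h2 | h2
    · have h3 : l = 0 := by omega
      subst h3
      simp [List.nodup_cons, List.filter_cons, q1, q2, q3, q4, q5, q6, q7, q1.symm, q2.symm, q3.symm, q4.symm,
        q5.symm, q6.symm, q7.symm, q8, q9,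
        s1, s2, s3, s4, s5, s6, s7]
      field_simp
      ring
    · have h3 : l = 1 := by omega
      subst h3
      have s8 : i + 1 ≤ m := by omega
      simp [List.nodup_cons, List.filter_cons, q1, q2, q3, q4, q5, q6, q7, q1.symm, q2.symm, q3.symm, q4.symm,
        q5.symm, q6.symm, q7.symm, q8, q9,
        s1, s2, s3, s4, s5, s6, s7, s8]
      field_simp
      ring
  · rcases Nat.lt_or_ge l m with h2 | h2
    · have r1 : l ≠ 0 := by omega
      have r2 : l ≠ 1 := by omega
      have r3 : l ≠ m := by omega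
      have r4 : l ≤ m := by omega
      have r5 : ¬ (i + l = 1) := by omega
      by_cases r6 : l + i ≤ m
      · have r7 : i + l ≤ m := by omega
        have r8 : m - 1 ≠ l := by omega
        simp [List.nodup_cons, List.filter_cons, q1, q2, q3, q4, q5, q6, q7, q1.symm, q2.symm, q3.symm, q4.symm,
        q5.symm, q6.symm, q7.symm, q8, q9,
          s1, s2, s3, s4, s5, s6, s7, r1, r2, r3, r1.symm, r2.symm, r3.symm, r4, r5, r6, r7, r8,
          r8.symm]
        field_simp
        ring
      · have r7 : ¬ i + l ≤ m := by omega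
        have r8 : l ≠ 2 := by omega
        simp [List.nodup_cons, List.filter_cons, q1, q2, q3, q4, q5, q6, q7, q1.symm, q2.symm, q3.symm, q4.symm,
        q5.symm, q6.symm, q7.symm, q8, q9,
          s1, s2, s3, s4, s5, s6, s7, r1, r2, r3, r1.symm, r2.symm, r3.symm, r4, r5, r6, r7, r8,
          r8.symm]
        field_simp
        ring
    · have h3 : l = m := by omega
      subst h3
      simp [List.nodup_cons, List.filter_cons, q1, q2, q3, q4, q5, q6, q7, q1.symm, q2.symm, q3.symm, q4.symm,
        q5.symm, q6.symm, q7.symm, q8, q9,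
        s1, s2, s3, s4, s5, s6, s7]
      field_simp
      ring

theorem pm_perm (x : ℕ → k) (n : ℕ) (S : List ℕ) (hS : S.Nodup) (h : ∀ a, a ∈ S ↔ a < n) :
    pm x (range n) (List.range n) = Pp x n [] S := by
  rw [Pp_nil]
  apply (Pool.Agent.N729.HP.BA.ta k).1
  refine (List.perm_ext_iff_of_nodup List.nodup_range hS).2 fun a => ?_
  rw [List.mem_range, h]

include hm in
theorem pmH (hg : g ≠ 0) : pm (uO g m) (range (m + 1)) (List.range (m + 1)) = 0 := by
  have hA := fun a b c d => leafA g m hm [a, b, c, d] rfl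
  rw [pm_perm (uO g m) (m + 1) ([0, 1, m - 1, m] ++ List.range' 2 (m - 3))
    (nodup_app _ _ _ (by simp; omega) (by simp; omega)) (by
      intro a; simp only [List.mem_append, List.mem_cons, List.not_mem_nil, or_false,
        List.mem_range'_1]; omega)]
  simp only [List.cons_append, List.nil_append, rowH0 g m hm, rowH1 g m hm, rowHp g m hm,
    rowHm g m hm, hA]
  rcases Nat.lt_or_ge m 4 with hm4 | hm4
  · obtain rfl : m = 3 := by omega
    simp [List.nodup_cons]
    field_simp
    ring
  have q1 : m ≠ 0 := by omega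
  have q2 : m ≠ 1 := by omega
  have q3 : m ≠ 2 := by omega
  have q4 : m - 1 ≠ 0 := by omega
  have q5 : m - 1 ≠ 1 := by omega
  have q6 : m - 1 ≠ m := by omega
  have q7 : m - 1 ≠ 2 := by omega
  have q8 : 1 ≤ m := by omega
  have q9 : 2 ≤ m := by omega
  simp [List.nodup_cons, q1, q2, q3, q4, q5, q6, q7, q1.symm, q2.symm, q3.symm, q4.symm,
    q5.symm, q6.symm, q7.symm, q8, q9]
  field_simp
  ring

end H

section K

variable {k : Type*} [Field k] (g : k) (m : ℕ) (hm : 3 ≤ m)

/-- the shifted sequence -/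
noncomputable def uK {k : Type*} [Field k] (g : k) (m : ℕ) : ℕ → k := fun s => uO g m (s + 1)

include hm in
theorem strip_K (j c : ℕ) (h1 : 1 ≤ j) (h2 : j < m) (h3 : 1 ≤ c) (h4 : c < m - 1) :
    uK g m (j + c) = if j + c + 1 = m ∨ j + c = m then 1 else 0 := by
  unfold uK uO
  rw [if_neg (by omega), if_neg (by omega)]
  by_cases h5 : j + c + 1 = m
  · rw [if_pos h5, if_pos (Or.inl h5)]
  · rw [if_neg h5]
    by_cases h6 : j + c + 1 = m + 1
    · rw [if_pos h6, if_pos (Or.inr (by omega))]
    · rw [if_neg h6, if_neg (by omega), if_neg (by omega)]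

include hm in
theorem col_K (c : ℕ) (h3 : 1 ≤ c) (h4 : c < m - 1) : uK g m (0 + c) = 0 := by
  unfold uK
  apply uO_zero <;> omega

include hm in
theorem leafKA (s : List ℕ) (hl : s.length = 2) :
    Pp (uK g m) m s (List.range' 1 (m - 2)) =
      if s.Nodup ∧ (∀ z ∈ s, z < m) ∧ 0 ∈ s then 1 else 0 := by
  classical
  have hSL := Pool.Agent.N729.HP.SL.t k (Pool.Agent.N729.HP.BA.ta k) (Pool.Agent.N729.HP.BA.tb k)
  by_cases hs : s.Nodup ∧ ∀ z ∈ s, z < m
  · rw [Pp, if_pos hs]
    obtain ⟨hnd, hle⟩ := hs
    by_cases h : 0 ∈ s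
    · rw [if_pos ⟨hnd, hle, h⟩]
      have ht : s.Perm (0 :: s.erase 0) := List.perm_cons_erase h
      have hlt : (s.erase 0).length = 1 := by
        have := ht.length_eq
        simp only [List.length_cons] at this
        omega
      obtain ⟨z, hz0⟩ := List.length_eq_one_iff.1 hlt
      rw [hz0] at ht
      have hnd' := ht.nodup_iff.1 hnd
      have hz : z < m := hle z (ht.mem_iff.2 (by simp))
      simp only [List.nodup_cons, List.mem_cons, List.not_mem_nil, or_false, not_or] at hnd'
      have h2 := hSL.2.1 (uK g m) m 1 (m - 1) (by omega) (by omega) (by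
        intro j hj1 hj2 c hc1 hc2
        exact strip_K g m hm j c (by omega) (by omega) hc1 hc2) z
        (by rw [mem_Icc]; omega)
      have h3 : Rm m s = (Icc (m - (m - 1)) (m - 1)).erase z := by
        ext a
        rw [mem_Rm, ht.mem_iff, mem_erase, mem_Icc]
        simp only [List.mem_cons, List.not_mem_nil, or_false, not_or]
        omega
      rw [h3]
      have h4 : m - 1 - 1 = m - 2 := by omega
      rw [h4] at h2
      exact h2
    · rw [if_neg (by tauto)]
      have hcard : (Rm m s).card ≤ (List.range' 1 (m - 2)).length := by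
        rw [card_Rm hnd hle, hl, List.length_range']
      refine hSL.1 (uK g m) (Rm m s) _ hcard 0 (mem_Rm.2 ⟨by omega, h⟩) ?_
      intro c hc
      rw [List.mem_range'_1] at hc
      exact col_K g m hm c (by omega) (by omega)
  · rw [Pp, if_neg hs, if_neg (by tauto)]

include hm in
theorem leafKB (i : ℕ) (hi1 : 1 ≤ i) (hi2 : i < m - 1) (s : List ℕ) (hl : s.length = 3) :
    Pp (uK g m) m s (List.range' 1 (i - 1) ++ List.range' (i + 1) (m - 1 - 1 - i)) =
      if s.Nodup ∧ (∀ z ∈ s, z < m) ∧ 0 ∈ s ∧
        (s.filter (fun z => z + i < m)).length = 2 then 1 else 0 := by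
  classical
  have hSL := Pool.Agent.N729.HP.SL.t k (Pool.Agent.N729.HP.BA.ta k) (Pool.Agent.N729.HP.BA.tb k)
  by_cases hs : s.Nodup ∧ ∀ z ∈ s, z < m
  · rw [Pp, if_pos hs]
    obtain ⟨hnd, hle⟩ := hs
    by_cases h : 0 ∈ s
    · have ht : s.Perm (0 :: s.erase 0) := List.perm_cons_erase h
      have hlt : (s.erase 0).length = 2 := by
        have := ht.length_eq
        simp only [List.length_cons] at this
        omega
      obtain ⟨z, z', hz0⟩ := List.length_eq_two.1 hlt
      rw [hz0] at ht
      have hnd' := ht.nodup_iff.1 hnd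
      have hz : z < m := hle z (ht.mem_iff.2 (by simp))
      have hz' : z' < m := hle z' (ht.mem_iff.2 (by simp))
      simp only [List.nodup_cons, List.mem_cons, List.not_mem_nil, or_false, not_or] at hnd'
      have h2 := hSL.2.2 (uK g m) m 1 (m - 1) i (by omega) (by omega) (by omega) (by
        intro j hj1 hj2 c hc1 hc2 _
        exact strip_K g m hm j c (by omega) (by omega) hc1 hc2) z
        (by rw [mem_Icc]; omega) z' (by rw [mem_Icc]; omega) (by tauto)
      have h3 : Rm m s = ((Icc (m - (m - 1)) (m - 1)).erase z).erase z' := by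
        ext a
        rw [mem_Rm, ht.mem_iff, mem_erase, mem_erase, mem_Icc]
        simp only [List.mem_cons, List.not_mem_nil, or_false, not_or]
        omega
      rw [h3, h2]
      have h5 : (s.filter (fun z => z + i < m)).length = 2 ↔
          (z + i < m ∧ m ≤ z' + i) ∨ (z' + i < m ∧ m ≤ z + i) := by
        rw [(ht.filter _).length_eq]
        have e0 : 0 + i < m := by omega
        simp only [List.filter_cons, List.filter_nil, decide_eq_true_eq]
        rw [if_pos e0]
        split_ifs with f1 f2 f2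
        · refine ⟨fun h => ?_, fun _ => ?_⟩
          · simp at h
          · omega
        · refine ⟨fun _ => ?_, fun _ => rfl⟩
          left; omega
        · refine ⟨fun _ => ?_, fun _ => rfl⟩
          right; omega
        · refine ⟨fun h => ?_, fun _ => ?_⟩
          · simp at h
          · omega
      by_cases h6 : (z + i < m ∧ m ≤ z' + i) ∨ (z' + i < m ∧ m ≤ z + i)
      · rw [if_pos h6, if_pos ⟨hnd, hle, h, h5.2 h6⟩]
      · rw [if_neg h6, if_neg (fun h7 => h6 (h5.1 h7.2.2.2))]
    · rw [if_neg (by tauto)]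
      have hcard : (Rm m s).card ≤
          (List.range' 1 (i - 1) ++ List.range' (i + 1) (m - 1 - 1 - i)).length := by
        rw [card_Rm hnd hle, hl, List.length_append, List.length_range', List.length_range']
        omega
      refine hSL.1 (uK g m) (Rm m s) _ hcard 0 (mem_Rm.2 ⟨by omega, h⟩) ?_
      intro c hc
      rw [List.mem_append, List.mem_range'_1, List.mem_range'_1] at hc
      exact col_K g m hm c (by omega) (by omega)
  · rw [Pp, if_neg hs, if_neg (by tauto)]

include hm in
theorem rowK0 (s L : List ℕ) : Pp (uK g m) m s (0 :: L) =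
    g * Pp (uK g m) m (0 :: s) L + 1 * Pp (uK g m) m ((m - 1) :: s) L := by
  apply row2 _ _ _ _ _ _ _ _ _ (by omega) (by omega)
  intro j hj
  unfold uK uO
  split_ifs <;> first | omega | contradiction | simp

include hm in
theorem rowKp (s L : List ℕ) : Pp (uK g m) m s ((m - 1) :: L) =
    1 * Pp (uK g m) m (0 :: s) L + 1 * Pp (uK g m) m (1 :: s) L +
      (- (1 + g) / g) * Pp (uK g m) m ((m - 1) :: s) L := by
  apply row3 _ _ _ _ _ _ _ _ _ _ _ (by omega) (by omega) (by omega)
  intro j hj
  unfold uK uO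
  split_ifs <;> first | omega | contradiction | simp

theorem cfB_eq (i l : ℕ) (hl : l < m) (S T : List ℕ) (hS : (S ++ T).Nodup)
    (h : ∀ a, a ∈ S ++ T ↔ a ≠ i ∧ a < m) :
    cfB (uO g m) m i l = Pp (uK g m) m [l] (S ++ T) := by
  rw [Pp_one _ _ _ hl, cfB]
  apply (Pool.Agent.N729.HP.BA.ta k).1
  refine (List.perm_ext_iff_of_nodup (List.nodup_range.erase i) hS).2 fun a => ?_
  rw [List.nodup_range.mem_erase_iff, List.mem_range, h]

include hm in
theorem pmK (hg : g ≠ 0) : pm (fun s => uO g m (s + 1)) (range m) (List.range m) = 0 := by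
  have hA := fun a b => leafKA g m hm [a, b] rfl
  change pm (uK g m) (range m) (List.range m) = 0
  rw [pm_perm (uK g m) m ([0, m - 1] ++ List.range' 1 (m - 2))
    (nodup_app _ _ _ (by simp; omega) (by simp; omega)) (by
      intro a; simp only [List.mem_append, List.mem_cons, List.not_mem_nil, or_false,
        List.mem_range'_1]; omega)]
  simp only [List.cons_append, List.nil_append, rowK0 g m hm, rowKp g m hm, hA]
  have q1 : m ≠ 0 := by omega
  have q2 : m ≠ 1 := by omega
  have q4 : m - 1 ≠ 0 := by omega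
  have q5 : m - 1 ≠ 1 := by omega
  have q6 : m - 1 < m := by omega
  have q8 : 0 < m := by omega
  have q9 : 1 < m := by omega
  simp [List.nodup_cons, q1, q2, q4, q5, q6, q1.symm, q2.symm, q4.symm, q5.symm, q8, q9]
  field_simp
  ring

include hm in
theorem cB0 (hg : g ≠ 0) (l : ℕ) (hl : l < m) : cfB (uO g m) m 0 l = BO g m 0 l := by
  have hA := fun a b => leafKA g m hm [a, b] rfl
  rw [cfB_eq g m 0 l hl [m - 1] (List.range' 1 (m - 2))
    (nodup_app _ _ _ (by simp) (by simp; omega)) (by
      intro a; simp only [List.mem_append, List.mem_cons, List.not_mem_nil, or_false,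
        List.mem_range'_1]; omega)]
  simp only [List.cons_append, List.nil_append, rowKp g m hm, hA]
  unfold BO
  have q1 : m ≠ 0 := by omega
  have q2 : m ≠ 1 := by omega
  have q4 : m - 1 ≠ 0 := by omega
  have q5 : m - 1 ≠ 1 := by omega
  have q6 : m - 1 < m := by omega
  have q8 : 0 < m := by omega
  have q9 : 1 < m := by omega
  by_cases h0 : l = 0
  · subst h0
    simp [List.nodup_cons, q1, q2, q4, q5, q6, q1.symm, q2.symm, q4.symm, q5.symm, q8, q9]
    field_simp
    ring
  · have h0' : ¬ 0 = l := fun h => h0 h.symm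
    simp [List.nodup_cons, q1, q2, q4, q5, q6, q1.symm, q2.symm, q4.symm, q5.symm, q8, q9, h0,
      h0', hl]

include hm in
theorem cBp (_ : g ≠ 0) (l : ℕ) (hl : l < m) :
    cfB (uO g m) m (m - 1) l = BO g m (m - 1) l := by
  have hA := fun a b => leafKA g m hm [a, b] rfl
  rw [cfB_eq g m (m - 1) l hl [0] (List.range' 1 (m - 2))
    (nodup_app _ _ _ (by simp) (by simp)) (by
      intro a; simp only [List.mem_append, List.mem_cons, List.not_mem_nil, or_false,
        List.mem_range'_1]; omega)]
  simp only [List.cons_append, List.nil_append, rowK0 g m hm, hA]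
  unfold BO
  have q1 : m ≠ 0 := by omega
  have q2 : m ≠ 1 := by omega
  have q4 : m - 1 ≠ 0 := by omega
  have q5 : m - 1 ≠ 1 := by omega
  have q6 : m - 1 < m := by omega
  have q8 : 0 < m := by omega
  have q9 : 1 < m := by omega
  by_cases h0 : l = 0
  · subst h0
    simp [List.nodup_cons, q1, q2, q4, q5, q6, q1.symm, q2.symm, q4.symm, q5.symm, q8, q9]
  · have h0' : ¬ 0 = l := fun h => h0 h.symm
    have h1 : ¬ (m - 1 + l < m) := by omega
    simp [List.nodup_cons, q1, q2, q4, q5, q6, q1.symm, q2.symm, q4.symm, q5.symm, q8, q9, h0,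
      h0', hl, h1]

include hm in
theorem cBi (hg : g ≠ 0) (i : ℕ) (hi1 : 1 ≤ i) (hi2 : i < m - 1) (l : ℕ) (hl : l < m) :
    cfB (uO g m) m i l = BO g m i l := by
  have hB := fun a b c => leafKB g m hm i hi1 hi2 [a, b, c] rfl
  rw [cfB_eq g m i l hl [0, m - 1]
    (List.range' 1 (i - 1) ++ List.range' (i + 1) (m - 1 - 1 - i)) (by
      rw [List.nodup_append]
      refine ⟨by simp; omega, nodup_app _ _ _ List.nodup_range' (by
        intro z hz; rw [List.mem_range'_1] at hz; omega), ?_⟩
      intro a ha b hb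
      simp only [List.mem_append, List.mem_cons, List.not_mem_nil, or_false,
        List.mem_range'_1] at ha hb
      omega) (by
      intro a; simp only [List.mem_append, List.mem_cons, List.not_mem_nil, or_false,
        List.mem_range'_1]; omega)]
  simp only [List.cons_append, List.nil_append, rowK0 g m hm, rowKp g m hm, hB]
  unfold BO
  have q1 : m ≠ 0 := by omega
  have q2 : m ≠ 1 := by omega
  have q4 : m - 1 ≠ 0 := by omega
  have q5 : m - 1 ≠ 1 := by omega
  have q6 : m - 1 < m := by omega
  have q8 : 0 < m := by omega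
  have q9 : 1 < m := by omega
  have s1 : i < m := by omega
  have s2 : 1 + i < m := by omega
  have s3 : ¬ (m - 1 + i < m) := by omega
  have s4 : i ≠ 0 := by omega
  by_cases h0 : l = 0
  · subst h0
    simp [List.nodup_cons, List.filter_cons, q1, q2, q4, q5, q6, q1.symm, q2.symm, q4.symm,
      q5.symm, q8, q9, s1, s2, s3, s4]
  · have h0' : ¬ 0 = l := fun h => h0 h.symm
    by_cases h1 : l + i < m
    · have h2 : i + l < m := by omega
      have h3 : m - 1 ≠ l := by omega
      simp [List.nodup_cons, List.filter_cons, q1, q2, q4, q5, q6, q1.symm, q2.symm, q4.symm,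
        q5.symm, q8, q9, s1, s2, s3, s4, h0, h0', hl, h1, h2, h3, h3.symm]
      field_simp
      ring
    · have h2 : ¬ i + l < m := by omega
      have h3 : l ≠ 1 := by omega
      simp [List.nodup_cons, List.filter_cons, q1, q2, q4, q5, q6, q1.symm, q2.symm, q4.symm,
        q5.symm, q8, q9, s1, s2, s3, s4, h0, h0', hl, h1, h2, h3, h3.symm]

end K

/-- The cofactors for the odd family. -/
theorem t (k : Type*) [Field k] : StmWO1 k := by
  intro g hg m hm
  refine ⟨pmH g m hm hg, pmK g m hm hg, ?_, ?_⟩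
  · intro i hi l hl
    rcases Nat.lt_or_ge i 2 with h1 | h1
    · rcases Nat.lt_or_ge i 1 with h2 | h2
      · obtain rfl : i = 0 := by omega
        exact cA0 g m hm hg l hl
      · obtain rfl : i = 1 := by omega
        exact cA1 g m hm hg l hl
    · rcases Nat.lt_or_ge i (m - 1) with h2 | h2
      · exact cAi g m hm hg i h1 h2 l hl
      · rcases Nat.lt_or_ge i m with h3 | h3
        · obtain rfl : i = m - 1 := by omega
          exact cAp g m hm hg l hl
        · have h4 : i = m := by omega
          rw [h4]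
          exact cAm g m hm hg l hl
  · intro i hi l hl
    rcases Nat.lt_or_ge i 1 with h1 | h1
    · obtain rfl : i = 0 := by omega
      exact cB0 g m hm hg l hl
    · rcases Nat.lt_or_ge i (m - 1) with h2 | h2
      · exact cBi g m hm hg i h1 h2 l hl
      · obtain rfl : i = m - 1 := by omega
        exact cBp g m hm hg l hl

end Pool.Agent.N633.HB.WO1
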