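import Pool.Agent.N633.HB.Stm

/-!
Project HB (helper633), MP_9bc296_ag, part WO2 (helper674): linear algebra and the quadratic form of
the odd family.
-/

set_option autoImplicit false

namespace Pool.Agent.N633.HB.WO2

open Finset
open Pool.Agent.N633.HB

section
variable {k : Type*} [Field k]

theorem sum_two (M : ℕ) (hM : 2 ≤ M) (f : ℕ → k) (h : ∀ i, 2 ≤ i → i < M → f i = 0) :
    ∑ i ∈ range M, f i = f 0 + f 1 := by
  have h1 : ∑ i ∈ range M, f i = ∑ i ∈ range 2, f i := by
    symm
    apply sum_subset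
    · intro i hi
      rw [mem_range] at hi ⊢
      omega
    · intro i hi hi'
      rw [mem_range] at hi hi'
      exact h i (by omega) hi
  rw [h1, sum_range_succ, sum_range_one]

theorem sum_pair (M a : ℕ) (ha : 1 ≤ a) (haM : a < M) (f : ℕ → k)
    (h : ∀ i, 1 ≤ i → i < M → i ≠ a → f i = 0) : ∑ i ∈ range M, f i = f 0 + f a := by
  have h1 : ∑ i ∈ ({0, a} : Finset ℕ), f i = ∑ i ∈ range M, f i := by
    apply sum_subset
    · intro i hi
      rw [mem_insert, mem_singleton] at hi
      rw [mem_range]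
      omega
    · intro i hi hi'
      rw [mem_range] at hi
      rw [mem_insert, mem_singleton] at hi'
      exact h i (by omega) hi (by omega)
  rw [← h1, Finset.sum_pair (by omega)]

theorem sum_three (M a : ℕ) (ha : 2 ≤ a) (haM : a < M) (f : ℕ → k)
    (h : ∀ i, 2 ≤ i → i < M → i ≠ a → f i = 0) : ∑ i ∈ range M, f i = f 0 + f 1 + f a := by
  have h1 : ∑ i ∈ ({0, 1, a} : Finset ℕ), f i = ∑ i ∈ range M, f i := by
    apply sum_subset
    · intro i hi
      rw [mem_insert, mem_insert, mem_singleton] at hi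
      rw [mem_range]
      omega
    · intro i hi hi'
      rw [mem_range] at hi
      rw [mem_insert, mem_insert, mem_singleton] at hi'
      exact h i (by omega) hi (by omega)
  have h2 : (0 : ℕ) ∉ ({1, a} : Finset ℕ) := by
    rw [mem_insert, mem_singleton]
    omega
  have h3 : (1 : ℕ) ∉ ({a} : Finset ℕ) := by
    rw [mem_singleton]
    omega
  rw [← h1, sum_insert h2, sum_insert h3, sum_singleton]
  ring

theorem u0 (g : k) (m : ℕ) : uO g m 0 = g ^ 2 := by
  unfold uO
  rw [if_pos rfl]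

theorem u1 (g : k) (m : ℕ) : uO g m 1 = g := by
  unfold uO
  rw [if_neg (by omega), if_pos rfl]

theorem ui (g : k) {m i : ℕ} (h1 : 2 ≤ i) (h2 : i < m) : uO g m i = 0 := by
  unfold uO
  rw [if_neg (by omega), if_neg (by omega), if_neg (by omega), if_neg (by omega),
    if_neg (by omega)]

theorem B00 (g : k) (m : ℕ) : BO g m 0 0 = - 1 / g := by
  unfold BO
  rw [if_pos ⟨rfl, rfl⟩]

theorem B0 (g : k) (m : ℕ) {l : ℕ} (hl : l ≠ 0) : BO g m 0 l = 1 := by
  unfold BO
  rw [if_neg (by omega), if_pos (by omega)]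

theorem B0' (g : k) (m : ℕ) {l : ℕ} (hl : l ≠ 0) : BO g m l 0 = 1 := by
  unfold BO
  rw [if_neg (by omega), if_pos (by omega)]

theorem Bs (g : k) {m i l : ℕ} (hi : i ≠ 0) (hl : l ≠ 0) (h : i + l < m) : BO g m i l = - g := by
  unfold BO
  rw [if_neg (by omega), if_neg (by omega), if_pos h]

theorem Bb (g : k) {m i l : ℕ} (hi : i ≠ 0) (hl : l ≠ 0) (h : ¬ i + l < m) : BO g m i l = g := by
  unfold BO
  rw [if_neg (by omega), if_neg (by omega), if_neg h]

theorem Bdiff (g : k) {m i r : ℕ} (hr : 1 ≤ r) (hi : i + r + 1 ≠ m) :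
    BO g m i (r + 1) = BO g m i r := by
  unfold BO
  rw [if_neg (show ¬ (i = 0 ∧ r + 1 = 0) by omega), if_neg (show ¬ (i = 0 ∧ r = 0) by omega)]
  by_cases h0 : i = 0
  · rw [if_pos (Or.inl h0), if_pos (Or.inl h0)]
  · rw [if_neg (show ¬ (i = 0 ∨ r + 1 = 0) by omega), if_neg (show ¬ (i = 0 ∨ r = 0) by omega)]
    by_cases h1 : i + r < m
    · rw [if_pos h1, if_pos (show i + (r + 1) < m by omega)]
    · rw [if_neg h1, if_neg (show ¬ i + (r + 1) < m by omega)]

theorem Adiff (g : k) {m i l : ℕ} (hl : 2 ≤ l) (hl2 : l + 2 ≤ m) (hi : i + l ≠ m) :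
    AO g m i (l + 1) = AO g m i l := by
  unfold AO
  rw [if_neg (show ¬ (i = m ∧ l + 1 = m) by omega), if_neg (show ¬ (i = m ∧ l = m) by omega)]
  by_cases h3 : i = m
  · rw [if_pos (Or.inl h3), if_pos (Or.inl h3)]
  rw [if_neg (show ¬ (i = m ∨ l + 1 = m) by omega), if_neg (show ¬ (i = m ∨ l = m) by omega),
    if_neg (show ¬ (i = 0 ∧ l + 1 = 0) by omega), if_neg (show ¬ (i = 0 ∧ l = 0) by omega),
    if_neg (show ¬ i + (l + 1) = 1 by omega), if_neg (show ¬ i + l = 1 by omega)]
  by_cases h4 : i = 0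
  · rw [if_pos (Or.inl h4), if_pos (Or.inl h4)]
  rw [if_neg (show ¬ (i = 0 ∨ l + 1 = 0) by omega), if_neg (show ¬ (i = 0 ∨ l = 0) by omega),
    if_neg (show ¬ (i = 1 ∧ l + 1 = 1) by omega), if_neg (show ¬ (i = 1 ∧ l = 1) by omega)]
  by_cases h5 : i + l ≤ m
  · rw [if_pos h5, if_pos (show i + (l + 1) ≤ m by omega)]
  · rw [if_neg h5, if_neg (show ¬ i + (l + 1) ≤ m by omega)]

theorem beta (g : k) (hg : g ≠ 0) {m r : ℕ} (hm : 3 ≤ m) (hr : r < m) :
    ∑ i' ∈ range m, uO g m i' * BO g m i' r = if r + 1 = m then 2 * g ^ 2 else 0 := by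
  rw [sum_two m (by omega) _ (fun i h1 h2 => by rw [ui g h1 h2, zero_mul]), u0, u1]
  by_cases h0 : r = 0
  · subst h0
    rw [B00, B0' g m (by omega), if_neg (by omega)]
    field_simp
    ring
  · rw [B0 g m h0]
    split_ifs with h
    · rw [Bb g (by omega) h0 (by omega)]
      ring
    · rw [Bs g (by omega) h0 (by omega)]
      ring

end

theorem t (k : Type*) [Field k] : StmWO2 k := by
  intro h2 g hg hg1 hg2 m hm w η δ hR
  obtain ⟨r1, r2⟩ := hR
  have hgg : -(2 + g) / g * g = -(2 + g) := div_mul_cancel₀ _ hg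
  have hc : -(2 + g) / g ≠ 0 := div_ne_zero (neg_ne_zero.2 hg2) hg
  -- values of `AO`
  have A00 : AO g m 0 0 = -(2 + g) / g := by
    unfold AO
    rw [if_neg (by omega), if_neg (by omega), if_pos (by omega)]
  have A01 : AO g m 0 1 = 2 + g := by
    unfold AO
    rw [if_neg (by omega), if_neg (by omega), if_neg (by omega), if_pos (by omega)]
  have A10 : AO g m 1 0 = 2 + g := by
    unfold AO
    rw [if_neg (by omega), if_neg (by omega), if_neg (by omega), if_pos (by omega)]
  have A11 : AO g m 1 1 = 2 + 2 * g + g ^ 2 := by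
    unfold AO
    rw [if_neg (by omega), if_neg (by omega), if_neg (by omega), if_neg (by omega),
      if_neg (by omega), if_pos (by omega)]
  have A0l : AO g m 0 (m - 1) = - g := by
    unfold AO
    rw [if_neg (by omega), if_neg (by omega), if_neg (by omega), if_neg (by omega),
      if_pos (by omega)]
  have Al0 : AO g m (m - 1) 0 = - g := by
    unfold AO
    rw [if_neg (by omega), if_neg (by omega), if_neg (by omega), if_neg (by omega),
      if_pos (by omega)]
  have Asm : ∀ i l, 1 ≤ i → 1 ≤ l → i < m → l < m → 2 < i + l → i + l ≤ m →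
      AO g m i l = -(g * (2 + g)) := by
    intro i l h3 h4 h5 h6 h7 h8
    unfold AO
    rw [if_neg (by omega), if_neg (by omega), if_neg (by omega), if_neg (by omega),
      if_neg (by omega), if_neg (by omega), if_pos h8]
  have Abg : ∀ i l, 1 ≤ i → 1 ≤ l → i < m → l < m → 2 < i + l → m < i + l →
      AO g m i l = g * (2 + g) := by
    intro i l h3 h4 h5 h6 h7 h8
    unfold AO
    rw [if_neg (by omega), if_neg (by omega), if_neg (by omega), if_neg (by omega),
      if_neg (by omega), if_neg (by omega), if_neg (by omega)]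
  have Aim : ∀ i, i < m → AO g m i m = 0 := by
    intro i h3
    unfold AO
    rw [if_neg (by omega), if_pos (by omega)]
  have Amm : AO g m m m = 2 * g ^ 2 := by
    unfold AO
    rw [if_pos ⟨rfl, rfl⟩]
  -- psi
  obtain ⟨ψ, hψ⟩ : ∃ ψ : ℕ → k, ∀ i, ψ i = w (i + m) * (2 * g ^ 2) + if i = 0 then δ else 0 :=
    ⟨_, fun _ => rfl⟩
  have e1 : ∀ l < m + 1, ∑ i ∈ range (m + 1), AO g m i l * ψ i = 0 := by
    intro l hl
    rw [← r1 l hl]
    have h3 : ∀ i ∈ range (m + 1), AO g m i l * ψ i = (if i = 0 then AO g m 0 l * δ else 0) +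
        ∑ r ∈ range m, w (i + r + 1) * AO g m i l *
          (∑ i' ∈ range m, uO g m i' * BO g m i' r) := by
      intro i _
      have hb : ∑ i' ∈ range m, uO g m i' * BO g m i' (m - 1) = 2 * g ^ 2 := by
        rw [beta g hg hm (by omega), if_pos (by omega)]
      rw [sum_eq_single (m - 1)]
      · rw [hb, hψ]
        have h4 : i + (m - 1) + 1 = i + m := by omega
        rw [h4]
        by_cases h0 : i = 0
        · subst h0
          rw [if_pos rfl, if_pos rfl]
          ring
        · rw [if_neg h0, if_neg h0]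
          ring
      · intro r hr hne
        rw [mem_range] at hr
        rw [beta g hg hm hr, if_neg (by omega), mul_zero]
      · intro hn
        exact absurd (mem_range.2 (by omega)) hn
    rw [sum_congr rfl h3, sum_add_distrib, sum_ite_eq', if_pos (mem_range.2 (by omega))]
  have ψm : ψ m = 0 := by
    have h3 := e1 m (by omega)
    rw [sum_eq_single m, Amm] at h3
    · rcases mul_eq_zero.1 h3 with h4 | h4
      · exact absurd h4 (mul_ne_zero h2 (pow_ne_zero 2 hg))
      · exact h4
    · intro i hi hne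
      rw [mem_range] at hi
      rw [Aim i (by omega), zero_mul]
    · intro hn
      exact absurd (mem_range.2 (by omega)) hn
  have ψmid : ∀ i, 2 ≤ i → i + 2 ≤ m → ψ i = 0 := by
    intro i hi hi2
    obtain ⟨l, hl⟩ : ∃ l, l = m - i := ⟨_, rfl⟩
    have h3 : ∑ j ∈ range (m + 1), (AO g m j (l + 1) - AO g m j l) * ψ j = 0 := by
      simp only [sub_mul, sum_sub_distrib]
      rw [e1 (l + 1) (by omega), e1 l (by omega), sub_zero]
    rw [sum_eq_single i] at h3
    · rw [Abg i (l + 1) (by omega) (by omega) (by omega) (by omega) (by omega) (by omega),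
        Asm i l (by omega) (by omega) (by omega) (by omega) (by omega) (by omega)] at h3
      have h4 : 2 * (g * (2 + g)) * ψ i = 0 := by linear_combination h3
      rcases mul_eq_zero.1 h4 with h5 | h5
      · exact absurd h5 (mul_ne_zero h2 (mul_ne_zero hg hg2))
      · exact h5
    · intro j hj hne
      rw [Adiff g (by omega) (by omega) (by omega), sub_self, zero_mul]
    · intro hn
      exact absurd (mem_range.2 (by omega)) hn
  have hz : ∀ l < m + 1, AO g m 0 l * ψ 0 + AO g m 1 l * ψ 1 + AO g m (m - 1) l * ψ (m - 1) = 0 := by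
    intro l hl
    rw [← e1 l hl, sum_three (m + 1) (m - 1) (by omega) (by omega)]
    intro i h3 h4 h5
    by_cases h6 : i = m
    · rw [h6, ψm, mul_zero]
    · rw [ψmid i h3 (by omega), mul_zero]
  have E1 := hz (m - 1) (by omega)
  have E2 := hz 1 (by omega)
  have E3 := hz 0 (by omega)
  rw [A0l, Asm 1 (m - 1) le_rfl (by omega) (by omega) (by omega) (by omega) (by omega),
    Abg (m - 1) (m - 1) (by omega) (by omega) (by omega) (by omega) (by omega) (by omega)] at E1
  rw [A01, A11, Asm (m - 1) 1 (by omega) le_rfl (by omega) (by omega) (by omega) (by omega)] at E2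
  rw [A00, A10, Al0] at E3
  have hZ : ψ 0 - (2 + g) * (ψ (m - 1) - ψ 1) = 0 := by
    have h3 : g * (ψ 0 - (2 + g) * (ψ (m - 1) - ψ 1)) = 0 := by linear_combination -E1
    exact (mul_eq_zero.1 h3).resolve_left hg
  have hA : (2 + g) * ψ (m - 1) - (1 + g) * ψ 1 = 0 := by
    have h3 : 2 * ((2 + g) * ψ (m - 1) - (1 + g) * ψ 1) = 0 := by
      linear_combination E2 - (2 + g) * hZ
    exact (mul_eq_zero.1 h3).resolve_left h2
  have hB : (1 + g) * ψ 1 - g * ψ (m - 1) = 0 := by
    have h3 : 2 * (1 + g) * ((1 + g) * ψ 1 - g * ψ (m - 1)) = 0 := by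
      linear_combination E2 + g * E3 - ψ 0 * hgg
    exact (mul_eq_zero.1 h3).resolve_left (mul_ne_zero h2 hg1)
  have hQ : ψ (m - 1) = 0 := by
    have h3 : 2 * ψ (m - 1) = 0 := by linear_combination hA + hB
    exact (mul_eq_zero.1 h3).resolve_left h2
  have hP : ψ 1 = 0 := by
    rw [hQ] at hB
    have h3 : (1 + g) * ψ 1 = 0 := by linear_combination hB
    exact (mul_eq_zero.1 h3).resolve_left hg1
  have hZ0 : ψ 0 = 0 := by
    rw [hQ, hP] at hZ
    linear_combination hZ
  have hψ0 : ∀ i, i ≤ m → ψ i = 0 := by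
    intro i hi
    by_cases h3 : i = 0
    · rw [h3, hZ0]
    by_cases h4 : i = 1
    · rw [h4, hP]
    by_cases h5 : i = m
    · rw [h5, ψm]
    by_cases h6 : i = m - 1
    · rw [h6, hQ]
    exact ψmid i (by omega) (by omega)
  have w1 : ∀ s, m + 1 ≤ s → s ≤ 2 * m → w s = 0 := by
    intro s h3 h4
    have h5 := hψ0 (s - m) (by omega)
    rw [hψ, if_neg (by omega), add_zero] at h5
    have h6 : s - m + m = s := by omega
    rw [h6] at h5
    exact (mul_eq_zero.1 h5).resolve_right (mul_ne_zero h2 (pow_ne_zero 2 hg))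
  -- theta
  obtain ⟨θ, hθ⟩ : ∃ θ : ℕ → k, ∀ i, θ i = η * uO g m i +
      ∑ l ∈ range (m + 1), w (i + l + 1) * AO g m 0 l := ⟨_, fun _ => rfl⟩
  have e2 : ∀ r < m, ∑ i ∈ range m, BO g m i r * θ i = 0 := by
    intro r hr
    rw [← r2 r hr, mul_sum, ← sum_add_distrib]
    refine sum_congr rfl fun i _ => ?_
    rw [hθ, mul_add, mul_sum]
    congr 1
    · ring
    · refine sum_congr rfl fun l _ => ?_
      ring
  have θmid : ∀ i, 1 ≤ i → i + 2 ≤ m → θ i = 0 := by
    intro i hi hi2
    obtain ⟨r, hr⟩ : ∃ r, r = m - 1 - i := ⟨_, rfl⟩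
    have h3 : ∑ j ∈ range m, (BO g m j (r + 1) - BO g m j r) * θ j = 0 := by
      simp only [sub_mul, sum_sub_distrib]
      rw [e2 (r + 1) (by omega), e2 r (by omega), sub_zero]
    rw [sum_eq_single i] at h3
    · rw [Bb g (by omega) (by omega) (by omega), Bs g (by omega) (by omega) (by omega)] at h3
      have h4 : 2 * g * θ i = 0 := by linear_combination h3
      exact (mul_eq_zero.1 h4).resolve_left (mul_ne_zero h2 hg)
    · intro j hj hne
      rw [Bdiff g (by omega) (by omega), sub_self, zero_mul]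
    · intro hn
      exact absurd (mem_range.2 (by omega)) hn
  have hy : ∀ r < m, BO g m 0 r * θ 0 + BO g m (m - 1) r * θ (m - 1) = 0 := by
    intro r hr
    rw [← e2 r hr, WO2.sum_pair m (m - 1) (by omega) (by omega)]
    intro i h3 h4 h5
    rw [θmid i h3 (by omega), mul_zero]
  have F1 := hy (m - 1) (by omega)
  have F2 := hy 0 (by omega)
  rw [B0 g m (by omega), Bb g (by omega) (by omega) (by omega), one_mul] at F1
  rw [B00, B0' g m (by omega), one_mul] at F2
  have hgi : -1 / g * g = -1 := div_mul_cancel₀ _ hg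
  have hθl : θ (m - 1) = 0 := by
    have h3 : 2 * g * θ (m - 1) = 0 := by
      linear_combination F1 + g * F2 - θ 0 * hgi
    exact (mul_eq_zero.1 h3).resolve_left (mul_ne_zero h2 hg)
  have hθ00 : θ 0 = 0 := by
    rw [hθl] at F1
    linear_combination F1
  have hθ0 : ∀ i, i < m → θ i = 0 := by
    intro i hi
    by_cases h3 : i = 0
    · rw [h3, hθ00]
    by_cases h4 : i = m - 1
    · rw [h4, hθl]
    exact θmid i (by omega) (by omega)
  have w2 : ∀ n s, s + n = 2 * m → 3 ≤ s → w s = 0 := by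
    intro n
    induction n using Nat.strong_induction_on with
    | _ n ih =>
      intro s hs hs3
      by_cases h3 : m + 1 ≤ s
      · exact w1 s h3 (by omega)
      · have h4 := hθ0 (s - 1) (by omega)
        rw [hθ, ui g (by omega) (by omega), mul_zero, zero_add, sum_eq_single 0] at h4
        · have h5 : s - 1 + 0 + 1 = s := by omega
          rw [h5, A00] at h4
          exact (mul_eq_zero.1 h4).resolve_right hc
        · intro l hl hne
          rw [mem_range] at hl
          have h5 : s - 1 + l + 1 = s + l := by omega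
          rw [h5, ih (n - l) (by omega) (s + l) (by omega) (by omega), zero_mul]
        · intro hn
          exact absurd (mem_range.2 (by omega)) hn
  have w3 : ∀ s, 3 ≤ s → s ≤ 2 * m → w s = 0 := fun s h3 h4 => w2 (2 * m - s) s (by omega) h3
  have hδ : δ = 0 := by
    have h3 := hψ 0
    rw [hZ0, if_pos rfl, zero_add, w3 m hm (by omega), zero_mul, zero_add] at h3
    exact h3.symm
  have G1 : (2 + g) * w 2 = g ^ 2 * η := by
    have h3 := hθ 1
    rw [hθ0 1 (by omega), u1, sum_eq_single 0, A00] at h3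
    · have h4 : w (1 + 0 + 1) = w 2 := rfl
      rw [h4] at h3
      linear_combination g * h3 + w 2 * hgg
    · intro l hl hne
      rw [mem_range] at hl
      rw [w3 (1 + l + 1) (by omega) (by omega), zero_mul]
    · intro hn
      exact absurd (mem_range.2 (by omega)) hn
  have G0 : w 1 = 2 * g * w 2 := by
    have h3 := hθ 0
    rw [hθ00, u0, sum_two (m + 1) (by omega) _ (fun l h4 h5 => by
      rw [w3 (0 + l + 1) (by omega) (by omega), zero_mul]), A00, A01] at h3
    have h4 : w (0 + 0 + 1) = w 1 := rfl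
    have h5 : w (0 + 1 + 1) = w 2 := rfl
    rw [h4, h5] at h3
    have h6 : (2 + g) * (w 1 - 2 * g * w 2) = 0 := by
      linear_combination g * h3 + w 1 * hgg - g * G1
    exact sub_eq_zero.1 ((mul_eq_zero.1 h6).resolve_left hg2)
  refine ⟨G0, G1, w3, hδ, ?_⟩
  -- the quadratic form
  have B11 : BO g m 1 1 = - g := Bs g (by omega) (by omega) (by omega)
  have q1 : ∀ i r, ∀ i' ∈ range m, ∑ l ∈ range (m + 1),
      w (i + r + 1) * w (i' + l + 1) * AO g m i l * BO g m i' r =
      w (i + r + 1) * w (i' + 0 + 1) * AO g m i 0 * BO g m i' r +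
      w (i + r + 1) * w (i' + 1 + 1) * AO g m i 1 * BO g m i' r := by
    intro i r i' hi'
    rw [mem_range] at hi'
    refine sum_two (m + 1) (by omega) _ fun l h3 h4 => ?_
    rw [w3 (i' + l + 1) (by omega) (by omega)]
    ring
  have q2 : ∀ i r, ∑ i' ∈ range m, ∑ l ∈ range (m + 1),
      w (i + r + 1) * w (i' + l + 1) * AO g m i l * BO g m i' r =
      w (i + r + 1) * (w 1 * AO g m i 0 * BO g m 0 r + w 2 * AO g m i 1 * BO g m 0 r +
        w 2 * AO g m i 0 * BO g m 1 r) := by
    intro i r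
    rw [sum_congr rfl (q1 i r), sum_two m (by omega) _ (fun i' h3 h4 => by
      rw [w3 (i' + 0 + 1) (by omega) (by omega), w3 (i' + 1 + 1) (by omega) (by omega)]
      ring)]
    have h3 : w (1 + 1 + 1) = 0 := w3 _ (by omega) (by omega)
    have h4 : w (0 + 0 + 1) = w 1 := rfl
    have h5 : w (0 + 1 + 1) = w 2 := rfl
    have h6 : w (1 + 0 + 1) = w 2 := rfl
    rw [h3, h4, h5, h6]
    ring
  have q3 : ∀ i ∈ range (m + 1), ∑ r ∈ range m, ∑ i' ∈ range m, ∑ l ∈ range (m + 1),
      w (i + r + 1) * w (i' + l + 1) * AO g m i l * BO g m i' r =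
      w (i + 0 + 1) * (w 1 * AO g m i 0 * BO g m 0 0 + w 2 * AO g m i 1 * BO g m 0 0 +
        w 2 * AO g m i 0 * BO g m 1 0) +
      w (i + 1 + 1) * (w 1 * AO g m i 0 * BO g m 0 1 + w 2 * AO g m i 1 * BO g m 0 1 +
        w 2 * AO g m i 0 * BO g m 1 1) := by
    intro i hi
    rw [mem_range] at hi
    rw [sum_congr rfl (fun r _ => q2 i r)]
    refine sum_two m (by omega) _ fun r h3 h4 => ?_
    rw [w3 (i + r + 1) (by omega) (by omega), zero_mul]
  unfold qf
  rw [sum_congr rfl q3, sum_two (m + 1) (by omega) _ (fun i h3 h4 => by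
    rw [w3 (i + 0 + 1) (by omega) (by omega), w3 (i + 1 + 1) (by omega) (by omega)]
    ring)]
  have h3 : w (1 + 1 + 1) = 0 := w3 _ (by omega) (by omega)
  have h4 : w (0 + 0 + 1) = w 1 := rfl
  have h5 : w (0 + 1 + 1) = w 2 := rfl
  have h6 : w (1 + 0 + 1) = w 2 := rfl
  rw [h3, h4, h5, h6, A00, A01, A10, A11, B00, B0 g m one_ne_zero, B0' g m one_ne_zero, B11, G0]
  field_simp
  ring

end Pool.Agent.N633.HB.WO2
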