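import Pool.Agent.N633.HB.Stm2

/-!
Project HB, file Y1: the points `qY`, membership and the linear relations.
-/

set_option autoImplicit false

namespace Pool.Agent.N633.HB.Y1

open Finset
open Pool.Agent.N186.HK (pm vm pm_nil pm_cons)
open Pool.Agent.N729.HP (pd Sub hk)
open Pool.Agent.N633.HB

section perm
variable {D : Type*} [CommRing D]

theorem pm1 (x : ℕ → D) (a c : ℕ) : pm x {a} [c] = x (a + c) := by
  rw [pm_cons, sum_singleton, pm_nil, mul_one]

theorem pm2 (x : ℕ → D) (a₁ a₂ c₁ c₂ : ℕ) (h : a₁ ≠ a₂) :
    pm x {a₁, a₂} [c₁, c₂] = x (a₁ + c₁) * x (a₂ + c₂) + x (a₂ + c₁) * x (a₁ + c₂) := by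
  have e1 : ({a₁, a₂} : Finset ℕ).erase a₁ = {a₂} := by
    ext v
    simp only [mem_erase, mem_insert, mem_singleton]
    constructor
    · rintro ⟨g1, g2 | g2⟩
      · exact absurd g2 g1
      · exact g2
    · rintro rfl
      exact ⟨h.symm, Or.inr rfl⟩
  have e2 : ({a₁, a₂} : Finset ℕ).erase a₂ = {a₁} := by
    ext v
    simp only [mem_erase, mem_insert, mem_singleton]
    constructor
    · rintro ⟨g1, g2 | g2⟩
      · exact g2
      · exact absurd g2 g1
    · rintro rfl
      exact ⟨h, Or.inl rfl⟩
  rw [pm_cons, sum_pair h, e1, e2, pm1, pm1]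

theorem pm3 (x : ℕ → D) (a₁ a₂ a₃ c₁ c₂ c₃ : ℕ) (h12 : a₁ ≠ a₂) (h13 : a₁ ≠ a₃) (h23 : a₂ ≠ a₃) :
    pm x {a₁, a₂, a₃} [c₁, c₂, c₃] =
      x (a₁ + c₁) * (x (a₂ + c₂) * x (a₃ + c₃) + x (a₃ + c₂) * x (a₂ + c₃)) +
      (x (a₂ + c₁) * (x (a₁ + c₂) * x (a₃ + c₃) + x (a₃ + c₂) * x (a₁ + c₃)) +
      x (a₃ + c₁) * (x (a₁ + c₂) * x (a₂ + c₃) + x (a₂ + c₂) * x (a₁ + c₃))) := by
  have e1 : ({a₁, a₂, a₃} : Finset ℕ).erase a₁ = {a₂, a₃} := by
    ext v
    simp only [mem_erase, mem_insert, mem_singleton]
    constructor
    · rintro ⟨g1, g2 | g2⟩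
      · exact absurd g2 g1
      · exact g2
    · rintro (rfl | rfl)
      · exact ⟨h12.symm, Or.inr (Or.inl rfl)⟩
      · exact ⟨h13.symm, Or.inr (Or.inr rfl)⟩
  have e2 : ({a₁, a₂, a₃} : Finset ℕ).erase a₂ = {a₁, a₃} := by
    ext v
    simp only [mem_erase, mem_insert, mem_singleton]
    constructor
    · rintro ⟨g1, g2 | g2 | g2⟩
      · exact Or.inl g2
      · exact absurd g2 g1
      · exact Or.inr g2
    · rintro (rfl | rfl)
      · exact ⟨h12, Or.inl rfl⟩
      · exact ⟨h23.symm, Or.inr (Or.inr rfl)⟩
  have e3 : ({a₁, a₂, a₃} : Finset ℕ).erase a₃ = {a₁, a₂} := by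
    ext v
    simp only [mem_erase, mem_insert, mem_singleton]
    constructor
    · rintro ⟨g1, g2 | g2 | g2⟩
      · exact Or.inl g2
      · exact Or.inr g2
      · exact absurd g2 g1
    · rintro (rfl | rfl)
      · exact ⟨h13, Or.inl rfl⟩
      · exact ⟨h23, Or.inr (Or.inl rfl)⟩
  rw [pm_cons, sum_insert (by simp [h12, h13]), sum_pair h23, e1, e2, e3, pm2 _ _ _ _ _ h23,
    pm2 _ _ _ _ _ h13, pm2 _ _ _ _ _ h12]

end perm

section val
variable (k : Type*) [Field k] {t b r : ℕ}

theorem q1 : qY k t b r b = 1 := by
  unfold qY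
  rw [if_pos rfl]

theorem q2 {v : ℕ} (h : v = b + r) : qY k t b r v = 1 := by
  unfold qY
  split_ifs <;> rfl

theorem q3 {v : ℕ} (h : v + 1 = b + r + t) : qY k t b r v = 1 := by
  unfold qY
  split_ifs <;> rfl

theorem q4 (ht : b + r + 2 ≤ t) {v : ℕ} (h : v + 2 = b + 2 * t) : qY k t b r v = -1 := by
  unfold qY
  rw [if_neg (by omega), if_neg (by omega), if_neg (by omega), if_pos h]

theorem q0 {v : ℕ} (h1 : v ≠ b) (h2 : v ≠ b + r) (h3 : v + 1 ≠ b + r + t)
    (h4 : v + 2 ≠ b + 2 * t) : qY k t b r v = 0 := by
  unfold qY
  rw [if_neg h1, if_neg h2, if_neg h3, if_neg h4]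

end val

/-- the rows with pendant columns -/
def RR (t r : ℕ) : List ℕ := List.range' 1 (r - 1) ++ List.range' (r + 1) (t - 2 - r)

/-- the pendant columns -/
def pp (t b r ρ : ℕ) : ℕ := if ρ < r then b + r - ρ else b + r + t - 1 - ρ

theorem mem_RR {t r : ℕ} (h : r + 2 ≤ t) (hr : 1 ≤ r) (ρ : ℕ) :
    ρ ∈ RR t r ↔ (1 ≤ ρ ∧ ρ < r) ∨ (r < ρ ∧ ρ + 1 < t) := by
  unfold RR
  rw [List.mem_append, List.mem_range'_1, List.mem_range'_1]
  omega

theorem nodup_RR (t r : ℕ) : (RR t r).Nodup := by
  unfold RR
  rw [List.nodup_append]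
  refine ⟨List.nodup_range', List.nodup_range', ?_⟩
  intro a ha c hc
  rw [List.mem_range'_1] at ha hc
  omega

theorem length_RR {t r : ℕ} (h : r + 2 ≤ t) (hr : 1 ≤ r) : (RR t r).length + 3 = t := by
  unfold RR
  rw [List.length_append, List.length_range', List.length_range']
  omega

theorem t (k : Type*) [Field k] (hG2 : StmG2 k) (hKI : StmKI k) : StmY1 k := by
  intro h2 t e b r hb hbr h3 h4 h5 h6
  have hr : 1 ≤ r := by omega
  have hrt : r + 2 ≤ t := by omega
  have hperm : ([0, r, t - 1] ++ RR t r).Perm (List.range t) := by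
    rw [List.perm_ext_iff_of_nodup]
    · intro a
      rw [List.mem_append, mem_RR hrt hr, List.mem_range]
      simp only [List.mem_cons, List.not_mem_nil, or_false]
      omega
    · rw [List.nodup_append]
      refine ⟨?_, nodup_RR t r, ?_⟩
      · simp only [List.nodup_cons, List.mem_cons, List.not_mem_nil, or_false, List.nodup_nil,
          not_or, and_true, not_false_iff]
        omega
      · intro a ha c hc
        rw [mem_RR hrt hr] at hc
        simp only [List.mem_cons, List.not_mem_nil, or_false] at ha
        omega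
    · exact List.nodup_range
  have hg := hG2 (t + e) t (qY k t b r) [0, r, t - 1] (RR t r) {b, b + r, b + t - 1} hperm
    (by
      intro j hj
      simp only [mem_insert, mem_singleton] at hj
      omega)
    (by
      intro c hc j hj hj0
      simp only [mem_insert, mem_singleton, not_or] at hj0
      simp only [List.mem_cons, List.not_mem_nil, or_false] at hc
      apply q0 <;> omega)
    (by
      intro J₁ hJ hc
      have hcard : ({b, b + r, b + t - 1} : Finset ℕ).card = 3 := by
        rw [card_insert_of_notMem, card_pair (by omega)]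
        simp only [mem_insert, mem_singleton]
        omega
      have hJ' : J₁ = {b, b + r, b + t - 1} := by
        refine Finset.eq_of_subset_of_card_le hJ ?_
        rw [hcard, hc]
        rfl
      rw [hJ', pm3 _ _ _ _ _ _ _ (by omega) (by omega) (by omega)]
      rw [add_zero, add_zero, add_zero, q1 k, q2 k (v := b + r) rfl,
        q0 k (v := b + r + r) (by omega) (by omega) (by omega) (by omega),
        q0 k (v := b + t - 1) (by omega) (by omega) (by omega) (by omega),
        q3 k (v := b + t - 1 + r) (by omega), q3 k (v := b + r + (t - 1)) (by omega),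
        q4 k h5 (v := b + t - 1 + (t - 1)) (by omega),
        q0 k (v := b + (t - 1)) (by omega) (by omega) (by omega) (by omega)]
      ring)
    (by
      intro v hv
      have hI : ([0, r, t - 1] : List ℕ).toFinset = {0, r, t - 1} := by
        ext a
        simp
      have s : ∀ g : ℕ → k, ∑ c ∈ ([0, r, t - 1] : List ℕ).toFinset, g c =
          g 0 + (g r + g (t - 1)) := by
        intro g
        rw [hI, sum_insert (by simp only [mem_insert, mem_singleton]; omega),
          sum_pair (by omega)]
      have er0 : ([0, r, t - 1] : List ℕ).erase 0 = [r, t - 1] := List.erase_cons_head ..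
      have er1 : ([0, r, t - 1] : List ℕ).erase r = [0, t - 1] := by
        rw [List.erase_cons_tail (by simp; omega), List.erase_cons_head]
      have er2 : ([0, r, t - 1] : List ℕ).erase (t - 1) = [0, r] := by
        rw [List.erase_cons_tail (by simp; omega), List.erase_cons_tail (by simp; omega),
          List.erase_cons_head]
      have c1 := hv {b + r, b + t - 1} (by
        intro a
        simp only [mem_insert, mem_singleton]
        tauto) (by
        rw [card_pair (by omega)]
        rfl)
      have c2 := hv {b, b + t - 1} (by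
        intro a
        simp only [mem_insert, mem_singleton]
        tauto) (by
        rw [card_pair (by omega)]
        rfl)
      have c3 := hv {b, b + r} (by
        intro a
        simp only [mem_insert, mem_singleton]
        tauto) (by
        rw [card_pair (by omega)]
        rfl)
      rw [s, er0, er1, er2, pm2 _ _ _ _ _ (by omega), pm2 _ _ _ _ _ (by omega),
        pm2 _ _ _ _ _ (by omega)] at c1 c2 c3
      rw [add_zero, add_zero, q2 k (v := b + r) rfl,
        q0 k (v := b + r + r) (by omega) (by omega) (by omega) (by omega),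
        q0 k (v := b + t - 1) (by omega) (by omega) (by omega) (by omega),
        q3 k (v := b + t - 1 + r) (by omega), q3 k (v := b + r + (t - 1)) (by omega),
        q4 k h5 (v := b + t - 1 + (t - 1)) (by omega)] at c1
      rw [add_zero, add_zero, q1 k, q2 k (v := b + r) rfl,
        q0 k (v := b + t - 1) (by omega) (by omega) (by omega) (by omega),
        q3 k (v := b + t - 1 + r) (by omega),
        q4 k h5 (v := b + t - 1 + (t - 1)) (by omega),
        q0 k (v := b + (t - 1)) (by omega) (by omega) (by omega) (by omega)] at c2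
      rw [add_zero, add_zero, q1 k, q2 k (v := b + r) rfl,
        q0 k (v := b + r + r) (by omega) (by omega) (by omega) (by omega),
        q3 k (v := b + r + (t - 1)) (by omega),
        q0 k (v := b + (t - 1)) (by omega) (by omega) (by omega) (by omega)] at c3
      have z0 : v 0 = 0 := by
        have : (2 : k) * v 0 = 0 := by linear_combination c1 - c2
        exact (mul_eq_zero.1 this).resolve_left h2
      have z1 : v r = 0 := by
        have : (2 : k) * v r = 0 := by linear_combination c3 - c1
        exact (mul_eq_zero.1 this).resolve_left h2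
      have z2 : v (t - 1) = 0 := by linear_combination c3 - z0 - z1
      intro c hc
      simp only [List.mem_cons, List.not_mem_nil, or_false] at hc
      rcases hc with rfl | rfl | rfl
      · exact z0
      · exact z1
      · exact z2)
  refine ⟨hg.1, fun y hy => ?_⟩
  have hK : ∀ c, (c = 0 ∨ c = r ∨ c + 1 = t) →
      (∀ β ∈ range b ∪ Icc (b + t) (t + e - 1), y (β + c) =
        - ∑ ρ ∈ (RR t r).toFinset, y (pp t b r ρ + c) * qY k t b r (β + ρ)) ∧
      ∀ ρ ∈ RR t r, ∀ β ∈ range b ∪ Icc (b + t) (t + e - 1),
        ∀ β' ∈ range b ∪ Icc (b + t) (t + e - 1), β ≠ β' → qY k t b r (β + ρ) ≠ 0 →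
        qY k t b r (β' + ρ) ≠ 0 → y (pp t b r ρ + c) = 0 := by
    intro c hc
    have hc' : c ∈ ([0, r, t - 1] : List ℕ) := by
      simp only [List.mem_cons, List.not_mem_nil, or_false]
      omega
    refine hKI h2 (qY k t b r) (fun j => y (j + c)) (RR t r) (pp t b r)
      (range b ∪ Icc (b + t) (t + e - 1)) (nodup_RR t r) ?_ ?_ ?_
    · intro ρ hρ ρ' hρ'
      rw [mem_RR hrt hr] at hρ hρ'
      unfold pp
      by_cases hh : ρ < r
      · rw [if_pos hh]
        by_cases he : ρ = ρ'
        · rw [if_pos he]
          exact q2 k (by omega)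
        · rw [if_neg he]
          apply q0 <;> omega
      · rw [if_neg hh]
        by_cases he : ρ = ρ'
        · rw [if_pos he]
          exact q3 k (by omega)
        · rw [if_neg he]
          apply q0 <;> omega
    · intro ρ hρ
      rw [mem_RR hrt hr] at hρ
      rw [mem_union, mem_range, mem_Icc]
      unfold pp
      split_ifs <;> omega
    · intro J₂ hJ hcard
      refine hg.2 y hy c hc' J₂ ?_ hcard
      intro j hj
      have hj' := hJ hj
      simp only [mem_union, mem_image, List.mem_toFinset, mem_range, mem_Icc, mem_RR hrt hr]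
        at hj'
      simp only [mem_insert, mem_singleton, not_or]
      rcases hj' with ⟨ρ, hρ, rfl⟩ | hj'
      · unfold pp
        split_ifs <;> omega
      · omega
  refine ⟨?_, ?_, ?_⟩
  · rintro c hc s (⟨hs1, hs2⟩ | ⟨hs1, hs2⟩)
    · have h := (hK c hc).2 (b + r - s) ((mem_RR hrt hr _).2 (by omega)) (s - r)
        (by rw [mem_union, mem_range, mem_Icc]; omega) (s + t - 1)
        (by rw [mem_union, mem_range, mem_Icc]; omega) (by omega)
        (by
          rw [show s - r + (b + r - s) = b by omega, q1 k]
          exact one_ne_zero)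
        (by
          rw [q3 k (by omega)]
          exact one_ne_zero)
      unfold pp at h
      rw [if_pos (by omega)] at h
      rw [← h]
      congr 1
      omega
    · have h := (hK c hc).2 (b + r + t - 1 - s) ((mem_RR hrt hr _).2 (by omega)) (s + 1 - t)
        (by rw [mem_union, mem_range, mem_Icc]; omega) (s + t - 1 - r)
        (by rw [mem_union, mem_range, mem_Icc]; omega) (by omega)
        (by
          rw [q2 k (by omega)]
          exact one_ne_zero)
        (by
          rw [q4 k h5 (by omega)]
          exact neg_ne_zero.2 one_ne_zero)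
      unfold pp at h
      rw [if_neg (by omega)] at h
      rw [← h]
      congr 1
      omega
  · intro c hc m hm
    have h := (hK c hc).1 m (by rw [mem_union, mem_range, mem_Icc]; omega)
    rw [Finset.sum_eq_add (b - m) (b + r - m) (by omega)
      (by
        intro ρ hρ hne
        rw [List.mem_toFinset, mem_RR hrt hr] at hρ
        rw [q0 k (by omega) (by omega) (by omega) (by omega), mul_zero])
      (by
        intro hn
        rw [List.mem_toFinset, mem_RR hrt hr] at hn
        omega)
      (by
        intro hn
        rw [List.mem_toFinset, mem_RR hrt hr] at hn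
        omega)] at h
    unfold pp at h
    rw [if_pos (by omega), if_neg (by omega), show m + (b - m) = b by omega, q1 k,
      q2 k (v := m + (b + r - m)) (by omega), show b + r - (b - m) + c = c + m + r by omega,
      show b + r + t - 1 - (b + r - m) + c = c + m + (t - 1) by omega, add_comm m c] at h
    rw [h]
    ring
  · intro c hc m hm1 hm2
    have h := (hK c hc).1 (m + t - 1) (by rw [mem_union, mem_range, mem_Icc]; omega)
    rw [Finset.sum_eq_add (b + r - m) (b + t - 1 - m) (by omega)
      (by
        intro ρ hρ hne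
        rw [List.mem_toFinset, mem_RR hrt hr] at hρ
        rw [q0 k (by omega) (by omega) (by omega) (by omega), mul_zero])
      (by
        intro hn
        rw [List.mem_toFinset, mem_RR hrt hr] at hn
        omega)
      (by
        intro hn
        rw [List.mem_toFinset, mem_RR hrt hr] at hn
        omega)] at h
    unfold pp at h
    rw [if_pos (by omega), if_neg (by omega), q3 k (v := m + t - 1 + (b + r - m)) (by omega),
      q4 k h5 (v := m + t - 1 + (b + t - 1 - m)) (by omega),
      show b + r - (b + r - m) + c = c + m by omega,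
      show b + r + t - 1 - (b + t - 1 - m) + c = c + m + r by omega,
      show m + t - 1 + c = c + m + (t - 1) by omega] at h
    rw [h]
    ring

end Pool.Agent.N633.HB.Y1
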