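import Pool.Agent.N633.HB.Stm2

/-!
Project HB (MP_9bc296_ag), Y2: the family Y from `StmY1` (by helper814).
-/

set_option autoImplicit false

namespace Pool.Agent.N633.HB.Y2

open Finset
open Pool.Agent.N186.HK (pm vm)
open Pool.Agent.R831.PermIdeal (permIdeal)
open Pool.Agent.N729.HP (pd Sub hk)
open Pool.Agent.N633.HB

section

variable {k : Type*} [Field k] {t e b r : ℕ} {y : ℕ → k}

lemma Z (R : RelY t e b r y) (c : ℕ) (hc : c = 0 ∨ c = r ∨ c + 1 = t) (v s : ℕ) (hv : v = c + s)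
    (hs : (r ≤ s ∧ s ≤ e) ∨ (t ≤ s + 1 ∧ s ≤ r + e)) : y v = 0 := by
  rw [hv]
  exact R.z c hc s hs

/-- the relation `p`, the first value -/
lemma P0 (R : RelY t e b r y) (c : ℕ) (hc : c = 0 ∨ c = r ∨ c + 1 = t) (v v1 v2 m : ℕ)
    (hv : v = c + m) (h1 : v1 = v + r) (h2 : v2 = v + (t - 1)) (hm : m < b) (z1 : y v1 = 0)
    (z2 : y v2 = 0) : y v = 0 := by
  have h := R.p c hc m hm
  rw [← hv, ← h1, ← h2, z1, z2, add_zero, add_zero] at h
  exact h

/-- the relation `m`, the first value -/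
lemma M0 (R : RelY t e b r y) (c : ℕ) (hc : c = 0 ∨ c = r ∨ c + 1 = t) (v v1 v2 m : ℕ)
    (hv : v = c + m) (h1 : v1 = v + r) (h2 : v2 = v + (t - 1)) (hm : b < m) (hm' : m ≤ e)
    (z1 : y v1 = 0) (z2 : y v2 = 0) : y v = 0 := by
  have h := R.m c hc m hm hm'
  rw [← hv, ← h1, ← h2, z1, z2, sub_zero, add_zero] at h
  exact h

/-- the relation `m`, the last value -/
lemma M2 (R : RelY t e b r y) (c : ℕ) (hc : c = 0 ∨ c = r ∨ c + 1 = t) (v v1 v2 m : ℕ)
    (hv : v = c + m) (h1 : v1 = v + r) (h2 : v2 = v + (t - 1)) (hm : b < m) (hm' : m ≤ e)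
    (z0 : y v = 0) (z1 : y v1 = 0) : y v2 = 0 := by
  have h := R.m c hc m hm hm'
  rw [← hv, ← h1, ← h2, z0, z1, sub_zero, zero_add] at h
  exact h

/-- `D = 3`, `e = 2 b` -/
lemma c3 (hb : 2 ≤ b) (R : RelY (2 * b + 3) (2 * b) b (b + 1) y)
    (hS : ∀ s ∈ [b, 2 * b + 1, 3 * b + 2, 4 * b + 3, 5 * b + 4], y s = 0) :
    ∀ v < 6 * b + 5, y v = 0 := by
  simp only [List.mem_cons, List.not_mem_nil, or_false, forall_eq_or_imp, forall_eq] at hS
  obtain ⟨s1, s2, s3, s4, s5⟩ := hS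
  have A : ∀ v, b ≤ v → v ≤ 5 * b + 4 → y v = 0 := by
    intro v h1 h2
    rcases (by omega : v = b ∨ (b + 1 ≤ v ∧ v ≤ 2 * b) ∨ v = 2 * b + 1 ∨
      (2 * b + 2 ≤ v ∧ v ≤ 3 * b + 1) ∨ v = 3 * b + 2 ∨ (3 * b + 3 ≤ v ∧ v ≤ 4 * b + 2) ∨
      v = 4 * b + 3 ∨ (4 * b + 4 ≤ v ∧ v ≤ 5 * b + 3) ∨ v = 5 * b + 4) with
      rfl | h | rfl | h | rfl | h | rfl | h | rfl
    · exact s1
    · exact Z R 0 (by omega) v v (by omega) (by omega)
    · exact s2
    · exact Z R 0 (by omega) v v (by omega) (by omega)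
    · exact s3
    · exact Z R (b + 1) (by omega) v (v - (b + 1)) (by omega) (by omega)
    · exact s4
    · exact Z R (2 * b + 2) (by omega) v (v - (2 * b + 2)) (by omega) (by omega)
    · exact s5
  intro v hv
  rcases (by omega : v < b ∨ (b ≤ v ∧ v ≤ 5 * b + 4) ∨ 5 * b + 5 ≤ v) with h | h | h
  · exact P0 R 0 (by omega) v _ _ v (by omega) rfl rfl h (A _ (by omega) (by omega))
      (A _ (by omega) (by omega))
  · exact A v h.1 h.2
  · exact M2 R (2 * b + 2) (by omega) (v - (2 * b + 2)) _ v (v - (4 * b + 4)) (by omega) rfl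
      (by omega) (by omega) (by omega) (A _ (by omega) (by omega)) (A _ (by omega) (by omega))

/-- `D = 4`, `e = 2 b` -/
lemma c4e (hb : 2 ≤ b) (R : RelY (2 * b + 4) (2 * b) b (b + 2) y)
    (hS : ∀ s ∈ [b, 2 * b + 2, 3 * b + 3, 3 * b + 4, 4 * b + 5, 5 * b + 6], y s = 0) :
    ∀ v < 6 * b + 7, y v = 0 := by
  simp only [List.mem_cons, List.not_mem_nil, or_false, forall_eq_or_imp, forall_eq] at hS
  obtain ⟨s1, s2, s3, s4, s5, s6⟩ := hS
  have A : ∀ v, 2 * b + 2 ≤ v → v ≤ 5 * b + 6 → y v = 0 := by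
    intro v h1 h2
    rcases (by omega : v = 2 * b + 2 ∨
      (2 * b + 3 ≤ v ∧ v ≤ 3 * b + 2) ∨ v = 3 * b + 3 ∨ v = 3 * b + 4 ∨
      (3 * b + 5 ≤ v ∧ v ≤ 4 * b + 4) ∨
      v = 4 * b + 5 ∨ (4 * b + 6 ≤ v ∧ v ≤ 5 * b + 5) ∨ v = 5 * b + 6) with
      rfl | h | rfl | rfl | h | rfl | h | rfl
    · exact s2
    · exact Z R 0 (by omega) v v (by omega) (by omega)
    · exact s3
    · exact s4
    · exact Z R (b + 2) (by omega) v (v - (b + 2)) (by omega) (by omega)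
    · exact s5
    · exact Z R (2 * b + 3) (by omega) v (v - (2 * b + 3)) (by omega) (by omega)
    · exact s6
  have x1 : y (b + 1) = 0 := M0 R 0 (by omega) (b + 1) _ _ (b + 1) (by omega) rfl rfl (by omega)
    (by omega) (A _ (by omega) (by omega)) (A _ (by omega) (by omega))
  have x2 : y (2 * b + 1) = 0 := P0 R (b + 2) (by omega) (2 * b + 1) _ _ (b - 1) (by omega) rfl rfl
    (by omega) (A _ (by omega) (by omega)) (A _ (by omega) (by omega))
  have B : ∀ v, b ≤ v → v ≤ 5 * b + 6 → y v = 0 := by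
    intro v h1 h2
    rcases (by omega : v = b ∨ v = b + 1 ∨ (b + 2 ≤ v ∧ v ≤ 2 * b) ∨ v = 2 * b + 1 ∨
      2 * b + 2 ≤ v) with rfl | rfl | h | rfl | h
    · exact s1
    · exact x1
    · exact Z R 0 (by omega) v v (by omega) (by omega)
    · exact x2
    · exact A v h h2
  intro v hv
  rcases (by omega : v < b ∨ (b ≤ v ∧ v ≤ 5 * b + 6) ∨ 5 * b + 7 ≤ v) with h | h | h
  · exact P0 R 0 (by omega) v _ _ v (by omega) rfl rfl h (B _ (by omega) (by omega))
      (B _ (by omega) (by omega))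
  · exact B v h.1 h.2
  · exact M2 R (2 * b + 3) (by omega) (v - (2 * b + 3)) _ v (v - (4 * b + 6)) (by omega) rfl
      (by omega) (by omega) (by omega) (B _ (by omega) (by omega)) (B _ (by omega) (by omega))

/-- `D = 5`, `e = 2 b` -/
lemma c5e (hb : 2 ≤ b) (R : RelY (2 * b + 5) (2 * b) b (b + 3) y)
    (hS : ∀ s ∈ [b, 2 * b + 3, 3 * b + 4, 3 * b + 5, 3 * b + 6, 4 * b + 7, 5 * b + 8], y s = 0) :
    ∀ v < 6 * b + 9, y v = 0 := by
  simp only [List.mem_cons, List.not_mem_nil, or_false, forall_eq_or_imp, forall_eq] at hS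
  obtain ⟨s1, s2, s3, s4, s5, s6, s7⟩ := hS
  have A : ∀ v, 2 * b + 3 ≤ v → v ≤ 5 * b + 8 → y v = 0 := by
    intro v h1 h2
    rcases (by omega : v = 2 * b + 3 ∨
      (2 * b + 4 ≤ v ∧ v ≤ 3 * b + 3) ∨ v = 3 * b + 4 ∨ v = 3 * b + 5 ∨ v = 3 * b + 6 ∨
      (3 * b + 7 ≤ v ∧ v ≤ 4 * b + 6) ∨
      v = 4 * b + 7 ∨ (4 * b + 8 ≤ v ∧ v ≤ 5 * b + 7) ∨ v = 5 * b + 8) with
      rfl | h | rfl | rfl | rfl | h | rfl | h | rfl
    · exact s2
    · exact Z R 0 (by omega) v v (by omega) (by omega)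
    · exact s3
    · exact s4
    · exact s5
    · exact Z R (b + 3) (by omega) v (v - (b + 3)) (by omega) (by omega)
    · exact s6
    · exact Z R (2 * b + 4) (by omega) v (v - (2 * b + 4)) (by omega) (by omega)
    · exact s7
  have x1 : ∀ v, b + 1 ≤ v → v ≤ b + 2 → y v = 0 := fun v h1 h2 =>
    M0 R 0 (by omega) v _ _ v (by omega) rfl rfl (by omega)
      (by omega) (A _ (by omega) (by omega)) (A _ (by omega) (by omega))
  have x2 : ∀ v, 2 * b + 1 ≤ v → v ≤ 2 * b + 2 → y v = 0 := fun v h1 h2 =>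
    P0 R (b + 3) (by omega) v _ _ (v - (b + 3)) (by omega) rfl rfl
      (by omega) (A _ (by omega) (by omega)) (A _ (by omega) (by omega))
  have B : ∀ v, b ≤ v → v ≤ 5 * b + 8 → y v = 0 := by
    intro v h1 h2
    rcases (by omega : v = b ∨ (b + 1 ≤ v ∧ v ≤ b + 2) ∨ (b + 3 ≤ v ∧ v ≤ 2 * b) ∨
      (2 * b + 1 ≤ v ∧ v ≤ 2 * b + 2) ∨ 2 * b + 3 ≤ v) with rfl | h | h | h | h
    · exact s1
    · exact x1 v h.1 h.2
    · exact Z R 0 (by omega) v v (by omega) (by omega)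
    · exact x2 v h.1 h.2
    · exact A v h h2
  intro v hv
  rcases (by omega : v < b ∨ (b ≤ v ∧ v ≤ 5 * b + 8) ∨ 5 * b + 9 ≤ v) with h | h | h
  · exact P0 R 0 (by omega) v _ _ v (by omega) rfl rfl h (B _ (by omega) (by omega))
      (B _ (by omega) (by omega))
  · exact B v h.1 h.2
  · exact M2 R (2 * b + 4) (by omega) (v - (2 * b + 4)) _ v (v - (4 * b + 8)) (by omega) rfl
      (by omega) (by omega) (by omega) (B _ (by omega) (by omega)) (B _ (by omega) (by omega))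

/-- `D = 4`, `e = 2 b + 1` -/
lemma c4o (hb : 2 ≤ b) (R : RelY (2 * b + 5) (2 * b + 1) b (b + 2) y)
    (hS : ∀ s ∈ [b, 2 * b + 2, 2 * b + 3, 3 * b + 4, 3 * b + 5, 4 * b + 6, 5 * b + 8], y s = 0) :
    ∀ v < 6 * b + 10, y v = 0 := by
  simp only [List.mem_cons, List.not_mem_nil, or_false, forall_eq_or_imp, forall_eq] at hS
  obtain ⟨s1, s2, s3, s4, s5, s6, s7⟩ := hS
  have x1 : y (b + 1) = 0 := M0 R 0 (by omega) (b + 1) (2 * b + 3) (3 * b + 5) (b + 1) (by omega)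
    (by omega) (by omega) (by omega) (by omega) s3 s5
  have x2 : y (4 * b + 7) = 0 := M2 R (b + 2) (by omega) (2 * b + 3) (3 * b + 5) (4 * b + 7) (b + 1)
    (by omega) (by omega) (by omega) (by omega) (by omega) s3 s5
  have B : ∀ v, b ≤ v → v ≤ 5 * b + 8 → y v = 0 := by
    intro v h1 h2
    rcases (by omega : v = b ∨ v = b + 1 ∨ (b + 2 ≤ v ∧ v ≤ 2 * b + 1) ∨ v = 2 * b + 2 ∨
      v = 2 * b + 3 ∨ (2 * b + 4 ≤ v ∧ v ≤ 3 * b + 3) ∨ v = 3 * b + 4 ∨ v = 3 * b + 5 ∨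
      (3 * b + 6 ≤ v ∧ v ≤ 4 * b + 5) ∨ v = 4 * b + 6 ∨ v = 4 * b + 7 ∨
      (4 * b + 8 ≤ v ∧ v ≤ 5 * b + 7) ∨ v = 5 * b + 8) with
      rfl | rfl | h | rfl | rfl | h | rfl | rfl | h | rfl | rfl | h | rfl
    · exact s1
    · exact x1
    · exact Z R 0 (by omega) v v (by omega) (by omega)
    · exact s2
    · exact s3
    · exact Z R 0 (by omega) v v (by omega) (by omega)
    · exact s4
    · exact s5
    · exact Z R (b + 2) (by omega) v (v - (b + 2)) (by omega) (by omega)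
    · exact s6
    · exact x2
    · exact Z R (2 * b + 4) (by omega) v (v - (2 * b + 4)) (by omega) (by omega)
    · exact s7
  intro v hv
  rcases (by omega : v < b ∨ (b ≤ v ∧ v ≤ 5 * b + 8) ∨ 5 * b + 9 ≤ v) with h | h | h
  · exact P0 R 0 (by omega) v _ _ v (by omega) rfl rfl h (B _ (by omega) (by omega))
      (B _ (by omega) (by omega))
  · exact B v h.1 h.2
  · exact M2 R (2 * b + 4) (by omega) (v - (2 * b + 4)) _ v (v - (4 * b + 8)) (by omega) rfl
      (by omega) (by omega) (by omega) (B _ (by omega) (by omega)) (B _ (by omega) (by omega))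

/-- `D = 5`, `e = 2 b + 1` -/
lemma c5o (hb : 2 ≤ b) (R : RelY (2 * b + 6) (2 * b + 1) b (b + 3) y)
    (hS : ∀ s ∈ [b, 2 * b + 3, 2 * b + 4, 3 * b + 5, 3 * b + 6, 3 * b + 7, 4 * b + 8, 5 * b + 10],
      y s = 0) : ∀ v < 6 * b + 12, y v = 0 := by
  simp only [List.mem_cons, List.not_mem_nil, or_false, forall_eq_or_imp, forall_eq] at hS
  obtain ⟨s1, s2, s3, s4, s5, s6, s7, s8⟩ := hS
  have x2 : y (4 * b + 9) = 0 := M2 R (b + 3) (by omega) (2 * b + 4) (3 * b + 7) (4 * b + 9) (b + 1)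
    (by omega) (by omega) (by omega) (by omega) (by omega) s3 s6
  have A : ∀ v, 2 * b + 3 ≤ v → v ≤ 5 * b + 10 → y v = 0 := by
    intro v h1 h2
    rcases (by omega : v = 2 * b + 3 ∨ v = 2 * b + 4 ∨
      (2 * b + 5 ≤ v ∧ v ≤ 3 * b + 4) ∨ v = 3 * b + 5 ∨ v = 3 * b + 6 ∨ v = 3 * b + 7 ∨
      (3 * b + 8 ≤ v ∧ v ≤ 4 * b + 7) ∨
      v = 4 * b + 8 ∨ v = 4 * b + 9 ∨ (4 * b + 10 ≤ v ∧ v ≤ 5 * b + 9) ∨ v = 5 * b + 10) with
      rfl | rfl | h | rfl | rfl | rfl | h | rfl | rfl | h | rfl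
    · exact s2
    · exact s3
    · exact Z R 0 (by omega) v v (by omega) (by omega)
    · exact s4
    · exact s5
    · exact s6
    · exact Z R (b + 3) (by omega) v (v - (b + 3)) (by omega) (by omega)
    · exact s7
    · exact x2
    · exact Z R (2 * b + 5) (by omega) v (v - (2 * b + 5)) (by omega) (by omega)
    · exact s8
  have x1 : ∀ v, b + 1 ≤ v → v ≤ b + 2 → y v = 0 := fun v h1 h2 =>
    M0 R 0 (by omega) v _ _ v (by omega) rfl rfl (by omega)
      (by omega) (A _ (by omega) (by omega)) (A _ (by omega) (by omega))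
  have x3 : y (2 * b + 2) = 0 :=
    P0 R (b + 3) (by omega) (2 * b + 2) _ _ (b - 1) (by omega) rfl rfl
      (by omega) (A _ (by omega) (by omega)) (A _ (by omega) (by omega))
  have B : ∀ v, b ≤ v → v ≤ 5 * b + 10 → y v = 0 := by
    intro v h1 h2
    rcases (by omega : v = b ∨ (b + 1 ≤ v ∧ v ≤ b + 2) ∨ (b + 3 ≤ v ∧ v ≤ 2 * b + 1) ∨
      v = 2 * b + 2 ∨ 2 * b + 3 ≤ v) with rfl | h | h | rfl | h
    · exact s1
    · exact x1 v h.1 h.2
    · exact Z R 0 (by omega) v v (by omega) (by omega)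
    · exact x3
    · exact A v h h2
  intro v hv
  rcases (by omega : v < b ∨ (b ≤ v ∧ v ≤ 5 * b + 10) ∨ 5 * b + 11 ≤ v) with h | h | h
  · exact P0 R 0 (by omega) v _ _ v (by omega) rfl rfl h (B _ (by omega) (by omega))
      (B _ (by omega) (by omega))
  · exact B v h.1 h.2
  · exact M2 R (2 * b + 5) (by omega) (v - (2 * b + 5)) _ v (v - (4 * b + 10)) (by omega) rfl
      (by omega) (by omega) (by omega) (B _ (by omega) (by omega)) (B _ (by omega) (by omega))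

/-- the conclusion from the list `S` -/
lemma fin (hJC : Pool.Agent.N729.HP.StmJC k) (hY1 : StmY1 k) (h2 : (2 : k) ≠ 0) (t e b r N N' : ℕ)
    (S : List ℕ) (h : N + 1 = (t + e) + t) (hb : 2 ≤ b) (h3 : b < r) (h4 : r + e + 2 ≤ b + t)
    (h5 : e + 1 ≤ b + r) (h6 : b + r + 2 ≤ t) (h7 : b ≤ e) (hS : S.length < t) (hN : N ≤ N')
    (hz : ∀ y : ℕ → k, RelY t e b r y → (∀ s ∈ S, y s = 0) → ∀ v < N', y v = 0) :
    ¬ (permIdeal t (vm k (hk h))).IsPrime := by
  obtain ⟨h8, h9⟩ := hY1 h2 t e b r (by omega) h3 h4 h5 h6 h7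
  refine hJC N (t + e) t t h (by omega) (by omega) le_rfl (qY k t b r) h8 S.toFinset
    (lt_of_le_of_lt (List.toFinset_card_le S) hS) ?_
  intro y hy hpd v hv
  exact hz y (h9 y hpd) (fun s hs => hy s (List.mem_toFinset.2 hs)) v (by omega)

end

/-- Y2 -/
theorem t (k : Type*) [Field k] (hJC : Pool.Agent.N729.HP.StmJC k) (hY1 : StmY1 k) : StmY k := by
  intro h2 t e N h he ht
  rcases Nat.even_or_odd' e with ⟨b, rfl | rfl⟩
  · rcases ht with ⟨rfl, _⟩ | rfl | rfl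
    · exact fin hJC hY1 h2 _ _ b (b + 1) N _ _ h (by omega) (by omega) (by omega) (by omega)
        (by omega) (by omega) (by simp only [List.length_cons, List.length_nil]; omega) (by omega)
        (fun y R hS => c3 (by omega) R hS)
    · exact fin hJC hY1 h2 _ _ b (b + 2) N _ _ h (by omega) (by omega) (by omega) (by omega)
        (by omega) (by omega) (by simp only [List.length_cons, List.length_nil]; omega) (by omega)
        (fun y R hS => c4e (by omega) R hS)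
    · exact fin hJC hY1 h2 _ _ b (b + 3) N _ _ h (by omega) (by omega) (by omega) (by omega)
        (by omega) (by omega) (by simp only [List.length_cons, List.length_nil]; omega) (by omega)
        (fun y R hS => c5e (by omega) R hS)
  · rcases ht with ⟨rfl, h3⟩ | rfl | rfl
    · omega
    · exact fin hJC hY1 h2 _ _ b (b + 2) N _ _ h (by omega) (by omega) (by omega) (by omega)
        (by omega) (by omega) (by simp only [List.length_cons, List.length_nil]; omega) (by omega)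
        (fun y R hS => c4o (by omega) R hS)
    · exact fin hJC hY1 h2 _ _ b (b + 3) N _ _ h (by omega) (by omega) (by omega) (by omega)
        (by omega) (by omega) (by simp only [List.length_cons, List.length_nil]; omega) (by omega)
        (fun y R hS => c5o (by omega) R hS)

end Pool.Agent.N633.HB.Y2
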