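import Pool.Agent.N729.HP.All
import Pool.Agent.N633.HB.JD
import Pool.Agent.N633.HB.BX
import Pool.Agent.N633.HB.LE
import Pool.Agent.N633.HB.W1
import Pool.Agent.N633.HB.WE1
import Pool.Agent.N633.HB.WE2
import Pool.Agent.N633.HB.WO1
import Pool.Agent.N633.HB.WO2
import Pool.Agent.N633.HB.WF
import Pool.Agent.N633.HB.G2
import Pool.Agent.N633.HB.B
import Pool.Agent.N633.HB.Y1
import Pool.Agent.N633.HB.Y2
import Pool.Agent.N633.HB.PC
import Pool.Agent.N633.HB.PU
import Pool.Agent.N633.HB.P2
import Pool.Agent.N633.HB.T2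
import Pool.Agent.N633.HB.T3
import Pool.Agent.N633.HB.FCa
import Pool.Agent.N633.HB.FCb
import Pool.Agent.N633.HB.FCc

/-!
Project HB (MP_9bc296_ag): the boundary case `m = t < n ≤ 2 t - 2`, from the parts.
-/

set_option autoImplicit false

namespace Pool.Agent.N633.HB

open Finset
open Pool.Agent.N186.HK (pm vm)
open Pool.Agent.R831.PermIdeal (permIdeal)
open Pool.Agent.N729.HP (pd Sub hk)

theorem jd (k : Type*) [Field k] : StmJD k := JD.t k (Pool.Agent.N729.HP.JB.t k)

theorem w1 (k : Type*) [Field k] : StmW1 k := W1.t k (LE.le k) (LE.ce k)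

theorem we (k : Type*) [Field k] : StmWE k := WF.we k (jd k) (w1 k) (WE1.t k) (WE2.t2 k) (WE2.t3 k)

theorem wo (k : Type*) [Field k] : StmWO k := WF.wo k (jd k) (w1 k) (WO1.t k) (WO2.t k)

theorem wok (k : Type*) [Field k] : StmWOk k := WF.wok k (BX.t k) (wo (RatFunc k))

theorem w4 (k : Type*) [Field k] : StmW4 k := WF.w4 k (jd k) (w1 k)

theorem g2 (k : Type*) [Field k] : StmG2 k := G2.g2 k

theorem ki (k : Type*) [Field k] : StmKI k := G2.ki k

theorem b (k : Type*) [Field k] : StmB k := B.t k (Pool.Agent.N729.HP.jc k) (g2 k) (ki k)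

theorem y1 (k : Type*) [Field k] : StmY1 k := Y1.t k (g2 k) (ki k)

theorem y (k : Type*) [Field k] : StmY k := Y2.t k (Pool.Agent.N729.HP.jc k) (y1 k)

theorem pu (k : Type*) [Field k] : StmPU k := PU.t k (PC.t k)

theorem p (k : Type*) [Field k] : StmP k :=
  P2.t k (Pool.Agent.N729.HP.sl k) (Pool.Agent.N729.HP.jc k) (g2 k) (pu k)

theorem t2 (k : Type*) [Field k] : StmT2 k := T2.t k (jd k)

theorem fca (k : Type*) [Field k] : StmFCa k := FCa.a k (Pool.Agent.N729.HP.jc k)

theorem f3 (k : Type*) [Field k] : StmF3 k := FCa.f3 k (Pool.Agent.N729.HP.jc k)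

theorem fcb (k : Type*) [Field k] : StmFCb k := FCb.b k (Pool.Agent.N729.HP.jc k)

theorem fcc (k : Type*) [Field k] : StmFCc k := FCc.c k (Pool.Agent.N729.HP.jc k) (y1 k)

theorem bd (k : Type*) [Field k] : StmBd k := by
  intro two t n N h h4 htn hn
  rcases Nat.lt_or_ge (n + 2) (2 * t) with hA | hA
  · rcases Nat.lt_or_ge (t + 1) n with h1 | h1
    · -- `e ≥ 2`
      rcases Nat.lt_or_ge (n + 3) (2 * t) with hB | hB
      · obtain ⟨e, rfl⟩ : ∃ e, n = t + e := ⟨n - t, by omega⟩
        rcases Nat.lt_or_ge (e + 5) t with hC | hC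
        · -- `e + 6 ≤ t`
          by_cases h2 : e = 2 ∧ t < 10
          · refine fcb k two t (t + e) N h ?_
            omega
          · refine p k two t e ((t - e - 2) / 2) N h ?_ ?_ ?_ ?_ ?_ <;> omega
        · -- `t = e + 4` or `t = e + 5`
          rcases Nat.lt_or_ge e 4 with h2 | h2
          · have h3 : e = 2 ∨ e = 3 := by omega
            have h5 : t = e + 4 ∨ t = e + 5 := by omega
            rcases h3 with rfl | rfl
            · rcases h5 with rfl | rfl
              · exact fca k two _ _ N h (by omega)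
              · exact fcb k two _ _ N h (by omega)
            · rcases h5 with rfl | rfl
              · exact fcc k two _ _ N h (by omega)
              · exact fcc k two _ _ N h (by omega)
          · exact y k two t e N h h2 (by omega)
      · -- `e = t - 3`
        rcases Nat.lt_or_ge t 8 with h2 | h2
        · have h3 : t = 5 ∨ t = 6 ∨ t = 7 := by omega
          rcases h3 with rfl | rfl | rfl
          · exact fca k two _ _ N h (by omega)
          · exact fcc k two _ _ N h (by omega)
          · obtain rfl : n = 7 + 4 := by omega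
            exact y k two 7 4 N h (by omega) (by omega)
        · exact b k two t n N h h2 (by omega)
    · -- `e = 1`
      have h2 : n = t + 1 := by omega
      rcases Nat.lt_or_ge t 6 with h3 | h3
      · have h5 : t = 4 ∨ t = 5 := by omega
        rcases h5 with rfl | rfl
        · subst h2
          by_cases h3' : (3 : k) = 0
          · exact f3 k h3' N h
          · exact w4 k two h3' N h
        · exact fca k two _ _ N h (by omega)
      · rcases Nat.even_or_odd' t with ⟨m, hm | hm⟩
        · subst hm
          subst h2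
          exact we k two m N h (by omega)
        · obtain rfl : n = 2 * m + 2 := by omega
          subst hm
          exact wok k two m N h (by omega)
  · exact t2 k two t n N h h4 (by omega)

/-- including `t = 3` -/
theorem bd3 (k : Type*) [Field k] (two : (2 : k) ≠ 0) (t n N : ℕ) (h : N + 1 = n + t)
    (h4 : 3 ≤ t) (htn : t < n) (hn : n + 2 ≤ 2 * t) :
    ¬ (permIdeal t (vm k (hk h))).IsPrime := by
  rcases Nat.lt_or_ge 3 t with h5 | h5
  · exact bd k two t n N h h5 htn hn
  · obtain rfl : t = 3 := by omega
    obtain rfl : n = 4 := by omega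
    exact T3.t k (Pool.Agent.N729.HP.BA.ta k) (jd k) two N h

end Pool.Agent.N633.HB
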