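import Pool.Agent.N633.HB.Stm2
import Pool.Agent.N729.HP.SL
import Pool.Agent.N729.HP.BA

/-!
Project HB, part P: the bulk family (helper196).
-/

set_option autoImplicit false

namespace Pool.Agent.N633.HB.P

open Finset
open Pool.Agent.N186.HK (pm vm pm_nil pm_cons)
open Pool.Agent.R831.PermIdeal (permIdeal)
open Pool.Agent.N729.HP (pd Sub hk)

section

variable {k : Type*} [Field k] {t e w : ℕ}

/-- the values in the rows `t - w, …, t - 1`, columns `e + 1, …, e + 1 + w` -/
theorem q_strip (h1 : e + 2 + 2 * w ≤ t) (j c : ℕ) (hj : e + 1 ≤ j)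
    (hj' : j ≤ e + 1 + w) (hc : t - w ≤ c) (hc' : c < t) :
    qP k t e w (j + c) = if j + c + 1 = t + e + 1 ∨ j + c = t + e + 1 then 1 else 0 := by
  unfold qP
  have a1 : j + c ≠ e + 1 := by omega
  have a2 : j + c ≠ e + 1 + w := by omega
  rw [if_neg a1, if_neg a2]
  by_cases a3 : j + c = t + e
  · rw [if_pos a3, if_pos (Or.inl (by omega))]
  · rw [if_neg a3]
    by_cases a4 : j + c = t + e + 1
    · rw [if_pos a4, if_pos (Or.inr a4)]
    · rw [if_neg a4, if_neg (by omega)]

theorem q_row0 (h1 : e + 2 + 2 * w ≤ t) (hw : 2 ≤ w) (j : ℕ)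
    (hj' : j ≤ e + 1 + w) :
    qP k t e w j = if j = e + 1 then 1 else if j = e + 1 + w then -1 else 0 := by
  unfold qP
  have a1 : j ≠ t + e := by omega
  have a2 : j ≠ t + e + 1 := by omega
  rw [if_neg a1, if_neg a2]

/-- permanent with the row `0` on a set of columns in `J0` -/
theorem pm_row0 (h1 : e + 2 + 2 * w ≤ t) (hw : 2 ≤ w) (J : Finset ℕ)
    (hJ : ∀ j ∈ J, j ≤ e + 1 + w) (L : List ℕ) :
    pm (qP k t e w) J (0 :: L) =
      (if e + 1 ∈ J then pm (qP k t e w) (J.erase (e + 1)) L else 0) -
        (if e + 1 + w ∈ J then pm (qP k t e w) (J.erase (e + 1 + w)) L else 0) := by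
  rw [pm_cons]
  have h2 : ∑ j ∈ J, qP k t e w (j + 0) * pm (qP k t e w) (J.erase j) L =
      ∑ j ∈ J, ((if j = e + 1 then pm (qP k t e w) (J.erase (e + 1)) L else 0) -
        (if j = e + 1 + w then pm (qP k t e w) (J.erase (e + 1 + w)) L else 0)) := by
    refine sum_congr rfl fun j hj => ?_
    rw [add_zero, q_row0 h1 hw j (hJ j hj)]
    by_cases a1 : j = e + 1
    · have a2 : j ≠ e + 1 + w := by omega
      rw [if_pos a1, if_pos a1, if_neg a2, one_mul, sub_zero, a1]
    · rw [if_neg a1, if_neg a1]
      by_cases a2 : j = e + 1 + w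
      · rw [if_pos a2, if_pos a2, a2, neg_mul, one_mul, zero_sub]
      · rw [if_neg a2, if_neg a2, zero_mul, sub_zero]
  rw [h2, sum_sub_distrib, sum_ite_eq', sum_ite_eq']

theorem erase_range' : ∀ (n a i : ℕ), a ≤ i → i < a + n →
    (List.range' a n).erase i = List.range' a (i - a) ++ List.range' (i + 1) (a + n - 1 - i) := by
  intro n
  induction n with
  | zero => intro a i h1 h2; omega
  | succ n ih =>
    intro a i h1 h2
    rw [List.range'_succ]
    by_cases h : a = i
    · subst h
      rw [List.erase_cons_head, Nat.sub_self, List.range'_zero, List.nil_append]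
      congr 1
      omega
    · have hne : ¬ (a == i) = true := by simpa using h
      rw [List.erase_cons_tail hne, ih (a + 1) i (by omega) (by omega)]
      have e1 : i - a = (i - (a + 1)) + 1 := by omega
      rw [e1, List.range'_succ, List.cons_append]
      congr 3
      omega

end

/-- the cofactors of the rows `I` -/
theorem cof {k : Type*} [Field k] {t e w : ℕ} (h1 : e + 2 + 2 * w ≤ t) (hw : 2 ≤ w) :
    (∀ z ∈ Icc (e + 1) (e + 1 + w),
      pm (qP k t e w) ((Icc (e + 1) (e + 1 + w)).erase z) (List.range' (t - w) w) = 1) ∧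
    ∀ i, t - w ≤ i → i < t → ∀ z ∈ Icc (e + 1) (e + 1 + w),
      pm (qP k t e w) ((Icc (e + 1) (e + 1 + w)).erase z) (0 :: (List.range' (t - w) w).erase i) =
        if t + e + 1 ≤ z + i then 1 else -1 := by
  obtain ⟨-, s2, s3⟩ := Pool.Agent.N729.HP.SL.t k (Pool.Agent.N729.HP.BA.ta k)
    (Pool.Agent.N729.HP.BA.tb k)
  have e1 : t + e + 1 - t = e + 1 := by omega
  have e2 : t + e + 1 - (t - w) = e + 1 + w := by omega
  have e3 : t - (t - w) = w := by omega
  constructor
  · intro z hz
    have := s2 (qP k t e w) (t + e + 1) (t - w) t (by omega) (by omega) (fun j b1 b2 c b3 b4 =>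
      q_strip h1 j c (by omega) (by omega) b3 b4) z (by rw [e1, e2]; exact hz)
    rw [e1, e2, e3] at this
    exact this
  · intro i hi hi' z hz
    have key : ∀ z' ∈ Icc (e + 1) (e + 1 + w), z ≠ z' →
        pm (qP k t e w) (((Icc (e + 1) (e + 1 + w)).erase z).erase z')
          ((List.range' (t - w) w).erase i) =
        if (z + i < t + e + 1 ∧ t + e + 1 ≤ z' + i) ∨ (z' + i < t + e + 1 ∧ t + e + 1 ≤ z + i)
          then 1 else 0 := by
      intro z' hz' hne
      have := s3 (qP k t e w) (t + e + 1) (t - w) t i hi hi' (by omega) (fun j b1 b2 c b3 b4 _ =>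
        q_strip h1 j c (by omega) (by omega) b3 b4) z (by rw [e1, e2]; exact hz) z'
        (by rw [e1, e2]; exact hz') hne
      rw [e1, e2] at this
      rw [erase_range' w (t - w) i hi (by omega)]
      have e4 : t - w + w - 1 - i = t - 1 - i := by omega
      rw [e4]
      exact this
    rw [mem_Icc] at hz
    rw [pm_row0 h1 hw _ (fun j hj => (mem_Icc.1 (mem_of_mem_erase hj)).2)]
    have m1 : e + 1 ∈ Icc (e + 1) (e + 1 + w) := mem_Icc.2 ⟨le_rfl, by omega⟩
    have m2 : e + 1 + w ∈ Icc (e + 1) (e + 1 + w) := mem_Icc.2 ⟨by omega, le_rfl⟩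
    have v1 : (if e + 1 ∈ (Icc (e + 1) (e + 1 + w)).erase z then
        pm (qP k t e w) (((Icc (e + 1) (e + 1 + w)).erase z).erase (e + 1))
          ((List.range' (t - w) w).erase i) else 0) = if t + e + 1 ≤ z + i then 1 else 0 := by
      by_cases hz1 : z = e + 1
      · rw [if_neg (by rw [mem_erase]; omega), if_neg (by omega)]
      · rw [if_pos (mem_erase.2 ⟨fun h => hz1 h.symm, m1⟩), key _ m1 hz1]
        by_cases c1 : t + e + 1 ≤ z + i
        · rw [if_pos (Or.inr ⟨by omega, c1⟩), if_pos c1]
        · rw [if_neg (by omega), if_neg c1]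
    have v2 : (if e + 1 + w ∈ (Icc (e + 1) (e + 1 + w)).erase z then
        pm (qP k t e w) (((Icc (e + 1) (e + 1 + w)).erase z).erase (e + 1 + w))
          ((List.range' (t - w) w).erase i) else 0) = if t + e + 1 ≤ z + i then 0 else 1 := by
      by_cases hz1 : z = e + 1 + w
      · rw [if_neg (by rw [mem_erase]; omega), if_pos (by omega)]
      · rw [if_pos (mem_erase.2 ⟨fun h => hz1 h.symm, m2⟩), key _ m2 hz1]
        by_cases c1 : t + e + 1 ≤ z + i
        · rw [if_neg (by omega), if_pos c1]
        · rw [if_pos (Or.inl ⟨by omega, by omega⟩), if_neg c1]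
    rw [v1, v2]
    by_cases c1 : t + e + 1 ≤ z + i
    · rw [if_pos c1, if_pos c1, if_pos c1, sub_zero]
    · rw [if_neg c1, if_neg c1, if_neg c1, zero_sub]

theorem t (k : Type*) [Field k] (hJC : Pool.Agent.N729.HP.StmJC k) (hG2 : StmG2 k)
    (hPU : StmPU k) : StmP k := by
  intro h2 t e w N hN he hw hew h1 h3
  obtain ⟨c1, c2⟩ := cof (k := k) h1 hw
  have hnd : (List.range' (t - w) w).Nodup := List.nodup_range'
  have h0 : 0 ∉ List.range' (t - w) w := by
    rw [List.mem_range'_1]
    omega
  -- the rows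
  have hperm : ((0 :: List.range' (t - w) w) ++ List.range' 1 (t - w - 1)).Perm
      (List.range t) := by
    have e1 : List.range t = 0 :: (List.range' 1 (t - w - 1) ++ List.range' (t - w) w) := by
      rw [List.range_eq_range']
      have e2 : t = ((t - w - 1) + w) + 1 := by omega
      conv_lhs => rw [e2, List.range'_succ]
      congr 1
      have e3 : t - w = 0 + 1 + (t - w - 1) := by omega
      conv_rhs => rw [e3]
      rw [zero_add, show 1 + (t - w - 1) - 1 = t - w - 1 by omega]
      exact (List.range'_append_1).symm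
    rw [e1, List.cons_append]
    exact (List.perm_append_comm).cons 0
  have hJ0c : (Icc (e + 1) (e + 1 + w)).card = w + 1 := by
    rw [Nat.card_Icc]
    omega
  have hIl : (0 :: List.range' (t - w) w).length = w + 1 := by
    rw [List.length_cons, List.length_range']
  obtain ⟨hmem, hrel⟩ := hG2 (t + e) t (qP k t e w) (0 :: List.range' (t - w) w)
    (List.range' 1 (t - w - 1)) (Icc (e + 1) (e + 1 + w)) hperm
    (by intro j hj; rw [mem_Icc] at hj; omega)
    (by
      intro c hc j hj hj0
      rw [mem_Icc] at hj0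
      rw [List.mem_cons, List.mem_range'_1] at hc
      unfold qP
      rw [if_neg (by omega), if_neg (by omega), if_neg (by omega), if_neg (by omega)])
    (by
      intro J₁ hJ₁ hc
      have hJe : J₁ = Icc (e + 1) (e + 1 + w) := by
        refine eq_of_subset_of_card_le hJ₁ ?_
        rw [hc, hIl, hJ0c]
      rw [hJe, pm_row0 h1 hw _ (fun j hj => (mem_Icc.1 hj).2),
        if_pos (mem_Icc.2 ⟨le_rfl, by omega⟩), if_pos (mem_Icc.2 ⟨by omega, le_rfl⟩),
        c1 _ (mem_Icc.2 ⟨le_rfl, by omega⟩), c1 _ (mem_Icc.2 ⟨by omega, le_rfl⟩), sub_self])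
    (by
      intro v hv
      have htf : (0 :: List.range' (t - w) w).toFinset = insert 0 (Ico (t - w) t) := by
        ext c
        rw [List.mem_toFinset, List.mem_cons, List.mem_range'_1, mem_insert, mem_Ico]
        omega
      have hrel : ∀ z ∈ Icc (e + 1) (e + 1 + w),
          v 0 + ∑ i ∈ Ico (t - w) t, v i * (if t + e + 1 ≤ z + i then 1 else -1) = 0 := by
        intro z hz
        have h4 := hv ((Icc (e + 1) (e + 1 + w)).erase z) (erase_subset _ _)
          (by rw [card_erase_of_mem hz, hJ0c, hIl]; omega)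
        rw [htf, sum_insert (by rw [mem_Ico]; omega), List.erase_cons_head, c1 z hz,
          mul_one] at h4
        rw [← h4]
        congr 1
        refine sum_congr rfl fun i hi => ?_
        rw [mem_Ico] at hi
        have hne : ¬ ((0 : ℕ) == i) = true := by
          have : (0 : ℕ) ≠ i := by omega
          simpa using this
        rw [List.erase_cons_tail hne, c2 i hi.1 hi.2 z hz]
      have hvi : ∀ i ∈ Ico (t - w) t, v i = 0 := by
        intro i hi
        rw [mem_Ico] at hi
        have a1 := hrel (t + e - i) (mem_Icc.2 ⟨by omega, by omega⟩)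
        have a2 := hrel (t + e + 1 - i) (mem_Icc.2 ⟨by omega, by omega⟩)
        have a3 : ∑ i' ∈ Ico (t - w) t, (v i' * (if t + e + 1 ≤ t + e + 1 - i + i' then 1 else -1) -
            v i' * (if t + e + 1 ≤ t + e - i + i' then 1 else -1)) = 0 := by
          rw [sum_sub_distrib]
          linear_combination a2 - a1
        rw [sum_eq_single i] at a3
        · rw [if_pos (by omega), if_neg (by omega)] at a3
          have a4 : 2 * v i = 0 := by linear_combination a3
          exact (mul_eq_zero.1 a4).resolve_left h2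
        · intro b hb hbi
          rw [mem_Ico] at hb
          by_cases c3 : t + e + 1 ≤ t + e - i + b
          · rw [if_pos (by omega), if_pos c3, sub_self]
          · rw [if_neg (by omega), if_neg c3, sub_self]
        · intro hni
          exact absurd (mem_Ico.2 hi) hni
      intro c hc
      rw [List.mem_cons, List.mem_range'_1] at hc
      rcases hc with rfl | hc
      · have a1 := hrel (e + 1) (mem_Icc.2 ⟨le_rfl, by omega⟩)
        rw [sum_eq_zero (fun i hi => by rw [hvi i hi, zero_mul]), add_zero] at a1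
        exact a1
      · exact hvi c (mem_Ico.2 ⟨hc.1, by omega⟩))
  -- the criterion
  refine hJC N (t + e) t t hN (by omega) (by omega) le_rfl (qP k t e w) hmem
    (Icc e (t - w) ∪ Ico (t + e) (2 * t - 2 * w)) ?_ ?_
  · refine lt_of_le_of_lt (card_union_le _ _) ?_
    rw [Nat.card_Icc, Nat.card_Ico]
    omega
  · intro y hS hy v hv
    have hR := hrel y hy
    have hU : ∀ c, (c = 0 ∨ (t - w ≤ c ∧ c < t)) →
        (∀ m, ((2 ≤ m ∧ m ≤ e) ∨ (w + 1 ≤ m ∧ m + 1 ≤ e + w)) → y (t + e - m + c) = 0) ∧
        (∀ i, 2 ≤ i → i ≤ e → y (e + 1 - i + c) = 0) ∧ y (e + c) = - y (t + e - 1 + c) ∧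
        y (0 + c) = y (t + e - e - w + c) := by
      intro c hc
      have hcI : c ∈ 0 :: List.range' (t - w) w := by
        rw [List.mem_cons, List.mem_range'_1]
        omega
      refine hPU h2 (qP k t e w) (fun j => y (j + c)) (t + e) e w (t - w - 1) he hw hew (by omega)
        (by omega) ?_ ?_ ?_
      · intro m hm hm' ρ hρ hρ'
        unfold qP
        rw [if_neg (by omega), if_neg (by omega)]
        by_cases b1 : ρ = m
        · rw [if_pos (by omega), if_pos (Or.inl b1)]
        · rw [if_neg (by omega)]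
          by_cases b2 : ρ = m + 1
          · rw [if_pos (by omega), if_pos (Or.inr b2)]
          · rw [if_neg (by omega), if_neg (by omega)]
      · intro i hi hi' ρ hρ hρ'
        unfold qP
        by_cases b1 : ρ = i
        · rw [if_pos (by omega), if_pos b1]
        · rw [if_neg (by omega), if_neg b1]
          by_cases b2 : ρ = i + w
          · rw [if_pos (by omega), if_pos b2]
          · rw [if_neg (by omega), if_neg b2, if_neg (by omega), if_neg (by omega)]
      · intro J₂ hJ₂ hcard
        refine hR c hcI J₂ ?_ ?_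
        · intro j hj
          have hj2 := hJ₂ hj
          rw [mem_union, mem_range, pth, mem_image] at hj2
          rw [mem_Icc]
          rcases hj2 with ⟨m, hm, rfl⟩ | hj2
          · rw [mem_Ico] at hm
            omega
          · omega
        · rw [hcard, List.length_range']
    have hS' : ∀ s, (e ≤ s ∧ s ≤ t - w) ∨ (t + e ≤ s ∧ s < 2 * t - 2 * w) → y s = 0 := by
      intro s hs
      refine hS s ?_
      rw [mem_union, mem_Icc, mem_Ico]
      exact hs
    obtain ⟨u1, u2, u3, u4⟩ := hU 0 (Or.inl rfl)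
    simp only [add_zero] at u1 u2 u3 u4
    have e4 : t + e - e - w = t - w := by omega
    rw [e4] at u4
    have y0 : y 0 = 0 := by rw [u4]; exact hS' _ (Or.inl ⟨by omega, le_rfl⟩)
    have ye : y e = 0 := hS' _ (Or.inl ⟨le_rfl, by omega⟩)
    have y1 : y (t + e - 1) = 0 := by
      have := u3
      rw [ye] at this
      exact neg_eq_zero.1 this.symm
    by_cases b0 : v = 0
    · rw [b0]; exact y0
    by_cases b1 : v < e
    · have := u2 (e + 1 - v) (by omega) (by omega)
      rwa [show e + 1 - (e + 1 - v) = v by omega] at this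
    by_cases b2 : v ≤ t - w
    · exact hS' v (Or.inl ⟨by omega, b2⟩)
    by_cases b3 : v + 2 ≤ t + e
    · -- `v` in `[t - w + 1, t + e - 2]`
      by_cases b4 : v ≤ t
      · obtain ⟨-, w2, -, -⟩ := hU (v - 1) (Or.inr ⟨by omega, by omega⟩)
        have := w2 e he le_rfl
        rwa [show e + 1 - e + (v - 1) = v by omega] at this
      · obtain ⟨-, w2, -, -⟩ := hU (t - 1) (Or.inr ⟨by omega, by omega⟩)
        have := w2 (e + t - v) (by omega) (by omega)
        rwa [show e + 1 - (e + t - v) + (t - 1) = v by omega] at this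
    by_cases b5 : v = t + e - 1
    · rw [b5]; exact y1
    by_cases b6 : v < 2 * t - 2 * w
    · exact hS' v (Or.inr ⟨by omega, b6⟩)
    by_cases b7 : v = 2 * t - 2 * w
    · obtain ⟨-, -, -, w4⟩ := hU (t - w) (Or.inr ⟨le_rfl, by omega⟩)
      rw [e4, zero_add, hS' (t - w) (Or.inl ⟨by omega, le_rfl⟩)] at w4
      rw [b7, show 2 * t - 2 * w = t - w + (t - w) by omega]
      exact w4.symm
    by_cases b8 : v + 3 ≤ 2 * t + e
    · -- `v` in `[2 t - 2 w + 1, 2 t + e - 3]`
      by_cases b9 : v + w + 2 ≤ 2 * t + e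
      · -- `m` in `[w + 1, e + w - 1]`
        by_cases b10 : v + w ≤ 2 * t
        · obtain ⟨w1, -, -, -⟩ := hU (v + w - t - 1) (Or.inr ⟨by omega, by omega⟩)
          have := w1 (e + w - 1) (Or.inr ⟨by omega, by omega⟩)
          rwa [show t + e - (e + w - 1) + (v + w - t - 1) = v by omega] at this
        · obtain ⟨w1, -, -, -⟩ := hU (t - 1) (Or.inr ⟨by omega, by omega⟩)
          have := w1 (2 * t + e - 1 - v) (Or.inr ⟨by omega, by omega⟩)
          rwa [show t + e - (2 * t + e - 1 - v) + (t - 1) = v by omega] at this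
      · -- `m` in `[2, e]`
        by_cases b10 : v < 2 * t
        · obtain ⟨w1, -, -, -⟩ := hU (v - t) (Or.inr ⟨by omega, by omega⟩)
          have := w1 e (Or.inl ⟨by omega, by omega⟩)
          rwa [show t + e - e + (v - t) = v by omega] at this
        · obtain ⟨w1, -, -, -⟩ := hU (t - 1) (Or.inr ⟨by omega, by omega⟩)
          have := w1 (2 * t + e - 1 - v) (Or.inl ⟨by omega, by omega⟩)
          rwa [show t + e - (2 * t + e - 1 - v) + (t - 1) = v by omega] at this
    · have hv2 : v = t + e - 1 + (t - 1) := by omega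
      obtain ⟨-, -, w3, -⟩ := hU (t - 1) (Or.inr ⟨by omega, by omega⟩)
      rw [show e + (t - 1) = t + e - 1 by omega, y1] at w3
      rw [hv2]
      exact neg_eq_zero.1 w3.symm

end Pool.Agent.N633.HB.P
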