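import Pool.Agent.N729.HP.Stm

/-!
Project HB (MP_9bc296_ag): the boundary case `m = t`, `n = t + e` of the Hankel permanental ideals
`P_t`. Definitions and statements, part 1: tools, and the case `e = 1`.

Convention: `J` is a finite set of long indices (`< n`, columns), `L` a list of short indices
(`< m`, rows), `pm x J L` is the permanent of `x (j + c)`, `j ∈ J`, `c ∈ L` (`N186/HK/Pm.lean`).
-/

set_option autoImplicit false

namespace Pool.Agent.N633.HB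

open Finset
open Pool.Agent.N186.HK (pm vm)
open Pool.Agent.R831.PermIdeal (permIdeal)
open Pool.Agent.N729.HP (pd Sub hk)

/-- the coefficient of `ε ^ 2` of `pm (x + ε y) J L` -/
def p2 {D : Type*} [CommSemiring D] (x y : ℕ → D) : Finset ℕ → List ℕ → D
  | _, [] => 0
  | J, c :: L => ∑ j ∈ J, (y (j + c) * pd x y (J.erase j) L + x (j + c) * p2 x y (J.erase j) L)

/-! ### Tools -/

/-- JD: second order criterion -/
def StmJD (k : Type*) [Field k] : Prop :=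
  (2 : k) ≠ 0 → ∀ (N n m t : ℕ) (h : N + 1 = n + m), 2 ≤ t → t ≤ n → t ≤ m → ∀ q : ℕ → k,
    (∀ J L, Sub n m t J L → pm q J L = 0) → ∀ S : Finset ℕ, S.card ≤ t →
    (∀ y : ℕ → k, (∀ s ∈ S, y s = 0) → (∀ J L, Sub n m t J L → pd q y J L = 0) →
      ∀ v < N, y v = 0) →
    (permIdeal t (vm k (hk h))).IsPrime → ∀ s ∈ S, s < N →
    ∃ y : ℕ → k, y s = 1 ∧ (∀ v ∈ S, v ≠ s → y v = 0) ∧
      (∀ J L, Sub n m t J L → pd q y J L = 0) ∧
      ∀ (J J' : Finset ℕ) (L L' : List ℕ) (a b : k), Sub n m t J L → Sub n m t J' L' →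
        (∀ y' : ℕ → k, a * pd q y' J L + b * pd q y' J' L' = 0) →
        a * p2 q y J L + b * p2 q y J' L' = 0

/-- BX: base change to the field of rational functions -/
def StmBX (k : Type*) [Field k] : Prop :=
  ∀ (N n m t : ℕ) (h : N + 1 = n + m), (permIdeal t (vm k (hk h))).IsPrime →
    (permIdeal t (vm (RatFunc k) (hk h))).IsPrime

/-- PX: `pm`, `pd`, `p2` are the first three coefficients of `pm (x + ε y)` -/
def StmPX (D : Type*) [CommRing D] : Prop :=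
  ∀ (x y : ℕ → D) (J : Finset ℕ) (L : List ℕ),
    (pm (fun s => Polynomial.C (x s) + Polynomial.X * Polynomial.C (y s)) J L).coeff 0 =
      pm x J L ∧
    (pm (fun s => Polynomial.C (x s) + Polynomial.X * Polynomial.C (y s)) J L).coeff 1 =
      pd x y J L ∧
    (pm (fun s => Polynomial.C (x s) + Polynomial.X * Polynomial.C (y s)) J L).coeff 2 =
      p2 x y J L

/-- LE: Laplace expansion for a splitting of the rows, and invariance of `p2` under permutations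
of the rows -/
def StmLE (D : Type*) [CommRing D] : Prop :=
  (∀ (x : ℕ → D) (J : Finset ℕ) (L₁ L₂ : List ℕ),
    pm x J (L₁ ++ L₂) = ∑ J₁ ∈ J.powersetCard L₁.length, pm x J₁ L₁ * pm x (J \ J₁) L₂) ∧
  (∀ (x y : ℕ → D) (J : Finset ℕ) (L₁ L₂ : List ℕ),
    pd x y J (L₁ ++ L₂) = ∑ J₁ ∈ J.powersetCard L₁.length,
      (pd x y J₁ L₁ * pm x (J \ J₁) L₂ + pm x J₁ L₁ * pd x y (J \ J₁) L₂)) ∧
  (∀ (x y : ℕ → D) (J : Finset ℕ) (L₁ L₂ : List ℕ),
    p2 x y J (L₁ ++ L₂) = ∑ J₁ ∈ J.powersetCard L₁.length,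
      (p2 x y J₁ L₁ * pm x (J \ J₁) L₂ + pd x y J₁ L₁ * pd x y (J \ J₁) L₂ +
        pm x J₁ L₁ * p2 x y (J \ J₁) L₂)) ∧
  (∀ (x y : ℕ → D) (L L' : List ℕ), L.Perm L' → ∀ J, p2 x y J L = p2 x y J L')

/-- CE: expansion along the column `j` -/
def StmCE (D : Type*) [CommRing D] : Prop :=
  (∀ (x : ℕ → D) (J : Finset ℕ) (L : List ℕ), L.Nodup → J.card = L.length → ∀ j ∈ J,
    pm x J L = ∑ c ∈ L.toFinset, x (j + c) * pm x (J.erase j) (L.erase c)) ∧
  (∀ (x y : ℕ → D) (J : Finset ℕ) (L : List ℕ), L.Nodup → J.card = L.length → ∀ j ∈ J,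
    pd x y J L = ∑ c ∈ L.toFinset,
      (y (j + c) * pm x (J.erase j) (L.erase c) + x (j + c) * pd x y (J.erase j) (L.erase c))) ∧
  (∀ (x y : ℕ → D) (J : Finset ℕ) (L : List ℕ), L.Nodup → J.card = L.length → ∀ j ∈ J,
    p2 x y J L = ∑ c ∈ L.toFinset,
      (y (j + c) * pd x y (J.erase j) (L.erase c) + x (j + c) * p2 x y (J.erase j) (L.erase c)))

/-! ### The case `e = 1`: the points -/

/-- the sequence `1, Y 0, 0, Y 1, 0, Y 2, 0, …` -/
def eq1 {k : Type*} [Field k] (Y : ℕ → k) (v : ℕ) : k :=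
  if v = 0 then 1 else if v % 2 = 1 then Y (v / 2) else 0

/-- the cofactors of the Hankel matrix `Y (i + l)`, `i, l < a` (`i` the row, `l` the column) -/
def cfA {k : Type*} [Field k] (Y : ℕ → k) (a i l : ℕ) : k :=
  pm Y ((range a).erase l) ((List.range a).erase i)

/-- the cofactors of the Hankel matrix `Y (i + l + 1)`, `i, l < b` -/
def cfB {k : Type*} [Field k] (Y : ℕ → k) (b i l : ℕ) : k :=
  pm (fun s => Y (s + 1)) ((range b).erase l) ((List.range b).erase i)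

/-- the derivative of the permanent of the first block in the direction `y` -/
def dH {k : Type*} [Field k] (Y y : ℕ → k) (a : ℕ) : k :=
  pd Y (fun s => y (2 * s + 1)) (range a) (List.range a)

/-- the derivative of the permanent of the second block in the direction `y` -/
def dK {k : Type*} [Field k] (Y y : ℕ → k) (b : ℕ) : k :=
  pd (fun s => Y (s + 1)) (fun s => y (2 * s + 3)) (range b) (List.range b)

/-- the relations; `A`, `B` cofactors, `w` the values of `y` at the even places, `η = dH`,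
`δ = dK` -/
structure Rel1 {k : Type*} [Field k] (Y : ℕ → k) (a b : ℕ) (A B : ℕ → ℕ → k) (w : ℕ → k)
    (η δ : k) : Prop where
  r1 : ∀ l < a, A 0 l * δ + ∑ i ∈ range a, ∑ r ∈ range b,
    w (i + r + 1) * A i l * (∑ i' ∈ range b, Y i' * B i' r) = 0
  r2 : ∀ r < b, η * (∑ i' ∈ range b, Y i' * B i' r) +
    ∑ i ∈ range b, ∑ l ∈ range a, w (i + l + 1) * A 0 l * B i r = 0

/-- the quadratic form -/
def qf {k : Type*} [Field k] (a b : ℕ) (A B : ℕ → ℕ → k) (w : ℕ → k) : k :=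
  ∑ i ∈ range a, ∑ r ∈ range b, ∑ i' ∈ range b, ∑ l ∈ range a,
    w (i + r + 1) * w (i' + l + 1) * A i l * B i' r

/-- W1: the points `eq1 Y` for the `t × (t + 1)` Hankel matrix, `a = ⌈t/2⌉`, `b = ⌊t/2⌋` -/
def StmW1 (k : Type*) [Field k] : Prop :=
  ∀ (t a b : ℕ) (Y : ℕ → k), 2 ≤ t → a = (t + 1) / 2 → b = t / 2 →
    pm Y (range a) (List.range a) = 0 → pm (fun s => Y (s + 1)) (range b) (List.range b) = 0 →
    (∀ J L, Sub (t + 1) t t J L → pm (eq1 Y) J L = 0) ∧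
    (∀ y : ℕ → k, (∀ J L, Sub (t + 1) t t J L → pd (eq1 Y) y J L = 0) →
      Rel1 Y a b (cfA Y a) (cfB Y b) (fun s => y (2 * s)) (dH Y y a) (dK Y y b)) ∧
    (∀ y : ℕ → k, pd (eq1 Y) y ((range (t + 1)).erase 0) (List.range t) = 0) ∧
    (∀ y : ℕ → k, p2 (eq1 Y) y ((range (t + 1)).erase 0) (List.range t) =
      dH Y y a * dK Y y b + qf a b (cfA Y a) (cfB Y b) (fun s => y (2 * s)))

/-! ### `e = 1`, `t = 2 m` even, `m ≥ 3` -/

/-- the sequence `Y` -/
def uE (k : Type*) [Field k] (m s : ℕ) : k :=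
  if s + 2 = m then 1 else if s + 1 = m then 1 else
    if s + 2 = 2 * m then -1 else if s + 1 = 2 * m then -1 else 0

def AE (k : Type*) [Field k] (m i l : ℕ) : k := if m ≤ i + l + 1 then 1 else -1

def BE (k : Type*) [Field k] (m i l : ℕ) : k :=
  if i + 1 = m ∧ l + 1 = m then 1 else if i + 1 = m ∨ l + 1 = m then -1 else
    if i + l + 2 < m then 1 else -1

/-- WE1: the cofactors -/
def StmWE1 (k : Type*) [Field k] : Prop := ∀ m : ℕ, 3 ≤ m →
  pm (uE k m) (range m) (List.range m) = 0 ∧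
  pm (fun s => uE k m (s + 1)) (range m) (List.range m) = 0 ∧
  (∀ i < m, ∀ l < m, cfA (uE k m) m i l = AE k m i l) ∧
  (∀ i < m, ∀ l < m, cfB (uE k m) m i l = BE k m i l)

/-- WE2: linear algebra -/
def StmWE2 (k : Type*) [Field k] : Prop := (2 : k) ≠ 0 → ∀ m : ℕ, 3 ≤ m →
  ∀ (w : ℕ → k) (η δ : k), Rel1 (uE k m) m m (AE k m) (BE k m) w η δ →
    w 1 = 2 * η ∧ w (m - 1) = - η ∧ w m = η ∧ w (2 * m - 2) = - η ∧ w (2 * m - 1) = - η ∧
    (∀ s, 1 ≤ s → s < 2 * m → s ≠ 1 → s ≠ m - 1 → s ≠ m → s ≠ 2 * m - 2 → s ≠ 2 * m - 1 →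
      w s = 0) ∧ δ = 2 * η

/-- WE3: the quadratic form -/
def StmWE3 (k : Type*) [Field k] : Prop := ∀ m : ℕ, 3 ≤ m → ∀ (w : ℕ → k) (η : k),
    w 1 = 2 * η → w (m - 1) = - η → w m = η → w (2 * m - 2) = - η → w (2 * m - 1) = - η →
    (∀ s, 1 ≤ s → s < 2 * m → s ≠ 1 → s ≠ m - 1 → s ≠ m → s ≠ 2 * m - 2 → s ≠ 2 * m - 1 →
      w s = 0) → qf m m (AE k m) (BE k m) w = 14 * η ^ 2

/-- WE: the even case -/
def StmWE (k : Type*) [Field k] : Prop := (2 : k) ≠ 0 → ∀ (m N : ℕ)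
  (h : N + 1 = (2 * m + 1) + 2 * m), 3 ≤ m → ¬ (permIdeal (2 * m) (vm k (hk h))).IsPrime

/-! ### `e = 1`, `t = 2 m + 1` odd, `m ≥ 3`, with a parameter `g` -/

/-- the sequence `Y` -/
noncomputable def uO {k : Type*} [Field k] (g : k) (m s : ℕ) : k :=
  if s = 0 then g ^ 2 else if s = 1 then g else if s = m then 1 else if s = m + 1 then 1 else
    if s + 1 = 2 * m then - (1 + g) / g else 0

noncomputable def AO {k : Type*} [Field k] (g : k) (m i l : ℕ) : k :=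
  if i = m ∧ l = m then 2 * g ^ 2 else if i = m ∨ l = m then 0 else
    if i = 0 ∧ l = 0 then - (2 + g) / g else if i + l = 1 then 2 + g else
      if i = 0 ∨ l = 0 then - g else if i = 1 ∧ l = 1 then 2 + 2 * g + g ^ 2 else
        if i + l ≤ m then - (g * (2 + g)) else g * (2 + g)

noncomputable def BO {k : Type*} [Field k] (g : k) (m i l : ℕ) : k :=
  if i = 0 ∧ l = 0 then - 1 / g else if i = 0 ∨ l = 0 then 1 else
    if i + l < m then - g else g

/-- WO1: the cofactors -/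
def StmWO1 (k : Type*) [Field k] : Prop := ∀ g : k, g ≠ 0 → ∀ m : ℕ, 3 ≤ m →
  pm (uO g m) (range (m + 1)) (List.range (m + 1)) = 0 ∧
  pm (fun s => uO g m (s + 1)) (range m) (List.range m) = 0 ∧
  (∀ i < m + 1, ∀ l < m + 1, cfA (uO g m) (m + 1) i l = AO g m i l) ∧
  (∀ i < m, ∀ l < m, cfB (uO g m) m i l = BO g m i l)

/-- WO2: linear algebra and the quadratic form -/
def StmWO2 (k : Type*) [Field k] : Prop := (2 : k) ≠ 0 → ∀ g : k, g ≠ 0 → 1 + g ≠ 0 →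
  2 + g ≠ 0 → ∀ m : ℕ, 3 ≤ m → ∀ (w : ℕ → k) (η δ : k),
    Rel1 (uO g m) (m + 1) m (AO g m) (BO g m) w η δ →
    w 1 = 2 * g * w 2 ∧ (2 + g) * w 2 = g ^ 2 * η ∧ (∀ s, 3 ≤ s → s ≤ 2 * m → w s = 0) ∧
    δ = 0 ∧ g * qf (m + 1) m (AO g m) (BO g m) w = - (2 * (1 + g) ^ 2) * w 2 ^ 2

/-- WO: the odd case -/
def StmWO (k : Type*) [Field k] : Prop := (2 : k) ≠ 0 → ∀ g : k, g ≠ 0 → 1 + g ≠ 0 →
  2 + g ≠ 0 → ∀ (m N : ℕ) (h : N + 1 = (2 * m + 2) + (2 * m + 1)), 3 ≤ m →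
    ¬ (permIdeal (2 * m + 1) (vm k (hk h))).IsPrime

/-- WOk: the odd case without parameter -/
def StmWOk (k : Type*) [Field k] : Prop := (2 : k) ≠ 0 → ∀ (m N : ℕ)
  (h : N + 1 = (2 * m + 2) + (2 * m + 1)), 3 ≤ m → ¬ (permIdeal (2 * m + 1) (vm k (hk h))).IsPrime

/-- W4: `t = 4`, `n = 5`, characteristic `≠ 3` -/
def StmW4 (k : Type*) [Field k] : Prop := (2 : k) ≠ 0 → (3 : k) ≠ 0 →
  ∀ (N : ℕ) (h : N + 1 = 5 + 4), ¬ (permIdeal 4 (vm k (hk h))).IsPrime

end Pool.Agent.N633.HB
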