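import Pool.Agent.N633.HB.Stm2
import Pool.Agent.N633.HB.LE
import Pool.Agent.N729.HP.SL

/-!
Project HB, part T2: the case `e = t - 2`, second order.
-/

set_option autoImplicit false

namespace Pool.Agent.N633.HB.T2

open Finset
open Pool.Agent.N186.HK (pm vm pm_nil pm_cons)
open Pool.Agent.R831.PermIdeal (permIdeal)
open Pool.Agent.N729.HP (pd Sub hk)
open Pool.Agent.N633.HB

section

variable {k : Type*} [Field k]

lemma pd_cons (x y : ℕ → k) (J : Finset ℕ) (c : ℕ) (L : List ℕ) :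
    pd x y J (c :: L) =
      ∑ j ∈ J, (y (j + c) * pm x (J.erase j) L + x (j + c) * pd x y (J.erase j) L) := by
  rw [pd]

lemma p2_cons (x y : ℕ → k) (J : Finset ℕ) (c : ℕ) (L : List ℕ) :
    p2 x y J (c :: L) =
      ∑ j ∈ J, (y (j + c) * pd x y (J.erase j) L + x (j + c) * p2 x y (J.erase j) L) := by
  rw [p2]

lemma zc (x : ℕ → k) (J : Finset ℕ) (L : List ℕ) (h : J.card ≤ L.length) (j : ℕ) (hj : j ∈ J)
    (h0 : ∀ c ∈ L, x (j + c) = 0) : pm x J L = 0 :=
  (Pool.Agent.N729.HP.SL.t k (Pool.Agent.N729.HP.BA.ta k) (Pool.Agent.N729.HP.BA.tb k)).1 x J L h j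
    hj h0

lemma colsingle (x : ℕ → k) (J : Finset ℕ) (L : List ℕ) (hL : L.Nodup) (hJ : J.card = L.length)
    (j : ℕ) (hj : j ∈ J) (c0 : ℕ) (hc0 : c0 ∈ L) (h0 : ∀ c ∈ L, c ≠ c0 → x (j + c) = 0) :
    pm x J L = x (j + c0) * pm x (J.erase j) (L.erase c0) := by
  rw [(LE.ce k).1 x J L hL hJ j hj, Finset.sum_eq_single c0]
  · intro c hc hne
    rw [h0 c (List.mem_toFinset.1 hc) hne, zero_mul]
  · intro h
    exact absurd (List.mem_toFinset.2 hc0) h

lemma diag (x : ℕ → k) (κ : ℕ → ℕ) : ∀ (n : ℕ) (J : Finset ℕ) (L : List ℕ), J.card = n →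
    L.Nodup → J.card = L.length → (∀ j ∈ J, κ j ∈ L) →
    (∀ j ∈ J, ∀ c ∈ L, c ≠ κ j → x (j + c) = 0) → (∀ a ∈ J, ∀ b ∈ J, κ a = κ b → a = b) →
    pm x J L = ∏ j ∈ J, x (j + κ j) := by
  intro n
  induction n with
  | zero =>
    intro J L hn _ hJL _ _ _
    have h1 : L = [] := List.length_eq_zero_iff.1 (by omega)
    rw [h1, pm_nil, Finset.card_eq_zero.1 hn, Finset.prod_empty]
  | succ n ih =>
    intro J L hn hL hJL hκ hx hinj
    obtain ⟨j, hj⟩ := Finset.card_pos.1 (by omega : 0 < J.card)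
    have h1 : (J.erase j).card = n := by rw [card_erase_of_mem hj]; omega
    have h2 : (L.erase (κ j)).length = n := by
      rw [List.length_erase_of_mem (hκ j hj)]; omega
    rw [colsingle x J L hL hJL j hj (κ j) (hκ j hj) (hx j hj),
      ih (J.erase j) (L.erase (κ j)) h1 (hL.erase _) (by omega), Finset.mul_prod_erase J
        (fun j => x (j + κ j)) hj]
    · intro i hi
      rw [hL.mem_erase_iff]
      obtain ⟨h3, h4⟩ := mem_erase.1 hi
      exact ⟨fun h => h3 (hinj i h4 j hj h), hκ i h4⟩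
    · intro i hi c hc hne
      exact hx i (mem_of_mem_erase hi) c (List.mem_of_mem_erase hc) hne
    · intro a ha b hb h
      exact hinj a (mem_of_mem_erase ha) b (mem_of_mem_erase hb) h

lemma nondiag (x : ℕ → k) (J : Finset ℕ) (L : List ℕ) (hL : L.Nodup) (hJ : J.card = L.length)
    (a b : ℕ) (ha : a ∈ J) (hb : b ∈ J) (hab : a ≠ b) (c0 : ℕ) (hc0 : c0 ∈ L)
    (h1 : ∀ c ∈ L, c ≠ c0 → x (a + c) = 0) (h2 : ∀ c ∈ L, c ≠ c0 → x (b + c) = 0) :
    pm x J L = 0 := by
  rw [colsingle x J L hL hJ a ha c0 hc0 h1, zc x _ _ _ b (mem_erase.2 ⟨hab.symm, hb⟩), mul_zero]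
  · intro c hc
    rw [hL.mem_erase_iff] at hc
    exact h2 c hc.2 hc.1
  · rw [card_erase_of_mem ha, List.length_erase_of_mem hc0, hJ]

/-- the point -/
def q (k : Type*) [Field k] (d v : ℕ) : k :=
  if v = 1 then 1 else if v = 1 + d then 1 else if v = 1 + 2 * d then -1 else 0

lemma q0 (d v : ℕ) (h1 : v ≠ 1) (h2 : v ≠ 1 + d) (h3 : v ≠ 1 + 2 * d) : q k d v = 0 := by
  unfold q; rw [if_neg h1, if_neg h2, if_neg h3]

lemma q1 (d v : ℕ) (h : v = 1 ∨ v = 1 + d) : q k d v = 1 := by
  unfold q; split_ifs <;> first | rfl | omega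

lemma q3 (d v : ℕ) (hd : 0 < d) (h : v = 1 + 2 * d) : q k d v = -1 := by
  unfold q; split_ifs <;> first | rfl | omega

/-- the row of a column -/
def κ (d j : ℕ) : ℕ := if j = 0 ∨ j = d then 1 else if j < d then d + 1 - j else 2 * d + 1 - j

/-- the rows different from `0`, `d` -/
def R (d : ℕ) : List ℕ := List.range' 1 (d - 1)

lemma mem_R (d c : ℕ) (hd : 3 ≤ d) : c ∈ R d ↔ 1 ≤ c ∧ c < d := by
  unfold R; rw [List.mem_range'_1]; omega

lemma R_nodup (d : ℕ) : (R d).Nodup := List.nodup_range'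

lemma R_length (d : ℕ) : (R d).length = d - 1 := List.length_range'

/-- the columns different from `1`, `1 + d` -/
def Good (d j : ℕ) : Prop := j < 2 * d ∧ j ≠ 1 ∧ j ≠ 1 + d

lemma κ_mem (d j : ℕ) (hd : 3 ≤ d) (hj : Good d j) : κ d j ∈ R d := by
  obtain ⟨h1, h2, h3⟩ := hj
  rw [mem_R d _ hd]
  unfold κ
  split_ifs <;> omega

lemma off (d j : ℕ) (hd : 3 ≤ d) (hj : Good d j) : ∀ c ∈ R d, c ≠ κ d j → q k d (j + c) = 0 := by
  obtain ⟨h1, h2, h3⟩ := hj
  intro c hc hne
  rw [mem_R d _ hd] at hc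
  unfold κ at hne
  apply q0 <;> split_ifs at hne <;> omega

lemma on (d j : ℕ) (hd : 3 ≤ d) (hj : Good d j) :
    q k d (j + κ d j) = if d + 2 ≤ j then -1 else 1 := by
  obtain ⟨h1, h2, h3⟩ := hj
  unfold κ
  by_cases h : d + 2 ≤ j
  · rw [if_pos h, if_neg (by omega), if_neg (by omega)]
    exact q3 d _ (by omega) (by omega)
  · rw [if_neg h]
    apply q1
    split_ifs <;> omega

lemma val (d : ℕ) (hd : 3 ≤ d) (A : Finset ℕ) (hA : ∀ j ∈ A, Good d j) (hc : A.card = d - 1)
    (hinj : ∀ a ∈ A, ∀ b ∈ A, κ d a = κ d b → a = b) :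
    pm (q k d) A (R d) = ∏ j ∈ A, (if d + 2 ≤ j then (-1 : k) else 1) := by
  rw [diag (q k d) (κ d) _ A (R d) rfl (R_nodup d) (by rw [R_length, hc])
    (fun j hj => κ_mem d j hd (hA j hj)) (fun j hj => off d j hd (hA j hj)) hinj]
  exact prod_congr rfl fun j hj => on d j hd (hA j hj)

lemma sumK (d : ℕ) (hd : 3 ≤ d) (K : Finset ℕ) (hK : ∀ j ∈ K, Good d j) (hc : K.card = d)
    (a b : ℕ) (ha : a ∈ K) (hb : b ∈ K) (hab : a ≠ b) (h : κ d a = κ d b) (z : ℕ → k) :
    ∑ j ∈ K, z j * pm (q k d) (K.erase j) (R d) =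
      z a * pm (q k d) (K.erase a) (R d) + z b * pm (q k d) (K.erase b) (R d) := by
  refine Finset.sum_eq_add_of_mem a b ha hb hab fun c hc' hne => ?_
  rw [nondiag (q k d) (K.erase c) (R d) (R_nodup d)
    (by rw [card_erase_of_mem hc', R_length, hc]) a b (mem_erase.2 ⟨hne.1.symm, ha⟩)
    (mem_erase.2 ⟨hne.2.symm, hb⟩) hab (κ d a) (κ_mem d a hd (hK a ha)) (off d a hd (hK a ha))
    (by rw [h]; exact off d b hd (hK b hb)), mul_zero]

lemma good_q (d j : ℕ) (hd : 3 ≤ d) (hj : Good d j) : q k d (j + 0) = 0 ∧ q k d (j + d) = 0 := by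
  obtain ⟨h1, h2, h3⟩ := hj
  exact ⟨q0 d _ (by omega) (by omega) (by omega), q0 d _ (by omega) (by omega) (by omega)⟩

/-- the derivative: one of the columns `1`, `1 + d` -/
lemma pdK (d : ℕ) (hd : 3 ≤ d) (y : ℕ → k) (K : Finset ℕ) (hK : ∀ j ∈ K, Good d j) (j1 : ℕ)
    (h1 : j1 = 1 ∨ j1 = 1 + d) (L : List ℕ) :
    pd (q k d) y (insert j1 K) (0 :: d :: L) =
      ∑ j ∈ K, (q k d j1 * y (j + d) + q k d (j1 + d) * y j) * pm (q k d) (K.erase j) L := by
  have hj1 : j1 ∉ K := by
    intro h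
    obtain ⟨-, h2, h3⟩ := hK j1 h
    omega
  have e1 : pm (q k d) K (d :: L) = 0 := by
    rw [pm_cons]
    exact sum_eq_zero fun i hi => by rw [(good_q d i hd (hK i hi)).2, zero_mul]
  have e2 : pd (q k d) y K (d :: L) = ∑ i ∈ K, y (i + d) * pm (q k d) (K.erase i) L := by
    rw [pd_cons]
    exact sum_congr rfl fun i hi => by rw [(good_q d i hd (hK i hi)).2, zero_mul, add_zero]
  have e3 : ∀ j ∈ K, pm (q k d) ((insert j1 K).erase j) (d :: L) =
      q k d (j1 + d) * pm (q k d) (K.erase j) L := by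
    intro j hj
    have hne : j1 ≠ j := fun h => hj1 (h ▸ hj)
    have hn : j1 ∉ K.erase j := fun h => hj1 (mem_of_mem_erase h)
    rw [erase_insert_of_ne hne, pm_cons, sum_insert hn, erase_insert hn,
      sum_eq_zero, add_zero]
    intro i hi
    rw [(good_q d i hd (hK i (mem_of_mem_erase hi))).2, zero_mul]
  rw [pd_cons, sum_insert hj1, erase_insert hj1, e1, e2, mul_zero, zero_add, mul_sum,
    add_zero, ← sum_add_distrib]
  refine sum_congr rfl fun j hj => ?_
  rw [e3 j hj, (good_q d j hd (hK j hj)).1, zero_mul, add_zero, add_zero]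
  ring

/-- the second derivative: one of the columns `1`, `1 + d` -/
lemma p2K (d : ℕ) (hd : 3 ≤ d) (y : ℕ → k) (K : Finset ℕ) (hK : ∀ j ∈ K, Good d j) (j1 : ℕ)
    (h1 : j1 = 1 ∨ j1 = 1 + d) (L : List ℕ) (hL : L.length + 1 = K.card) (hy : y j1 = 0)
    (hy' : y (j1 + d) = 0) (hz : ∀ c ∈ L, q k d (j1 + c) = 0) :
    p2 (q k d) y (insert j1 K) (0 :: d :: L) =
      ∑ j ∈ K, (q k d j1 * y (j + d) + q k d (j1 + d) * y j) * pd (q k d) y (K.erase j) L := by
  have hj1 : j1 ∉ K := by
    intro h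
    obtain ⟨-, h2, h3⟩ := hK j1 h
    omega
  have e2 : p2 (q k d) y K (d :: L) = ∑ i ∈ K, y (i + d) * pd (q k d) y (K.erase i) L := by
    rw [p2_cons]
    exact sum_congr rfl fun i hi => by rw [(good_q d i hd (hK i hi)).2, zero_mul, add_zero]
  have e3 : ∀ j ∈ K, pd (q k d) y ((insert j1 K).erase j) (d :: L) =
      q k d (j1 + d) * pd (q k d) y (K.erase j) L := by
    intro j hj
    have hne : j1 ≠ j := fun h => hj1 (h ▸ hj)
    have hn : j1 ∉ K.erase j := fun h => hj1 (mem_of_mem_erase h)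
    rw [erase_insert_of_ne hne, pd_cons, sum_insert hn, erase_insert hn, hy', zero_mul, zero_add,
      sum_eq_zero, add_zero]
    intro i hi
    have hij := mem_of_mem_erase hi
    have hne' : j1 ≠ i := fun h => hj1 (h ▸ hij)
    have hn' : j1 ∉ (K.erase j).erase i := fun h => hn (mem_of_mem_erase h)
    rw [(good_q d i hd (hK i hij)).2, zero_mul, add_zero, erase_insert_of_ne hne',
      zc (q k d) _ L ?_ j1 (mem_insert_self _ _) hz, mul_zero]
    rw [card_insert_of_notMem hn', card_erase_of_mem hi, card_erase_of_mem hj]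
    have : 0 < (K.erase j).card := card_pos.2 ⟨i, hi⟩
    rw [card_erase_of_mem hj] at this
    omega
  rw [p2_cons, sum_insert hj1, erase_insert hj1, e2, add_zero, hy, zero_mul, zero_add, mul_sum,
    ← sum_add_distrib]
  refine sum_congr rfl fun j hj => ?_
  rw [e3 j hj, (good_q d j hd (hK j hj)).1, zero_mul, add_zero, add_zero]
  ring

lemma sub_K (d : ℕ) (hd : 3 ≤ d) (K : Finset ℕ) (hK : ∀ j ∈ K, Good d j) (hc : K.card = d)
    (j1 : ℕ) (h1 : j1 = 1 ∨ j1 = 1 + d) :
    Sub (2 * d) (d + 1) (d + 1) (insert j1 K) (0 :: d :: R d) := by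
  have hj1 : j1 ∉ K := by
    intro h
    obtain ⟨-, h2, h3⟩ := hK j1 h
    omega
  refine ⟨by rw [card_insert_of_notMem hj1, hc], ?_, ?_, ?_, ?_⟩
  · rw [List.length_cons, List.length_cons, R_length]; omega
  · rw [List.nodup_cons, List.nodup_cons]
    refine ⟨?_, ?_, R_nodup d⟩
    · rw [List.mem_cons, mem_R d _ hd]; omega
    · rw [mem_R d _ hd]; omega
  · intro j hj
    rcases mem_insert.1 hj with h | h
    · omega
    · exact (hK j h).1
  · intro c hc'
    rw [List.mem_cons, List.mem_cons, mem_R d _ hd] at hc'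
    omega

lemma relA (d : ℕ) (hd : 3 ≤ d) (h2 : (2 : k) ≠ 0) (y : ℕ → k)
    (hy : ∀ J L, Sub (2 * d) (d + 1) (d + 1) J L → pd (q k d) y J L = 0) (K : Finset ℕ)
    (hK : ∀ j ∈ K, Good d j) (hc : K.card = d) (a b : ℕ) (ha : a ∈ K) (hb : b ∈ K) (hab : a ≠ b)
    (h : κ d a = κ d b) :
    y a * pm (q k d) (K.erase a) (R d) + y b * pm (q k d) (K.erase b) (R d) = 0 ∧
    y (a + d) * pm (q k d) (K.erase a) (R d) + y (b + d) * pm (q k d) (K.erase b) (R d) = 0 := by
  have e1 := hy _ _ (sub_K d hd K hK hc 1 (Or.inl rfl))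
  have e2 := hy _ _ (sub_K d hd K hK hc (1 + d) (Or.inr rfl))
  rw [pdK d hd y K hK 1 (Or.inl rfl), sumK d hd K hK hc a b ha hb hab h
    (fun j => q k d 1 * y (j + d) + q k d (1 + d) * y j), q1 d 1 (Or.inl rfl),
    q1 d (1 + d) (Or.inr rfl)] at e1
  rw [pdK d hd y K hK (1 + d) (Or.inr rfl), sumK d hd K hK hc a b ha hb hab h
    (fun j => q k d (1 + d) * y (j + d) + q k d (1 + d + d) * y j),
    q1 d (1 + d) (Or.inr rfl), q3 d (1 + d + d) (by omega) (by omega)] at e2
  constructor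
  · apply (mul_eq_zero.1 _).resolve_left h2
    linear_combination e1 - e2
  · apply (mul_eq_zero.1 _).resolve_left h2
    linear_combination e1 + e2

/-- the first transversal -/
def T (d : ℕ) : Finset ℕ := (range d).erase 1

lemma mem_T (d j : ℕ) : j ∈ T d ↔ j ≠ 1 ∧ j < d := by
  unfold T; rw [mem_erase, mem_range]

lemma T_card (d : ℕ) (hd : 3 ≤ d) : (T d).card = d - 1 := by
  unfold T; rw [card_erase_of_mem (mem_range.2 (by omega)), card_range]

lemma T_good (d : ℕ) : ∀ j ∈ T d, Good d j := by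
  intro j hj
  rw [mem_T] at hj
  refine ⟨?_, ?_, ?_⟩ <;> omega

lemma KT (d : ℕ) (hd : 3 ≤ d) (a : ℕ) (ha : a ∈ T d) :
    (∀ j ∈ insert (a + d) (T d), Good d j) ∧ (insert (a + d) (T d)).card = d ∧
    a ≠ a + d ∧ κ d a = κ d (a + d) ∧
    pm (q k d) ((insert (a + d) (T d)).erase (a + d)) (R d) = 1 ∧
    pm (q k d) ((insert (a + d) (T d)).erase a) (R d) = if a = 0 then 1 else -1 := by
  have hn : a + d ∉ T d := by rw [mem_T]; omega
  have ha' := (mem_T d a).1 ha
  have hg : ∀ j ∈ insert (a + d) (T d), Good d j := by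
    intro j hj
    rcases mem_insert.1 hj with h | h
    · subst h
      refine ⟨?_, ?_, ?_⟩ <;> omega
    · exact T_good d j h
  have hcard : (insert (a + d) (T d)).card = d := by
    rw [card_insert_of_notMem hn, T_card d hd]; omega
  refine ⟨hg, hcard, by omega, ?_, ?_, ?_⟩
  · unfold κ
    split_ifs <;> omega
  · rw [erase_insert hn, val d hd (T d) (T_good d) (T_card d hd)]
    · exact prod_eq_one fun j hj => by rw [mem_T] at hj; rw [if_neg (by omega)]
    · intro i hi j hj h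
      rw [mem_T] at hi hj
      unfold κ at h
      split_ifs at h <;> omega
  · rw [val d hd]
    · by_cases h0 : a = 0
      · subst h0
        rw [if_pos rfl]
        refine prod_eq_one fun j hj => ?_
        rw [mem_erase, mem_insert, mem_T] at hj
        rw [if_neg (by omega)]
      · rw [if_neg h0, prod_eq_single (a + d), if_pos (by omega)]
        · intro j hj hne
          rw [mem_erase, mem_insert, mem_T] at hj
          rw [if_neg (by omega)]
        · intro h
          exact absurd (mem_erase.2 ⟨by omega, mem_insert_self _ _⟩) h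
    · intro j hj
      exact hg j (mem_of_mem_erase hj)
    · rw [card_erase_of_mem (mem_insert_of_mem ha), hcard]
    · intro i hi j hj h
      rw [mem_erase, mem_insert, mem_T] at hi hj
      unfold κ at h
      split_ifs at h <;> omega

lemma relB (d : ℕ) (hd : 3 ≤ d) (h2 : (2 : k) ≠ 0) (y : ℕ → k)
    (hy : ∀ J L, Sub (2 * d) (d + 1) (d + 1) J L → pd (q k d) y J L = 0) :
    y d = - y 0 ∧ y (2 * d) = - y d ∧ ∀ a, 2 ≤ a → a < d → y (a + d) = y a ∧ y (a + 2 * d) = y (a + d) := by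
  have key : ∀ a ∈ T d, y a * (if a = 0 then 1 else -1) + y (a + d) = 0 ∧
      y (a + d) * (if a = 0 then 1 else -1) + y (a + 2 * d) = 0 := by
    intro a ha
    obtain ⟨k1, k2, k3, k4, k5, k6⟩ := KT (k := k) d hd a ha
    obtain ⟨e1, e2⟩ := relA d hd h2 y hy _ k1 k2 a (a + d) (mem_insert_of_mem ha)
      (mem_insert_self _ _) k3 k4
    rw [k5, k6] at e1 e2
    refine ⟨by linear_combination e1, ?_⟩
    rw [show a + 2 * d = a + d + d by ring]
    linear_combination e2
  refine ⟨?_, ?_, ?_⟩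
  · have := (key 0 ((mem_T d 0).2 ⟨by omega, by omega⟩)).1
    rw [if_pos rfl, zero_add] at this
    linear_combination this
  · have := (key 0 ((mem_T d 0).2 ⟨by omega, by omega⟩)).2
    rw [if_pos rfl, zero_add, zero_add] at this
    linear_combination this
  · intro a ha ha'
    obtain ⟨h3, h4⟩ := key a ((mem_T d a).2 ⟨by omega, by omega⟩)
    rw [if_neg (by omega)] at h3 h4
    constructor
    · linear_combination h3
    · linear_combination h4

lemma two (x y : ℕ → k) (a b c c' : ℕ) (hab : a ≠ b) :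
    pm x {a, b} [c, c'] = x (a + c) * x (b + c') + x (b + c) * x (a + c') ∧
    pd x y {a, b} [c, c'] = y (a + c) * x (b + c') + x (a + c) * y (b + c') +
      (y (b + c) * x (a + c') + x (b + c) * y (a + c')) := by
  have h1 : ({a, b} : Finset ℕ).erase a = {b} := by
    ext i; simp only [mem_erase, mem_insert, mem_singleton]; omega
  have h2 : ({a, b} : Finset ℕ).erase b = {a} := by
    ext i; simp only [mem_erase, mem_insert, mem_singleton]; omega
  have h3 : ∀ i j : ℕ, pm x {i} [j] = x (i + j) := by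
    intro i j
    rw [pm_cons, sum_singleton, pm_nil, mul_one]
  have h4 : ∀ i j : ℕ, pd x y {i} [j] = y (i + j) := by
    intro i j
    rw [pd_cons, sum_singleton, pm_nil, mul_one, show pd x y (({i} : Finset ℕ).erase i) [] = 0 by rw [pd],
      mul_zero, add_zero]
  constructor
  · rw [pm_cons, sum_pair hab, h1, h2, h3, h3]
  · rw [pd_cons, sum_pair hab, h1, h2, h3, h3, h4, h4]

lemma col1 (d : ℕ) (hd : 3 ≤ d) (j1 : ℕ) (h1 : j1 = 1 ∨ j1 = 1 + d) :
    ∀ c ∈ R d, q k d (j1 + c) = 0 := by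
  intro c hc
  rw [mem_R d _ hd] at hc
  exact q0 d _ (by omega) (by omega) (by omega)

lemma relC (d : ℕ) (hd : 3 ≤ d) (y : ℕ → k)
    (hy : ∀ J L, Sub (2 * d) (d + 1) (d + 1) J L → pd (q k d) y J L = 0) :
    y (1 + 2 * d) = y 1 - 2 * y (1 + d) := by
  set J : Finset ℕ := insert 1 (insert (1 + d) (T d)) with hJ
  have hn1 : 1 + d ∉ T d := by rw [mem_T]; omega
  have hn2 : 1 ∉ insert (1 + d) (T d) := by rw [mem_insert, mem_T]; omega
  have hcard : J.card = d + 1 := by
    rw [hJ, card_insert_of_notMem hn2, card_insert_of_notMem hn1, T_card d hd]; omega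
  have hmem : ∀ j, j ∈ J ↔ j < d ∨ j = 1 + d := by
    intro j
    rw [hJ, mem_insert, mem_insert, mem_T]
    omega
  have hS : Sub (2 * d) (d + 1) (d + 1) J (0 :: d :: R d) := by
    refine ⟨hcard, ?_, ?_, ?_, ?_⟩
    · rw [List.length_cons, List.length_cons, R_length]; omega
    · rw [List.nodup_cons, List.nodup_cons]
      refine ⟨?_, ?_, R_nodup d⟩
      · rw [List.mem_cons, mem_R d _ hd]; omega
      · rw [mem_R d _ hd]; omega
    · intro j hj
      rw [hmem] at hj; omega
    · intro c hc'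
      rw [List.mem_cons, List.mem_cons, mem_R d _ hd] at hc'
      omega
  have h := hy _ _ hS
  rw [show (0 :: d :: R d) = [0, d] ++ R d from rfl, (LE.le k).2.1] at h
  have hpm : ∀ a b : ℕ, a ∈ J → b ∈ J → a ≠ b → ¬ (a = 1 ∧ b = 1 + d) → ¬ (a = 1 + d ∧ b = 1) →
      pm (q k d) {a, b} [0, d] = 0 := by
    intro a b ha hb hab h1 h2
    rw [hmem] at ha hb
    rw [(two (q k d) y a b 0 d hab).1]
    by_cases ha1 : a = 1 ∨ a = 1 + d
    · rw [q0 d (b + 0) (by omega) (by omega) (by omega), q0 d (b + d) (by omega) (by omega) (by omega)]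
      ring
    · rw [q0 d (a + 0) (by omega) (by omega) (by omega), q0 d (a + d) (by omega) (by omega) (by omega)]
      ring
  have h11 : (1 : ℕ) ≠ 1 + d := by omega
  rw [sum_eq_single {1, 1 + d}] at h
  · rw [(two (q k d) y 1 (1 + d) 0 d h11).1, (two (q k d) y 1 (1 + d) 0 d h11).2] at h
    have hT : J \ {1, 1 + d} = T d := by
      ext j
      rw [mem_sdiff, hmem, mem_insert, mem_singleton, mem_T]
      omega
    rw [hT, val d hd (T d) (T_good d) (T_card d hd), prod_eq_one, q1 d (1 + 0) (Or.inl rfl),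
      q3 d (1 + d + d) (by omega) (by omega), q1 d (1 + d + 0) (Or.inr rfl),
      q1 d (1 + d) (Or.inr rfl)] at h
    · rw [show 1 + 2 * d = 1 + d + d by ring]
      simp only [add_zero] at h
      linear_combination h
    · intro j hj
      rw [mem_T] at hj
      rw [if_neg (by omega)]
    · intro i hi j hj h
      rw [mem_T] at hi hj
      unfold κ at h
      split_ifs at h <;> omega
  · intro J₁ hJ₁ hne
    rw [mem_powersetCard] at hJ₁
    obtain ⟨hs, hc⟩ := hJ₁
    obtain ⟨a, b, hab, rfl⟩ := card_eq_two.1 (by simpa using hc)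
    have ha : a ∈ J := hs (mem_insert_self _ _)
    have hb : b ∈ J := hs (mem_insert_of_mem (mem_singleton_self _))
    have g1 : ¬ (a = 1 ∧ b = 1 + d) := by
      rintro ⟨rfl, rfl⟩; exact hne rfl
    have g2 : ¬ (a = 1 + d ∧ b = 1) := by
      rintro ⟨rfl, rfl⟩; exact hne (Finset.pair_comm _ _)
    rw [hpm a b ha hb hab g1 g2, zero_mul, add_zero]
    have hex : ∃ j1, (j1 = 1 ∨ j1 = 1 + d) ∧ j1 ≠ a ∧ j1 ≠ b := by
      by_cases h5 : 1 ≠ a ∧ 1 ≠ b
      · exact ⟨1, Or.inl rfl, h5⟩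
      · refine ⟨1 + d, Or.inr rfl, ?_⟩
        omega
    obtain ⟨j1, h6, h7, h8⟩ := hex
    rw [zc (q k d) (J \ {a, b}) (R d) ?_ j1 ?_ (col1 d hd j1 h6), mul_zero]
    · rw [card_sdiff_of_subset hs, hcard, R_length, card_pair hab]; omega
    · rw [mem_sdiff, hmem, mem_insert, mem_singleton]; omega
  · intro h
    refine absurd (mem_powersetCard.2 ⟨?_, ?_⟩) h
    · intro j hj
      rw [mem_insert, mem_singleton] at hj
      rw [hmem]; omega
    · rw [card_pair h11]; rfl

lemma perm_L (d : ℕ) (hd : 3 ≤ d) (L : List ℕ) (h1 : L.length = d + 1) (h2 : L.Nodup)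
    (h3 : ∀ c ∈ L, c < d + 1) : L.Perm (0 :: d :: R d) := by
  rw [List.perm_ext_iff_of_nodup h2]
  · have h4 : L.toFinset = range (d + 1) := by
      refine Finset.eq_of_subset_of_card_le ?_ ?_
      · intro c hc
        exact mem_range.2 (h3 c (List.mem_toFinset.1 hc))
      · rw [List.toFinset_card_of_nodup h2, card_range, h1]
    intro c
    rw [← List.mem_toFinset, h4, mem_range, List.mem_cons, List.mem_cons, mem_R d _ hd]
    omega
  · rw [List.nodup_cons, List.nodup_cons]
    refine ⟨?_, ?_, R_nodup d⟩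
    · rw [List.mem_cons, mem_R d _ hd]; omega
    · rw [mem_R d _ hd]; omega

/-- membership -/
lemma memb (d : ℕ) (hd : 3 ≤ d) (J : Finset ℕ) (L : List ℕ)
    (h : Sub (2 * d) (d + 1) (d + 1) J L) : pm (q k d) J L = 0 := by
  obtain ⟨h1, h2, h3, h4, h5⟩ := h
  rw [(Pool.Agent.N729.HP.BA.ta k).1 _ _ _ (perm_L d hd L h2 h3 h5),
    show (0 :: d :: R d) = [0, d] ++ R d from rfl, (LE.le k).1]
  refine sum_eq_zero fun J₁ hJ₁ => ?_
  rw [mem_powersetCard] at hJ₁
  obtain ⟨hs, hc⟩ := hJ₁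
  obtain ⟨a, b, hab, rfl⟩ := card_eq_two.1 (by simpa using hc)
  have ha : a < 2 * d := h4 a (hs (mem_insert_self _ _))
  have hb : b < 2 * d := h4 b (hs (mem_insert_of_mem (mem_singleton_self _)))
  rw [(two (q k d) (fun _ => 0) a b 0 d hab).1]
  have h6 : q k d (a + 0) * q k d (b + d) + q k d (b + 0) * q k d (a + d) = 0 := by
    by_cases ha1 : a = 1 ∨ a = 1 + d
    · by_cases hb1 : b = 1 ∨ b = 1 + d
      · rcases ha1 with rfl | rfl
        · have hb2 : b = 1 + d := by omega
          subst hb2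
          rw [q1 d (1 + 0) (Or.inl rfl), q3 d (1 + d + d) (by omega) (by omega),
            q1 d (1 + d + 0) (Or.inr rfl), q1 d (1 + d) (Or.inr rfl)]
          ring
        · have hb2 : b = 1 := by omega
          subst hb2
          rw [q1 d (1 + 0) (Or.inl rfl), q3 d (1 + d + d) (by omega) (by omega),
            q1 d (1 + d + 0) (Or.inr rfl), q1 d (1 + d) (Or.inr rfl)]
          ring
      · rw [q0 d (b + 0) (by omega) (by omega) (by omega),
          q0 d (b + d) (by omega) (by omega) (by omega)]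
        ring
    · rw [q0 d (a + 0) (by omega) (by omega) (by omega), q0 d (a + d) (by omega) (by omega) (by omega)]
      ring
  rw [h6, zero_mul]

/-- the set of the columns for the second order -/
def M (d : ℕ) : Finset ℕ := insert (2 * d - 1) (Icc 2 (d - 1))

lemma mem_M (d j : ℕ) : j ∈ M d ↔ j = 2 * d - 1 ∨ (2 ≤ j ∧ j ≤ d - 1) := by
  unfold M; rw [mem_insert, mem_Icc]

lemma M_card (d : ℕ) (hd : 3 ≤ d) : (M d).card = d - 1 := by
  unfold M
  rw [card_insert_of_notMem (by rw [mem_Icc]; omega), Nat.card_Icc]; omega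

lemma KP (d : ℕ) (hd : 3 ≤ d) (π : ℕ) (hπ : π = 0 ∨ π = d) :
    (∀ j ∈ insert π (M d), Good d j) ∧ (insert π (M d)).card = d ∧ π ∉ M d ∧
    pm (q k d) ((insert π (M d)).erase (2 * d - 1)) (R d) = 1 ∧
    pm (q k d) ((insert π (M d)).erase (d - 1)) (R d) = -1 := by
  have hn : π ∉ M d := by rw [mem_M]; omega
  have hg : ∀ j ∈ insert π (M d), Good d j := by
    intro j hj
    rw [mem_insert, mem_M] at hj
    refine ⟨?_, ?_, ?_⟩ <;> omega
  have hcard : (insert π (M d)).card = d := by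
    rw [card_insert_of_notMem hn, M_card d hd]; omega
  refine ⟨hg, hcard, hn, ?_, ?_⟩
  · rw [val d hd]
    · refine prod_eq_one fun j hj => ?_
      rw [mem_erase, mem_insert, mem_M] at hj
      rw [if_neg (by omega)]
    · intro j hj
      exact hg j (mem_of_mem_erase hj)
    · rw [card_erase_of_mem (by rw [mem_insert, mem_M]; omega), hcard]
    · intro i hi j hj h
      rw [mem_erase, mem_insert, mem_M] at hi hj
      unfold κ at h
      split_ifs at h <;> omega
  · rw [val d hd]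
    · rw [prod_eq_single (2 * d - 1), if_pos (by omega)]
      · intro j hj hne
        rw [mem_erase, mem_insert, mem_M] at hj
        rw [if_neg (by omega)]
      · intro h
        refine absurd ?_ h
        rw [mem_erase, mem_insert, mem_M]; omega
    · intro j hj
      exact hg j (mem_of_mem_erase hj)
    · rw [card_erase_of_mem (by rw [mem_insert, mem_M]; omega), hcard]
    · intro i hi j hj h
      rw [mem_erase, mem_insert, mem_M] at hi hj
      unfold κ at h
      split_ifs at h <;> omega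

/-- the gradient -/
lemma grad (d : ℕ) (hd : 3 ≤ d) (π : ℕ) (hπ : π = 0 ∨ π = d) (y : ℕ → k) :
    pd (q k d) y (insert (1 + d) (insert π (M d))) (0 :: d :: R d) =
      y (2 * d - 1 + d) - 2 * y (2 * d - 1) + y (d - 1) := by
  obtain ⟨k1, k2, k3, k4, k5⟩ := KP (k := k) d hd π hπ
  rw [pdK d hd y _ k1 (1 + d) (Or.inr rfl), sumK d hd _ k1 k2 (d - 1) (2 * d - 1)
    (by rw [mem_insert, mem_M]; omega) (by rw [mem_insert, mem_M]; omega) (by omega)
    (by unfold κ; split_ifs <;> omega)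
    (fun j => q k d (1 + d) * y (j + d) + q k d (1 + d + d) * y j), k4, k5,
    q1 d (1 + d) (Or.inr rfl), q3 d (1 + d + d) (by omega) (by omega),
    show d - 1 + d = 2 * d - 1 by omega]
  ring

lemma val' (d : ℕ) (hd : 3 ≤ d) (A : Finset ℕ) (hA : ∀ j ∈ A, j ∈ M d) (hc : A.card = d - 2)
    (hinj : ∀ a ∈ A, ∀ b ∈ A, κ d a = κ d b → a = b) :
    pm (q k d) A (List.range' 2 (d - 2)) = ∏ j ∈ A, (if d + 2 ≤ j then (-1 : k) else 1) := by
  have hg : ∀ j ∈ A, Good d j := by
    intro j hj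
    have := (mem_M d j).1 (hA j hj)
    refine ⟨?_, ?_, ?_⟩ <;> omega
  rw [diag (q k d) (κ d) _ A (List.range' 2 (d - 2)) rfl List.nodup_range'
    (by rw [List.length_range', hc]) (fun j hj => ?_) (fun j hj c hc' hne => ?_) hinj]
  · exact prod_congr rfl fun j hj => on d j hd (hg j hj)
  · have := (mem_M d j).1 (hA j hj)
    rw [List.mem_range'_1]
    unfold κ
    split_ifs <;> omega
  · rw [List.mem_range'_1] at hc'
    exact off d j hd (hg j hj) c ((mem_R d c hd).2 (by omega)) hne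

lemma pdM (d : ℕ) (hd : 3 ≤ d) (y : ℕ → k) (hyd : y d = -1) (hy2 : y (2 * d) = 1)
    (hyz : ∀ v < 3 * d, v ≠ 0 → v ≠ d → v ≠ 2 * d → y v = 0) :
    pd (q k d) y (M d) (R d) = 2 := by
  have hR : R d = 1 :: List.range' 2 (d - 2) := by
    unfold R
    rw [show d - 1 = d - 2 + 1 by omega, List.range'_succ]
  rw [hR, pd_cons]
  have hm1 : d - 1 ∈ M d := by rw [mem_M]; omega
  have hm2 : 2 * d - 1 ∈ M d := by rw [mem_M]; omega
  have e1 : ∀ j ∈ M d, y (j + 1) * pm (q k d) ((M d).erase j) (List.range' 2 (d - 2)) +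
      q k d (j + 1) * pd (q k d) y ((M d).erase j) (List.range' 2 (d - 2)) =
      y (j + 1) * pm (q k d) ((M d).erase j) (List.range' 2 (d - 2)) := by
    intro j hj
    rw [mem_M] at hj
    rw [q0 d (j + 1) (by omega) (by omega) (by omega), zero_mul, add_zero]
  rw [sum_congr rfl e1, Finset.sum_eq_add_of_mem (d - 1) (2 * d - 1) hm1 hm2 (by omega)]
  · rw [show d - 1 + 1 = d by omega, show 2 * d - 1 + 1 = 2 * d by omega, hyd, hy2,
      val' d hd, val' d hd, prod_eq_single (2 * d - 1), if_pos (by omega), prod_eq_one]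
    · ring
    · intro j hj
      rw [mem_erase, mem_M] at hj
      rw [if_neg (by omega)]
    · intro j hj hne
      rw [mem_erase, mem_M] at hj
      rw [if_neg (by omega)]
    · intro h
      refine absurd ?_ h
      rw [mem_erase, mem_M]; omega
    · exact fun j hj => mem_of_mem_erase hj
    · rw [card_erase_of_mem hm2, M_card d hd]; omega
    · intro i hi j hj h
      rw [mem_erase, mem_M] at hi hj
      unfold κ at h
      split_ifs at h <;> omega
    · exact fun j hj => mem_of_mem_erase hj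
    · rw [card_erase_of_mem hm1, M_card d hd]; omega
    · intro i hi j hj h
      rw [mem_erase, mem_M] at hi hj
      unfold κ at h
      split_ifs at h <;> omega
  · intro j hj hne
    rw [mem_M] at hj
    rw [hyz (j + 1) (by omega) (by omega) (by omega) (by omega), zero_mul]

/-- the second order -/
lemma sec (d : ℕ) (hd : 3 ≤ d) (π : ℕ) (hπ : π = 0 ∨ π = d) (y : ℕ → k) (hyd : y d = -1)
    (hy2 : y (2 * d) = 1) (hyz : ∀ v < 3 * d, v ≠ 0 → v ≠ d → v ≠ 2 * d → y v = 0) :
    p2 (q k d) y (insert (1 + d) (insert π (M d))) (0 :: d :: R d) = (y (π + d) - y π) * 2 := by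
  obtain ⟨k1, k2, k3, k4, k5⟩ := KP (k := k) d hd π hπ
  rw [p2K d hd y _ k1 (1 + d) (Or.inr rfl) (R d) (by rw [R_length, k2]; omega)
    (hyz _ (by omega) (by omega) (by omega) (by omega))
    (hyz _ (by omega) (by omega) (by omega) (by omega)) (col1 d hd _ (Or.inr rfl)),
    sum_insert k3, erase_insert k3, pdM d hd y hyd hy2 hyz, sum_eq_zero, q1 d (1 + d) (Or.inr rfl),
    q3 d (1 + d + d) (by omega) (by omega)]
  · ring
  · intro j hj
    rw [mem_M] at hj
    rw [hyz j (by omega) (by omega) (by omega) (by omega),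
      hyz (j + d) (by omega) (by omega) (by omega) (by omega)]
    ring

end

theorem t (k : Type*) [Field k] (hJD : StmJD k) : StmT2 k := by
  intro h2 t n N h ht hn hP
  obtain ⟨d, hd⟩ : ∃ d, t = d + 1 := ⟨t - 1, by omega⟩
  subst hd
  have hd3 : 3 ≤ d := by omega
  obtain rfl : n = 2 * d := by omega
  obtain rfl : N = 3 * d := by omega
  have hrel : ∀ y : ℕ → k, (∀ J L, Sub (2 * d) (d + 1) (d + 1) J L → pd (q k d) y J L = 0) →
      y d = - y 0 ∧ y (2 * d) = - y d ∧
      (∀ a, 2 ≤ a → a < d → y (a + d) = y a ∧ y (a + 2 * d) = y (a + d)) ∧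
      y (1 + 2 * d) = y 1 - 2 * y (1 + d) := by
    intro y hy
    obtain ⟨r1, r2, r3⟩ := relB d hd3 h2 y hy
    exact ⟨r1, r2, r3, relC d hd3 y hy⟩
  obtain ⟨y, hy0, hyS, hyr, hfin⟩ := hJD h2 (3 * d) (2 * d) (d + 1) (d + 1) h (by omega) (by omega)
    le_rfl (q k d) (fun J L hJL => memb d hd3 J L hJL) (insert (1 + d) (range d))
    (by rw [card_insert_of_notMem (by rw [mem_range]; omega), card_range]) (by
      intro y hyS hyr v hv
      obtain ⟨r1, r2, r3, r4⟩ := hrel y hyr
      have s0 : ∀ a < d, y a = 0 := fun a ha => hyS a (mem_insert_of_mem (mem_range.2 ha))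
      have s1 : y (1 + d) = 0 := hyS _ (mem_insert_self _ _)
      have s2 : ∀ a < d, y (a + d) = 0 := by
        intro a ha
        by_cases a0 : a = 0
        · subst a0
          rw [zero_add, r1, s0 0 ha, neg_zero]
        · by_cases a1 : a = 1
          · subst a1; exact s1
          · rw [(r3 a (by omega) ha).1, s0 a ha]
      have s3 : ∀ a < d, y (a + 2 * d) = 0 := by
        intro a ha
        by_cases a0 : a = 0
        · subst a0
          have := s2 0 ha
          rw [zero_add] at this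
          rw [zero_add, r2, this, neg_zero]
        · by_cases a1 : a = 1
          · subst a1
            rw [r4, s1, s0 1 ha]; ring
          · rw [(r3 a (by omega) ha).2, s2 a ha]
      by_cases v1 : v < d
      · exact s0 v v1
      · by_cases v2 : v < 2 * d
        · have := s2 (v - d) (by omega)
          rwa [show v - d + d = v by omega] at this
        · have := s3 (v - 2 * d) (by omega)
          rwa [show v - 2 * d + 2 * d = v by omega] at this) hP 0
    (mem_insert_of_mem (mem_range.2 (by omega))) (by omega)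
  obtain ⟨r1, r2, r3, r4⟩ := hrel y hyr
  have s0 : ∀ a < d, a ≠ 0 → y a = 0 := fun a ha hne =>
    hyS a (mem_insert_of_mem (mem_range.2 ha)) hne
  have s1 : y (1 + d) = 0 := hyS _ (mem_insert_self _ _) (by omega)
  have hyd : y d = -1 := by rw [r1, hy0]
  have hy2 : y (2 * d) = 1 := by rw [r2, hyd]; ring
  have s2 : ∀ a < d, a ≠ 0 → y (a + d) = 0 := by
    intro a ha a0
    by_cases a1 : a = 1
    · subst a1; exact s1
    · rw [(r3 a (by omega) ha).1, s0 a ha a0]
  have s3 : ∀ a < d, a ≠ 0 → y (a + 2 * d) = 0 := by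
    intro a ha a0
    by_cases a1 : a = 1
    · subst a1
      rw [r4, s1, s0 1 ha (by omega)]; ring
    · rw [(r3 a (by omega) ha).2, s2 a ha a0]
  have hyz : ∀ v < 3 * d, v ≠ 0 → v ≠ d → v ≠ 2 * d → y v = 0 := by
    intro v hv v0 vd v2d
    by_cases v1 : v < d
    · exact s0 v v1 v0
    · by_cases v2 : v < 2 * d
      · have := s2 (v - d) (by omega) (by omega)
        rwa [show v - d + d = v by omega] at this
      · have := s3 (v - 2 * d) (by omega) (by omega)
        rwa [show v - 2 * d + 2 * d = v by omega] at this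
  obtain ⟨a1, a2, a3, -, -⟩ := KP (k := k) d hd3 0 (Or.inl rfl)
  obtain ⟨b1, b2, b3, -, -⟩ := KP (k := k) d hd3 d (Or.inr rfl)
  have hlast := hfin _ _ _ _ 1 (-1) (sub_K d hd3 _ a1 a2 (1 + d) (Or.inr rfl))
    (sub_K d hd3 _ b1 b2 (1 + d) (Or.inr rfl)) (by
      intro y'
      rw [grad d hd3 0 (Or.inl rfl) y', grad d hd3 d (Or.inr rfl) y']
      ring)
  rw [sec d hd3 0 (Or.inl rfl) y hyd hy2 hyz, sec d hd3 d (Or.inr rfl) y hyd hy2 hyz,
    zero_add, hy0, hyd, show d + d = 2 * d by ring, hy2] at hlast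
  have h8 : (2 : k) * (2 * 2) = 0 := by linear_combination -hlast
  rcases mul_eq_zero.1 h8 with h9 | h9
  · exact h2 h9
  · rcases mul_eq_zero.1 h9 with h10 | h10
    · exact h2 h10
    · exact h2 h10

end Pool.Agent.N633.HB.T2
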